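import Pool.Agent.Lib.MP_629a14_nt.Fourier

/-! The large sieve inequality for exponential sums at well spaced points. -/

set_option autoImplicit false

namespace Pool.Agent.Lib.MP_629a14_nt

open Finset

/-- `∑_{r} c_r exp(2 π i m t_r)` -/
noncomputable def lsF {ι : Type*} (R : Finset ι) (t : ι → ℝ) (c : ι → ℂ) (m : ℤ) : ℂ :=
  ∑ r ∈ R, c r * ee (m * t r)

/-- the Dirichlet kernel -/
noncomputable def lsD (M : ℕ) (u : ℝ) : ℂ := ∑ j ∈ range M, ee (j * u)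

theorem ls_window {ι : Type*} (R : Finset ι) (t : ι → ℝ) (c : ι → ℂ) {N M : ℕ} (hNM : N ≤ M) :
    (M : ℝ) * ∑ n ∈ Icc 1 N, ‖lsF R t c n‖ ^ 2 ≤
      ∑ k ∈ range (2 * M), ∑ j ∈ range (2 * M), ‖lsF R t c ((j : ℤ) - k)‖ ^ 2 := by
  have h1 : ∀ k ∈ range M, ∑ n ∈ Icc 1 N, ‖lsF R t c n‖ ^ 2 ≤
      ∑ j ∈ range (2 * M), ‖lsF R t c ((j : ℤ) - k)‖ ^ 2 := by
    intro k hk
    have hk' := mem_range.1 hk
    have h2 : ∑ n ∈ Icc 1 N, ‖lsF R t c n‖ ^ 2 =
        ∑ j ∈ (Icc 1 N).image (fun n => n + k), ‖lsF R t c ((j : ℤ) - k)‖ ^ 2 := by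
      rw [sum_image (fun a _ b _ h => by simpa using h)]
      refine sum_congr rfl fun n _ => ?_
      congr 3
      push_cast
      ring
    rw [h2]
    refine sum_le_sum_of_subset_of_nonneg ?_ (fun _ _ _ => by positivity)
    intro j hj
    obtain ⟨n, hn, rfl⟩ := mem_image.1 hj
    rw [mem_Icc] at hn
    rw [mem_range]
    omega
  calc (M : ℝ) * ∑ n ∈ Icc 1 N, ‖lsF R t c n‖ ^ 2
      = ∑ k ∈ range M, ∑ n ∈ Icc 1 N, ‖lsF R t c n‖ ^ 2 := by
        rw [sum_const, card_range, nsmul_eq_mul]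
    _ ≤ ∑ k ∈ range M, ∑ j ∈ range (2 * M), ‖lsF R t c ((j : ℤ) - k)‖ ^ 2 := sum_le_sum h1
    _ ≤ _ := sum_le_sum_of_subset_of_nonneg (range_subset_range.2 (by omega))
        (fun _ _ _ => sum_nonneg fun _ _ => by positivity)

theorem norm_lsD_neg (M : ℕ) (u : ℝ) : ‖lsD M (-u)‖ = ‖lsD M u‖ := by
  have : lsD M (-u) = (starRingEnd ℂ) (lsD M u) := by
    unfold lsD
    rw [map_sum]
    refine sum_congr rfl fun j _ => ?_
    rw [conj_ee]
    congr 1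
    ring
  rw [this, Complex.norm_conj]

theorem ls_expand {ι : Type*} (R : Finset ι) (t : ι → ℝ) (c : ι → ℂ) (M : ℕ) :
    ∑ k ∈ range M, ∑ j ∈ range M, ‖lsF R t c ((j : ℤ) - k)‖ ^ 2 ≤
      ∑ r ∈ R, ‖c r‖ ^ 2 * ∑ s ∈ R, ‖lsD M (t r - t s)‖ ^ 2 := by
  have h1 : ∀ k ∈ range M, ∀ j ∈ range M, ((‖lsF R t c ((j : ℤ) - k)‖ ^ 2 : ℝ) : ℂ) =
      ∑ r ∈ R, ∑ s ∈ R, c r * (starRingEnd ℂ) (c s) *
        (ee (j * (t r - t s)) * ee (-(k * (t r - t s)))) := by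
    intro k _ j _
    rw [Complex.ofReal_pow, ← Complex.mul_conj']
    unfold lsF
    rw [map_sum, sum_mul_sum]
    refine sum_congr rfl fun r _ => sum_congr rfl fun s _ => ?_
    rw [map_mul, conj_ee, ← ee_add]
    have : c r * ee ((((j : ℤ) - k : ℤ) : ℝ) * t r) * ((starRingEnd ℂ) (c s) *
        ee (-((((j : ℤ) - k : ℤ) : ℝ) * t s))) = c r * (starRingEnd ℂ) (c s) *
        (ee ((((j : ℤ) - k : ℤ) : ℝ) * t r) * ee (-((((j : ℤ) - k : ℤ) : ℝ) * t s))) := by ring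
    rw [this, ← ee_add]
    congr 2
    push_cast
    ring
  have h2 : ((∑ k ∈ range M, ∑ j ∈ range M, ‖lsF R t c ((j : ℤ) - k)‖ ^ 2 : ℝ) : ℂ) =
      ∑ r ∈ R, ∑ s ∈ R, c r * (starRingEnd ℂ) (c s) * ((‖lsD M (t r - t s)‖ ^ 2 : ℝ) : ℂ) := by
    rw [Complex.ofReal_sum]
    simp_rw [Complex.ofReal_sum]
    rw [sum_congr rfl (fun k hk => sum_congr rfl (h1 k hk))]
    have h3 : ∀ r ∈ R, ∀ s ∈ R, c r * (starRingEnd ℂ) (c s) *
        ((‖lsD M (t r - t s)‖ ^ 2 : ℝ) : ℂ) = ∑ k ∈ range M, ∑ j ∈ range M,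
          c r * (starRingEnd ℂ) (c s) * (ee (j * (t r - t s)) * ee (-(k * (t r - t s)))) := by
      intro r _ s _
      rw [Complex.ofReal_pow, ← Complex.mul_conj']
      unfold lsD
      rw [map_sum, sum_mul_sum, mul_sum, sum_comm]
      refine sum_congr rfl fun k _ => ?_
      rw [mul_sum]
      refine sum_congr rfl fun j _ => ?_
      rw [conj_ee]
    rw [sum_congr rfl (fun r hr => sum_congr rfl (h3 r hr))]
    calc _ = ∑ k ∈ range M, ∑ r ∈ R, ∑ j ∈ range M, ∑ s ∈ R,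
          c r * (starRingEnd ℂ) (c s) * (ee (j * (t r - t s)) * ee (-(k * (t r - t s)))) := by
          refine sum_congr rfl fun k _ => ?_
          rw [sum_comm]
      _ = ∑ k ∈ range M, ∑ r ∈ R, ∑ s ∈ R, ∑ j ∈ range M,
          c r * (starRingEnd ℂ) (c s) * (ee (j * (t r - t s)) * ee (-(k * (t r - t s)))) := by
          refine sum_congr rfl fun k _ => sum_congr rfl fun r _ => ?_
          rw [sum_comm]
      _ = ∑ r ∈ R, ∑ k ∈ range M, ∑ s ∈ R, ∑ j ∈ range M,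
          c r * (starRingEnd ℂ) (c s) * (ee (j * (t r - t s)) * ee (-(k * (t r - t s)))) := by
          rw [sum_comm]
      _ = _ := by
          refine sum_congr rfl fun r _ => ?_
          rw [sum_comm]
  have h4 : ∑ k ∈ range M, ∑ j ∈ range M, ‖lsF R t c ((j : ℤ) - k)‖ ^ 2 =
      ‖((∑ k ∈ range M, ∑ j ∈ range M, ‖lsF R t c ((j : ℤ) - k)‖ ^ 2 : ℝ) : ℂ)‖ := by
    rw [Complex.norm_real, Real.norm_of_nonneg]
    exact sum_nonneg fun _ _ => sum_nonneg fun _ _ => by positivity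
  rw [h4, h2]
  calc ‖∑ r ∈ R, ∑ s ∈ R, c r * (starRingEnd ℂ) (c s) * ((‖lsD M (t r - t s)‖ ^ 2 : ℝ) : ℂ)‖
      ≤ ∑ r ∈ R, ∑ s ∈ R, ‖c r‖ * ‖c s‖ * ‖lsD M (t r - t s)‖ ^ 2 := by
        refine (norm_sum_le _ _).trans (sum_le_sum fun r _ => ?_)
        refine (norm_sum_le _ _).trans (sum_le_sum fun s _ => ?_)
        rw [norm_mul, norm_mul, Complex.norm_conj, Complex.norm_real,
          Real.norm_of_nonneg (by positivity)]
    _ ≤ ∑ r ∈ R, ∑ s ∈ R, (‖c r‖ ^ 2 / 2 * ‖lsD M (t r - t s)‖ ^ 2 +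
          ‖c s‖ ^ 2 / 2 * ‖lsD M (t r - t s)‖ ^ 2) := by
        refine sum_le_sum fun r _ => sum_le_sum fun s _ => ?_
        rw [← add_mul]
        refine mul_le_mul_of_nonneg_right ?_ (by positivity)
        nlinarith [sq_nonneg (‖c r‖ - ‖c s‖)]
    _ = ∑ r ∈ R, ‖c r‖ ^ 2 * ∑ s ∈ R, ‖lsD M (t r - t s)‖ ^ 2 := by
        simp_rw [sum_add_distrib]
        have h5 : ∑ r ∈ R, ∑ s ∈ R, ‖c s‖ ^ 2 / 2 * ‖lsD M (t r - t s)‖ ^ 2 =
            ∑ r ∈ R, ∑ s ∈ R, ‖c r‖ ^ 2 / 2 * ‖lsD M (t r - t s)‖ ^ 2 := by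
          rw [sum_comm]
          refine sum_congr rfl fun r _ => sum_congr rfl fun s _ => ?_
          rw [← norm_lsD_neg, neg_sub]
        rw [h5, ← sum_add_distrib]
        refine sum_congr rfl fun r _ => ?_
        rw [← sum_add_distrib, mul_sum]
        refine sum_congr rfl fun s _ => ?_
        ring

theorem norm_lsD_le (M : ℕ) (u : ℝ) : ‖lsD M u‖ ≤ M := by
  unfold lsD
  refine (norm_sum_le _ _).trans ?_
  simp [norm_ee]

theorem norm_ee_sub_one (u : ℝ) : ‖ee u - 1‖ = 2 * |Real.sin (Real.pi * u)| := by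
  unfold ee
  have h := Complex.norm_exp_I_mul_ofReal_sub_one (2 * Real.pi * u)
  have e : Complex.I * ((2 * Real.pi * u : ℝ) : ℂ) = 2 * Real.pi * u * Complex.I := by
    push_cast
    ring
  rw [e] at h
  rw [h, norm_mul, Real.norm_eq_abs, Real.norm_eq_abs]
  congr 2
  · norm_num
  · congr 1
    ring

theorem sin_lower {v : ℝ} (h0 : 0 < v) (h1 : v < 1) :
    1 / Real.sin (Real.pi * v) ^ 2 ≤ (1 / 4) * (1 / v ^ 2 + 1 / (1 - v) ^ 2) := by
  have key : ∀ w : ℝ, 0 < w → w ≤ 1 / 2 → 1 / Real.sin (Real.pi * w) ^ 2 ≤ (1 / 4) * (1 / w ^ 2) := by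
    intro w hw hw2
    have h2 := Real.mul_le_sin (x := Real.pi * w) (by positivity) (by
      have := Real.pi_pos
      nlinarith)
    have h3 : 2 / Real.pi * (Real.pi * w) = 2 * w := by
      have := Real.pi_pos.ne'
      field_simp
    rw [h3] at h2
    have h4 : (2 * w) ^ 2 ≤ Real.sin (Real.pi * w) ^ 2 := pow_le_pow_left₀ (by positivity) h2 2
    calc 1 / Real.sin (Real.pi * w) ^ 2 ≤ 1 / (2 * w) ^ 2 :=
          one_div_le_one_div_of_le (by positivity) h4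
      _ = (1 / 4) * (1 / w ^ 2) := by
          field_simp
          norm_num
  have h1v : 0 < 1 - v := by linarith
  rcases le_or_gt v (1 / 2) with h | h
  · have := key v h0 h
    have h5 : 0 ≤ 1 / (1 - v) ^ 2 := by positivity
    linarith
  · have h6 := key (1 - v) h1v (by linarith)
    have h7 : Real.sin (Real.pi * (1 - v)) = Real.sin (Real.pi * v) := by
      have : Real.pi * (1 - v) = Real.pi - Real.pi * v := by ring
      rw [this, Real.sin_pi_sub]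
    rw [h7] at h6
    have h5 : 0 ≤ 1 / v ^ 2 := by positivity
    linarith

theorem ee_fract (u : ℝ) : ee u = ee (Int.fract u) := by
  have h := Int.floor_add_fract u
  conv_lhs => rw [← h]
  rw [ee_add, ee_int, one_mul]

theorem lsD_fract (M : ℕ) (u : ℝ) : lsD M u = lsD M (Int.fract u) := by
  unfold lsD
  refine sum_congr rfl fun j _ => ?_
  rw [ee_nat_mul, ee_nat_mul, ee_fract u]

theorem lsD_sq_le (M : ℕ) {u : ℝ} (h0 : 0 < Int.fract u) :
    ‖lsD M u‖ ^ 2 ≤ (1 / 4) * (1 / Int.fract u ^ 2 + 1 / (1 - Int.fract u) ^ 2) := by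
  rw [lsD_fract]
  set v := Int.fract u with hv
  have h1 : v < 1 := Int.fract_lt_one u
  refine le_trans ?_ (sin_lower h0 h1)
  have hs : 0 < Real.sin (Real.pi * v) := by
    apply Real.sin_pos_of_pos_of_lt_pi
    · have := Real.pi_pos
      positivity
    · have := Real.pi_pos
      nlinarith
  have hne : ee v - 1 ≠ 0 := by
    intro h
    have h2 := norm_ee_sub_one v
    rw [h, norm_zero, abs_of_pos hs] at h2
    linarith
  have h3 : lsD M v * (ee v - 1) = ee v ^ M - 1 := by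
    unfold lsD
    simp_rw [ee_nat_mul]
    exact geom_sum_mul _ _
  have h4 : ‖lsD M v‖ * (2 * Real.sin (Real.pi * v)) ≤ 2 := by
    have h5 : ‖lsD M v‖ * ‖ee v - 1‖ ≤ 2 := by
      rw [← norm_mul, h3]
      refine (norm_sub_le _ _).trans ?_
      rw [norm_pow, norm_ee, one_pow, norm_one]
      norm_num
    rwa [norm_ee_sub_one, abs_of_pos hs] at h5
  have h6 : ‖lsD M v‖ ≤ 1 / Real.sin (Real.pi * v) := by
    rw [le_div_iff₀ hs]
    linarith
  calc ‖lsD M v‖ ^ 2 ≤ (1 / Real.sin (Real.pi * v)) ^ 2 := pow_le_pow_left₀ (norm_nonneg _) h6 2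
    _ = 1 / Real.sin (Real.pi * v) ^ 2 := by rw [div_pow, one_pow]

theorem sum_inv_sq_le_two (S : Finset ℕ) (hS : ∀ k ∈ S, 1 ≤ k) :
    ∑ k ∈ S, 1 / (k : ℝ) ^ 2 ≤ 2 := by
  have h1 : ∀ n : ℕ, ∑ k ∈ Icc 1 (n + 1), 1 / (k : ℝ) ^ 2 ≤ 2 - 1 / ((n : ℝ) + 1) := by
    intro n
    induction n with
    | zero => norm_num
    | succ n ih =>
      rw [sum_Icc_succ_top (by omega)]
      have hn : (0 : ℝ) < n + 1 := by positivity
      have h2 : 1 / (((n + 1 + 1 : ℕ) : ℝ)) ^ 2 ≤ 1 / ((n : ℝ) + 1) - 1 / ((n : ℝ) + 1 + 1) := by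
        have e : 1 / ((n : ℝ) + 1) - 1 / ((n : ℝ) + 1 + 1) = 1 / (((n : ℝ) + 1) * (n + 1 + 1)) := by
          field_simp
          ring
        rw [e]
        push_cast
        apply one_div_le_one_div_of_le (by positivity)
        nlinarith
      push_cast at ih h2 ⊢
      linarith
  have hsub : S ⊆ Icc 1 (S.sup id + 1) := by
    intro k hk
    rw [mem_Icc]
    exact ⟨hS k hk, (le_sup (f := id) hk).trans (Nat.le_succ _)⟩
  calc ∑ k ∈ S, 1 / (k : ℝ) ^ 2 ≤ ∑ k ∈ Icc 1 (S.sup id + 1), 1 / (k : ℝ) ^ 2 :=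
        sum_le_sum_of_subset_of_nonneg hsub (fun _ _ _ => by positivity)
    _ ≤ 2 - 1 / (((S.sup id : ℕ) : ℝ) + 1) := h1 _
    _ ≤ 2 := by
        have : 0 < 1 / (((S.sup id : ℕ) : ℝ) + 1) := by positivity
        linarith

/-- points in `[δ, 1)` with pairwise distances at least `δ` -/
theorem sum_inv_sq_spaced {ι : Type*} (S : Finset ι) (v : ι → ℝ) {δ : ℝ} (hδ : 0 < δ)
    (h1 : ∀ s ∈ S, δ ≤ v s) (h2 : ∀ s ∈ S, ∀ s' ∈ S, s ≠ s' → δ ≤ |v s - v s'|) :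
    ∑ s ∈ S, 1 / v s ^ 2 ≤ 2 / δ ^ 2 := by
  have hinj : Set.InjOn (fun s => ⌊v s / δ⌋₊) S := by
    intro s hs s' hs' h
    by_contra hne
    have h3 := h2 s hs s' hs' hne
    have h4 : |v s / δ - v s' / δ| < 1 := by
      have a1 := Nat.floor_le (show 0 ≤ v s / δ from div_nonneg (hδ.le.trans (h1 s hs)) hδ.le)
      have a2 := Nat.lt_floor_add_one (v s / δ)
      have b1 := Nat.floor_le (show 0 ≤ v s' / δ from div_nonneg (hδ.le.trans (h1 s' hs')) hδ.le)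
      have b2 := Nat.lt_floor_add_one (v s' / δ)
      simp only at h
      rw [h] at a1 a2
      rw [abs_lt]
      constructor <;> linarith
    have h5 : |v s / δ - v s' / δ| = |v s - v s'| / δ := by
      rw [← sub_div, abs_div, abs_of_pos hδ]
    rw [h5, div_lt_one hδ] at h4
    linarith
  calc ∑ s ∈ S, 1 / v s ^ 2 ≤ ∑ s ∈ S, (1 / δ ^ 2) * (1 / ((⌊v s / δ⌋₊ : ℕ) : ℝ) ^ 2) := by
        refine sum_le_sum fun s hs => ?_
        have a1 := Nat.floor_le (show 0 ≤ v s / δ from div_nonneg (hδ.le.trans (h1 s hs)) hδ.le)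
        have a3 : 1 ≤ ⌊v s / δ⌋₊ := by
          rw [Nat.one_le_floor_iff, le_div_iff₀ hδ, one_mul]
          exact h1 s hs
        have a4 : (1 : ℝ) ≤ ((⌊v s / δ⌋₊ : ℕ) : ℝ) := by exact_mod_cast a3
        rw [le_div_iff₀ hδ] at a1
        calc 1 / v s ^ 2 ≤ 1 / (((⌊v s / δ⌋₊ : ℕ) : ℝ) * δ) ^ 2 :=
              one_div_le_one_div_of_le (by positivity)
                (pow_le_pow_left₀ (by positivity) a1 2)
          _ = (1 / δ ^ 2) * (1 / ((⌊v s / δ⌋₊ : ℕ) : ℝ) ^ 2) := by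
              field_simp
    _ ≤ (1 / δ ^ 2) * 2 := by
        rw [← mul_sum, ← sum_image (f := fun k : ℕ => 1 / (k : ℝ) ^ 2) hinj]
        refine mul_le_mul_of_nonneg_left (sum_inv_sq_le_two _ ?_) (by positivity)
        intro k hk
        obtain ⟨s, hs, rfl⟩ := mem_image.1 hk
        rw [Nat.one_le_floor_iff, le_div_iff₀ hδ, one_mul]
        exact h1 s hs
    _ = 2 / δ ^ 2 := by ring

/-- the row sums of the kernel -/
theorem ls_row {ι : Type*} [DecidableEq ι] (R : Finset ι) (t : ι → ℝ) {δ : ℝ} (hδ : 0 < δ)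
    (hsep : ∀ r ∈ R, ∀ s ∈ R, r ≠ s → ∀ n : ℤ, δ ≤ |t r - t s - n|) (M : ℕ) {r : ι}
    (hr : r ∈ R) : ∑ s ∈ R, ‖lsD M (t r - t s)‖ ^ 2 ≤ (M : ℝ) ^ 2 + 1 / δ ^ 2 := by
  set v : ι → ℝ := fun s => Int.fract (t r - t s) with hv
  have hlow : ∀ s ∈ R.erase r, δ ≤ v s := by
    intro s hs
    have h1 := hsep r hr s (mem_of_mem_erase hs) (ne_of_mem_erase hs).symm ⌊t r - t s⌋
    rw [← Int.fract, abs_of_nonneg (Int.fract_nonneg _)] at h1
    exact h1
  have hup : ∀ s ∈ R.erase r, δ ≤ 1 - v s := by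
    intro s hs
    have h1 := hsep r hr s (mem_of_mem_erase hs) (ne_of_mem_erase hs).symm (⌊t r - t s⌋ + 1)
    have h2 : t r - t s - ((⌊t r - t s⌋ + 1 : ℤ) : ℝ) = -(1 - v s) := by
      simp only [hv, Int.fract]
      push_cast
      ring
    rw [h2, abs_neg, abs_of_nonneg (by
      have := Int.fract_lt_one (t r - t s)
      simp only [hv]
      linarith)] at h1
    exact h1
  have hdist : ∀ s ∈ R.erase r, ∀ s' ∈ R.erase r, s ≠ s' → δ ≤ |v s - v s'| := by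
    intro s hs s' hs' hne
    have h1 := hsep s' (mem_of_mem_erase hs') s (mem_of_mem_erase hs) hne.symm
      (⌊t r - t s⌋ - ⌊t r - t s'⌋)
    have h2 : v s - v s' = t s' - t s - ((⌊t r - t s⌋ - ⌊t r - t s'⌋ : ℤ) : ℝ) := by
      simp only [hv, Int.fract]
      push_cast
      ring
    rw [h2]
    exact h1
  rw [← add_sum_erase R _ hr]
  refine add_le_add ?_ ?_
  · exact pow_le_pow_left₀ (norm_nonneg _) (norm_lsD_le M _) 2
  · have h1 : ∀ s ∈ R.erase r, ‖lsD M (t r - t s)‖ ^ 2 ≤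
        (1 / 4) * (1 / v s ^ 2 + 1 / (1 - v s) ^ 2) := fun s hs =>
      lsD_sq_le M (hδ.trans_le (hlow s hs))
    have h2 := sum_inv_sq_spaced (R.erase r) v hδ hlow hdist
    have h3 := sum_inv_sq_spaced (R.erase r) (fun s => 1 - v s) hδ hup (by
      intro s hs s' hs' hne
      have h4 := hdist s hs s' hs' hne
      have h5 : 1 - v s - (1 - v s') = -(v s - v s') := by ring
      rw [h5, abs_neg]
      exact h4)
    calc ∑ s ∈ R.erase r, ‖lsD M (t r - t s)‖ ^ 2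
        ≤ ∑ s ∈ R.erase r, (1 / 4) * (1 / v s ^ 2 + 1 / (1 - v s) ^ 2) := sum_le_sum h1
      _ = (1 / 4) * (∑ s ∈ R.erase r, 1 / v s ^ 2 + ∑ s ∈ R.erase r, 1 / (1 - v s) ^ 2) := by
          rw [← mul_sum, sum_add_distrib]
      _ ≤ (1 / 4) * (2 / δ ^ 2 + 2 / δ ^ 2) := by gcongr
      _ = 1 / δ ^ 2 := by ring

/-- dual large sieve -/
theorem ls_dual {ι : Type*} (R : Finset ι) (t : ι → ℝ) {δ : ℝ} (hδ : 0 < δ)
    (hsep : ∀ r ∈ R, ∀ s ∈ R, r ≠ s → ∀ n : ℤ, δ ≤ |t r - t s - n|) {N M : ℕ} (hNM : N ≤ M)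
    (hM : 1 / δ ≤ M) (c : ι → ℂ) :
    ∑ n ∈ Icc 1 N, ‖lsF R t c n‖ ^ 2 ≤ 5 * M * ∑ r ∈ R, ‖c r‖ ^ 2 := by
  classical
  have hM0 : (0 : ℝ) < M := lt_of_lt_of_le (by positivity) hM
  have h1 := (ls_window R t c hNM).trans (ls_expand R t c (2 * M))
  have h2 : ∑ r ∈ R, ‖c r‖ ^ 2 * ∑ s ∈ R, ‖lsD (2 * M) (t r - t s)‖ ^ 2 ≤
      ∑ r ∈ R, ‖c r‖ ^ 2 * (5 * (M : ℝ) ^ 2) := by
    refine sum_le_sum fun r hr => mul_le_mul_of_nonneg_left ?_ (by positivity)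
    refine (ls_row R t hδ hsep (2 * M) hr).trans ?_
    have h3 : 1 / δ ^ 2 ≤ (M : ℝ) ^ 2 := by
      have : 1 / δ ^ 2 = (1 / δ) ^ 2 := by rw [div_pow, one_pow]
      rw [this]
      exact pow_le_pow_left₀ (by positivity) hM 2
    push_cast
    nlinarith
  rw [← sum_mul] at h2
  have h4 : (M : ℝ) * ∑ n ∈ Icc 1 N, ‖lsF R t c n‖ ^ 2 ≤ M * (5 * M * ∑ r ∈ R, ‖c r‖ ^ 2) := by
    refine (h1.trans h2).trans (le_of_eq ?_)
    ring
  exact le_of_mul_le_mul_left h4 hM0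

/-- the large sieve inequality for sets of integers -/
theorem large_sieve {ι : Type*} (R : Finset ι) (t : ι → ℝ) {δ : ℝ} (hδ : 0 < δ)
    (hsep : ∀ r ∈ R, ∀ s ∈ R, r ≠ s → ∀ n : ℤ, δ ≤ |t r - t s - n|) {N M : ℕ} (hNM : N ≤ M)
    (hM : 1 / δ ≤ M) (A : Finset ℕ) (hA : A ⊆ Icc 1 N) :
    ∑ r ∈ R, ‖∑ n ∈ A, ee (n * t r)‖ ^ 2 ≤ 5 * M * A.card := by
  set S : ι → ℂ := fun r => ∑ n ∈ A, ee (n * t r) with hS
  set Z : ℝ := ∑ r ∈ R, ‖S r‖ ^ 2 with hZ
  have hZ0 : 0 ≤ Z := sum_nonneg fun _ _ => by positivity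
  have hdual := ls_dual R t hδ hsep hNM hM (fun r => (starRingEnd ℂ) (S r))
  simp only [Complex.norm_conj] at hdual
  rw [← hZ] at hdual
  have h1 : ((Z : ℝ) : ℂ) = ∑ n ∈ A, lsF R t (fun r => (starRingEnd ℂ) (S r)) n := by
    unfold lsF
    rw [sum_comm, hZ, Complex.ofReal_sum]
    refine sum_congr rfl fun r _ => ?_
    rw [← mul_sum, Complex.ofReal_pow, ← Complex.conj_mul']
    congr 1
  have h2 : Z ≤ ∑ n ∈ A, ‖lsF R t (fun r => (starRingEnd ℂ) (S r)) n‖ := by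
    calc Z = ‖((Z : ℝ) : ℂ)‖ := by rw [Complex.norm_real, Real.norm_of_nonneg hZ0]
      _ ≤ _ := by
          rw [h1]
          exact norm_sum_le _ _
  have h3 : (∑ n ∈ A, ‖lsF R t (fun r => (starRingEnd ℂ) (S r)) n‖) ^ 2 ≤
      A.card * ∑ n ∈ A, ‖lsF R t (fun r => (starRingEnd ℂ) (S r)) n‖ ^ 2 :=
    sq_sum_le_card_mul_sum_sq
  have h4 : ∑ n ∈ A, ‖lsF R t (fun r => (starRingEnd ℂ) (S r)) n‖ ^ 2 ≤ 5 * M * Z :=
    (sum_le_sum_of_subset_of_nonneg hA (fun _ _ _ => by positivity)).trans hdual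
  have h5 : Z ^ 2 ≤ (5 * M * A.card) * Z := by
    calc Z ^ 2 ≤ (∑ n ∈ A, ‖lsF R t (fun r => (starRingEnd ℂ) (S r)) n‖) ^ 2 :=
          pow_le_pow_left₀ hZ0 h2 2
      _ ≤ A.card * (5 * M * Z) := h3.trans (mul_le_mul_of_nonneg_left h4 (by positivity))
      _ = _ := by ring
  rcases hZ0.eq_or_lt with h6 | h6
  · rw [← h6]
    positivity
  · have h7 : Z * Z ≤ (5 * M * A.card) * Z := by rw [← sq]; exact h5
    exact le_of_mul_le_mul_right h7 h6

/-! ### Prime moduli -/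

/-- the exponential sum of `A` at the fraction `a / q` -/
noncomputable def eS (A : Finset ℕ) (q a : ℕ) : ℂ := ∑ n ∈ A, ee (n * ((a : ℝ) / q))

/-- the sum of squares over the nonzero frequencies modulo `q` -/
noncomputable def nonzeroMass (A : Finset ℕ) (q : ℕ) : ℝ := ∑ a ∈ Ico 1 q, ‖eS A q a‖ ^ 2

theorem frac_sep {q q' a a' : ℕ} (hq : q.Prime) (hq' : q'.Prime) (ha : a ∈ Ico 1 q)
    (ha' : a' ∈ Ico 1 q') (hne : (⟨q, a⟩ : Σ _ : ℕ, ℕ) ≠ ⟨q', a'⟩) (n : ℤ) :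
    1 / ((q : ℝ) * q') ≤ |(a : ℝ) / q - (a' : ℝ) / q' - n| := by
  rw [mem_Ico] at ha ha'
  have hq0 : (0 : ℝ) < q := by exact_mod_cast hq.pos
  have hq0' : (0 : ℝ) < q' := by exact_mod_cast hq'.pos
  set h : ℤ := a * q' - a' * q - n * (q * q') with hh
  have h1 : (a : ℝ) / q - (a' : ℝ) / q' - n = (h : ℝ) / (q * q') := by
    rw [hh]
    push_cast
    field_simp
  have hne0 : h ≠ 0 := by
    intro h0
    have h2 : (a : ℤ) * q' = q * (a' + n * q') := by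
      have : (a : ℤ) * q' - a' * q - n * (q * q') = 0 := h0
      linear_combination this
    have h3 : (q : ℤ) ∣ a * q' := ⟨_, h2⟩
    have h4 : q ∣ a * q' := by exact_mod_cast h3
    rcases (hq.dvd_mul).1 h4 with h5 | h5
    · exact absurd (Nat.le_of_dvd (by omega) h5) (by omega)
    · have h6 : q = q' := (Nat.prime_dvd_prime_iff_eq hq hq').1 h5
      subst h6
      have hqz : (q : ℤ) ≠ 0 := by exact_mod_cast hq.ne_zero
      have h7 : (a : ℤ) = a' + n * q := by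
        have : (q : ℤ) * a = q * (a' + n * q) := by linear_combination h2
        exact mul_left_cancel₀ hqz this
      have h8 : n = 0 := by
        have h9 : (n : ℤ) * q = a - a' := by linear_combination -h7
        have h10 : |n * (q : ℤ)| < q := by
          rw [h9, abs_lt]
          constructor <;> omega
        rw [abs_mul, Nat.abs_cast] at h10
        have hqz' : (0 : ℤ) < q := by exact_mod_cast hq.pos
        have h11 : |n| < 1 := by nlinarith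
        exact Int.abs_lt_one_iff.1 h11
      rw [h8, zero_mul, add_zero] at h7
      apply hne
      have : a = a' := by exact_mod_cast h7
      rw [this]
  rw [h1, abs_div, abs_of_pos (show (0 : ℝ) < q * q' by positivity)]
  refine div_le_div_of_nonneg_right ?_ (by positivity)
  have : (1 : ℤ) ≤ |h| := Int.one_le_abs hne0
  exact_mod_cast this

theorem large_sieve_primes {N M Q : ℕ} (hNM : N ≤ M) (hQM : Q ^ 2 ≤ M) (A : Finset ℕ)
    (hA : A ⊆ Icc 1 N) (P : Finset ℕ) (hP : ∀ q ∈ P, q.Prime ∧ q ≤ Q) :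
    ∑ q ∈ P, nonzeroMass A q ≤ 5 * M * A.card := by
  rcases P.eq_empty_or_nonempty with h0 | ⟨q0, hq0⟩
  · rw [h0, sum_empty]
    positivity
  have hQ : 0 < Q := lt_of_lt_of_le (hP q0 hq0).1.pos (hP q0 hq0).2
  have hQR : (0 : ℝ) < Q := by exact_mod_cast hQ
  set R : Finset (Σ _ : ℕ, ℕ) := P.sigma (fun q => Ico 1 q) with hR
  have h1 := large_sieve R (fun r => (r.2 : ℝ) / r.1) (δ := 1 / (Q : ℝ) ^ 2) (by positivity) (by
    rintro ⟨q, a⟩ hr ⟨q', a'⟩ hs hne n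
    rw [hR, mem_sigma] at hr hs
    simp only at hr hs ⊢
    refine le_trans ?_ (frac_sep (hP q hr.1).1 (hP q' hs.1).1 hr.2 hs.2 hne n)
    have b1 : (q : ℝ) ≤ Q := by exact_mod_cast (hP q hr.1).2
    have b2 : (q' : ℝ) ≤ Q := by exact_mod_cast (hP q' hs.1).2
    have c1 : (0 : ℝ) < q := by exact_mod_cast (hP q hr.1).1.pos
    have c2 : (0 : ℝ) < q' := by exact_mod_cast (hP q' hs.1).1.pos
    apply one_div_le_one_div_of_le (by positivity)
    rw [sq]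
    gcongr) hNM (by
    rw [one_div_one_div]
    exact_mod_cast hQM) A hA
  rw [hR, sum_sigma] at h1
  exact h1

end Pool.Agent.Lib.MP_629a14_nt
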