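import Mathlib

set_option autoImplicit false

namespace Pool.Agent.Lib.MP_629a14_nt

open Finset

/-- The additive character with frequency one: exp(2 pi i t). -/
noncomputable def ee (t : ℝ) : ℂ := Complex.exp (2 * Real.pi * t * Complex.I)

lemma ee_add (s t : ℝ) : ee (s + t) = ee s * ee t := by
  unfold ee
  rw [← Complex.exp_add]
  congr 1
  push_cast
  ring

lemma ee_zero : ee 0 = 1 := by simp [ee]

lemma norm_ee (t : ℝ) : ‖ee t‖ = 1 := by
  unfold ee
  have : (2 * Real.pi * t * Complex.I : ℂ) = ((2 * Real.pi * t : ℝ) : ℂ) * Complex.I := by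
    push_cast; ring
  rw [this, Complex.norm_exp_ofReal_mul_I]

lemma ee_int (k : ℤ) : ee k = 1 := by
  unfold ee
  have : (2 * Real.pi * ((k : ℤ) : ℝ) * Complex.I : ℂ) = (k : ℂ) * (2 * Real.pi * Complex.I) := by
    push_cast; ring
  rw [this, Complex.exp_int_mul_two_pi_mul_I]

lemma ee_nat_mul (n : ℕ) (t : ℝ) : ee (n * t) = ee t ^ n := by
  unfold ee
  rw [← Complex.exp_nat_mul]
  congr 1
  push_cast
  ring

lemma ee_eq_one_iff (t : ℝ) : ee t = 1 ↔ ∃ k : ℤ, t = k := by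
  constructor
  · intro h
    unfold ee at h
    rw [Complex.exp_eq_one_iff] at h
    obtain ⟨k, hk⟩ := h
    refine ⟨k, ?_⟩
    have h1 : (2 * Real.pi * Complex.I : ℂ) ≠ 0 := by
      simp [Real.pi_ne_zero]
    have h2 : ((t : ℂ) - k) * (2 * Real.pi * Complex.I) = 0 := by
      linear_combination hk
    rcases mul_eq_zero.1 h2 with h3 | h3
    · have : (t : ℂ) = (k : ℂ) := sub_eq_zero.1 h3
      exact_mod_cast this
    · exact absurd h3 h1
  · rintro ⟨k, rfl⟩
    exact ee_int k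

lemma conj_ee (t : ℝ) : (starRingEnd ℂ) (ee t) = ee (-t) := by
  unfold ee
  rw [← Complex.exp_conj]
  congr 1
  simp only [map_mul, Complex.conj_ofReal, Complex.conj_I, map_ofNat]
  push_cast
  ring

/-- Orthogonality. -/
lemma sum_ee_range (Q : ℕ) (hQ : 0 < Q) (k : ℤ) :
    ∑ h ∈ range Q, ee ((h : ℝ) * ((k : ℝ) / Q)) = if (Q : ℤ) ∣ k then (Q : ℂ) else 0 := by
  have hQ0 : (Q : ℝ) ≠ 0 := by exact_mod_cast hQ.ne'
  simp_rw [ee_nat_mul]
  split_ifs with h
  · obtain ⟨m, rfl⟩ := h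
    have h1 : ee (((Q * m : ℤ) : ℝ) / Q) = 1 := by
      rw [ee_eq_one_iff]
      refine ⟨m, ?_⟩
      push_cast
      field_simp
    rw [h1]
    simp
  · have h1 : ee ((k : ℝ) / Q) ≠ 1 := by
      intro h2
      rw [ee_eq_one_iff] at h2
      obtain ⟨m, hm⟩ := h2
      apply h
      refine ⟨m, ?_⟩
      rw [div_eq_iff hQ0] at hm
      have : (k : ℝ) = ((Q * m : ℤ) : ℝ) := by rw [hm]; push_cast; ring
      exact_mod_cast this
    rw [geom_sum_eq h1]
    have h2 : ee ((k : ℝ) / Q) ^ Q = 1 := by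
      rw [← ee_nat_mul, ee_eq_one_iff]
      refine ⟨k, ?_⟩
      field_simp
    rw [h2]
    simp

/-- Finite Parseval identity. -/
lemma parseval (Q : ℕ) (hQ : 0 < Q) (A : Finset ℕ) (hA : ∀ a ∈ A, a < Q) :
    ∑ h ∈ range Q, ‖∑ a ∈ A, ee (-((h : ℝ) / Q * a))‖ ^ 2 = (Q : ℝ) * A.card := by
  have key : ∀ h ∈ range Q, ((‖∑ a ∈ A, ee (-((h : ℝ) / Q * a))‖ ^ 2 : ℝ) : ℂ) =
      ∑ a ∈ A, ∑ b ∈ A, ee ((h : ℝ) * ((((b : ℤ) - (a : ℤ) : ℤ) : ℝ) / Q)) := by
    intro h _
    rw [Complex.ofReal_pow, ← Complex.mul_conj', map_sum, sum_mul_sum]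
    refine sum_congr rfl fun a _ => sum_congr rfl fun b _ => ?_
    rw [conj_ee, ← ee_add]
    congr 1
    push_cast
    ring
  have h2 : ((∑ h ∈ range Q, ‖∑ a ∈ A, ee (-((h : ℝ) / Q * a))‖ ^ 2 : ℝ) : ℂ) =
      ((Q : ℝ) * A.card : ℝ) := by
    rw [Complex.ofReal_sum, sum_congr rfl key, sum_comm]
    have h3 : ∀ a ∈ A, ∑ h ∈ range Q, ∑ b ∈ A,
        ee ((h : ℝ) * ((((b : ℤ) - (a : ℤ) : ℤ) : ℝ) / Q)) = (Q : ℂ) := by
      intro a ha
      rw [sum_comm]
      have h4 : ∀ b ∈ A, ∑ h ∈ range Q, ee ((h : ℝ) * ((((b : ℤ) - (a : ℤ) : ℤ) : ℝ) / Q)) =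
          if a = b then (Q : ℂ) else 0 := by
        intro b hb
        rw [sum_ee_range Q hQ]
        have ha' := hA a ha
        have hb' := hA b hb
        by_cases hab : a = b
        · subst hab
          simp
        · rw [if_neg hab, if_neg]
          intro hdvd
          apply hab
          have h5 : ((b : ℤ) - a) = 0 := by
            apply Int.eq_zero_of_abs_lt_dvd hdvd
            rw [abs_lt]
            constructor <;> omega
          omega
      rw [sum_congr rfl h4, sum_ite_eq, if_pos ha]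
    rw [sum_congr rfl h3, sum_const, nsmul_eq_mul]
    push_cast
    ring
  exact_mod_cast h2

/-- Number of representations n = a + b with a in A, b in B. -/
def repAB (A B : Finset ℕ) (n : ℕ) : ℕ := ((A ×ˢ B).filter (fun ab => ab.1 + ab.2 = n)).card

/-- Bilinear Fourier bound: if all exponential sums with coefficients D are at most beta, then the
sum of D over the sumset of A and B, with multiplicity, is at most beta times the geometric mean
of the cardinalities. -/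
theorem bilinear (U A B : Finset ℕ) (D : ℕ → ℂ) (N : ℕ) (hU : ∀ n ∈ U, n ≤ N)
    (hA : ∀ a ∈ A, a ≤ N) (hB : ∀ b ∈ B, b ≤ N) (β : ℝ)
    (hβ : ∀ t : ℝ, ‖∑ n ∈ U, D n * ee (t * n)‖ ≤ β) :
    ‖∑ n ∈ U, D n * (repAB A B n : ℂ)‖ ≤ β * Real.sqrt (A.card * B.card) := by
  set Q : ℕ := 2 * N + 1 with hQdef
  have hQ : 0 < Q := by omega
  have hQ0 : (Q : ℂ) ≠ 0 := by exact_mod_cast hQ.ne'
  have hQr : (0 : ℝ) < Q := by exact_mod_cast hQ
  have hβ0 : 0 ≤ β := (norm_nonneg _).trans (hβ 0)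
  have hrep : ∀ n ∈ U, (repAB A B n : ℂ) * Q = ∑ a ∈ A, ∑ b ∈ B, ∑ h ∈ range Q,
      ee ((h : ℝ) * ((((n : ℤ) - a - b : ℤ) : ℝ) / Q)) := by
    intro n hn
    have h1 : ∀ a ∈ A, ∀ b ∈ B, ∑ h ∈ range Q, ee ((h : ℝ) * ((((n : ℤ) - a - b : ℤ) : ℝ) / Q)) =
        if a + b = n then (Q : ℂ) else 0 := by
      intro a ha b hb
      rw [sum_ee_range Q hQ]
      have := hU n hn
      have := hA a ha
      have := hB b hb
      by_cases hab : a + b = n
      · rw [if_pos hab, if_pos]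
        have : (n : ℤ) - a - b = 0 := by omega
        rw [this]
        exact dvd_zero _
      · rw [if_neg hab, if_neg]
        intro hdvd
        apply hab
        have h5 : (n : ℤ) - a - b = 0 := by
          apply Int.eq_zero_of_abs_lt_dvd hdvd
          rw [abs_lt]
          constructor <;> omega
        omega
    rw [sum_congr rfl (fun a ha => sum_congr rfl (h1 a ha))]
    unfold repAB
    rw [← sum_product', ← sum_filter, sum_const, nsmul_eq_mul]
  have hmain : (∑ n ∈ U, D n * (repAB A B n : ℂ)) * Q = ∑ h ∈ range Q,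
      (∑ n ∈ U, D n * ee ((h : ℝ) / Q * n)) * ((∑ a ∈ A, ee (-((h : ℝ) / Q * a))) *
        (∑ b ∈ B, ee (-((h : ℝ) / Q * b)))) := by
    rw [sum_mul]
    have h1 : ∀ n ∈ U, D n * (repAB A B n : ℂ) * Q = ∑ h ∈ range Q, D n * ee ((h : ℝ) / Q * n) *
        ((∑ a ∈ A, ee (-((h : ℝ) / Q * a))) * (∑ b ∈ B, ee (-((h : ℝ) / Q * b)))) := by
      intro n hn
      rw [mul_assoc, hrep n hn]
      have h2 : ∑ a ∈ A, ∑ b ∈ B, ∑ h ∈ range Q,
          ee ((h : ℝ) * ((((n : ℤ) - a - b : ℤ) : ℝ) / Q)) = ∑ h ∈ range Q, ∑ a ∈ A, ∑ b ∈ B,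
          ee ((h : ℝ) * ((((n : ℤ) - a - b : ℤ) : ℝ) / Q)) := by
        have h3 : ∀ a ∈ A, ∑ b ∈ B, ∑ h ∈ range Q,
            ee ((h : ℝ) * ((((n : ℤ) - a - b : ℤ) : ℝ) / Q)) = ∑ h ∈ range Q, ∑ b ∈ B,
            ee ((h : ℝ) * ((((n : ℤ) - a - b : ℤ) : ℝ) / Q)) := fun a _ => sum_comm
        rw [sum_congr rfl h3, sum_comm]
      rw [h2, mul_sum]
      refine sum_congr rfl fun h _ => ?_
      rw [mul_assoc (D n)]
      congr 1
      rw [sum_mul_sum, mul_sum]
      refine sum_congr rfl fun a _ => ?_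
      rw [mul_sum]
      refine sum_congr rfl fun b _ => ?_
      rw [← ee_add, ← ee_add]
      congr 1
      push_cast
      ring
    rw [sum_congr rfl h1, sum_comm]
    refine sum_congr rfl fun h _ => ?_
    exact (sum_mul _ _ _).symm
  have hbound : ‖∑ n ∈ U, D n * (repAB A B n : ℂ)‖ * Q ≤
      β * (Real.sqrt (A.card * B.card) * Q) := by
    have h1 : ‖∑ n ∈ U, D n * (repAB A B n : ℂ)‖ * Q =
        ‖(∑ n ∈ U, D n * (repAB A B n : ℂ)) * Q‖ := by
      rw [norm_mul]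
      simp
    rw [h1, hmain]
    calc _ ≤ ∑ h ∈ range Q, ‖(∑ n ∈ U, D n * ee ((h : ℝ) / Q * n)) *
          ((∑ a ∈ A, ee (-((h : ℝ) / Q * a))) * (∑ b ∈ B, ee (-((h : ℝ) / Q * b))))‖ :=
          norm_sum_le _ _
      _ ≤ ∑ h ∈ range Q, β * (‖∑ a ∈ A, ee (-((h : ℝ) / Q * a))‖ *
            ‖∑ b ∈ B, ee (-((h : ℝ) / Q * b))‖) := by
          refine sum_le_sum fun h _ => ?_
          rw [norm_mul, norm_mul]
          exact mul_le_mul_of_nonneg_right (hβ _) (by positivity)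
      _ = β * ∑ h ∈ range Q, (‖∑ a ∈ A, ee (-((h : ℝ) / Q * a))‖ *
            ‖∑ b ∈ B, ee (-((h : ℝ) / Q * b))‖) := by rw [mul_sum]
      _ ≤ β * (Real.sqrt (A.card * B.card) * Q) := by
          apply mul_le_mul_of_nonneg_left _ hβ0
          have hcs := Finset.sum_mul_sq_le_sq_mul_sq (range Q)
            (fun h => ‖∑ a ∈ A, ee (-((h : ℝ) / Q * a))‖)
            (fun h => ‖∑ b ∈ B, ee (-((h : ℝ) / Q * b))‖)
          rw [parseval Q hQ A (fun a ha => by have := hA a ha; omega),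
            parseval Q hQ B (fun b hb => by have := hB b hb; omega)] at hcs
          have h2 : (Real.sqrt (A.card * B.card) * Q) ^ 2 = (Q : ℝ) * A.card * (Q * B.card) := by
            rw [mul_pow, Real.sq_sqrt (by positivity)]
            ring
          rw [← h2] at hcs
          exact abs_le_of_sq_le_sq' hcs (by positivity) |>.2
  have h3 : ‖∑ n ∈ U, D n * (repAB A B n : ℂ)‖ * Q ≤ β * Real.sqrt (A.card * B.card) * Q := by
    rw [mul_assoc]; exact hbound
  exact le_of_mul_le_mul_right h3 hQr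

end Pool.Agent.Lib.MP_629a14_nt
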