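import Mathlib
import Pool.Agent.Lib.MP_60b32f_nt.Moments
import Pool.Agent.Lib.MP_695920_nt.Analytic
import Pool.Agent.Lib.MP_629a14_nt.Fourier

set_option autoImplicit false

namespace Pool.Agent.Lib.MP_629a14_nt

open Finset Pool.Agent.Lib.MP_60b32f_nt

/-- The ratio n / phi(n). -/
noncomputable def rt (n : ℕ) : ℝ := (n : ℝ) / (n.totient : ℝ)

lemma rt_eq (n : ℕ) (hn : n ≠ 0) : rt n = ∏ p ∈ n.primeFactors, (1 - (p : ℝ)⁻¹)⁻¹ := by
  unfold rt
  have h := Nat.totient_eq_mul_prod_factors n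
  have h2 : (n.totient : ℝ) = n * ∏ p ∈ n.primeFactors, (1 - (p : ℝ)⁻¹) := by
    have := congrArg (fun x : ℚ => (x : ℝ)) h
    push_cast at this
    exact this
  rw [h2, prod_inv_distrib]
  have hn0 : (n : ℝ) ≠ 0 := by exact_mod_cast hn
  have hP : ∏ p ∈ n.primeFactors, (1 - (p : ℝ)⁻¹) ≠ 0 := by
    apply prod_ne_zero_iff.2
    intro p hp
    have hp1 : (1 : ℝ) < p := by exact_mod_cast (Nat.prime_of_mem_primeFactors hp).one_lt
    have : (p : ℝ)⁻¹ < 1 := inv_lt_one_of_one_lt₀ hp1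
    linarith
  field_simp

lemma rt_nonneg (n : ℕ) : 0 ≤ rt n := by unfold rt; positivity

lemma sdiv_eq (n : ℕ) (hn : n ≠ 0) :
    sdiv n = ∏ p ∈ n.primeFactors, ((∑ k ∈ range (n.factorization p + 1), (p : ℝ) ^ k) /
      (p : ℝ) ^ (n.factorization p)) := by
  have hn0 : (n : ℝ) ≠ 0 := by exact_mod_cast hn
  have h1 : sdiv n = ((ArithmeticFunction.sigma 1 n : ℕ) : ℝ) / n := by
    unfold sdiv
    rw [ArithmeticFunction.sigma_eq_sum_div]
    push_cast
    rw [sum_div]
    refine sum_congr rfl fun d hd => ?_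
    have hdn := Nat.dvd_of_mem_divisors hd
    have hd0 : (d : ℝ) ≠ 0 := by exact_mod_cast (Nat.pos_of_mem_divisors hd).ne'
    rw [pow_one, Nat.cast_div hdn hd0]
    field_simp
  have h2 : ((ArithmeticFunction.sigma 1 n : ℕ) : ℝ) =
      ∏ p ∈ n.primeFactors, (∑ k ∈ range (n.factorization p + 1), (p : ℝ) ^ k) := by
    rw [ArithmeticFunction.IsMultiplicative.multiplicative_factorization _
      ArithmeticFunction.isMultiplicative_sigma hn, Finsupp.prod, Nat.support_factorization]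
    push_cast
    refine prod_congr rfl fun p hp => ?_
    rw [ArithmeticFunction.sigma_one_apply_prime_pow (Nat.prime_of_mem_primeFactors hp)]
    push_cast
    rfl
  have h3 : (n : ℝ) = ∏ p ∈ n.primeFactors, (p : ℝ) ^ (n.factorization p) := by
    conv_lhs => rw [← Nat.prod_factorization_pow_eq_self hn]
    rw [Finsupp.prod, Nat.support_factorization]
    push_cast
    rfl
  rw [h1, h2]
  conv_lhs => rw [h3]
  rw [← prod_div_distrib]

lemma sdiv_le_rt (n : ℕ) (hn : n ≠ 0) : sdiv n ≤ rt n := by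
  rw [sdiv_eq n hn, rt_eq n hn]
  apply prod_le_prod
  · intro p _
    positivity
  · intro p hp
    have hp1 : (1 : ℝ) < p := by exact_mod_cast (Nat.prime_of_mem_primeFactors hp).one_lt
    have hp0 : (0 : ℝ) < p := by linarith
    have h1 : (p : ℝ)⁻¹ < 1 := inv_lt_one_of_one_lt₀ hp1
    set a := n.factorization p
    rw [geom_sum_eq hp1.ne', div_div, div_le_iff₀ (by
      have : 0 < (p : ℝ) - 1 := by linarith
      positivity)]
    have h2 : (1 - (p : ℝ)⁻¹)⁻¹ * (((p : ℝ) - 1) * (p : ℝ) ^ a) = (p : ℝ) ^ (a + 1) := by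
      have : (1 - (p : ℝ)⁻¹) ≠ 0 := by linarith
      have h3 : (p : ℝ) - 1 ≠ 0 := by linarith
      field_simp
      ring
    rw [h2]
    linarith

lemma one_le_rt (n : ℕ) (hn : n ≠ 0) : 1 ≤ rt n :=
  (sdiv_pos n (Nat.pos_of_ne_zero hn)).trans (sdiv_le_rt n hn)

/-- Pointwise bound for the ratio in terms of small primes. -/
lemma rt_le_exp (n : ℕ) (hn : n ≠ 0) (Y : ℕ) (hY : 1 ≤ Y) (hnY : Real.log n ≤ Y) :
    rt n ≤ Real.exp (3 + ∑ p ∈ (Icc 0 Y).filter (fun p => p.Prime ∧ p ∣ n), (1 : ℝ) / p) := by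
  rw [rt_eq n hn]
  have hY0 : (1 : ℝ) ≤ Y := by exact_mod_cast hY
  have hn1 : (1 : ℝ) ≤ n := by exact_mod_cast Nat.one_le_iff_ne_zero.2 hn
  have h1 : ∏ p ∈ n.primeFactors, (1 - (p : ℝ)⁻¹)⁻¹ ≤
      ∏ p ∈ n.primeFactors, Real.exp (1 / (p : ℝ) + (1 / ((p : ℝ) - 1) - 1 / p)) := by
    apply prod_le_prod
    · intro p hp
      have hp1 : (1 : ℝ) < p := by exact_mod_cast (Nat.prime_of_mem_primeFactors hp).one_lt
      have h1 : (p : ℝ)⁻¹ < 1 := inv_lt_one_of_one_lt₀ hp1
      have : 0 < 1 - (p : ℝ)⁻¹ := by linarith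
      positivity
    · intro p hp
      have hp1 : (1 : ℝ) < p := by exact_mod_cast (Nat.prime_of_mem_primeFactors hp).one_lt
      have h3 : (p : ℝ) - 1 ≠ 0 := by linarith
      have h4 : (p : ℝ) ≠ 0 := by linarith
      have h2 : (1 - (p : ℝ)⁻¹)⁻¹ = 1 + 1 / ((p : ℝ) - 1) := by
        have h1 : (p : ℝ)⁻¹ < 1 := inv_lt_one_of_one_lt₀ hp1
        have : (1 - (p : ℝ)⁻¹) ≠ 0 := by linarith
        field_simp
        ring
      rw [h2]
      have h5 := Real.add_one_le_exp (1 / (p : ℝ) + (1 / ((p : ℝ) - 1) - 1 / p))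
      linarith
  refine h1.trans ?_
  rw [← Real.exp_sum]
  apply Real.exp_le_exp.2
  rw [sum_add_distrib]
  -- the telescoping part
  have hprimes : ∀ p ∈ n.primeFactors, 2 ≤ p ∧ p ≤ n := fun p hp =>
    ⟨(Nat.prime_of_mem_primeFactors hp).two_le, Nat.le_of_mem_primeFactors hp⟩
  have htel : ∑ p ∈ n.primeFactors, (1 / ((p : ℝ) - 1) - 1 / p) ≤ 1 := by
    have hsub : n.primeFactors ⊆ Icc 2 (n + 1) := by
      intro p hp
      have := hprimes p hp
      rw [mem_Icc]; omega
    refine (sum_le_sum_of_subset_of_nonneg hsub ?_).trans ?_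
    · intro p hp _
      rw [mem_Icc] at hp
      have hp1 : (2 : ℝ) ≤ p := by exact_mod_cast hp.1
      have : 1 / (p : ℝ) ≤ 1 / ((p : ℝ) - 1) :=
        one_div_le_one_div_of_le (by linarith) (by linarith)
      linarith
    · have : ∀ m : ℕ, ∑ p ∈ Icc 2 (m + 1), (1 / ((p : ℝ) - 1) - 1 / p) = 1 - 1 / ((m : ℝ) + 1) := by
        intro m
        induction m with
        | zero => simp
        | succ m ih =>
          rw [sum_Icc_succ_top (by omega), ih]
          push_cast
          ring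
      rw [this n]
      have : 0 < 1 / ((n : ℝ) + 1) := by positivity
      linarith
  -- splitting the main part
  have hsplit : ∑ p ∈ n.primeFactors, 1 / (p : ℝ) ≤ 2 +
      ∑ p ∈ (Icc 0 Y).filter (fun p => p.Prime ∧ p ∣ n), (1 : ℝ) / p := by
    rw [← sum_filter_add_sum_filter_not n.primeFactors (fun p => p ≤ Y)]
    have h2 : ∑ p ∈ n.primeFactors.filter (fun p => p ≤ Y), 1 / (p : ℝ) ≤
        ∑ p ∈ (Icc 0 Y).filter (fun p => p.Prime ∧ p ∣ n), (1 : ℝ) / p := by
      apply sum_le_sum_of_subset_of_nonneg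
      · intro p hp
        rw [mem_filter, Nat.mem_primeFactors] at hp
        rw [mem_filter, mem_Icc]
        exact ⟨⟨Nat.zero_le _, hp.2⟩, hp.1.1, hp.1.2.1⟩
      · intro p _ _; positivity
    have h3 : ∑ p ∈ n.primeFactors.filter (fun p => ¬ p ≤ Y), 1 / (p : ℝ) ≤ 2 := by
      have h4 : ∑ p ∈ n.primeFactors.filter (fun p => ¬ p ≤ Y), 1 / (p : ℝ) ≤
          ∑ p ∈ n.primeFactors.filter (fun p => ¬ p ≤ Y), 1 / (Y : ℝ) := by
        apply sum_le_sum
        intro p hp
        rw [mem_filter, not_le] at hp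
        apply one_div_le_one_div_of_le (by linarith)
        exact_mod_cast hp.2.le
      rw [sum_const, nsmul_eq_mul] at h4
      have h5 : ((n.primeFactors.filter (fun p => ¬ p ≤ Y)).card : ℝ) ≤ n.primeFactors.card := by
        exact_mod_cast card_filter_le _ _
      have h6 : 2 ^ n.primeFactors.card ≤ n := by
        calc 2 ^ n.primeFactors.card = ∏ _p ∈ n.primeFactors, 2 := by rw [prod_const]
          _ ≤ ∏ p ∈ n.primeFactors, p := prod_le_prod' (fun p hp => (hprimes p hp).1)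
          _ ≤ n := Nat.le_of_dvd (Nat.pos_of_ne_zero hn) (Nat.prod_primeFactors_dvd n)
      have h7 : (n.primeFactors.card : ℝ) * Real.log 2 ≤ Real.log n := by
        rw [← Real.log_pow]
        apply Real.log_le_log (by positivity)
        exact_mod_cast h6
      have h8 := Real.log_two_gt_d9
      have h9 : (n.primeFactors.card : ℝ) ≤ 2 * Y := by
        have : (0 : ℝ) ≤ n.primeFactors.card := by positivity
        nlinarith
      calc _ ≤ _ := h4
        _ ≤ (2 * Y) * (1 / (Y : ℝ)) := by gcongr; exact h5.trans h9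
        _ = 2 := by field_simp
    linarith
  linarith

end Pool.Agent.Lib.MP_629a14_nt
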