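import Mathlib
import Pool.Agent.Lib.MP_629a14_nt.Ratio

set_option autoImplicit false

namespace Pool.Agent.Lib.MP_629a14_nt

open Finset Pool.Agent.Lib.MP_60b32f_nt

/-- Fourth moment of n / phi(n) over a set with controlled divisibility counts. -/
lemma sum_rt_pow_le (S : Finset ℕ) (Y : ℕ) (hY : 2 ≤ Y)
    (hS : ∀ n ∈ S, n ≠ 0 ∧ Real.log n ≤ Y) (a b : ℝ) (ha : 0 ≤ a) (hb : 0 ≤ b)
    (hcount : ∀ d : ℕ, 0 < d → ((S.filter (fun n => d ∣ n)).card : ℝ) ≤ a / d + b) :
    ∑ n ∈ S, (rt n) ^ 4 ≤
      Real.exp 12 * (a * Real.exp (4 * Real.exp 2) + b * (Real.exp 16 * (Real.log Y) ^ 4)) := by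
  set PY : Finset ℕ := (Icc 0 Y).filter Nat.Prime with hPY
  set g : ℕ → ℝ := fun p => Real.exp (4 / (p : ℝ)) - 1 with hg
  have hg0 : ∀ p : ℕ, 0 ≤ g p := by
    intro p
    have : (1 : ℝ) ≤ Real.exp (4 / (p : ℝ)) := Real.one_le_exp (by positivity)
    simp only [hg]; linarith
  have hpt : ∀ n ∈ S, (rt n) ^ 4 ≤ Real.exp 12 *
      ∑ T ∈ PY.powerset, if (∏ p ∈ T, p) ∣ n then ∏ p ∈ T, g p else 0 := by
    intro n hn
    have h1 := rt_le_exp n (hS n hn).1 Y (by omega) (hS n hn).2
    have h0 := rt_nonneg n
    have hfil : (Icc 0 Y).filter (fun p => p.Prime ∧ p ∣ n) = PY.filter (fun p => p ∣ n) := by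
      rw [hPY, filter_filter]
    rw [hfil] at h1
    calc (rt n) ^ 4 ≤ (Real.exp (3 + ∑ p ∈ PY.filter (fun p => p ∣ n), (1 : ℝ) / p)) ^ 4 := by
          gcongr
      _ = Real.exp 12 * ∏ p ∈ PY.filter (fun p => p ∣ n), (1 + g p) := by
          have h2 : ∀ p ∈ PY.filter (fun p => p ∣ n), 1 + g p = Real.exp (4 * (1 / (p : ℝ))) := by
            intro p _
            simp only [hg]
            rw [mul_one_div]
            ring
          rw [prod_congr rfl h2, ← Real.exp_sum, ← Real.exp_add, ← Real.exp_nat_mul]
          congr 1
          rw [← mul_sum]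
          push_cast
          ring
      _ = Real.exp 12 * ∑ T ∈ (PY.filter (fun p => p ∣ n)).powerset, ∏ p ∈ T, g p := by
          rw [prod_one_add]
      _ ≤ _ := by
          gcongr
          rw [← sum_filter]
          apply sum_le_sum_of_subset_of_nonneg
          · intro T hT
            rw [mem_powerset] at hT
            rw [mem_filter, mem_powerset]
            refine ⟨fun p hp => (mem_filter.1 (hT hp)).1, ?_⟩
            apply Finset.prod_primes_dvd
            · intro p hp
              have := (mem_filter.1 (mem_filter.1 (hT hp)).1).2
              exact this.prime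
            · intro p hp
              exact (mem_filter.1 (hT hp)).2
          · intro T _ _
            exact prod_nonneg (fun p _ => hg0 p)
  calc ∑ n ∈ S, (rt n) ^ 4 ≤ ∑ n ∈ S, Real.exp 12 *
        ∑ T ∈ PY.powerset, (if (∏ p ∈ T, p) ∣ n then ∏ p ∈ T, g p else 0) := sum_le_sum hpt
    _ = Real.exp 12 * ∑ T ∈ PY.powerset,
        ((S.filter (fun n => (∏ p ∈ T, p) ∣ n)).card : ℝ) * ∏ p ∈ T, g p := by
        rw [← mul_sum, sum_comm]
        congr 1
        refine sum_congr rfl fun T _ => ?_
        rw [← sum_filter, sum_const, nsmul_eq_mul]
    _ ≤ Real.exp 12 * ∑ T ∈ PY.powerset,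
        (a / ((∏ p ∈ T, p : ℕ) : ℝ) + b) * ∏ p ∈ T, g p := by
        gcongr with T hT
        · exact prod_nonneg (fun p _ => hg0 p)
        · apply hcount
          rw [mem_powerset] at hT
          exact prod_pos (fun p hp => (mem_filter.1 (hT hp)).2.pos)
    _ = Real.exp 12 * (a * ∏ p ∈ PY, (1 + g p / p) + b * ∏ p ∈ PY, (1 + g p)) := by
        congr 1
        rw [prod_one_add, prod_one_add, mul_sum, mul_sum, ← sum_add_distrib]
        refine sum_congr rfl fun T _ => ?_
        rw [add_mul, prod_div_distrib]
        push_cast
        ring
    _ ≤ _ := by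
        have h1 : ∏ p ∈ PY, (1 + g p / p) ≤ Real.exp (4 * Real.exp 2) := by
          calc ∏ p ∈ PY, (1 + g p / p) ≤ ∏ p ∈ PY, Real.exp (g p / p) := by
                apply prod_le_prod
                · intro p _
                  have := hg0 p
                  positivity
                · intro p _
                  have := Real.add_one_le_exp (g p / p)
                  linarith
            _ = Real.exp (∑ p ∈ PY, g p / p) := by rw [Real.exp_sum]
            _ ≤ Real.exp (4 * Real.exp 2) := by
                apply Real.exp_le_exp.2
                have h2 : ∀ p ∈ PY, g p / p ≤ 4 * Real.exp 2 * (1 / ((p : ℝ) - 1) - 1 / p) := by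
                  intro p hp
                  have hp2 : (2 : ℝ) ≤ p := by exact_mod_cast (mem_filter.1 hp).2.two_le
                  have hp0 : (0 : ℝ) < p := by linarith
                  have hp1 : (0 : ℝ) < (p : ℝ) - 1 := by linarith
                  have h3 : g p ≤ 4 / p * Real.exp 2 := by
                    simp only [hg]
                    have h4 := Real.add_one_le_exp (-(4 / (p : ℝ)))
                    have h5 : Real.exp (4 / (p : ℝ)) ≤ Real.exp 2 := by
                      apply Real.exp_le_exp.2
                      rw [div_le_iff₀ hp0]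
                      linarith
                    have h6 : Real.exp (-(4 / (p : ℝ))) * Real.exp (4 / (p : ℝ)) = 1 := by
                      rw [← Real.exp_add]; simp
                    have h7 : 0 < Real.exp (4 / (p : ℝ)) := Real.exp_pos _
                    have h8 : (0 : ℝ) < 4 / p := by positivity
                    nlinarith
                  calc g p / p ≤ 4 / p * Real.exp 2 / p := by gcongr
                    _ = 4 * Real.exp 2 * (1 / (p * p)) := by field_simp
                    _ ≤ 4 * Real.exp 2 * (1 / ((p : ℝ) - 1) - 1 / p) := by
                        have : 1 / ((p : ℝ) * p) ≤ 1 / ((p : ℝ) - 1) - 1 / p := by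
                          rw [div_sub_div _ _ hp1.ne' hp0.ne', div_le_div_iff₀ (by positivity)
                            (by positivity)]
                          nlinarith
                        gcongr
                refine (sum_le_sum h2).trans ?_
                rw [← mul_sum]
                have hsub : PY ⊆ Icc 2 (Y + 1) := by
                  intro p hp
                  rw [hPY, mem_filter, mem_Icc] at hp
                  have := hp.2.two_le
                  rw [mem_Icc]; omega
                have htel : ∀ m : ℕ, ∑ p ∈ Icc 2 (m + 1), (1 / ((p : ℝ) - 1) - 1 / p) =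
                    1 - 1 / ((m : ℝ) + 1) := by
                  intro m
                  induction m with
                  | zero => simp
                  | succ m ih =>
                    rw [sum_Icc_succ_top (by omega), ih]
                    push_cast
                    ring
                have h9 : ∑ p ∈ PY, (1 / ((p : ℝ) - 1) - 1 / p) ≤ 1 := by
                  refine (sum_le_sum_of_subset_of_nonneg hsub ?_).trans ?_
                  · intro p hp _
                    rw [mem_Icc] at hp
                    have hp1 : (2 : ℝ) ≤ p := by exact_mod_cast hp.1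
                    have : 1 / (p : ℝ) ≤ 1 / ((p : ℝ) - 1) :=
                      one_div_le_one_div_of_le (by linarith) (by linarith)
                    linarith
                  · rw [htel Y]
                    have : 0 < 1 / ((Y : ℝ) + 1) := by positivity
                    linarith
                calc 4 * Real.exp 2 * ∑ p ∈ PY, (1 / ((p : ℝ) - 1) - 1 / p)
                    ≤ 4 * Real.exp 2 * 1 := by gcongr
                  _ = 4 * Real.exp 2 := by ring
        have h2 : ∏ p ∈ PY, (1 + g p) ≤ Real.exp 16 * (Real.log Y) ^ 4 := by
          have h3 : ∏ p ∈ PY, (1 + g p) = Real.exp (∑ p ∈ PY, (1 : ℝ) / p) ^ 4 := by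
            have h4 : ∀ p ∈ PY, 1 + g p = Real.exp (4 * (1 / (p : ℝ))) := by
              intro p _
              simp only [hg]
              rw [mul_one_div]
              ring
            rw [prod_congr rfl h4, ← Real.exp_sum, ← Real.exp_nat_mul, ← mul_sum]
            push_cast
            rfl
          have h5 := Pool.Agent.Lib.MP_695920_nt.sum_inv_primes_le Y hY
          have hlogY : 0 < Real.log Y := Real.log_pos (by exact_mod_cast (by omega : 1 < Y))
          rw [h3]
          calc Real.exp (∑ p ∈ PY, (1 : ℝ) / p) ^ 4
              ≤ Real.exp (Real.log (Real.log Y) + 4) ^ 4 := by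
                gcongr
            _ = Real.exp 16 * (Real.log Y) ^ 4 := by
                rw [Real.exp_add, Real.exp_log hlogY, mul_pow, ← Real.exp_nat_mul]
                norm_num
                ring
        gcongr

end Pool.Agent.Lib.MP_629a14_nt
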