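import Pool.Agent.Lib.MP_629a14_nt.Maj

/-! The factor `n/φ(n)` and moments of `sdiv` in residue classes to prime moduli. -/

namespace Pool.Agent.Lib.MP_629a14_nt

open Finset Pool.Agent.Lib.MP_60b32f_nt

theorem sdiv_eq_conv (n : ℕ) : sdiv n = (invN * (ArithmeticFunction.zeta : ArithmeticFunction ℝ)) n := by
  rw [ArithmeticFunction.coe_mul_zeta_apply]
  rfl

theorem sdiv_mul {a b : ℕ} (h : Nat.Coprime a b) : sdiv (a * b) = sdiv a * sdiv b := by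
  rw [sdiv_eq_conv, sdiv_eq_conv, sdiv_eq_conv]
  have hm : (invN * (ArithmeticFunction.zeta : ArithmeticFunction ℝ)).IsMultiplicative :=
    invN_mult.mul (ArithmeticFunction.isMultiplicative_zeta.natCast)
  exact hm.map_mul_of_coprime h

theorem phi_bound (n : ℕ) (hn : 0 < n) : (n : ℝ) / (Nat.totient n : ℝ) ≤ (sdiv n) ^ 2 := by
  revert hn
  refine Nat.recOnPosPrimePosCoprime (motive := fun n => 0 < n →
    (n : ℝ) / (Nat.totient n : ℝ) ≤ (sdiv n) ^ 2) ?_ ?_ ?_ ?_ n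
  · intro p k hp hk _
    obtain ⟨j, rfl⟩ : ∃ j, k = j + 1 := ⟨k - 1, by omega⟩
    have hp2 : (2 : ℝ) ≤ p := by exact_mod_cast hp.two_le
    have h1 : (Nat.totient (p ^ (j + 1)) : ℝ) = (p : ℝ) ^ j * ((p : ℝ) - 1) := by
      rw [Nat.totient_prime_pow_succ hp]
      push_cast [Nat.cast_sub hp.one_lt.le]
      ring
    have hpj : (0 : ℝ) < (p : ℝ) ^ j := by positivity
    have h2 : ((p ^ (j + 1) : ℕ) : ℝ) / (Nat.totient (p ^ (j + 1)) : ℝ) = p / ((p : ℝ) - 1) := by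
      rw [h1]
      push_cast
      have : (p : ℝ) - 1 ≠ 0 := by linarith
      field_simp
      ring
    have h3 : 1 + 1 / (p : ℝ) ≤ sdiv (p ^ (j + 1)) := by
      unfold sdiv
      have hsub : ({1, p} : Finset ℕ) ⊆ (p ^ (j + 1)).divisors := by
        intro e he
        rw [mem_insert, mem_singleton] at he
        rw [Nat.mem_divisors]
        refine ⟨?_, (pow_pos hp.pos _).ne'⟩
        rcases he with rfl | rfl
        · exact one_dvd _
        · exact dvd_pow_self _ (by omega)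
      calc 1 + 1 / (p : ℝ) = ∑ e ∈ ({1, p} : Finset ℕ), 1 / (e : ℝ) := by
            rw [sum_pair hp.one_lt.ne]; simp
        _ ≤ _ := sum_le_sum_of_subset_of_nonneg hsub (fun e _ _ => by positivity)
    rw [h2]
    calc (p : ℝ) / ((p : ℝ) - 1) ≤ (1 + 1 / (p : ℝ)) ^ 2 := by
          have h4 : (0 : ℝ) < (p : ℝ) - 1 := by linarith
          rw [div_le_iff₀ h4]
          have h5 : (1 + 1 / (p : ℝ)) ^ 2 * ((p : ℝ) - 1) - p
              = ((p : ℝ) ^ 2 - p - 1) / (p : ℝ) ^ 2 := by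
            field_simp
            ring
          have h6 : 0 ≤ ((p : ℝ) ^ 2 - p - 1) / (p : ℝ) ^ 2 := by
            apply div_nonneg _ (by positivity)
            nlinarith
          linarith
      _ ≤ (sdiv (p ^ (j + 1))) ^ 2 := by gcongr
  · intro h; omega
  · intro _
    have := sdiv_pos 1 (by norm_num)
    simp only [Nat.cast_one, Nat.totient_one, div_one]
    nlinarith
  · intro a b ha hb hco iha ihb _
    have ia := iha (by omega)
    have ib := ihb (by omega)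
    rw [sdiv_mul hco, Nat.totient_mul hco]
    push_cast
    calc (a : ℝ) * b / (Nat.totient a * Nat.totient b)
        = (a / Nat.totient a) * (b / Nat.totient b) := by ring
      _ ≤ (sdiv a) ^ 2 * (sdiv b) ^ 2 := by gcongr
      _ = (sdiv a * sdiv b) ^ 2 := by ring

theorem sdiv_four_le (n : ℕ) :
    (sdiv n) ^ 4 ≤ (kk (9 / 8)) ^ 2 * kk (5 / 4) * sg (1 / 2) n := by
  have e1 := sg_cs (9 / 8) (7 / 8) n
  have e2 := sg_cs (5 / 4) (1 / 2) n
  rw [show ((9 / 8 : ℝ) + 7 / 8) / 2 = 1 by norm_num, sg_one] at e1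
  rw [show ((5 / 4 : ℝ) + 1 / 2) / 2 = 7 / 8 by norm_num] at e2
  have e3 := sg_le_kk (a := 9 / 8) (by norm_num) n
  have e4 := sg_le_kk (a := 5 / 4) (by norm_num) n
  have p1 := sg_nonneg (7 / 8) n
  have p2 := sg_nonneg (1 / 2) n
  have p3 := sg_nonneg (9 / 8) n
  have p4 := sg_nonneg (5 / 4) n
  have p5 := kk_nonneg (9 / 8)
  calc (sdiv n) ^ 4 = ((sdiv n) ^ 2) ^ 2 := by ring
    _ ≤ (sg (9 / 8) n * sg (7 / 8) n) ^ 2 := by gcongr
    _ ≤ (kk (9 / 8) * sg (7 / 8) n) ^ 2 := by gcongr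
    _ = (kk (9 / 8)) ^ 2 * (sg (7 / 8) n) ^ 2 := by ring
    _ ≤ (kk (9 / 8)) ^ 2 * (sg (5 / 4) n * sg (1 / 2) n) := by gcongr
    _ ≤ (kk (9 / 8)) ^ 2 * (kk (5 / 4) * sg (1 / 2) n) := by gcongr
    _ = (kk (9 / 8)) ^ 2 * kk (5 / 4) * sg (1 / 2) n := by ring

theorem sum_inv_sqrt (x : ℕ) : ∑ d ∈ Icc 1 x, ((d : ℝ) ^ (1 / 2 : ℝ))⁻¹ ≤ 2 * Real.sqrt x := by
  induction x with
  | zero => simp
  | succ x ih =>
    rw [sum_Icc_succ_top (by omega)]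
    have h1 : (((x + 1 : ℕ) : ℝ) ^ (1 / 2 : ℝ))⁻¹ ≤ 2 * (Real.sqrt ((x + 1 : ℕ) : ℝ) - Real.sqrt x) := by
      rw [← Real.sqrt_eq_rpow]
      have hs : 0 < Real.sqrt ((x + 1 : ℕ) : ℝ) := Real.sqrt_pos.2 (by positivity)
      have hs2 := Real.sq_sqrt (show (0 : ℝ) ≤ ((x + 1 : ℕ) : ℝ) by positivity)
      have hx2 := Real.sq_sqrt (show (0 : ℝ) ≤ (x : ℝ) by positivity)
      have hx0 := Real.sqrt_nonneg (x : ℝ)
      rw [inv_le_iff_one_le_mul₀ hs]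
      push_cast at *
      nlinarith [sq_nonneg (Real.sqrt ((x : ℝ) + 1) - Real.sqrt x)]
    linarith

theorem kk_pos {a : ℝ} (ha : 1 < a) : 1 ≤ kk a := by
  have h := sg_le_kk ha 1
  have : sg a 1 = 1 := by simp [sg]
  rwa [this] at h

/-- Moments of `sdiv` in residue classes to prime moduli `q ≤ √x`. -/
theorem class_sg (x q b : ℕ) (hq : q.Prime) (hqx : q * q ≤ x) :
    ∑ n ∈ (Icc 1 x).filter (fun n => n ≡ b [MOD q]), sg (1 / 2) n
      ≤ (2 * kk (3 / 2) + 2) * (x / q) := by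
  have hq0 : (0 : ℝ) < q := by exact_mod_cast hq.pos
  have hq1 : (1 : ℝ) ≤ q := by exact_mod_cast hq.one_lt.le
  have hsum32 : Summable (fun d : ℕ => ((d : ℝ) ^ (3 / 2 : ℝ))⁻¹) :=
    Real.summable_nat_rpow_inv.2 (by norm_num)
  unfold sg
  have h1 : ∀ n ∈ (Icc 1 x).filter (fun n => n ≡ b [MOD q]),
      ∑ d ∈ n.divisors, ((d : ℝ) ^ (1 / 2 : ℝ))⁻¹
      = ∑ d ∈ Icc 1 x, if d ∣ n then ((d : ℝ) ^ (1 / 2 : ℝ))⁻¹ else 0 := by
    intro n hn
    rw [mem_filter, mem_Icc] at hn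
    rw [← sum_filter]
    apply sum_congr _ (fun _ _ => rfl)
    ext d
    rw [Nat.mem_divisors, mem_filter, mem_Icc]
    constructor
    · rintro ⟨h1, h2⟩
      exact ⟨⟨Nat.pos_of_dvd_of_pos h1 (by omega), (Nat.le_of_dvd (by omega) h1).trans hn.1.2⟩, h1⟩
    · rintro ⟨_, h⟩
      exact ⟨h, by omega⟩
  rw [sum_congr rfl h1, sum_comm]
  have h2 : ∀ d ∈ Icc 1 x,
      ∑ n ∈ (Icc 1 x).filter (fun n => n ≡ b [MOD q]), (if d ∣ n then ((d : ℝ) ^ (1 / 2 : ℝ))⁻¹ else 0)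
      ≤ (x / q) * ((d : ℝ) ^ (3 / 2 : ℝ))⁻¹ + ((d : ℝ) ^ (1 / 2 : ℝ))⁻¹
        + if q ∣ d then (x : ℝ) * ((d : ℝ) ^ (3 / 2 : ℝ))⁻¹ else 0 := by
    intro d hd
    rw [mem_Icc] at hd
    have hd0 : (0 : ℝ) < d := by exact_mod_cast hd.1
    have hpow : ((d : ℝ) ^ (3 / 2 : ℝ))⁻¹ = (d : ℝ)⁻¹ * ((d : ℝ) ^ (1 / 2 : ℝ))⁻¹ := by
      rw [← mul_inv]
      congr 1
      rw [show (3 / 2 : ℝ) = 1 + 1 / 2 by norm_num, Real.rpow_add hd0, Real.rpow_one]
    have hpos : 0 ≤ ((d : ℝ) ^ (1 / 2 : ℝ))⁻¹ := by positivity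
    rw [← sum_filter, sum_const, nsmul_eq_mul, filter_filter]
    by_cases hqd : q ∣ d
    · rw [if_pos hqd]
      have h3 : ((Icc 1 x).filter (fun n => n ≡ b [MOD q] ∧ d ∣ n)).card
          ≤ ((Icc 1 x).filter (fun n => d ∣ n)).card := by
        apply card_le_card
        intro n hn
        rw [mem_filter] at hn ⊢
        exact ⟨hn.1, hn.2.2⟩
      have h4 : ((Icc 1 x).filter (fun n => d ∣ n)).card = x / d := by
        have := Nat.Ioc_filter_dvd_card_eq_div x d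
        rw [← this]
        congr 1
      rw [h4] at h3
      have h5 : (((Icc 1 x).filter (fun n => n ≡ b [MOD q] ∧ d ∣ n)).card : ℝ) ≤ (x : ℝ) * (d : ℝ)⁻¹ := by
        have h6 : (((Icc 1 x).filter (fun n => n ≡ b [MOD q] ∧ d ∣ n)).card : ℝ) ≤ ((x / d : ℕ) : ℝ) := by
          exact_mod_cast h3
        refine h6.trans ?_
        rw [← div_eq_mul_inv]
        exact Nat.cast_div_le
      have h7 : 0 ≤ (x / q) * ((d : ℝ) ^ (3 / 2 : ℝ))⁻¹ := by positivity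
      rw [hpow] at h7 ⊢
      calc (((Icc 1 x).filter (fun n => n ≡ b [MOD q] ∧ d ∣ n)).card : ℝ) * ((d : ℝ) ^ (1 / 2 : ℝ))⁻¹
          ≤ ((x : ℝ) * (d : ℝ)⁻¹) * ((d : ℝ) ^ (1 / 2 : ℝ))⁻¹ := by gcongr
        _ = (x : ℝ) * ((d : ℝ)⁻¹ * ((d : ℝ) ^ (1 / 2 : ℝ))⁻¹) := by ring
        _ ≤ _ := by linarith
    · rw [if_neg hqd, add_zero]
      have hco : Nat.Coprime q d := (hq.coprime_iff_not_dvd).2 hqd
      obtain ⟨c, hc1, hc2⟩ := Nat.chineseRemainder hco b 0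
      have h3 : (Icc 1 x).filter (fun n => n ≡ b [MOD q] ∧ d ∣ n)
          = (Icc 1 x).filter (fun n => n ≡ c [MOD (q * d)]) := by
        apply filter_congr
        intro n _
        rw [← Nat.modEq_and_modEq_iff_modEq_mul hco, ← Nat.modEq_zero_iff_dvd]
        constructor
        · rintro ⟨h, h'⟩; exact ⟨h.trans hc1.symm, h'.trans hc2.symm⟩
        · rintro ⟨h, h'⟩; exact ⟨h.trans hc1, h'.trans hc2⟩
      rw [h3, hpow]
      have h4 := (abs_le.1 (count_Icc x (q * d) c (Nat.mul_pos hq.pos hd.1))).2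
      have h5 : (((Icc 1 x).filter (fun n => n ≡ c [MOD (q * d)])).card : ℝ)
          ≤ (x / q) * (d : ℝ)⁻¹ + 1 := by
        have h6 : (x : ℝ) / ((q * d : ℕ) : ℝ) = (x / q) * (d : ℝ)⁻¹ := by
          push_cast
          field_simp
        rw [h6] at h4
        linarith
      calc (((Icc 1 x).filter (fun n => n ≡ c [MOD (q * d)])).card : ℝ) * ((d : ℝ) ^ (1 / 2 : ℝ))⁻¹
          ≤ ((x / q) * (d : ℝ)⁻¹ + 1) * ((d : ℝ) ^ (1 / 2 : ℝ))⁻¹ := by gcongr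
        _ = _ := by ring
  refine (sum_le_sum h2).trans ?_
  rw [sum_add_distrib, sum_add_distrib, ← mul_sum]
  have h5 : ∑ i ∈ Icc 1 x, ((i : ℝ) ^ (3 / 2 : ℝ))⁻¹ ≤ kk (3 / 2) :=
    hsum32.sum_le_tsum _ (fun d _ => by positivity)
  have h6 := sum_inv_sqrt x
  have h7 : Real.sqrt x ≤ x / q := by
    have hx0 : (0 : ℝ) ≤ x := by positivity
    rw [le_div_iff₀ hq0]
    have h8 : (q : ℝ) ≤ Real.sqrt x := by
      rw [Real.le_sqrt hq0.le hx0]
      rw [sq]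
      exact_mod_cast hqx
    calc Real.sqrt x * q ≤ Real.sqrt x * Real.sqrt x := by gcongr
      _ = x := Real.mul_self_sqrt hx0
  have h9 : ∑ i ∈ Icc 1 x, (if q ∣ i then (x : ℝ) * ((i : ℝ) ^ (3 / 2 : ℝ))⁻¹ else 0)
      ≤ (x / q) * kk (3 / 2) := by
    rw [← sum_filter]
    have hsub : (Icc 1 x).filter (fun i => q ∣ i) ⊆ (Icc 1 x).image (fun e => q * e) := by
      intro i hi
      rw [mem_filter, mem_Icc] at hi
      obtain ⟨e, rfl⟩ := hi.2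
      rw [mem_image]
      refine ⟨e, ?_, rfl⟩
      rw [mem_Icc]
      constructor
      · exact Nat.pos_of_mul_pos_left hi.1.1
      · exact (Nat.le_mul_of_pos_left _ hq.pos).trans hi.1.2
    refine (sum_le_sum_of_subset_of_nonneg hsub (fun i _ _ => by positivity)).trans ?_
    rw [sum_image (by
      intro a _ b _ h
      exact Nat.eq_of_mul_eq_mul_left hq.pos h)]
    have h10 : ∀ e ∈ Icc 1 x, (x : ℝ) * (((q * e : ℕ) : ℝ) ^ (3 / 2 : ℝ))⁻¹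
        ≤ (x / q) * ((e : ℝ) ^ (3 / 2 : ℝ))⁻¹ := by
      intro e he
      have he0 : (0 : ℝ) ≤ e := by positivity
      have hqq : (q : ℝ) ≤ (q : ℝ) ^ (3 / 2 : ℝ) := by
        calc (q : ℝ) = (q : ℝ) ^ (1 : ℝ) := (Real.rpow_one _).symm
          _ ≤ (q : ℝ) ^ (3 / 2 : ℝ) := Real.rpow_le_rpow_of_exponent_le hq1 (by norm_num)
      have hinv : ((q : ℝ) ^ (3 / 2 : ℝ))⁻¹ ≤ (q : ℝ)⁻¹ := inv_anti₀ hq0 hqq
      rw [Nat.cast_mul, Real.mul_rpow hq0.le he0, mul_inv, ← mul_assoc, div_eq_mul_inv]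
      have hx0 : (0 : ℝ) ≤ x := by positivity
      exact mul_le_mul_of_nonneg_right (mul_le_mul_of_nonneg_left hinv hx0) (by positivity)
    refine (sum_le_sum h10).trans ?_
    rw [← mul_sum]
    gcongr
  have hk := kk_nonneg (3 / 2)
  have h11 : (x / q : ℝ) * ∑ i ∈ Icc 1 x, ((i : ℝ) ^ (3 / 2 : ℝ))⁻¹ ≤ (x / q) * kk (3 / 2) := by
    gcongr
  have h12 : (2 * kk (3 / 2) + 2) * ((x : ℝ) / q)
      = (x / q) * kk (3 / 2) + 2 * (x / q) + (x / q) * kk (3 / 2) := by ring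
  rw [h12]
  linarith

theorem class_moment : ∃ C : ℝ, 1 ≤ C ∧ ∀ x q b : ℕ, q.Prime → q * q ≤ x →
    ∑ n ∈ (Icc 1 x).filter (fun n => n ≡ b [MOD q]), (sdiv n) ^ 4 ≤ C * (x / q) := by
  have k1 := kk_pos (a := 9 / 8) (by norm_num)
  have k2 := kk_pos (a := 5 / 4) (by norm_num)
  have k3 := kk_pos (a := 3 / 2) (by norm_num)
  refine ⟨(kk (9 / 8)) ^ 2 * kk (5 / 4) * (2 * kk (3 / 2) + 2), ?_, ?_⟩
  · have : 1 ≤ (kk (9 / 8)) ^ 2 := one_le_pow₀ k1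
    have h2 : 1 ≤ (kk (9 / 8)) ^ 2 * kk (5 / 4) := by nlinarith
    nlinarith
  · intro x q b hq hqx
    have h := class_sg x q b hq hqx
    calc ∑ n ∈ (Icc 1 x).filter (fun n => n ≡ b [MOD q]), (sdiv n) ^ 4
        ≤ ∑ n ∈ (Icc 1 x).filter (fun n => n ≡ b [MOD q]),
          (kk (9 / 8)) ^ 2 * kk (5 / 4) * sg (1 / 2) n := sum_le_sum fun n _ => sdiv_four_le n
      _ = (kk (9 / 8)) ^ 2 * kk (5 / 4) *
          ∑ n ∈ (Icc 1 x).filter (fun n => n ≡ b [MOD q]), sg (1 / 2) n := by rw [mul_sum]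
      _ ≤ (kk (9 / 8)) ^ 2 * kk (5 / 4) * ((2 * kk (3 / 2) + 2) * (x / q)) := by gcongr
      _ = _ := by ring

end Pool.Agent.Lib.MP_629a14_nt
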