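import Pool.Agent.Lib.MP_629a14_nt.Pair
import Pool.Agent.Lib.MP_629a14_nt.Phi

/-! Goldbach representations of the even numbers in residue classes to large prime moduli. -/

namespace Pool.Agent.Lib.MP_629a14_nt

open Finset Pool.Agent.Lib.MP_60b32f_nt

/-- Number of representations `n = p₁ + p₂` with `p₁ ∈ A` and `p₂ ∈ B`. -/
def reps (A B : Finset ℕ) (n : ℕ) : ℕ := ((A ×ˢ B).filter (fun y => y.1 + y.2 = n)).card

theorem wellDist_maj (R X : ℕ) (hR : 1 ≤ R) : WellDist (Icc 1 X) (maj R) ((R : ℝ) ^ 4) :=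
  fun Q hQ => maj_ap R X Q hR hQ

theorem reps_le_rep {A B : Finset ℕ} (hA : ∀ p ∈ A, p.Prime) (hB : ∀ p ∈ B, p.Prime) (n : ℕ) :
    reps A B n ≤ rep n := by
  unfold reps rep
  apply card_le_card_of_injOn (fun y : ℕ × ℕ => y.1)
  · rintro ⟨p, q⟩ hpq
    simp only [coe_filter, mem_product, Set.mem_ofPred_eq, mem_range] at hpq ⊢
    obtain ⟨⟨h1, h2⟩, h3⟩ := hpq
    have hq := (hB q h2).pos
    refine ⟨by omega, hA p h1, ?_⟩
    have : n - p = q := by omega
    rw [this]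
    exact hB q h2
  · rintro ⟨p, q⟩ hpq ⟨p', q'⟩ hpq' h
    simp only [coe_filter, mem_product, Set.mem_ofPred_eq] at hpq hpq' h
    simp only [Prod.mk.injEq]
    exact ⟨h, by omega⟩

theorem reps_mono {A B A' B' : Finset ℕ} (hA : A' ⊆ A) (hB : B' ⊆ B) (n : ℕ) :
    reps A' B' n ≤ reps A B n := by
  unfold reps
  exact card_le_card (filter_subset_filter _ (product_subset_product hA hB))

/-- The mass of the representations in a residue class. -/
theorem sum_reps {A B : Finset ℕ} {x : ℕ} (hA : ∀ p ∈ A, p.Prime ∧ 2 * p ≤ x)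
    (hB : ∀ p ∈ B, p.Prime ∧ 2 * p ≤ x) (q b : ℕ) :
    ((((A ×ˢ B).filter (fun y : ℕ × ℕ => ((y.1 + y.2 : ℕ) : ZMod q) = (b : ZMod q))).card : ℕ) : ℝ)
      = ∑ n ∈ (Icc 1 x).filter (fun n => n ≡ b [MOD q]), (reps A B n : ℝ) := by
  rw [card_eq_sum_card_fiberwise (f := fun y : ℕ × ℕ => y.1 + y.2)
    (t := (Icc 1 x).filter (fun n => n ≡ b [MOD q]))]
  · push_cast
    refine sum_congr rfl fun n hn => ?_
    unfold reps
    rw [filter_filter]
    congr 2
    ext y
    simp only [mem_filter, mem_Icc] at hn ⊢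
    constructor
    · rintro ⟨h1, _, h3⟩; exact ⟨h1, h3⟩
    · rintro ⟨h1, h3⟩
      refine ⟨h1, ?_, h3⟩
      rw [← Nat.cast_add, h3, ZMod.natCast_eq_natCast_iff]
      exact hn.2
  · intro y hy
    simp only [coe_filter, mem_product, Set.mem_ofPred_eq, mem_Icc] at hy ⊢
    obtain ⟨⟨h1, h2⟩, h3⟩ := hy
    have p1 := (hA _ h1).1.pos
    have l1 := (hA _ h1).2
    have l2 := (hB _ h2).2
    exact ⟨⟨by omega, by omega⟩, (ZMod.natCast_eq_natCast_iff _ _ _).1 h3⟩

/-- The comparison function. -/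
noncomputable def gg (n : ℕ) : ℝ := ((n : ℝ) / (Nat.totient n : ℝ)) * ((n : ℝ) / (Real.log n) ^ 2)

theorem gg_nonneg (n : ℕ) : 0 ≤ gg n := by unfold gg; positivity

theorem gg_le {x n : ℕ} (hn : 1 ≤ n) (hnx : n ≤ x) (hx : 2 ≤ x) :
    gg n ≤ 64 * (x / (Real.log x) ^ 2) * (sdiv n) ^ 4 := by
  have hx' : (2 : ℝ) ≤ x := by exact_mod_cast hx
  have hnx' : (n : ℝ) ≤ x := by exact_mod_cast hnx
  have hn' : (1 : ℝ) ≤ n := by exact_mod_cast hn
  have hlx : 0 < Real.log x := Real.log_pos (by linarith)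
  have hs := sdiv_pos n (by omega)
  have hphi := phi_bound n (by omega)
  have hmain : (n : ℝ) / (Real.log n) ^ 2 ≤ 64 * (x / (Real.log x) ^ 2) := by
    rcases Nat.lt_or_ge n 2 with h1 | h1
    · have : n = 1 := by omega
      rw [this]
      simp only [Nat.cast_one, Real.log_one, ne_eq, OfNat.ofNat_ne_zero, not_false_eq_true,
        zero_pow, div_zero]
      positivity
    have hn2 : (2 : ℝ) ≤ n := by exact_mod_cast h1
    by_cases h : (n : ℝ) ≤ Real.sqrt x
    · have h2 := log_sq_le x (by linarith)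
      have h3 : Real.log 2 ≤ Real.log n := Real.log_le_log (by norm_num) hn2
      have h4 := Real.log_two_gt_d9
      have h5 : (1 : ℝ) / 4 ≤ (Real.log n) ^ 2 := by nlinarith
      have h6 : (n : ℝ) / (Real.log n) ^ 2 ≤ Real.sqrt x / (1 / 4) := by gcongr
      refine h6.trans ?_
      rw [mul_div_assoc', div_le_div_iff₀ (by norm_num) (by positivity)]
      calc Real.sqrt x * (Real.log x) ^ 2 ≤ Real.sqrt x * (16 * Real.sqrt x) := by gcongr
        _ = 16 * (Real.sqrt x * Real.sqrt x) := by ring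
        _ = 16 * x := by rw [Real.mul_self_sqrt (by linarith)]
        _ = 64 * x * (1 / 4) := by ring
    · push Not at h
      have hsq : 0 < Real.sqrt x := Real.sqrt_pos.2 (by linarith)
      have hln : (1 / 2) * Real.log x ≤ Real.log n := by
        have h2 := Real.log_le_log hsq h.le
        rw [Real.log_sqrt (by linarith)] at h2
        linarith
      calc (n : ℝ) / (Real.log n) ^ 2 ≤ x / ((1 / 2) * Real.log x) ^ 2 := by gcongr
        _ = 4 * (x / (Real.log x) ^ 2) := by field_simp; norm_num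
        _ ≤ 64 * (x / (Real.log x) ^ 2) := by
            have : 0 ≤ x / (Real.log x) ^ 2 := by positivity
            linarith
  have h7 : (sdiv n) ^ 2 ≤ (sdiv n) ^ 4 := pow_le_pow_right₀ hs (by norm_num)
  unfold gg
  calc ((n : ℝ) / (Nat.totient n : ℝ)) * ((n : ℝ) / (Real.log n) ^ 2)
      ≤ (sdiv n) ^ 2 * (64 * (x / (Real.log x) ^ 2)) := by gcongr
    _ ≤ (sdiv n) ^ 4 * (64 * (x / (Real.log x) ^ 2)) := by gcongr
    _ = _ := by ring

/-- From pairs to popular even numbers. -/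
theorem popular {C : ℝ} (hC1 : 1 ≤ C)
    (hC : ∀ x q b : ℕ, q.Prime → q * q ≤ x →
      ∑ n ∈ (Icc 1 x).filter (fun n => n ≡ b [MOD q]), (sdiv n) ^ 4 ≤ C * (x / q))
    {x q b : ℕ} (hx : 2 ≤ x) (hq : q.Prime) (hqx : q * q ≤ x)
    {A B A' B' : Finset ℕ} (hA : A' ⊆ A) (hB : B' ⊆ B)
    (hA' : ∀ p ∈ A', p.Prime ∧ 2 * p ≤ x) (hB' : ∀ p ∈ B', p.Prime ∧ 2 * p ≤ x)
    (hA2 : ∀ p ∈ A', 2 < p) (hB2 : ∀ p ∈ B', 2 < p)
    {δ c : ℝ} (hδ : 0 < δ) (hc : 0 < c)
    (hcδ : 128 * C * c ≤ δ) (hcδ2 : 4 * 73920 ^ 2 * C * c ≤ δ ^ 2)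
    (hfirst : δ * (x / Real.log x) ^ 2 / q ≤
      ∑ n ∈ (Icc 1 x).filter (fun n => n ≡ b [MOD q]), (reps A' B' n : ℝ)) :
    c * x / q ≤ (((Icc 1 x).filter (fun n => Even n ∧ n ≡ b [MOD q] ∧
      c * gg n ≤ (reps A B n : ℝ))).card : ℝ) := by
  have hx' : (2 : ℝ) ≤ x := by exact_mod_cast hx
  have hq0 : (0 : ℝ) < q := by exact_mod_cast hq.pos
  have hlx : 0 < Real.log x := Real.log_pos (by linarith)
  set X : ℝ := (x : ℝ) / (Real.log x) ^ 2 with hX
  have hX0 : 0 < X := by rw [hX]; positivity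
  have hmom := hC x q b hq hqx
  set S := (Icc 1 x).filter (fun n => n ≡ b [MOD q]) with hS
  set T := (Icc 1 x).filter (fun n => Even n ∧ n ≡ b [MOD q] ∧
      c * gg n ≤ (reps A B n : ℝ)) with hT
  have hTS : T ⊆ S := by
    intro n hn
    rw [hT, mem_filter] at hn
    rw [hS, mem_filter]
    exact ⟨hn.1, hn.2.2.1⟩
  have hX2 : (x / Real.log x) ^ 2 = X * x := by
    rw [hX]
    field_simp
  -- outside T
  have hout : ∀ n ∈ S \ T, (reps A' B' n : ℝ) ≤ c * (64 * X * (sdiv n) ^ 4) := by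
    intro n hn
    rw [mem_sdiff, hS, mem_filter, mem_Icc] at hn
    obtain ⟨⟨⟨h1, h2⟩, h3⟩, h4⟩ := hn
    have hgle := gg_le h1 h2 hx
    rcases Nat.eq_zero_or_pos (reps A' B' n) with h5 | h5
    · rw [h5]
      have := sdiv_pos n h1
      simp only [Nat.cast_zero]
      positivity
    · -- n is even
      have hev : Even n := by
        unfold reps at h5
        obtain ⟨⟨p, r⟩, hy⟩ := card_pos.1 h5
        rw [mem_filter, mem_product] at hy
        obtain ⟨⟨ha, hb⟩, hs⟩ := hy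
        simp only at ha hb hs
        have o1 : Odd p := (hA' p ha).1.odd_of_ne_two (by have := hA2 p ha; omega)
        have o2 : Odd r := (hB' r hb).1.odd_of_ne_two (by have := hB2 r hb; omega)
        rw [← hs]
        exact o1.add_odd o2
      have h6 : (reps A B n : ℝ) < c * gg n := by
        by_contra hcon
        push Not at hcon
        exact h4 (by rw [hT, mem_filter, mem_Icc]; exact ⟨⟨h1, h2⟩, hev, h3, hcon⟩)
      have h7 : (reps A' B' n : ℝ) ≤ (reps A B n : ℝ) := by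
        exact_mod_cast reps_mono hA hB n
      calc (reps A' B' n : ℝ) ≤ c * gg n := by linarith
        _ ≤ c * (64 * X * (sdiv n) ^ 4) := by
            apply mul_le_mul_of_nonneg_left _ hc.le
            rw [hX]
            exact hgle
  have hsplit : ∑ n ∈ S, (reps A' B' n : ℝ) =
      ∑ n ∈ S \ T, (reps A' B' n : ℝ) + ∑ n ∈ T, (reps A' B' n : ℝ) :=
    (sum_sdiff hTS).symm
  have hoff : ∑ n ∈ S \ T, (reps A' B' n : ℝ) ≤ c * 64 * X * (C * (x / q)) := by
    calc ∑ n ∈ S \ T, (reps A' B' n : ℝ) ≤ ∑ n ∈ S \ T, c * (64 * X * (sdiv n) ^ 4) :=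
          sum_le_sum hout
      _ ≤ ∑ n ∈ S, c * (64 * X * (sdiv n) ^ 4) := by
          apply sum_le_sum_of_subset_of_nonneg sdiff_subset
          intro n _ _
          have : 0 ≤ sdiv n := by unfold sdiv; positivity
          positivity
      _ = c * 64 * X * ∑ n ∈ S, (sdiv n) ^ 4 := by
          rw [mul_sum]
          refine sum_congr rfl fun n _ => ?_
          ring
      _ ≤ c * 64 * X * (C * (x / q)) := by gcongr
  have hTlow : δ / 2 * (X * x) / q ≤ ∑ n ∈ T, (reps A' B' n : ℝ) := by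
    rw [hX2, hsplit] at hfirst
    have h8 : c * 64 * X * (C * (x / q)) ≤ δ / 2 * (X * x) / q := by
      have e1 : c * 64 * X * (C * (x / q)) = (128 * C * c) / 2 * (X * x) / q := by ring
      rw [e1]
      gcongr
    have e2 : δ * (X * x) / q = δ / 2 * (X * x) / q + δ / 2 * (X * x) / q := by ring
    linarith
  have hsec : ∑ n ∈ T, (reps A' B' n : ℝ) ^ 2 ≤ 73920 ^ 2 * X ^ 2 * (C * (x / q)) := by
    calc ∑ n ∈ T, (reps A' B' n : ℝ) ^ 2 ≤ ∑ n ∈ S, (reps A' B' n : ℝ) ^ 2 :=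
          sum_le_sum_of_subset_of_nonneg hTS (fun n _ _ => sq_nonneg _)
      _ ≤ ∑ n ∈ S, 73920 ^ 2 * X ^ 2 * (sdiv n) ^ 4 := by
          apply sum_le_sum
          intro n hn
          rw [hS, mem_filter, mem_Icc] at hn
          have h1 : (reps A' B' n : ℝ) ≤ rep n := by
            exact_mod_cast reps_le_rep (fun p hp => (hA' p hp).1) (fun p hp => (hB' p hp).1) n
          have h2 := rep_uniform x n hn.1.1 hn.1.2 hx
          rw [← hX] at h2
          calc (reps A' B' n : ℝ) ^ 2 ≤ (73920 * X * (sdiv n) ^ 2) ^ 2 := by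
                have := h1.trans h2
                gcongr
            _ = 73920 ^ 2 * X ^ 2 * (sdiv n) ^ 4 := by ring
      _ = 73920 ^ 2 * X ^ 2 * ∑ n ∈ S, (sdiv n) ^ 4 := by rw [mul_sum]
      _ ≤ 73920 ^ 2 * X ^ 2 * (C * (x / q)) := by gcongr
  have hcs : (∑ n ∈ T, (reps A' B' n : ℝ)) ^ 2 ≤ T.card * ∑ n ∈ T, (reps A' B' n : ℝ) ^ 2 :=
    sq_sum_le_card_mul_sum_sq
  have h9 : (δ / 2 * (X * x) / q) ^ 2 ≤ T.card * (73920 ^ 2 * X ^ 2 * (C * (x / q))) := by
    calc (δ / 2 * (X * x) / q) ^ 2 ≤ (∑ n ∈ T, (reps A' B' n : ℝ)) ^ 2 := by gcongr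
      _ ≤ T.card * ∑ n ∈ T, (reps A' B' n : ℝ) ^ 2 := hcs
      _ ≤ T.card * (73920 ^ 2 * X ^ 2 * (C * (x / q))) := by gcongr
  -- conclude
  have hxq : 0 < (x : ℝ) / q := by positivity
  have h10 : (X ^ 2 * (x / q)) * (δ ^ 2 * (x / q)) ≤
      (X ^ 2 * (x / q)) * (T.card * (4 * 73920 ^ 2 * C)) := by
    have e3 : (δ / 2 * (X * x) / q) ^ 2 = (X ^ 2 * (x / q)) * (δ ^ 2 * (x / q)) / 4 := by
      ring
    rw [e3] at h9
    have e4 : (X ^ 2 * (x / q)) * (T.card * (4 * 73920 ^ 2 * C)) =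
        4 * (T.card * (73920 ^ 2 * X ^ 2 * (C * (x / q)))) := by ring
    rw [e4]
    linarith
  have h11 : δ ^ 2 * (x / q) ≤ T.card * (4 * 73920 ^ 2 * C) :=
    le_of_mul_le_mul_left h10 (by positivity)
  have h12 : (4 * 73920 ^ 2 * C) * (c * x / q) ≤ (4 * 73920 ^ 2 * C) * T.card := by
    calc (4 * 73920 ^ 2 * C) * (c * x / q) = (4 * 73920 ^ 2 * C * c) * (x / q) := by ring
      _ ≤ δ ^ 2 * (x / q) := by gcongr
      _ ≤ T.card * (4 * 73920 ^ 2 * C) := h11
      _ = (4 * 73920 ^ 2 * C) * T.card := by ring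
  exact le_of_mul_le_mul_left h12 (by positivity)

/-- Sublinear powers are eventually below `x / log x`. -/
theorem eventually_small (D s : ℝ) (hs : s < 1) :
    ∃ x0 : ℕ, ∀ x : ℕ, x0 ≤ x → D * (x : ℝ) ^ s ≤ x / Real.log x := by
  rcases le_or_gt D 0 with hD | hD
  · refine ⟨1, fun x hx => ?_⟩
    have hx' : (1 : ℝ) ≤ x := by exact_mod_cast hx
    have h1 : 0 ≤ Real.log x := Real.log_nonneg hx'
    have h2 : 0 ≤ (x : ℝ) ^ s := by positivity
    have h3 : 0 ≤ x / Real.log x := by positivity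
    nlinarith
  have h := isLittleO_log_rpow_atTop (show 0 < 1 - s by linarith)
  have h2 := h.bound (show (0 : ℝ) < 1 / D by positivity)
  have h3 := (tendsto_natCast_atTop_atTop (R := ℝ)).eventually h2
  rw [Filter.eventually_atTop] at h3
  obtain ⟨x0, hx0⟩ := h3
  refine ⟨max x0 2, fun x hx => ?_⟩
  have h4 := hx0 x ((le_max_left _ _).trans hx)
  have hx2 : (2 : ℝ) ≤ x := by exact_mod_cast (le_max_right _ _).trans hx
  have hlog : 0 < Real.log x := Real.log_pos (by linarith)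
  rw [Real.norm_of_nonneg hlog.le, Real.norm_of_nonneg (by positivity)] at h4
  rw [le_div_iff₀ hlog]
  calc D * (x : ℝ) ^ s * Real.log x ≤ D * (x : ℝ) ^ s * (1 / D * (x : ℝ) ^ (1 - s)) := by gcongr
    _ = (x : ℝ) ^ s * (x : ℝ) ^ (1 - s) := by field_simp
    _ = x := by
        rw [← Real.rpow_add (by linarith)]
        simp

theorem main (θ α : ℝ) (hθ : θ < 1 / 2) (hα : 0 < α) :
    ∃ c : ℝ, 0 < c ∧ ∃ K x₀ : ℕ, ∀ x : ℕ, x₀ ≤ x → ∀ A B : Finset ℕ,
      (∀ p ∈ A, p.Prime ∧ 2 * p ≤ x) → (∀ p ∈ B, p.Prime ∧ 2 * p ≤ x) →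
      α * x / Real.log x ≤ A.card → α * x / Real.log x ≤ B.card →
      ∃ E : Finset ℕ, E.card ≤ K ∧ ∀ q : ℕ, q.Prime → (q : ℝ) ≤ (x : ℝ) ^ θ → q ∉ E →
        ∀ b : ℕ, c * x / q ≤ (((Icc 1 x).filter (fun n => Even n ∧ n ≡ b [MOD q] ∧
          c * gg n ≤ (reps A B n : ℝ))).card : ℝ) := by
  wlog hθ0 : 0 ≤ θ generalizing θ
  · obtain ⟨c, hc, K, x₀, h⟩ := this 0 (by norm_num) le_rfl
    refine ⟨c, hc, K, max x₀ 1, fun x hx A B hA hB hAc hBc => ?_⟩
    obtain ⟨E, hE, h2⟩ := h x ((le_max_left _ _).trans hx) A B hA hB hAc hBc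
    refine ⟨E, hE, fun q hq hqx hqE b => h2 q hq (hqx.trans ?_) hqE b⟩
    have hx1 : (1 : ℝ) ≤ x := by exact_mod_cast (le_max_right _ _).trans hx
    exact Real.rpow_le_rpow_of_exponent_le hx1 (by linarith)
  obtain ⟨C, hC1, hC⟩ := class_moment
  set η : ℝ := (1 - 2 * θ) / 8 with hη
  have hη0 : 0 < η := by rw [hη]; linarith
  have hη8 : η ≤ 1 / 8 := by rw [hη]; linarith
  set C1 : ℝ := max 1 (10 / (η * α)) with hC1def
  have hC1one : 1 ≤ C1 := le_max_left _ _
  have hC1ten : 10 / (η * α) ≤ C1 := le_max_right _ _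
  set K0 : ℕ := ⌊2 * C1 + 2⌋₊ with hK0
  set Q0 : ℕ := ⌈64 * C1 + 1⌉₊ with hQ0
  set δ : ℝ := α ^ 2 / 16 with hδ
  have hδ0 : 0 < δ := by rw [hδ]; positivity
  set c : ℝ := min (δ / (128 * C)) (δ ^ 2 / (4 * 73920 ^ 2 * C)) with hc
  have hc0 : 0 < c := by rw [hc]; positivity
  have hcδ : 128 * C * c ≤ δ := by
    have : c ≤ δ / (128 * C) := min_le_left _ _
    rw [le_div_iff₀ (by positivity)] at this
    linarith
  have hcδ2 : 4 * 73920 ^ 2 * C * c ≤ δ ^ 2 := by
    have : c ≤ δ ^ 2 / (4 * 73920 ^ 2 * C) := min_le_right _ _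
    rw [le_div_iff₀ (by positivity)] at this
    linarith
  obtain ⟨x1, hx1⟩ := eventually_small (2 / α) η (by linarith)
  obtain ⟨x2, hx2⟩ := eventually_small η (4 * η) (by linarith)
  obtain ⟨x3, hx3⟩ := eventually_small (24 * (K0 + 1) / α) (4 * η + 2 * θ) (by rw [hη]; linarith)
  obtain ⟨x4, hx4⟩ := eventually_small (256 / α) (4 * η) (by linarith)
  obtain ⟨x5, hx5⟩ := eventually_small (64 / α) 0 (by norm_num)
  obtain ⟨x6, hx6⟩ := Filter.eventually_atTop.1
    ((tendsto_natCast_atTop_atTop (R := ℝ)).eventually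
      ((tendsto_rpow_atTop hη0).eventually_ge_atTop 2))
  refine ⟨c, hc0, 2 * K0 + (Q0 + 1), max x1 (max x2 (max x3 (max x4 (max x5 (max x6 2))))),
    fun x hx A B hA hB hAc hBc => ?_⟩
  simp only [max_le_iff] at hx
  obtain ⟨g1, g2, g3, g4, g5, g6, g7⟩ := hx
  have f1 := hx1 x g1
  have f2 := hx2 x g2
  have f3 := hx3 x g3
  have f4 := hx4 x g4
  have f5 := hx5 x g5
  have f6 : (2 : ℝ) ≤ (x : ℝ) ^ η := hx6 x g6
  have hxr : (2 : ℝ) ≤ x := by exact_mod_cast g7
  have hx0 : (0 : ℝ) < x := by linarith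
  have hlog : 0 < Real.log x := Real.log_pos (by linarith)
  set ξ : ℝ := x / Real.log x with hξ
  have hξ0 : 0 < ξ := by rw [hξ]; positivity
  set R : ℕ := ⌊(x : ℝ) ^ η⌋₊ with hR
  have hRle : (R : ℝ) ≤ (x : ℝ) ^ η := Nat.floor_le (by positivity)
  have hRlt : (x : ℝ) ^ η < R + 1 := Nat.lt_floor_add_one _
  have hR2 : 2 ≤ R := by
    rw [hR]
    exact Nat.le_floor (by exact_mod_cast f6)
  have hR1 : 1 ≤ R := by omega
  set L : ℝ := (R : ℝ) ^ 4 with hL
  have hL0 : 0 ≤ L := by rw [hL]; positivity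
  have hLle : L ≤ (x : ℝ) ^ (4 * η) := by
    rw [hL]
    calc (R : ℝ) ^ 4 ≤ ((x : ℝ) ^ η) ^ 4 := by gcongr
      _ = (x : ℝ) ^ (4 * η) := by
          rw [← Real.rpow_natCast, ← Real.rpow_mul hx0.le]
          congr 1
          push_cast
          ring
  set I : Finset ℕ := Icc 1 x with hI
  have hw : WellDist I (maj R) L := wellDist_maj R x hR1
  have h0 : ∀ n, 0 ≤ maj R n := maj_nonneg R
  set N : ℝ := ∑ n ∈ I, maj R n with hN
  have hNle : N ≤ 5 * ξ / η := by
    have h1 := maj_total R x hR1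
    have h2 : η * Real.log x ≤ Real.log (R + 1) := by
      rw [← Real.log_rpow hx0]
      exact Real.log_le_log (by positivity) hRlt.le
    have h3 : 4 * (x : ℝ) / Real.log (R + 1) ≤ 4 * ξ / η := by
      calc 4 * (x : ℝ) / Real.log (R + 1) ≤ 4 * x / (η * Real.log x) := by gcongr
        _ = 4 * ξ / η := by rw [hξ]; field_simp
    have h4 : L ≤ ξ / η := by
      rw [le_div_iff₀ hη0]
      calc L * η ≤ (x : ℝ) ^ (4 * η) * η := by gcongr
        _ = η * (x : ℝ) ^ (4 * η) := by ring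
        _ ≤ ξ := f2
    have e : 5 * ξ / η = 4 * ξ / η + ξ / η := by ring
    rw [e]
    linarith
  -- generic facts for a dense set of primes
  have key : ∀ P : Finset ℕ, (∀ p ∈ P, p.Prime ∧ 2 * p ≤ x) → α * x / Real.log x ≤ P.card →
      ∃ P' : Finset ℕ, P' ⊆ P ∧ P' ⊆ I ∧ (∀ p ∈ P', 2 < p) ∧ (∀ p ∈ P', 1 ≤ maj R p) ∧
        α / 2 * ξ ≤ P'.card ∧ N ≤ C1 * P'.card ∧ 128 * L ≤ P'.card ∧ (32 : ℝ) ≤ P'.card ∧
        ∃ E : Finset ℕ, E.card ≤ K0 ∧ ∀ q : ℕ, q.Prime → (q : ℝ) ≤ (x : ℝ) ^ θ → q ∉ E →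
          2 * (((q : ℝ) - 1) * vari P' q) ≤ (P'.card : ℝ) ^ 2 := by
    intro P hP hPc
    refine ⟨P.filter (fun p => R < p), filter_subset _ _, ?_, ?_, ?_, ?_⟩
    · intro p hp
      rw [mem_filter] at hp
      have h1 := hP p hp.1
      rw [hI, mem_Icc]
      exact ⟨h1.1.pos, by omega⟩
    · intro p hp
      rw [mem_filter] at hp
      omega
    · intro p hp
      rw [mem_filter] at hp
      rw [maj_prime hR1 (hP p hp.1).1 hp.2]
    set P' := P.filter (fun p => R < p) with hP'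
    have hcard : α / 2 * ξ ≤ P'.card := by
      have h1 : P.card ≤ P'.card + R := by
        have h2 := card_filter_add_card_filter_not (s := P) (fun p => R < p)
        rw [← hP'] at h2
        have h3 : (P.filter (fun p => ¬ R < p)).card ≤ R := by
          have : P.filter (fun p => ¬ R < p) ⊆ Icc 1 R := by
            intro p hp
            rw [mem_filter] at hp
            rw [mem_Icc]
            exact ⟨(hP p hp.1).1.pos, by omega⟩
          simpa using card_le_card this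
        omega
      have h1' : (P.card : ℝ) ≤ P'.card + R := by exact_mod_cast h1
      have h4 : (R : ℝ) ≤ α / 2 * ξ := by
        calc (R : ℝ) ≤ (x : ℝ) ^ η := hRle
          _ = α / 2 * (2 / α * (x : ℝ) ^ η) := by field_simp
          _ ≤ α / 2 * ξ := by gcongr
      have h5 : α * x / Real.log x = α * ξ := by rw [hξ]; ring
      rw [h5] at hPc
      linarith
    have hNc : N ≤ C1 * P'.card := by
      calc N ≤ 5 * ξ / η := hNle
        _ = 10 / (η * α) * (α / 2 * ξ) := by field_simp; ring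
        _ ≤ C1 * P'.card := by gcongr
    have hLc : 128 * L ≤ P'.card := by
      refine le_trans ?_ hcard
      calc 128 * L ≤ 128 * (x : ℝ) ^ (4 * η) := by gcongr
        _ = α / 2 * (256 / α * (x : ℝ) ^ (4 * η)) := by field_simp; ring
        _ ≤ α / 2 * ξ := by gcongr
    have h32 : (32 : ℝ) ≤ P'.card := by
      refine le_trans ?_ hcard
      calc (32 : ℝ) = α / 2 * (64 / α * (x : ℝ) ^ (0 : ℝ)) := by
            rw [Real.rpow_zero]; field_simp; norm_num
        _ ≤ α / 2 * ξ := by gcongr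
    refine ⟨hcard, hNc, hLc, h32, ?_⟩
    -- the bad primes
    classical
    set Bad : Finset ℕ := (Icc 1 x).filter (fun q => q.Prime ∧ (q : ℝ) ≤ (x : ℝ) ^ θ ∧
      (P'.card : ℝ) ^ 2 < 2 * (((q : ℝ) - 1) * vari P' q)) with hBad
    have hPpos : 0 < P'.card := by
      have : (0 : ℝ) < P'.card := by linarith
      exact_mod_cast this
    have hPr : (0 : ℝ) < P'.card := by linarith
    refine ⟨Bad, ?_, ?_⟩
    · by_contra hcon
      push Not at hcon
      obtain ⟨B0, hB0, hB0c⟩ := exists_subset_card_eq (s := Bad) (n := K0 + 1) hcon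
      have hmem : ∀ q ∈ B0, q.Prime ∧ (q : ℝ) ≤ (x : ℝ) ^ θ ∧
          (P'.card : ℝ) ^ 2 < 2 * (((q : ℝ) - 1) * vari P' q) := by
        intro q hq
        exact (mem_filter.1 (hB0 hq)).2
      have hsmall : 12 * L * B0.card * ((x : ℝ) ^ θ) ^ 2 ≤ P'.card := by
        refine le_trans ?_ hcard
        rw [hB0c]
        have e1 : ((x : ℝ) ^ θ) ^ 2 = (x : ℝ) ^ (2 * θ) := by
          rw [← Real.rpow_natCast, ← Real.rpow_mul hx0.le]
          congr 1
          push_cast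
          ring
        rw [e1]
        calc 12 * L * ((K0 + 1 : ℕ) : ℝ) * (x : ℝ) ^ (2 * θ)
            ≤ 12 * (x : ℝ) ^ (4 * η) * ((K0 + 1 : ℕ) : ℝ) * (x : ℝ) ^ (2 * θ) := by gcongr
          _ = α / 2 * (24 * (K0 + 1) / α * (x : ℝ) ^ (4 * η + 2 * θ)) := by
              rw [Real.rpow_add hx0]
              push_cast
              field_simp
              ring
          _ ≤ α / 2 * ξ := by gcongr
      have hPI : P' ⊆ I := by
        intro p hp
        rw [hP', mem_filter] at hp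
        have h1 := hP p hp.1
        rw [hI, mem_Icc]
        exact ⟨h1.1.pos, by omega⟩
      have hP1 : ∀ p ∈ P', 1 ≤ maj R p := by
        intro p hp
        rw [hP', mem_filter] at hp
        rw [maj_prime hR1 (hP p hp.1).1 hp.2]
      have hb := bad_card h0 hL0 hw P' hPI hP1 hPpos B0 (fun q hq => (hmem q hq).1)
        (fun q hq => (hmem q hq).2.1) (fun q hq => (hmem q hq).2.2) hsmall
      have h1 : (B0.card : ℝ) ≤ 2 * C1 + 2 := by
        refine hb.trans ?_
        have h2 : 2 * N / (P'.card : ℝ) ≤ 2 * C1 := by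
          rw [div_le_iff₀ hPr]
          linarith
        linarith
      have h3 : B0.card ≤ K0 := by
        rw [hK0]
        exact Nat.le_floor h1
      omega
    · intro q hq hqx hqB
      by_contra hcon
      push Not at hcon
      apply hqB
      rw [hBad, mem_filter, mem_Icc]
      refine ⟨⟨hq.pos, ?_⟩, hq, hqx, hcon⟩
      have h1 : (q : ℝ) ≤ x := by
        refine hqx.trans ?_
        calc (x : ℝ) ^ θ ≤ (x : ℝ) ^ (1 : ℝ) :=
              Real.rpow_le_rpow_of_exponent_le (by linarith) (by linarith)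
          _ = x := Real.rpow_one _
      exact_mod_cast h1
  obtain ⟨A', hA'A, hA'I, hA'2, hA'1, hA'c, hA'N, hA'L, hA'32, EA, hEA, hA'good⟩ := key A hA hAc
  obtain ⟨B', hB'B, hB'I, hB'2, hB'1, hB'c, hB'N, hB'L, hB'32, EB, hEB, hB'good⟩ := key B hB hBc
  refine ⟨(EA ∪ EB) ∪ range (Q0 + 1), ?_, ?_⟩
  · have h1 := card_union_le (EA ∪ EB) (range (Q0 + 1))
    have h2 := card_union_le EA EB
    rw [card_range] at h1
    omega
  · intro q hq hqx hqE b
    rw [mem_union, mem_union, mem_range] at hqE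
    push Not at hqE
    obtain ⟨⟨hqA, hqB⟩, hqQ⟩ := hqE
    have hqC : 64 * C1 + 1 ≤ (q : ℝ) := by
      have h1 : (64 * C1 + 1) ≤ (Q0 : ℝ) := Nat.le_ceil _
      have h2 : (Q0 : ℝ) + 1 ≤ q := by exact_mod_cast hqQ
      linarith
    have hqq : q * q ≤ x := by
      have h1 : (q : ℝ) * q ≤ x := by
        have h2 : (q : ℝ) ≤ (x : ℝ) ^ (1 / 2 : ℝ) := hqx.trans
          (Real.rpow_le_rpow_of_exponent_le (by linarith) (by linarith))
        have hq0 : (0 : ℝ) ≤ q := by positivity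
        calc (q : ℝ) * q ≤ (x : ℝ) ^ (1 / 2 : ℝ) * (x : ℝ) ^ (1 / 2 : ℝ) := by gcongr
          _ = x := by
              rw [← Real.rpow_add hx0]
              norm_num
      exact_mod_cast h1
    have hA'p : ∀ p ∈ A', p.Prime ∧ 2 * p ≤ x := fun p hp => hA p (hA'A hp)
    have hB'p : ∀ p ∈ B', p.Prime ∧ 2 * p ≤ x := fun p hp => hB p (hB'B hp)
    have hpair := pair_lower h0 hL0 hw hA'I hB'I hA'1 hB'1 (fun p hp => (hA'p p hp).1)
      (fun p hp => (hB'p p hp).1) hq (hA'good q hq hqx hqA) (hB'good q hq hqx hqB) hC1one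
      hA'N hB'N hqC hA'L hB'L hA'32 hB'32 (b : ZMod q)
    rw [sum_reps hA'p hB'p q b] at hpair
    refine popular hC1 hC g7 hq hqq hA'A hB'B hA'p hB'p hA'2 hB'2 hδ0 hc0 hcδ hcδ2 ?_
    refine le_trans ?_ hpair
    have hq0 : (0 : ℝ) < q := by exact_mod_cast hq.pos
    calc δ * (x / Real.log x) ^ 2 / q = (α / 2 * ξ) * (α / 2 * ξ) / (4 * q) := by
          rw [hδ, hξ]; field_simp; ring
      _ ≤ (A'.card : ℝ) * B'.card / (4 * q) := by gcongr

end Pool.Agent.Lib.MP_629a14_nt
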