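import Pool.Agent.Lib.MP_629a14_nt.LargeSieve
import Pool.Agent.Lib.MP_629a14_nt.RatioMoment
import Pool.Agent.Lib.MP_629a14_nt.Top

/-! Goldbach representations in residue classes modulo almost all primes. -/

set_option autoImplicit false

namespace Pool.Agent.Lib.MP_629a14_nt

open Finset Pool.Agent.Lib.MP_60b32f_nt

/-! ### Pairs with a prescribed sum modulo `q` -/

theorem eS_zero (A : Finset ℕ) (q : ℕ) : eS A q 0 = A.card := by
  unfold eS
  simp [ee_zero]

theorem nonzeroMass_nonneg (A : Finset ℕ) (q : ℕ) : 0 ≤ nonzeroMass A q :=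
  sum_nonneg fun _ _ => by positivity

theorem pairs_lower (A B : Finset ℕ) {q : ℕ} (hq : 0 < q) (b : ℕ) :
    (A.card : ℝ) * B.card - Real.sqrt (nonzeroMass A q * nonzeroMass B q) ≤
      q * (((A ×ˢ B).filter (fun y : ℕ × ℕ => ((y.1 + y.2 : ℕ) : ZMod q) = (b : ZMod q))).card : ℝ) := by
  set T := (A ×ˢ B).filter (fun y : ℕ × ℕ => ((y.1 + y.2 : ℕ) : ZMod q) = (b : ZMod q)) with hT
  have h1 : ((q * (T.card : ℝ) : ℝ) : ℂ) =
      ∑ a ∈ range q, eS A q a * eS B q a * ee (-((b : ℝ) * ((a : ℝ) / q))) := by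
    have h2 : ∀ y ∈ A ×ˢ B, ∑ a ∈ range q,
        ee ((a : ℝ) * ((((y.1 : ℤ) + y.2 - b : ℤ) : ℝ) / q)) =
        if ((y.1 + y.2 : ℕ) : ZMod q) = (b : ZMod q) then (q : ℂ) else 0 := by
      intro y _
      rw [sum_ee_range q hq]
      congr 1
      rw [eq_iff_iff, ← ZMod.intCast_zmod_eq_zero_iff_dvd]
      push_cast
      rw [sub_eq_zero]
    have h3 : ((q * (T.card : ℝ) : ℝ) : ℂ) = ∑ y ∈ A ×ˢ B, ∑ a ∈ range q,
        ee ((a : ℝ) * ((((y.1 : ℤ) + y.2 - b : ℤ) : ℝ) / q)) := by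
      rw [sum_congr rfl h2, ← sum_filter, sum_const, nsmul_eq_mul, ← hT]
      push_cast
      ring
    rw [h3, sum_comm]
    refine sum_congr rfl fun a _ => ?_
    unfold eS
    rw [sum_mul_sum, ← sum_product', sum_mul]
    refine sum_congr rfl fun y _ => ?_
    rw [← ee_add, ← ee_add]
    congr 1
    push_cast
    ring
  have h4 : ∑ a ∈ range q, eS A q a * eS B q a * ee (-((b : ℝ) * ((a : ℝ) / q))) =
      (A.card : ℂ) * B.card + ∑ a ∈ Ico 1 q, eS A q a * eS B q a *
        ee (-((b : ℝ) * ((a : ℝ) / q))) := by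
    rw [range_eq_Ico, sum_eq_sum_Ico_succ_bot hq, eS_zero, eS_zero]
    congr 1
    simp [ee_zero]
  have h5 : ‖∑ a ∈ Ico 1 q, eS A q a * eS B q a * ee (-((b : ℝ) * ((a : ℝ) / q)))‖ ≤
      Real.sqrt (nonzeroMass A q * nonzeroMass B q) := by
    calc _ ≤ ∑ a ∈ Ico 1 q, ‖eS A q a‖ * ‖eS B q a‖ := by
          refine (norm_sum_le _ _).trans (le_of_eq (sum_congr rfl fun a _ => ?_))
          rw [norm_mul, norm_mul, norm_ee, mul_one]
      _ ≤ Real.sqrt (nonzeroMass A q * nonzeroMass B q) := by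
          apply Real.le_sqrt_of_sq_le
          unfold nonzeroMass
          exact sum_mul_sq_le_sq_mul_sq _ _ _
  have h6 : (A.card : ℝ) * B.card - q * (T.card : ℝ) ≤
      ‖∑ a ∈ Ico 1 q, eS A q a * eS B q a * ee (-((b : ℝ) * ((a : ℝ) / q)))‖ := by
    have h7 : ∑ a ∈ Ico 1 q, eS A q a * eS B q a * ee (-((b : ℝ) * ((a : ℝ) / q))) =
        ((q * (T.card : ℝ) - (A.card : ℝ) * B.card : ℝ) : ℂ) := by
      have h8 := h1
      rw [h4] at h8
      push_cast at h8 ⊢
      linear_combination -h8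
    rw [h7, Complex.norm_real, Real.norm_eq_abs]
    have := neg_abs_le ((q : ℝ) * (T.card : ℝ) - (A.card : ℝ) * B.card)
    linarith
  linarith

theorem mass_lower (A : Finset ℕ) {q : ℕ} (hq : 0 < q) :
    (q : ℝ) * A.card ≤ (A.card : ℝ) ^ 2 + nonzeroMass A q := by
  set T := (A ×ˢ A).filter (fun y : ℕ × ℕ => (q : ℤ) ∣ (y.1 : ℤ) - y.2) with hT
  have h1 : ((q * (T.card : ℝ) : ℝ) : ℂ) = ((∑ a ∈ range q, ‖eS A q a‖ ^ 2 : ℝ) : ℂ) := by
    have h2 : ∀ y ∈ A ×ˢ A, ∑ a ∈ range q,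
        ee ((a : ℝ) * ((((y.1 : ℤ) - y.2 : ℤ) : ℝ) / q)) =
        if (q : ℤ) ∣ (y.1 : ℤ) - y.2 then (q : ℂ) else 0 := fun y _ => sum_ee_range q hq _
    have h3 : ((q * (T.card : ℝ) : ℝ) : ℂ) = ∑ y ∈ A ×ˢ A, ∑ a ∈ range q,
        ee ((a : ℝ) * ((((y.1 : ℤ) - y.2 : ℤ) : ℝ) / q)) := by
      rw [sum_congr rfl h2, ← sum_filter, sum_const, nsmul_eq_mul, ← hT]
      push_cast
      ring
    rw [h3, sum_comm, Complex.ofReal_sum]
    refine sum_congr rfl fun a _ => ?_
    rw [Complex.ofReal_pow, ← Complex.mul_conj']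
    unfold eS
    rw [map_sum, sum_mul_sum, ← sum_product']
    refine sum_congr rfl fun y _ => ?_
    rw [conj_ee, ← ee_add]
    congr 1
    push_cast
    ring
  have h4 : (q : ℝ) * T.card = ∑ a ∈ range q, ‖eS A q a‖ ^ 2 := by exact_mod_cast h1
  have h5 : ∑ a ∈ range q, ‖eS A q a‖ ^ 2 = (A.card : ℝ) ^ 2 + nonzeroMass A q := by
    rw [range_eq_Ico, sum_eq_sum_Ico_succ_bot hq, eS_zero]
    unfold nonzeroMass
    simp
  have h6 : A.card ≤ T.card := by
    apply card_le_card_of_injOn (fun a => (a, a))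
    · intro a ha
      simp only [hT, coe_filter, Set.mem_ofPred_eq, mem_product]
      exact ⟨⟨ha, ha⟩, by simp⟩
    · intro a _ b _ h
      simpa using h
  rw [← h5, ← h4]
  have : (A.card : ℝ) ≤ T.card := by exact_mod_cast h6
  gcongr

/-! ### Moments of `n / φ(n)` in short residue classes -/

theorem rt_mul_prime {q m : ℕ} (hq : q.Prime) (hm : 0 < m) : rt (q * m) ≤ 2 * rt m := by
  unfold rt
  have h1 := Nat.totient_super_multiplicative q m
  have hφm : 0 < m.totient := Nat.totient_pos.2 hm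
  have hq2 := hq.two_le
  have h2 : (q - 1) * m.totient ≤ (q * m).totient := by
    rwa [Nat.totient_prime hq] at h1
  have h3 : (q : ℝ) ≤ 2 * ((q - 1 : ℕ) : ℝ) := by
    have : q ≤ 2 * (q - 1) := by omega
    exact_mod_cast this
  have h4 : (0 : ℝ) < m.totient := by exact_mod_cast hφm
  have h5 : (((q - 1 : ℕ) : ℝ)) * m.totient ≤ (q * m).totient := by exact_mod_cast h2
  have h6 : (0 : ℝ) < ((q - 1 : ℕ) : ℝ) := by
    have : 0 < q - 1 := by omega
    exact_mod_cast this
  have h7 : (0 : ℝ) < (q * m).totient := lt_of_lt_of_le (by positivity) h5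
  rw [div_le_iff₀ h7]
  push_cast
  calc (q : ℝ) * m ≤ (2 * ((q - 1 : ℕ) : ℝ)) * m := by gcongr
    _ = 2 * (m / m.totient) * (((q - 1 : ℕ) : ℝ) * m.totient) := by field_simp
    _ ≤ 2 * (m / m.totient) * ((q * m).totient : ℝ) := by gcongr

/-- the constant -/
noncomputable def bdhC : ℝ := 16 * (Real.exp 12 * (Real.exp (4 * Real.exp 2) + Real.exp 16))

theorem class_moment_short {x q b Y : ℕ} (hq : q.Prime) (hY : 2 ≤ Y) (hxY : Real.log x ≤ Y) :
    ∑ n ∈ (Icc 1 x).filter (fun n => n ≡ b [MOD q]), (rt n) ^ 4 ≤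
      bdhC * ((x : ℝ) / q + (Real.log Y) ^ 4) := by
  have hq0 : (0 : ℝ) < q := by exact_mod_cast hq.pos
  have hlY : 0 ≤ (Real.log Y) ^ 4 := by positivity
  have hlog : ∀ n : ℕ, 1 ≤ n → n ≤ x → Real.log n ≤ Y := by
    intro n h1 h2
    refine le_trans (Real.log_le_log (by exact_mod_cast h1) (by exact_mod_cast h2)) hxY
  have hfin : ∀ c : ℝ, 0 ≤ c → c ≤ 16 → c * (Real.exp 12 * ((x : ℝ) / q * Real.exp (4 * Real.exp 2) +
      1 * (Real.exp 16 * (Real.log Y) ^ 4))) ≤ bdhC * ((x : ℝ) / q + (Real.log Y) ^ 4) := by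
    intro c hc0 hc
    unfold bdhC
    have e1 : 0 ≤ (x : ℝ) / q := by positivity
    have e2 := Real.exp_pos 12
    have e3 := Real.exp_pos (4 * Real.exp 2)
    have e4 := Real.exp_pos 16
    calc c * (Real.exp 12 * ((x : ℝ) / q * Real.exp (4 * Real.exp 2) +
          1 * (Real.exp 16 * (Real.log Y) ^ 4)))
        ≤ 16 * (Real.exp 12 * ((x : ℝ) / q * Real.exp (4 * Real.exp 2) +
          1 * (Real.exp 16 * (Real.log Y) ^ 4))) := by gcongr
      _ ≤ 16 * (Real.exp 12 * ((x : ℝ) / q * (Real.exp (4 * Real.exp 2) + Real.exp 16) +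
          (Real.exp (4 * Real.exp 2) + Real.exp 16) * (Real.log Y) ^ 4)) := by
          have f1 : (x : ℝ) / q * Real.exp (4 * Real.exp 2) ≤
              (x : ℝ) / q * (Real.exp (4 * Real.exp 2) + Real.exp 16) := by
            apply mul_le_mul_of_nonneg_left _ e1
            linarith
          have f2 : 1 * (Real.exp 16 * (Real.log Y) ^ 4) ≤
              (Real.exp (4 * Real.exp 2) + Real.exp 16) * (Real.log Y) ^ 4 := by
            rw [one_mul]
            apply mul_le_mul_of_nonneg_right _ hlY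
            linarith
          gcongr
      _ = _ := by ring
  by_cases hb : q ∣ b
  · -- multiples of `q`
    have h1 : ∑ n ∈ (Icc 1 x).filter (fun n => n ≡ b [MOD q]), (rt n) ^ 4 ≤
        ∑ m ∈ Icc 1 (x / q), 16 * (rt m) ^ 4 := by
      have h2 : (Icc 1 x).filter (fun n => n ≡ b [MOD q]) ⊆ (Icc 1 (x / q)).image (fun m => q * m) := by
        intro n hn
        rw [mem_filter, mem_Icc] at hn
        have h3 : q ∣ n := (hn.2.dvd_iff dvd_rfl).2 hb
        obtain ⟨m, rfl⟩ := h3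
        rw [mem_image]
        refine ⟨m, ?_, rfl⟩
        rw [mem_Icc]
        refine ⟨?_, ?_⟩
        · by_contra h
          have : m = 0 := by omega
          rw [this] at hn
          omega
        · rw [Nat.le_div_iff_mul_le hq.pos]
          rw [mul_comm]
          exact hn.1.2
      calc _ ≤ ∑ n ∈ (Icc 1 (x / q)).image (fun m => q * m), (rt n) ^ 4 :=
            sum_le_sum_of_subset_of_nonneg h2 (fun n _ _ => by
              have := rt_nonneg n
              positivity)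
        _ = ∑ m ∈ Icc 1 (x / q), (rt (q * m)) ^ 4 := by
            rw [sum_image]
            intro a _ b _ h
            exact Nat.eq_of_mul_eq_mul_left hq.pos h
        _ ≤ ∑ m ∈ Icc 1 (x / q), 16 * (rt m) ^ 4 := by
            refine sum_le_sum fun m hm => ?_
            rw [mem_Icc] at hm
            have h4 := rt_mul_prime hq hm.1
            have h5 := rt_nonneg (q * m)
            calc (rt (q * m)) ^ 4 ≤ (2 * rt m) ^ 4 := pow_le_pow_left₀ h5 h4 4
              _ = 16 * (rt m) ^ 4 := by ring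
    have h6 := sum_rt_pow_le (Icc 1 (x / q)) Y hY (by
      intro n hn
      rw [mem_Icc] at hn
      exact ⟨by omega, hlog n hn.1 (hn.2.trans (Nat.div_le_self x q))⟩) ((x : ℝ) / q) 1
      (by positivity) zero_le_one (by
      intro d hd
      have hd0 : (0 : ℝ) < d := by exact_mod_cast hd
      have h7 : ((Icc 1 (x / q)).filter (fun n => d ∣ n)).card = x / q / d := by
        have e : Icc 1 (x / q) = Ioc 0 (x / q) := by
          ext
          simp [mem_Icc, mem_Ioc, Nat.succ_le_iff]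
        rw [e, Nat.Ioc_filter_dvd_card_eq_div]
      rw [h7]
      have h8 : ((x / q / d : ℕ) : ℝ) ≤ (x : ℝ) / q / d := by
        refine Nat.cast_div_le.trans ?_
        have : ((x / q : ℕ) : ℝ) ≤ (x : ℝ) / q := Nat.cast_div_le
        gcongr
      linarith)
    rw [← mul_sum] at h1
    exact h1.trans ((mul_le_mul_of_nonneg_left h6 (by norm_num)).trans
      (hfin 16 (by norm_num) le_rfl))
  · have h6 := sum_rt_pow_le ((Icc 1 x).filter (fun n => n ≡ b [MOD q])) Y hY (by
      intro n hn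
      rw [mem_filter, mem_Icc] at hn
      exact ⟨by omega, hlog n hn.1.1 hn.1.2⟩) ((x : ℝ) / q) 1
      (by positivity) zero_le_one (by
      intro d hd
      have hd0 : (0 : ℝ) < d := by exact_mod_cast hd
      rcases (((Icc 1 x).filter (fun n => n ≡ b [MOD q])).filter
        (fun n => d ∣ n)).eq_empty_or_nonempty with h0 | ⟨n0, hn0⟩
      · rw [h0]
        simp only [card_empty, Nat.cast_zero]
        positivity
      · rw [mem_filter, mem_filter, mem_Icc] at hn0
        obtain ⟨⟨⟨g1, g2⟩, g3⟩, g4⟩ := hn0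
        have hqd : Nat.Coprime q d := by
          rw [hq.coprime_iff_not_dvd]
          intro h
          apply hb
          exact (g3.dvd_iff dvd_rfl).1 (h.trans g4)
        have hsub : ((Icc 1 x).filter (fun n => n ≡ b [MOD q])).filter (fun n => d ∣ n) ⊆
            (Icc 1 x).filter (fun n => n ≡ n0 [MOD (q * d)]) := by
          intro n hn
          rw [mem_filter, mem_filter] at hn
          rw [mem_filter]
          refine ⟨hn.1.1, ?_⟩
          rw [← Nat.modEq_and_modEq_iff_modEq_mul hqd]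
          refine ⟨hn.1.2.trans g3.symm, ?_⟩
          exact ((Nat.modEq_zero_iff_dvd).2 hn.2).trans ((Nat.modEq_zero_iff_dvd).2 g4).symm
        have h8 : (((Icc 1 x).filter (fun n => n ≡ n0 [MOD (q * d)])).card : ℝ) ≤
            (x : ℝ) / (q * d) + 1 := by
          have hqd0 : 0 < q * d := Nat.mul_pos hq.pos hd
          have h9 := count_Icc x (q * d) n0 hqd0
          rw [abs_le] at h9
          push_cast at h9
          linarith [h9.2]
        have h10 : (x : ℝ) / (q * d) = (x : ℝ) / q / d := by rw [div_div]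
        rw [h10] at h8
        refine le_trans ?_ h8
        exact_mod_cast card_le_card hsub)
    have h7 := hfin 1 zero_le_one (by norm_num)
    rw [one_mul] at h7
    exact h6.trans h7

/-- From pairs to popular even numbers, given a moment bound. -/
theorem popular_of_moment {C : ℝ} (hC1 : 1 ≤ C) {x q b : ℕ} (hx : 2 ≤ x) (hq : q.Prime)
    (hmom : ∑ n ∈ (Icc 1 x).filter (fun n => n ≡ b [MOD q]), (sdiv n) ^ 4 ≤ C * (x / q))
    {A B A' B' : Finset ℕ} (hA : A' ⊆ A) (hB : B' ⊆ B)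
    (hA' : ∀ p ∈ A', p.Prime ∧ 2 * p ≤ x) (hB' : ∀ p ∈ B', p.Prime ∧ 2 * p ≤ x)
    (hA2 : ∀ p ∈ A', 2 < p) (hB2 : ∀ p ∈ B', 2 < p)
    {δ c : ℝ} (hδ : 0 < δ) (hc : 0 < c)
    (hcδ : 128 * C * c ≤ δ) (hcδ2 : 4 * 73920 ^ 2 * C * c ≤ δ ^ 2)
    (hfirst : δ * (x / Real.log x) ^ 2 / q ≤
      ∑ n ∈ (Icc 1 x).filter (fun n => n ≡ b [MOD q]), (reps A' B' n : ℝ)) :
    c * x / q ≤ (((Icc 1 x).filter (fun n => Even n ∧ n ≡ b [MOD q] ∧
      c * gg n ≤ (reps A B n : ℝ))).card : ℝ) := by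
  have hx' : (2 : ℝ) ≤ x := by exact_mod_cast hx
  have hq0 : (0 : ℝ) < q := by exact_mod_cast hq.pos
  have hlx : 0 < Real.log x := Real.log_pos (by linarith)
  set X : ℝ := (x : ℝ) / (Real.log x) ^ 2 with hX
  have hX0 : 0 < X := by rw [hX]; positivity
  set S := (Icc 1 x).filter (fun n => n ≡ b [MOD q]) with hS
  set T := (Icc 1 x).filter (fun n => Even n ∧ n ≡ b [MOD q] ∧
      c * gg n ≤ (reps A B n : ℝ)) with hT
  have hTS : T ⊆ S := by
    intro n hn
    rw [hT, mem_filter] at hn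
    rw [hS, mem_filter]
    exact ⟨hn.1, hn.2.2.1⟩
  have hX2 : (x / Real.log x) ^ 2 = X * x := by
    rw [hX]
    field_simp
  -- outside T
  have hout : ∀ n ∈ S \ T, (reps A' B' n : ℝ) ≤ c * (64 * X * (sdiv n) ^ 4) := by
    intro n hn
    rw [mem_sdiff, hS, mem_filter, mem_Icc] at hn
    obtain ⟨⟨⟨h1, h2⟩, h3⟩, h4⟩ := hn
    have hgle := gg_le h1 h2 hx
    rcases Nat.eq_zero_or_pos (reps A' B' n) with h5 | h5
    · rw [h5]
      have := sdiv_pos n h1
      simp only [Nat.cast_zero]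
      positivity
    · -- n is even
      have hev : Even n := by
        unfold reps at h5
        obtain ⟨⟨p, r⟩, hy⟩ := card_pos.1 h5
        rw [mem_filter, mem_product] at hy
        obtain ⟨⟨ha, hb⟩, hs⟩ := hy
        simp only at ha hb hs
        have o1 : Odd p := (hA' p ha).1.odd_of_ne_two (by have := hA2 p ha; omega)
        have o2 : Odd r := (hB' r hb).1.odd_of_ne_two (by have := hB2 r hb; omega)
        rw [← hs]
        exact o1.add_odd o2
      have h6 : (reps A B n : ℝ) < c * gg n := by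
        by_contra hcon
        push Not at hcon
        exact h4 (by rw [hT, mem_filter, mem_Icc]; exact ⟨⟨h1, h2⟩, hev, h3, hcon⟩)
      have h7 : (reps A' B' n : ℝ) ≤ (reps A B n : ℝ) := by
        exact_mod_cast reps_mono hA hB n
      calc (reps A' B' n : ℝ) ≤ c * gg n := by linarith
        _ ≤ c * (64 * X * (sdiv n) ^ 4) := by
            apply mul_le_mul_of_nonneg_left _ hc.le
            rw [hX]
            exact hgle
  have hsplit : ∑ n ∈ S, (reps A' B' n : ℝ) =
      ∑ n ∈ S \ T, (reps A' B' n : ℝ) + ∑ n ∈ T, (reps A' B' n : ℝ) :=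
    (sum_sdiff hTS).symm
  have hoff : ∑ n ∈ S \ T, (reps A' B' n : ℝ) ≤ c * 64 * X * (C * (x / q)) := by
    calc ∑ n ∈ S \ T, (reps A' B' n : ℝ) ≤ ∑ n ∈ S \ T, c * (64 * X * (sdiv n) ^ 4) :=
          sum_le_sum hout
      _ ≤ ∑ n ∈ S, c * (64 * X * (sdiv n) ^ 4) := by
          apply sum_le_sum_of_subset_of_nonneg sdiff_subset
          intro n _ _
          have : 0 ≤ sdiv n := by unfold sdiv; positivity
          positivity
      _ = c * 64 * X * ∑ n ∈ S, (sdiv n) ^ 4 := by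
          rw [mul_sum]
          refine sum_congr rfl fun n _ => ?_
          ring
      _ ≤ c * 64 * X * (C * (x / q)) := by gcongr
  have hTlow : δ / 2 * (X * x) / q ≤ ∑ n ∈ T, (reps A' B' n : ℝ) := by
    rw [hX2, hsplit] at hfirst
    have h8 : c * 64 * X * (C * (x / q)) ≤ δ / 2 * (X * x) / q := by
      have e1 : c * 64 * X * (C * (x / q)) = (128 * C * c) / 2 * (X * x) / q := by ring
      rw [e1]
      gcongr
    have e2 : δ * (X * x) / q = δ / 2 * (X * x) / q + δ / 2 * (X * x) / q := by ring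
    linarith
  have hsec : ∑ n ∈ T, (reps A' B' n : ℝ) ^ 2 ≤ 73920 ^ 2 * X ^ 2 * (C * (x / q)) := by
    calc ∑ n ∈ T, (reps A' B' n : ℝ) ^ 2 ≤ ∑ n ∈ S, (reps A' B' n : ℝ) ^ 2 :=
          sum_le_sum_of_subset_of_nonneg hTS (fun n _ _ => sq_nonneg _)
      _ ≤ ∑ n ∈ S, 73920 ^ 2 * X ^ 2 * (sdiv n) ^ 4 := by
          apply sum_le_sum
          intro n hn
          rw [hS, mem_filter, mem_Icc] at hn
          have h1 : (reps A' B' n : ℝ) ≤ rep n := by
            exact_mod_cast reps_le_rep (fun p hp => (hA' p hp).1) (fun p hp => (hB' p hp).1) n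
          have h2 := rep_uniform x n hn.1.1 hn.1.2 hx
          rw [← hX] at h2
          calc (reps A' B' n : ℝ) ^ 2 ≤ (73920 * X * (sdiv n) ^ 2) ^ 2 := by
                have := h1.trans h2
                gcongr
            _ = 73920 ^ 2 * X ^ 2 * (sdiv n) ^ 4 := by ring
      _ = 73920 ^ 2 * X ^ 2 * ∑ n ∈ S, (sdiv n) ^ 4 := by rw [mul_sum]
      _ ≤ 73920 ^ 2 * X ^ 2 * (C * (x / q)) := by gcongr
  have hcs : (∑ n ∈ T, (reps A' B' n : ℝ)) ^ 2 ≤ T.card * ∑ n ∈ T, (reps A' B' n : ℝ) ^ 2 :=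
    sq_sum_le_card_mul_sum_sq
  have h9 : (δ / 2 * (X * x) / q) ^ 2 ≤ T.card * (73920 ^ 2 * X ^ 2 * (C * (x / q))) := by
    calc (δ / 2 * (X * x) / q) ^ 2 ≤ (∑ n ∈ T, (reps A' B' n : ℝ)) ^ 2 := by gcongr
      _ ≤ T.card * ∑ n ∈ T, (reps A' B' n : ℝ) ^ 2 := hcs
      _ ≤ T.card * (73920 ^ 2 * X ^ 2 * (C * (x / q))) := by gcongr
  -- conclude
  have hxq : 0 < (x : ℝ) / q := by positivity
  have h10 : (X ^ 2 * (x / q)) * (δ ^ 2 * (x / q)) ≤
      (X ^ 2 * (x / q)) * (T.card * (4 * 73920 ^ 2 * C)) := by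
    have e3 : (δ / 2 * (X * x) / q) ^ 2 = (X ^ 2 * (x / q)) * (δ ^ 2 * (x / q)) / 4 := by
      ring
    rw [e3] at h9
    have e4 : (X ^ 2 * (x / q)) * (T.card * (4 * 73920 ^ 2 * C)) =
        4 * (T.card * (73920 ^ 2 * X ^ 2 * (C * (x / q)))) := by ring
    rw [e4]
    linarith
  have h11 : δ ^ 2 * (x / q) ≤ T.card * (4 * 73920 ^ 2 * C) :=
    le_of_mul_le_mul_left h10 (by positivity)
  have h12 : (4 * 73920 ^ 2 * C) * (c * x / q) ≤ (4 * 73920 ^ 2 * C) * T.card := by
    calc (4 * 73920 ^ 2 * C) * (c * x / q) = (4 * 73920 ^ 2 * C * c) * (x / q) := by ring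
      _ ≤ δ ^ 2 * (x / q) := by gcongr
      _ ≤ T.card * (4 * 73920 ^ 2 * C) := h11
      _ = (4 * 73920 ^ 2 * C) * T.card := by ring
  exact le_of_mul_le_mul_left h12 (by positivity)


theorem bdh_main (α : ℝ) (hα : 0 < α) :
    ∃ c : ℝ, 0 < c ∧ ∃ K : ℝ, 0 < K ∧ ∃ x₀ : ℕ, ∀ x : ℕ, x₀ ≤ x → ∀ A B : Finset ℕ,
      (∀ p ∈ A, p.Prime ∧ 2 * p ≤ x) → (∀ p ∈ B, p.Prime ∧ 2 * p ≤ x) →
      α * x / Real.log x ≤ A.card → α * x / Real.log x ≤ B.card →
      ∃ E : Finset ℕ, (∀ Q : ℕ, ((E.filter (fun q => q ≤ Q)).card : ℝ) ≤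
          K * Real.log x * (1 + (Q : ℝ) ^ 2 / x)) ∧
        ∀ q : ℕ, q.Prime → q ≤ x → q ∉ E → ∀ b : ℕ,
          c * x / q ≤ (((Icc 1 x).filter (fun n => Even n ∧ n ≡ b [MOD q] ∧
            c * gg n ≤ (reps A B n : ℝ))).card : ℝ) := by
  classical
  set C : ℝ := 2 * bdhC with hCdef
  have hbdh : 1 ≤ bdhC := by
    unfold bdhC
    have e1 : (1 : ℝ) ≤ Real.exp 12 := Real.one_le_exp (by norm_num)
    have e2 : (1 : ℝ) ≤ Real.exp 16 := Real.one_le_exp (by norm_num)
    have e3 : (0 : ℝ) ≤ Real.exp (4 * Real.exp 2) := (Real.exp_pos _).le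
    nlinarith
  have hC1 : 1 ≤ C := by rw [hCdef]; linarith
  set δ : ℝ := α ^ 2 / 8 with hδ
  have hδ0 : 0 < δ := by rw [hδ]; positivity
  set c : ℝ := min (δ / (128 * C)) (δ ^ 2 / (4 * 73920 ^ 2 * C)) with hc
  have hc0 : 0 < c := by rw [hc]; positivity
  have hcδ : 128 * C * c ≤ δ := by
    have : c ≤ δ / (128 * C) := min_le_left _ _
    rw [le_div_iff₀ (by positivity)] at this
    linarith
  have hcδ2 : 4 * 73920 ^ 2 * C * c ≤ δ ^ 2 := by
    have : c ≤ δ ^ 2 / (4 * 73920 ^ 2 * C) := min_le_right _ _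
    rw [le_div_iff₀ (by positivity)] at this
    linarith
  -- eventual facts
  obtain ⟨x1, hx1⟩ := eventually_small (2 / α) 0 (by norm_num)
  have hpi := Chebyshev.eventually_primeCounting_le (ε := 1 / 2) (by norm_num)
  obtain ⟨x2, hx2⟩ := Filter.eventually_atTop.1
    ((tendsto_natCast_atTop_atTop (R := ℝ)).eventually hpi)
  have hlogs : ∀ᶠ y : ℝ in Filter.atTop, (Real.log (y + 3)) ^ 4 ≤ y / 3 := by
    have h1 := (isLittleO_log_rpow_atTop (show (0 : ℝ) < 1 / 8 by norm_num)).bound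
      (show (0 : ℝ) < 1 by norm_num)
    have h2 : Filter.Tendsto (fun y : ℝ => y + 3) Filter.atTop Filter.atTop :=
      Filter.tendsto_atTop_add_const_right _ _ Filter.tendsto_id
    have h3 := h2.eventually h1
    filter_upwards [h3, Filter.eventually_ge_atTop (36 : ℝ)] with y hy hy36
    have h4 : (0 : ℝ) ≤ Real.log (y + 3) := Real.log_nonneg (by linarith)
    rw [Real.norm_of_nonneg h4, Real.norm_of_nonneg (by positivity), one_mul] at hy
    have h5 : (Real.log (y + 3)) ^ 4 ≤ (y + 3) ^ (1 / 2 : ℝ) := by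
      calc (Real.log (y + 3)) ^ 4 ≤ ((y + 3) ^ (1 / 8 : ℝ)) ^ 4 := pow_le_pow_left₀ h4 hy 4
        _ = (y + 3) ^ (1 / 2 : ℝ) := by
            rw [← Real.rpow_natCast, ← Real.rpow_mul (by linarith)]
            norm_num
    refine h5.trans ?_
    rw [← Real.sqrt_eq_rpow]
    apply Real.sqrt_le_iff.2
    constructor
    · positivity
    · nlinarith
  obtain ⟨x3, hx3⟩ := Filter.eventually_atTop.1
    ((Real.tendsto_log_atTop.comp (tendsto_natCast_atTop_atTop (R := ℝ))).eventually hlogs)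
  refine ⟨c, hc0, 40 / α, by positivity, max x1 (max x2 (max x3 3)), fun x hx A B hA hB hAc hBc => ?_⟩
  simp only [max_le_iff] at hx
  obtain ⟨g1, g2, g3, g4⟩ := hx
  have f1 := hx1 x g1
  have f2 := hx2 x g2
  have f3 := hx3 x g3
  simp only [Function.comp] at f3
  have hxr : (3 : ℝ) ≤ x := by exact_mod_cast g4
  have hx0 : (0 : ℝ) < x := by linarith
  have hx2' : 2 ≤ x := by omega
  have hlog : 0 < Real.log x := Real.log_pos (by linarith)
  set ξ : ℝ := x / Real.log x with hξ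
  have hξ0 : 0 < ξ := by rw [hξ]; positivity
  have hpix : (Nat.primeCounting x : ℝ) ≤ 2 * ξ := by
    rw [Nat.floor_natCast] at f2
    refine f2.trans ?_
    have h4 : Real.log 4 ≤ 3 / 2 := by
      have : Real.log 4 = 2 * Real.log 2 := by
        rw [show (4 : ℝ) = 2 ^ 2 by norm_num, Real.log_pow]
        norm_num
      have h5 := Real.log_two_lt_d9
      linarith
    rw [hξ, mul_div_assoc]
    have : 0 ≤ (x : ℝ) / Real.log x := by positivity
    nlinarith
  have hrpow : (2 / α) ≤ ξ := by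
    have := f1
    rwa [Real.rpow_zero, mul_one] at this
  -- generic facts for a dense set of primes
  have key : ∀ P : Finset ℕ, (∀ p ∈ P, p.Prime ∧ 2 * p ≤ x) → α * x / Real.log x ≤ P.card →
      ∃ P' : Finset ℕ, P' ⊆ P ∧ (∀ p ∈ P', 2 < p) ∧ α / 2 * ξ ≤ P'.card ∧ (P'.card : ℝ) ≤ 2 * ξ ∧
        ∀ Q : ℕ, ((((Icc 1 x).filter (fun q => q.Prime ∧
          (P'.card : ℝ) ^ 2 < 2 * nonzeroMass P' q)).filter (fun q => q ≤ Q)).card : ℝ) ≤
          20 / α * Real.log x * (1 + (Q : ℝ) ^ 2 / x) := by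
    intro P hP hPc
    refine ⟨P.erase 2, erase_subset _ _, ?_, ?_, ?_, ?_⟩
    · intro p hp
      have h1 := (hP p (mem_of_mem_erase hp)).1.two_le
      have h2 := ne_of_mem_erase hp
      omega
    · have h1 : P.card ≤ (P.erase 2).card + 1 := by
        have := pred_card_le_card_erase (s := P) (a := 2)
        omega
      have h1' : (P.card : ℝ) ≤ (P.erase 2).card + 1 := by exact_mod_cast h1
      have h5 : α * x / Real.log x = α * ξ := by rw [hξ]; ring
      rw [h5] at hPc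
      have h6 : 1 ≤ α / 2 * ξ := by
        calc (1 : ℝ) = α / 2 * (2 / α) := by field_simp
          _ ≤ α / 2 * ξ := by gcongr
      linarith
    · have h1 : (P.erase 2).card ≤ Nat.primeCounting x := by
        rw [← Nat.primesLE_card_eq_primeCounting]
        apply card_le_card
        intro p hp
        rw [Nat.mem_primesLE]
        have h2 := hP p (mem_of_mem_erase hp)
        exact ⟨by omega, h2.1⟩
      have h1' : ((P.erase 2).card : ℝ) ≤ Nat.primeCounting x := by exact_mod_cast h1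
      linarith
    · intro Q
      set P' := P.erase 2 with hP'
      have hcard : α / 2 * ξ ≤ P'.card := by
        have h1 : P.card ≤ P'.card + 1 := by
          have := pred_card_le_card_erase (s := P) (a := 2)
          rw [← hP'] at this
          omega
        have h1' : (P.card : ℝ) ≤ P'.card + 1 := by exact_mod_cast h1
        have h5 : α * x / Real.log x = α * ξ := by rw [hξ]; ring
        rw [h5] at hPc
        have h6 : 1 ≤ α / 2 * ξ := by
          calc (1 : ℝ) = α / 2 * (2 / α) := by field_simp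
            _ ≤ α / 2 * ξ := by gcongr
        linarith
      set W := ((Icc 1 x).filter (fun q => q.Prime ∧
          (P'.card : ℝ) ^ 2 < 2 * nonzeroMass P' q)).filter (fun q => q ≤ Q) with hW
      have hPI : P' ⊆ Icc 1 x := by
        intro p hp
        have h2 := hP p (mem_of_mem_erase hp)
        rw [mem_Icc]
        exact ⟨h2.1.pos, by omega⟩
      have hls := large_sieve_primes (N := x) (M := max x (Q ^ 2)) (Q := Q) (le_max_left _ _)
        (le_max_right _ _) P' hPI W (by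
          intro q hq
          rw [hW, mem_filter, mem_filter] at hq
          exact ⟨hq.1.2.1, hq.2⟩)
      have h7 : (W.card : ℝ) * ((P'.card : ℝ) ^ 2 / 2) ≤ ∑ q ∈ W, nonzeroMass P' q := by
        rw [← nsmul_eq_mul, ← sum_const]
        refine sum_le_sum fun q hq => ?_
        rw [hW, mem_filter, mem_filter] at hq
        linarith [hq.1.2.2]
      have hPr : (0 : ℝ) < P'.card := lt_of_lt_of_le (by positivity) hcard
      have h8 : (W.card : ℝ) * ((P'.card : ℝ) ^ 2 / 2) ≤
          5 * ((x : ℝ) + (Q : ℝ) ^ 2) * P'.card := by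
        refine h7.trans (hls.trans ?_)
        have : ((max x (Q ^ 2) : ℕ) : ℝ) ≤ (x : ℝ) + (Q : ℝ) ^ 2 := by
          rw [Nat.cast_max]
          push_cast
          apply max_le
          · have : (0 : ℝ) ≤ (Q : ℝ) ^ 2 := by positivity
            linarith
          · linarith
        gcongr
      have h9 : (W.card : ℝ) * P'.card ≤ 10 * ((x : ℝ) + (Q : ℝ) ^ 2) := by
        have h10 : ((W.card : ℝ) * P'.card) * (P'.card / 2) ≤
            (10 * ((x : ℝ) + (Q : ℝ) ^ 2)) * (P'.card / 2) := by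
          calc ((W.card : ℝ) * P'.card) * (P'.card / 2) = (W.card : ℝ) * ((P'.card : ℝ) ^ 2 / 2) := by
                ring
            _ ≤ _ := h8
            _ = _ := by ring
        exact le_of_mul_le_mul_right h10 (by positivity)
      have h11 : (W.card : ℝ) * (α / 2 * ξ) ≤ 10 * ((x : ℝ) + (Q : ℝ) ^ 2) :=
        (mul_le_mul_of_nonneg_left hcard (by positivity)).trans h9
      have h12 : 20 / α * Real.log x * (1 + (Q : ℝ) ^ 2 / x) =
          (10 * ((x : ℝ) + (Q : ℝ) ^ 2)) / (α / 2 * ξ) := by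
        rw [hξ]
        field_simp
        ring
      rw [h12, le_div_iff₀ (by positivity)]
      exact h11
  obtain ⟨A', hA'A, hA'2, hA'c, hA'u, hA'E⟩ := key A hA hAc
  obtain ⟨B', hB'B, hB'2, hB'c, hB'u, hB'E⟩ := key B hB hBc
  set EA := (Icc 1 x).filter (fun q => q.Prime ∧ (A'.card : ℝ) ^ 2 < 2 * nonzeroMass A' q) with hEA
  set EB := (Icc 1 x).filter (fun q => q.Prime ∧ (B'.card : ℝ) ^ 2 < 2 * nonzeroMass B' q) with hEB
  refine ⟨EA ∪ EB, ?_, ?_⟩
  · intro Q
    rw [filter_union]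
    have h1 : (((EA.filter (fun q => q ≤ Q)) ∪ (EB.filter (fun q => q ≤ Q))).card : ℝ) ≤
        ((EA.filter (fun q => q ≤ Q)).card : ℝ) + ((EB.filter (fun q => q ≤ Q)).card : ℝ) := by
      exact_mod_cast card_union_le _ _
    have h2 := hA'E Q
    have h3 := hB'E Q
    have h4 : 40 / α * Real.log x * (1 + (Q : ℝ) ^ 2 / x) =
        20 / α * Real.log x * (1 + (Q : ℝ) ^ 2 / x) +
        20 / α * Real.log x * (1 + (Q : ℝ) ^ 2 / x) := by ring
    rw [h4]
    linarith
  · intro q hq hqx hqE b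
    have hA'p : ∀ p ∈ A', p.Prime ∧ 2 * p ≤ x := fun p hp => hA p (hA'A hp)
    have hB'p : ∀ p ∈ B', p.Prime ∧ 2 * p ≤ x := fun p hp => hB p (hB'B hp)
    have hq0 : (0 : ℝ) < q := by exact_mod_cast hq.pos
    have hA'pos : (0 : ℝ) < A'.card := lt_of_lt_of_le (by positivity) hA'c
    have hB'pos : (0 : ℝ) < B'.card := lt_of_lt_of_le (by positivity) hB'c
    have hmA : 2 * nonzeroMass A' q ≤ (A'.card : ℝ) ^ 2 := by
      by_contra hcon
      push Not at hcon
      exact hqE (mem_union_left _ (by rw [hEA, mem_filter, mem_Icc]; exact ⟨⟨hq.pos, hqx⟩, hq, hcon⟩))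
    have hmB : 2 * nonzeroMass B' q ≤ (B'.card : ℝ) ^ 2 := by
      by_contra hcon
      push Not at hcon
      exact hqE (mem_union_right _ (by rw [hEB, mem_filter, mem_Icc]; exact ⟨⟨hq.pos, hqx⟩, hq, hcon⟩))
    have hpair := pairs_lower A' B' hq.pos b
    have hsq : Real.sqrt (nonzeroMass A' q * nonzeroMass B' q) ≤ (A'.card : ℝ) * B'.card / 2 := by
      apply Real.sqrt_le_iff.2
      refine ⟨by positivity, ?_⟩
      have h1 := nonzeroMass_nonneg A' q
      have h2 := nonzeroMass_nonneg B' q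
      calc nonzeroMass A' q * nonzeroMass B' q ≤
          ((A'.card : ℝ) ^ 2 / 2) * ((B'.card : ℝ) ^ 2 / 2) := by
            apply mul_le_mul (by linarith) (by linarith) h2 (by positivity)
        _ = ((A'.card : ℝ) * B'.card / 2) ^ 2 := by ring
    -- the modulus is small
    have hml := mass_lower A' hq.pos
    have hqξ : (q : ℝ) ≤ 3 * ξ := by
      have h1 : (q : ℝ) * A'.card ≤ (3 / 2 * A'.card) * A'.card := by
        calc (q : ℝ) * A'.card ≤ (A'.card : ℝ) ^ 2 + nonzeroMass A' q := hml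
          _ ≤ (A'.card : ℝ) ^ 2 + (A'.card : ℝ) ^ 2 / 2 := by linarith
          _ = _ := by ring
      have h2 : (q : ℝ) ≤ 3 / 2 * A'.card := le_of_mul_le_mul_right h1 hA'pos
      linarith
    have hxq : Real.log x / 3 ≤ (x : ℝ) / q := by
      rw [le_div_iff₀ hq0]
      calc Real.log x / 3 * q ≤ Real.log x / 3 * (3 * ξ) := by gcongr
        _ = x := by rw [hξ]; field_simp
    -- the moment bound
    have hmom : ∑ n ∈ (Icc 1 x).filter (fun n => n ≡ b [MOD q]), (sdiv n) ^ 4 ≤ C * (x / q) := by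
      set Y : ℕ := ⌈Real.log x⌉₊ + 2 with hY
      have hY1 : Real.log x ≤ Y := by
        rw [hY]
        push_cast
        have := Nat.le_ceil (Real.log x)
        linarith
      have hY2 : (Y : ℝ) ≤ Real.log x + 3 := by
        rw [hY]
        push_cast
        have := Nat.ceil_lt_add_one hlog.le
        linarith
      have h1 := class_moment_short (x := x) (q := q) (b := b) (Y := Y) hq (by omega) hY1
      have h2 : ∑ n ∈ (Icc 1 x).filter (fun n => n ≡ b [MOD q]), (sdiv n) ^ 4 ≤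
          ∑ n ∈ (Icc 1 x).filter (fun n => n ≡ b [MOD q]), (rt n) ^ 4 := by
        refine sum_le_sum fun n hn => ?_
        rw [mem_filter, mem_Icc] at hn
        have h3 := sdiv_pos n hn.1.1
        exact pow_le_pow_left₀ (by linarith) (sdiv_le_rt n (by omega)) 4
      have h4 : (Real.log Y) ^ 4 ≤ (x : ℝ) / q := by
        have h5 : (0 : ℝ) ≤ Real.log Y := Real.log_nonneg (by
          have : 1 ≤ Y := by omega
          exact_mod_cast this)
        have h6 : Real.log Y ≤ Real.log (Real.log x + 3) := Real.log_le_log (by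
          have : 0 < Y := by omega
          exact_mod_cast this) hY2
        exact (pow_le_pow_left₀ h5 h6 4).trans (f3.trans hxq)
      calc _ ≤ _ := h2
        _ ≤ bdhC * ((x : ℝ) / q + (Real.log Y) ^ 4) := h1
        _ ≤ bdhC * ((x : ℝ) / q + (x : ℝ) / q) := by gcongr
        _ = C * (x / q) := by rw [hCdef]; ring
    refine popular_of_moment hC1 hx2' hq hmom hA'A hB'B hA'p hB'p hA'2 hB'2 hδ0 hc0 hcδ hcδ2 ?_
    rw [← sum_reps hA'p hB'p q b]
    set T : ℝ := ((((A' ×ˢ B').filter (fun y : ℕ × ℕ => ((y.1 + y.2 : ℕ) : ZMod q) =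
      (b : ZMod q))).card : ℕ) : ℝ) with hT
    have h1 : (A'.card : ℝ) * B'.card / 2 ≤ q * T := by linarith
    rw [div_le_iff₀ hq0]
    calc δ * (x / Real.log x) ^ 2 = (α / 2 * ξ) * (α / 2 * ξ) / 2 := by
          rw [hδ, hξ]; ring
      _ ≤ (A'.card : ℝ) * B'.card / 2 := by gcongr
      _ ≤ q * T := h1
      _ = T * q := by ring

end Pool.Agent.Lib.MP_629a14_nt
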