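import Mathlib

/-! A Bessel type inequality for the residues of a set of primes to many prime moduli:
if the set has a majorant which is well distributed in reduced residue classes, then the set
is close to equidistributed, in mean square, for all but boundedly many prime moduli. -/

namespace Pool.Agent.Lib.MP_629a14_nt

open Finset

/-- Number of elements of `P` in the class `a` modulo `q`. -/
noncomputable def cnt (P : Finset ℕ) (q : ℕ) (a : ZMod q) : ℝ :=
  ((P.filter (fun p : ℕ => (p : ZMod q) = a)).card : ℝ)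

/-- Average number of elements of `P` in the nonzero classes modulo `q`. -/
noncomputable def mu (P : Finset ℕ) (q : ℕ) : ℝ :=
  ((P.filter (fun p : ℕ => (p : ZMod q) ≠ 0)).card : ℝ) / ((q : ℝ) - 1)

open Classical in
/-- The deviation from the average in the nonzero classes. -/
noncomputable def dev (P : Finset ℕ) (q : ℕ) (a : ZMod q) : ℝ :=
  if a = 0 then 0 else cnt P q a - mu P q

/-- The variance of `P` modulo `q`. -/
noncomputable def vari (P : Finset ℕ) (q : ℕ) : ℝ := ∑ p ∈ P, dev P q (p : ZMod q)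

theorem cnt_nonneg (P : Finset ℕ) (q : ℕ) (a : ZMod q) : 0 ≤ cnt P q a := by
  unfold cnt; positivity

theorem cnt_le_card (P : Finset ℕ) (q : ℕ) (a : ZMod q) : cnt P q a ≤ P.card := by
  unfold cnt
  exact_mod_cast card_filter_le _ _

theorem mu_nonneg (P : Finset ℕ) {q : ℕ} (hq : q.Prime) : 0 ≤ mu P q := by
  unfold mu
  have : (1 : ℝ) < q := by exact_mod_cast hq.one_lt
  have : (0 : ℝ) < (q : ℝ) - 1 := by linarith
  positivity

theorem mu_mul (P : Finset ℕ) {q : ℕ} (hq : q.Prime) :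
    mu P q * ((q : ℝ) - 1) = ((P.filter (fun p : ℕ => (p : ZMod q) ≠ 0)).card : ℝ) := by
  unfold mu
  have : (1 : ℝ) < q := by exact_mod_cast hq.one_lt
  have : (0 : ℝ) < (q : ℝ) - 1 := by linarith
  field_simp

theorem dev_zero (P : Finset ℕ) (q : ℕ) : dev P q 0 = 0 := by
  unfold dev; rw [if_pos rfl]

theorem dev_of_ne (P : Finset ℕ) (q : ℕ) {a : ZMod q} (ha : a ≠ 0) :
    dev P q a = cnt P q a - mu P q := by
  unfold dev; rw [if_neg ha]

/-- Sums over a finite set of naturals, fibred over residue classes. -/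
theorem fiber_sum (I : Finset ℕ) (q : ℕ) [NeZero q] (nu : ℕ → ℝ) (F : ZMod q → ℝ) :
    ∑ n ∈ I, nu n * F (n : ZMod q) =
      ∑ a : ZMod q, F a * ∑ n ∈ I.filter (fun n : ℕ => (n : ZMod q) = a), nu n := by
  rw [← sum_fiberwise I (fun n : ℕ => (n : ZMod q)) (fun n => nu n * F (n : ZMod q))]
  refine sum_congr rfl fun a _ => ?_
  rw [mul_sum]
  refine sum_congr rfl fun n hn => ?_
  rw [(mem_filter.1 hn).2, mul_comm]

theorem card_ne_zero (q : ℕ) (hq : q.Prime) [NeZero q] :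
    (((univ : Finset (ZMod q)).filter (fun a => a ≠ 0)).card : ℝ) = (q : ℝ) - 1 := by
  have h : ((univ : Finset (ZMod q)).filter (fun a => a ≠ 0)) = univ.erase 0 := by
    ext a; simp
  rw [h, card_erase_of_mem (mem_univ _), card_univ, ZMod.card, Nat.cast_sub hq.one_lt.le]
  simp

theorem sum_cnt_ne (P : Finset ℕ) (q : ℕ) [NeZero q] :
    ∑ a ∈ (univ : Finset (ZMod q)).filter (fun a => a ≠ 0), cnt P q a
      = ((P.filter (fun p : ℕ => (p : ZMod q) ≠ 0)).card : ℝ) := by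
  rw [card_eq_sum_card_fiberwise (f := fun p : ℕ => (p : ZMod q))
    (t := (univ : Finset (ZMod q)).filter (fun a => a ≠ 0))]
  · push_cast
    refine sum_congr rfl fun a ha => ?_
    unfold cnt
    rw [filter_filter]
    congr 2
    ext p
    simp only [mem_filter, mem_univ, true_and] at ha ⊢
    constructor
    · rintro ⟨h1, h2⟩
      exact ⟨h1, by rw [h2]; exact ha, h2⟩
    · rintro ⟨h1, _, h2⟩
      exact ⟨h1, h2⟩
  · intro p hp
    rw [mem_coe, mem_filter] at hp
    simp [hp.2]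

theorem sum_dev (P : Finset ℕ) {q : ℕ} (hq : q.Prime) [NeZero q] :
    ∑ a : ZMod q, dev P q a = 0 := by
  have h : ∑ a : ZMod q, dev P q a
      = ∑ a ∈ (univ : Finset (ZMod q)).filter (fun a => a ≠ 0), (cnt P q a - mu P q) := by
    rw [sum_filter]
    refine sum_congr rfl fun a _ => ?_
    by_cases ha : a = 0
    · rw [ha, dev_zero]; simp
    · rw [dev_of_ne P q ha]; simp [ha]
  rw [h, sum_sub_distrib, sum_cnt_ne, sum_const, nsmul_eq_mul, card_ne_zero q hq,
    mul_comm, mu_mul P hq, sub_self]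

theorem sum_mul_cnt (P : Finset ℕ) (q : ℕ) [NeZero q] (F : ZMod q → ℝ) :
    ∑ p ∈ P, F (p : ZMod q) = ∑ a : ZMod q, F a * cnt P q a := by
  have h := fiber_sum P q (fun _ => 1) F
  simp only [one_mul] at h
  rw [h]
  refine sum_congr rfl fun a _ => ?_
  unfold cnt
  simp

theorem vari_eq (P : Finset ℕ) {q : ℕ} (hq : q.Prime) [NeZero q] :
    vari P q = ∑ a : ZMod q, (dev P q a) ^ 2 := by
  unfold vari
  rw [sum_mul_cnt P q (fun a => dev P q a)]
  have h : ∀ a : ZMod q, (dev P q a) ^ 2 = dev P q a * cnt P q a - mu P q * dev P q a := by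
    intro a
    by_cases ha : a = 0
    · rw [ha, dev_zero]; ring
    · rw [dev_of_ne P q ha]; ring
  rw [sum_congr rfl fun a _ => h a, sum_sub_distrib, ← mul_sum, sum_dev P hq, mul_zero, sub_zero]

theorem vari_nonneg (P : Finset ℕ) {q : ℕ} (hq : q.Prime) : 0 ≤ vari P q := by
  have : NeZero q := ⟨hq.ne_zero⟩
  rw [vari_eq P hq]
  positivity

theorem vari_le (P : Finset ℕ) {q : ℕ} (hq : q.Prime) : vari P q ≤ (P.card : ℝ) ^ 2 := by
  unfold vari
  calc ∑ p ∈ P, dev P q (p : ZMod q) ≤ ∑ p ∈ P, (P.card : ℝ) := by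
        apply sum_le_sum
        intro p _
        by_cases h : (p : ZMod q) = 0
        · rw [h, dev_zero]; positivity
        · rw [dev_of_ne P q h]
          have h1 := cnt_le_card P q (p : ZMod q)
          have h2 := mu_nonneg P hq
          linarith
    _ = (P.card : ℝ) ^ 2 := by rw [sum_const, nsmul_eq_mul]; ring

theorem sum_abs_dev (P : Finset ℕ) {q : ℕ} (hq : q.Prime) [NeZero q] :
    ∑ a : ZMod q, |dev P q a| ≤ 2 * P.card := by
  have h1 : ∀ a : ZMod q, |dev P q a| ≤ if a ≠ 0 then cnt P q a + mu P q else 0 := by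
    intro a
    by_cases ha : a = 0
    · rw [ha, dev_zero]; simp
    · rw [dev_of_ne P q ha, if_pos ha]
      have h1 := cnt_nonneg P q a
      have h2 := mu_nonneg P hq
      rw [abs_le]
      constructor <;> linarith
  calc ∑ a : ZMod q, |dev P q a| ≤ ∑ a : ZMod q, if a ≠ 0 then cnt P q a + mu P q else 0 :=
        sum_le_sum fun a _ => h1 a
    _ = ∑ a ∈ (univ : Finset (ZMod q)).filter (fun a => a ≠ 0), (cnt P q a + mu P q) := by
        rw [sum_filter]
    _ = 2 * ((P.filter (fun p : ℕ => (p : ZMod q) ≠ 0)).card : ℝ) := by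
        rw [sum_add_distrib, sum_cnt_ne, sum_const, nsmul_eq_mul, card_ne_zero q hq,
          mul_comm ((q : ℝ) - 1), mu_mul P hq]
        ring
    _ ≤ 2 * P.card := by
        have : ((P.filter (fun p : ℕ => (p : ZMod q) ≠ 0)).card : ℝ) ≤ P.card := by
          exact_mod_cast card_filter_le _ _
        linarith

/-- `nu` is distributed in the reduced classes of every modulus with error `L`. -/
def WellDist (I : Finset ℕ) (nu : ℕ → ℝ) (L : ℝ) : Prop :=
  ∀ Q : ℕ, 0 < Q → ∃ M : ℝ, ∀ c : ℕ, Nat.Coprime c Q →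
    |∑ n ∈ I.filter (fun n => n ≡ c [MOD Q]), nu n - M| ≤ L

theorem class_eq (I : Finset ℕ) (q : ℕ) [NeZero q] (a : ZMod q) :
    I.filter (fun n : ℕ => (n : ZMod q) = a) = I.filter (fun n => n ≡ a.val [MOD q]) := by
  apply filter_congr
  intro n _
  rw [← ZMod.natCast_eq_natCast_iff, ZMod.natCast_zmod_val]

theorem coprime_val {q : ℕ} (hq : q.Prime) [NeZero q] {a : ZMod q} (ha : a ≠ 0) :
    Nat.Coprime a.val q := by
  rw [Nat.coprime_comm, hq.coprime_iff_not_dvd]
  intro h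
  apply ha
  have h2 : a.val = 0 := Nat.eq_zero_of_dvd_of_lt h (ZMod.val_lt a)
  rw [← ZMod.natCast_zmod_val a, h2]
  simp

/-- In a nonzero class the majorant has the expected mass. -/
theorem class_mass {I : Finset ℕ} {nu : ℕ → ℝ} {L : ℝ} (h0 : ∀ n, 0 ≤ nu n)
    (hw : WellDist I nu L) {q : ℕ} (hq : q.Prime) [NeZero q] {a : ZMod q} (ha : a ≠ 0) :
    ∑ n ∈ I.filter (fun n : ℕ => (n : ZMod q) = a), nu n
      ≤ (∑ n ∈ I, nu n) / ((q : ℝ) - 1) + 2 * L := by
  obtain ⟨M, hM⟩ := hw q hq.pos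
  have hq1 : (1 : ℝ) < q := by exact_mod_cast hq.one_lt
  have hq0 : (0 : ℝ) < (q : ℝ) - 1 := by linarith
  have key : ∀ b : ZMod q, b ≠ 0 →
      |∑ n ∈ I.filter (fun n : ℕ => (n : ZMod q) = b), nu n - M| ≤ L := by
    intro b hb
    rw [class_eq]
    exact hM b.val (coprime_val hq hb)
  have h1 : ((q : ℝ) - 1) * (M - L) ≤ ∑ n ∈ I, nu n := by
    calc ((q : ℝ) - 1) * (M - L)
        = ∑ b ∈ (univ : Finset (ZMod q)).filter (fun a => a ≠ 0), (M - L) := by
          rw [sum_const, nsmul_eq_mul, card_ne_zero q hq]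
      _ ≤ ∑ b ∈ (univ : Finset (ZMod q)).filter (fun a => a ≠ 0),
            ∑ n ∈ I.filter (fun n : ℕ => (n : ZMod q) = b), nu n := by
          apply sum_le_sum
          intro b hb
          have := (abs_le.1 (key b (mem_filter.1 hb).2)).1
          linarith
      _ ≤ ∑ b : ZMod q, ∑ n ∈ I.filter (fun n : ℕ => (n : ZMod q) = b), nu n := by
          apply sum_le_sum_of_subset_of_nonneg (filter_subset _ _)
          intro b _ _
          exact sum_nonneg fun n _ => h0 n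
      _ = ∑ n ∈ I, nu n := sum_fiberwise I (fun n : ℕ => (n : ZMod q)) nu
  have h2 := (abs_le.1 (key a ha)).2
  have h3 : M - L ≤ (∑ n ∈ I, nu n) / ((q : ℝ) - 1) := by
    rw [le_div_iff₀ hq0, mul_comm]
    exact h1
  linarith

theorem diag_le {I : Finset ℕ} {nu : ℕ → ℝ} {L : ℝ} (h0 : ∀ n, 0 ≤ nu n)
    (hw : WellDist I nu L) (P : Finset ℕ) {q : ℕ} (hq : q.Prime) :
    ∑ n ∈ I, nu n * (dev P q (n : ZMod q)) ^ 2
      ≤ vari P q * ((∑ n ∈ I, nu n) / ((q : ℝ) - 1) + 2 * L) := by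
  have : NeZero q := ⟨hq.ne_zero⟩
  rw [fiber_sum I q nu (fun a => (dev P q a) ^ 2), vari_eq P hq, sum_mul]
  apply sum_le_sum
  intro a _
  by_cases ha : a = 0
  · rw [ha, dev_zero]; simp
  · have := class_mass h0 hw hq ha
    gcongr

theorem offdiag_le {I : Finset ℕ} {nu : ℕ → ℝ} {L : ℝ}
    (hw : WellDist I nu L) (P : Finset ℕ) {q q' : ℕ} (hq : q.Prime) (hq' : q'.Prime)
    (hne : q ≠ q') (hL : 0 ≤ L) :
    |∑ n ∈ I, nu n * (dev P q (n : ZMod q) * dev P q' (n : ZMod q'))|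
      ≤ L * (4 * (P.card : ℝ) ^ 2) := by
  have : NeZero q := ⟨hq.ne_zero⟩
  have : NeZero q' := ⟨hq'.ne_zero⟩
  have hco : Nat.Coprime q q' := (Nat.coprime_primes hq hq').2 hne
  obtain ⟨M, hM⟩ := hw (q * q') (Nat.mul_pos hq.pos hq'.pos)
  have h1 : ∑ n ∈ I, nu n * (dev P q (n : ZMod q) * dev P q' (n : ZMod q'))
      = ∑ a : ZMod q, ∑ b : ZMod q', dev P q a * dev P q' b *
        ∑ n ∈ I.filter (fun n : ℕ => (n : ZMod q) = a ∧ (n : ZMod q') = b), nu n := by
    rw [← sum_fiberwise I (fun n : ℕ => (n : ZMod q))]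
    refine sum_congr rfl fun a _ => ?_
    rw [← sum_fiberwise (I.filter (fun n : ℕ => (n : ZMod q) = a)) (fun n : ℕ => (n : ZMod q'))]
    refine sum_congr rfl fun b _ => ?_
    rw [filter_filter, mul_sum]
    refine sum_congr rfl fun n hn => ?_
    rw [(mem_filter.1 hn).2.1, (mem_filter.1 hn).2.2]
    ring
  have key : ∀ a : ZMod q, ∀ b : ZMod q',
      |dev P q a * dev P q' b *
        ((∑ n ∈ I.filter (fun n : ℕ => (n : ZMod q) = a ∧ (n : ZMod q') = b), nu n) - M)|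
        ≤ |dev P q a| * |dev P q' b| * L := by
    intro a b
    by_cases ha : a = 0
    · rw [ha, dev_zero]; simp
    by_cases hb : b = 0
    · rw [hb, dev_zero]; simp
    rw [abs_mul, abs_mul]
    gcongr
    obtain ⟨c, hc1, hc2⟩ := Nat.chineseRemainder hco a.val b.val
    have h3 : I.filter (fun n : ℕ => (n : ZMod q) = a ∧ (n : ZMod q') = b)
        = I.filter (fun n => n ≡ c [MOD (q * q')]) := by
      apply filter_congr
      intro n _
      rw [← Nat.modEq_and_modEq_iff_modEq_mul hco]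
      have e1 : (n : ZMod q) = a ↔ n ≡ a.val [MOD q] := by
        rw [← ZMod.natCast_eq_natCast_iff, ZMod.natCast_zmod_val]
      have e2 : (n : ZMod q') = b ↔ n ≡ b.val [MOD q'] := by
        rw [← ZMod.natCast_eq_natCast_iff, ZMod.natCast_zmod_val]
      rw [e1, e2]
      constructor
      · rintro ⟨h, h'⟩; exact ⟨h.trans hc1.symm, h'.trans hc2.symm⟩
      · rintro ⟨h, h'⟩; exact ⟨h.trans hc1, h'.trans hc2⟩
    rw [h3]
    apply hM
    apply Nat.Coprime.mul_right
    · have := coprime_val hq ha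
      rw [Nat.coprime_comm, hq.coprime_iff_not_dvd] at this ⊢
      intro h
      exact this ((Nat.ModEq.dvd_iff hc1 dvd_rfl).1 h)
    · have := coprime_val hq' hb
      rw [Nat.coprime_comm, hq'.coprime_iff_not_dvd] at this ⊢
      intro h
      exact this ((Nat.ModEq.dvd_iff hc2 dvd_rfl).1 h)
  have h2 : ∑ a : ZMod q, ∑ b : ZMod q', dev P q a * dev P q' b *
        ∑ n ∈ I.filter (fun n : ℕ => (n : ZMod q) = a ∧ (n : ZMod q') = b), nu n
      = ∑ a : ZMod q, ∑ b : ZMod q', dev P q a * dev P q' b *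
        ((∑ n ∈ I.filter (fun n : ℕ => (n : ZMod q) = a ∧ (n : ZMod q') = b), nu n) - M) := by
    have h4 : ∑ a : ZMod q, ∑ b : ZMod q', dev P q a * dev P q' b * M = 0 := by
      simp_rw [← sum_mul, ← mul_sum, sum_dev P hq', mul_zero, sum_const_zero, zero_mul]
    simp_rw [mul_sub, sum_sub_distrib]
    rw [h4, sub_zero]
  rw [h1, h2]
  have hs1 := sum_abs_dev P hq
  have hs2 := sum_abs_dev P hq'
  calc |∑ a : ZMod q, ∑ b : ZMod q', dev P q a * dev P q' b *
        ((∑ n ∈ I.filter (fun n : ℕ => (n : ZMod q) = a ∧ (n : ZMod q') = b), nu n) - M)|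
      ≤ ∑ a : ZMod q, ∑ b : ZMod q', |dev P q a| * |dev P q' b| * L := by
        refine (abs_sum_le_sum_abs _ _).trans (sum_le_sum fun a _ => ?_)
        exact (abs_sum_le_sum_abs _ _).trans (sum_le_sum fun b _ => key a b)
    _ = L * ((∑ a : ZMod q, |dev P q a|) * (∑ b : ZMod q', |dev P q' b|)) := by
        rw [sum_mul_sum, mul_sum]
        refine sum_congr rfl fun a _ => ?_
        rw [mul_sum]
        refine sum_congr rfl fun b _ => ?_
        ring
    _ ≤ L * ((2 * P.card) * (2 * P.card)) := by gcongr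
    _ = L * (4 * (P.card : ℝ) ^ 2) := by ring

/-- Few bad moduli. -/
theorem bad_card {I : Finset ℕ} {nu : ℕ → ℝ} {L Y : ℝ} (h0 : ∀ n, 0 ≤ nu n)
    (hL : 0 ≤ L) (hw : WellDist I nu L) (P : Finset ℕ) (hPI : P ⊆ I) (hP1 : ∀ p ∈ P, 1 ≤ nu p)
    (hPpos : 0 < P.card) (B : Finset ℕ) (hBp : ∀ q ∈ B, q.Prime) (hBY : ∀ q ∈ B, (q : ℝ) ≤ Y)
    (hB : ∀ q ∈ B, (P.card : ℝ) ^ 2 < 2 * (((q : ℝ) - 1) * vari P q))
    (hsmall : 12 * L * B.card * Y ^ 2 ≤ P.card) :
    (B.card : ℝ) ≤ 2 * (∑ n ∈ I, nu n) / P.card + 2 := by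
  rcases B.eq_empty_or_nonempty with hBe | hBne
  · rw [hBe]
    have : 0 ≤ ∑ n ∈ I, nu n := sum_nonneg fun n _ => h0 n
    simp only [card_empty, Nat.cast_zero]
    positivity
  set π : ℝ := (P.card : ℝ) with hπ
  have hπ0 : 0 < π := by rw [hπ]; exact_mod_cast hPpos
  set N : ℝ := ∑ n ∈ I, nu n with hN
  have hN0 : 0 ≤ N := sum_nonneg fun n _ => h0 n
  set k : ℝ := (B.card : ℝ) with hk
  have hk1 : 1 ≤ k := by
    have : 1 ≤ B.card := card_pos.2 hBne
    rw [hk]
    exact_mod_cast this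
  have hY1 : 1 ≤ Y := by
    obtain ⟨q, hq⟩ := hBne
    have h1 : (1 : ℝ) ≤ q := by exact_mod_cast (hBp q hq).one_lt.le
    exact h1.trans (hBY q hq)
  set F : ℕ → ℝ := fun n => ∑ q ∈ B, ((q : ℝ) - 1) * dev P q (n : ZMod q) with hF
  -- `v q = (q-1) W_q / π²`
  set V : ℝ := ∑ q ∈ B, ((q : ℝ) - 1) * vari P q with hV
  have hq1 : ∀ q ∈ B, (0 : ℝ) ≤ (q : ℝ) - 1 := by
    intro q hq
    have h1 : (1 : ℝ) ≤ q := by exact_mod_cast (hBp q hq).one_lt.le
    linarith
  have hFP : ∑ p ∈ P, F p = V := by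
    simp only [hF, hV]
    rw [sum_comm]
    refine sum_congr rfl fun q _ => ?_
    rw [← mul_sum]
    rfl
  have hcs : V ^ 2 ≤ π * ∑ n ∈ I, nu n * (F n) ^ 2 := by
    rw [← hFP]
    calc (∑ p ∈ P, F p) ^ 2 ≤ P.card * ∑ p ∈ P, (F p) ^ 2 := sq_sum_le_card_mul_sum_sq
      _ ≤ π * ∑ n ∈ I, nu n * (F n) ^ 2 := by
          rw [hπ]
          gcongr
          calc ∑ p ∈ P, (F p) ^ 2 ≤ ∑ p ∈ P, nu p * (F p) ^ 2 := by
                apply sum_le_sum
                intro p hp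
                have h1 := hP1 p hp
                nlinarith [sq_nonneg (F p)]
            _ ≤ ∑ n ∈ I, nu n * (F n) ^ 2 := by
                apply sum_le_sum_of_subset_of_nonneg hPI
                intro n _ _
                exact mul_nonneg (h0 n) (sq_nonneg _)
  have hquad : ∑ n ∈ I, nu n * (F n) ^ 2 ≤ V * (N + 2 * L * Y) + k ^ 2 * (4 * L * Y ^ 2 * π ^ 2) := by
    have e1 : ∑ n ∈ I, nu n * (F n) ^ 2 = ∑ q ∈ B, ∑ q' ∈ B, (((q : ℝ) - 1) * ((q' : ℝ) - 1)) *
        ∑ n ∈ I, nu n * (dev P q (n : ZMod q) * dev P q' (n : ZMod q')) := by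
      simp only [hF]
      simp_rw [sq, sum_mul_sum, mul_sum]
      rw [sum_comm]
      refine sum_congr rfl fun q _ => ?_
      rw [sum_comm]
      refine sum_congr rfl fun q' _ => ?_
      refine sum_congr rfl fun n _ => ?_
      ring
    rw [e1]
    have e2 : ∀ q ∈ B, ∀ q' ∈ B, (((q : ℝ) - 1) * ((q' : ℝ) - 1)) *
        ∑ n ∈ I, nu n * (dev P q (n : ZMod q) * dev P q' (n : ZMod q'))
        ≤ (if q = q' then ((q : ℝ) - 1) * vari P q * (N + 2 * L * Y) else 0)
          + 4 * L * Y ^ 2 * π ^ 2 := by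
      intro q hq q' hq'
      by_cases hqq : q = q'
      · subst hqq
        rw [if_pos rfl]
        have h1 := diag_le h0 hw P (hBp q hq)
        have h2 : ∑ n ∈ I, nu n * (dev P q (n : ZMod q) * dev P q (n : ZMod q))
            = ∑ n ∈ I, nu n * (dev P q (n : ZMod q)) ^ 2 :=
          sum_congr rfl fun n _ => by rw [sq]
        rw [h2]
        have hq2 : (1 : ℝ) < q := by exact_mod_cast (hBp q hq).one_lt
        have hq3 : (0 : ℝ) < (q : ℝ) - 1 := by linarith
        have hv := vari_nonneg P (hBp q hq)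
        have hqY : (q : ℝ) - 1 ≤ Y := by linarith [hBY q hq]
        calc (((q : ℝ) - 1) * ((q : ℝ) - 1)) * ∑ n ∈ I, nu n * (dev P q (n : ZMod q)) ^ 2
            ≤ (((q : ℝ) - 1) * ((q : ℝ) - 1)) * (vari P q * (N / ((q : ℝ) - 1) + 2 * L)) := by
              gcongr
          _ = ((q : ℝ) - 1) * vari P q * (N + 2 * L * ((q : ℝ) - 1)) := by
              field_simp
          _ ≤ ((q : ℝ) - 1) * vari P q * (N + 2 * L * Y) := by gcongr
          _ ≤ ((q : ℝ) - 1) * vari P q * (N + 2 * L * Y) + 4 * L * Y ^ 2 * π ^ 2 := by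
              have : 0 ≤ 4 * L * Y ^ 2 * π ^ 2 := by positivity
              linarith
      · rw [if_neg hqq, zero_add]
        have h1 := offdiag_le hw P (hBp q hq) (hBp q' hq') hqq hL
        have h2 := (le_abs_self _).trans h1
        have a1 := hq1 q hq
        have a2 := hq1 q' hq'
        have b1 : (q : ℝ) - 1 ≤ Y := by linarith [hBY q hq]
        have b2 : (q' : ℝ) - 1 ≤ Y := by linarith [hBY q' hq']
        calc (((q : ℝ) - 1) * ((q' : ℝ) - 1)) *
              ∑ n ∈ I, nu n * (dev P q (n : ZMod q) * dev P q' (n : ZMod q'))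
            ≤ (((q : ℝ) - 1) * ((q' : ℝ) - 1)) * (L * (4 * π ^ 2)) := by gcongr
          _ ≤ (Y * Y) * (L * (4 * π ^ 2)) := by gcongr
          _ = 4 * L * Y ^ 2 * π ^ 2 := by ring
    calc ∑ q ∈ B, ∑ q' ∈ B, (((q : ℝ) - 1) * ((q' : ℝ) - 1)) *
          ∑ n ∈ I, nu n * (dev P q (n : ZMod q) * dev P q' (n : ZMod q'))
        ≤ ∑ q ∈ B, ∑ q' ∈ B,
          ((if q = q' then ((q : ℝ) - 1) * vari P q * (N + 2 * L * Y) else 0)
          + 4 * L * Y ^ 2 * π ^ 2) :=
          sum_le_sum fun q hq => sum_le_sum fun q' hq' => e2 q hq q' hq'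
      _ = V * (N + 2 * L * Y) + k ^ 2 * (4 * L * Y ^ 2 * π ^ 2) := by
          simp_rw [sum_add_distrib, sum_ite_eq, sum_const, nsmul_eq_mul]
          rw [sum_congr rfl (fun q hq => if_pos hq), ← sum_mul]
          rw [hV, hk]
          ring
  have hVlow : k * π ^ 2 < 2 * V := by
    rw [hV, mul_sum]
    calc k * π ^ 2 = ∑ q ∈ B, π ^ 2 := by rw [sum_const, nsmul_eq_mul]
      _ < ∑ q ∈ B, 2 * (((q : ℝ) - 1) * vari P q) := sum_lt_sum_of_nonempty hBne hB
  have hVup : V ≤ k * (Y * π ^ 2) := by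
    rw [hV]
    calc ∑ q ∈ B, ((q : ℝ) - 1) * vari P q ≤ ∑ q ∈ B, Y * π ^ 2 := by
          apply sum_le_sum
          intro q hq
          have h1 := vari_le P (hBp q hq)
          have h2 := hq1 q hq
          have h3 : (q : ℝ) - 1 ≤ Y := by linarith [hBY q hq]
          have h4 := vari_nonneg P (hBp q hq)
          calc ((q : ℝ) - 1) * vari P q ≤ Y * vari P q := by gcongr
            _ ≤ Y * π ^ 2 := by gcongr
      _ = k * (Y * π ^ 2) := by rw [sum_const, nsmul_eq_mul]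
  have hVpos : 0 < V := by
    have : 0 ≤ k * π ^ 2 := by positivity
    linarith
  -- combine
  have h5 : V ^ 2 ≤ π * (V * (N + 2 * L * Y) + k ^ 2 * (4 * L * Y ^ 2 * π ^ 2)) :=
    hcs.trans (by gcongr)
  have h6 : π * (k ^ 2 * (4 * L * Y ^ 2 * π ^ 2)) ≤ V * (8 * π * L * k * Y ^ 2) := by
    have : k * π ^ 2 ≤ 2 * V := hVlow.le
    calc π * (k ^ 2 * (4 * L * Y ^ 2 * π ^ 2)) = (k * π ^ 2) * (4 * π * L * k * Y ^ 2) := by ring
      _ ≤ (2 * V) * (4 * π * L * k * Y ^ 2) := by gcongr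
      _ = V * (8 * π * L * k * Y ^ 2) := by ring
  have h7 : V * V ≤ V * (π * (N + 2 * L * Y + 8 * L * k * Y ^ 2)) := by
    calc V * V = V ^ 2 := by ring
      _ ≤ π * (V * (N + 2 * L * Y) + k ^ 2 * (4 * L * Y ^ 2 * π ^ 2)) := h5
      _ = V * (π * (N + 2 * L * Y)) + π * (k ^ 2 * (4 * L * Y ^ 2 * π ^ 2)) := by ring
      _ ≤ V * (π * (N + 2 * L * Y)) + V * (8 * π * L * k * Y ^ 2) := by gcongr
      _ = V * (π * (N + 2 * L * Y + 8 * L * k * Y ^ 2)) := by ring
  have h8 : V ≤ π * (N + 2 * L * Y + 8 * L * k * Y ^ 2) := le_of_mul_le_mul_left h7 hVpos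
  have h9 : 2 * L * Y ≤ 4 * L * k * Y ^ 2 := by
    have : Y ≤ k * Y ^ 2 := by nlinarith
    have : 0 ≤ 2 * L * (k * Y ^ 2 - Y) := mul_nonneg (by positivity) (by linarith)
    have h10 : 0 ≤ L * k * Y ^ 2 := by positivity
    nlinarith
  have h10 : V ≤ π * (N + π) := by
    refine h8.trans (mul_le_mul_of_nonneg_left ?_ hπ0.le)
    linarith
  have h11 : k * π ^ 2 ≤ 2 * (π * (N + π)) := hVlow.le.trans (by linarith)
  have h12 : k * π ≤ 2 * (N + π) := by
    have : π * (k * π) ≤ π * (2 * (N + π)) := by nlinarith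
    exact le_of_mul_le_mul_left this hπ0
  rw [show 2 * N / π + 2 = (2 * (N + π)) / π by field_simp, le_div_iff₀ hπ0]
  exact h12

end Pool.Agent.Lib.MP_629a14_nt
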