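import Pool.Agent.Lib.MP_60b32f_nt.JBound
import Pool.Agent.Lib.MP_629a14_nt.Ratio

/-! Elementary bound: the product of 1 + 1/p over the primes up to P is at most 4 P^(1/3). -/

set_option autoImplicit false

namespace Pool.Agent.Lib.MP_629a14_nt

open Finset
open Pool.Agent.Lib.MP_60b32f_nt (sdiv hq qset zsum claim1 zsum_le log_le_hsum sdiv_two_mul_le sdiv_pos)

noncomputable def prs (k : ℕ) : ℝ := ∑ p ∈ (range (6 * k)).filter Nat.Prime, 1 / (p : ℝ)

theorem prs_one : prs 1 = 31 / 30 := by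
  unfold prs
  have : (range (6 * 1)).filter Nat.Prime = {2, 3, 5} := by decide
  rw [this]
  norm_num

theorem prs_succ (k : ℕ) (hk : 1 ≤ k) :
    prs (k + 1) ≤ prs k + (1 / ((6 * k + 1 : ℕ) : ℝ) + 1 / ((6 * k + 5 : ℕ) : ℝ)) := by
  unfold prs
  have hsub : (range (6 * (k + 1))).filter Nat.Prime ⊆
      (range (6 * k)).filter Nat.Prime ∪ {6 * k + 1, 6 * k + 5} := by
    intro p hp
    rw [mem_filter, mem_range] at hp
    rw [mem_union, mem_filter, mem_range, mem_insert, mem_singleton]
    by_cases h : p < 6 * k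
    · left; exact ⟨h, hp.2⟩
    · right
      have hp5 : 5 < p := by omega
      have h2 : ¬ 2 ∣ p := fun hd => by
        have := (Nat.prime_dvd_prime_iff_eq Nat.prime_two hp.2).1 hd
        omega
      have h3 : ¬ 3 ∣ p := fun hd => by
        have := (Nat.prime_dvd_prime_iff_eq Nat.prime_three hp.2).1 hd
        omega
      omega
  calc ∑ p ∈ (range (6 * (k + 1))).filter Nat.Prime, 1 / (p : ℝ)
      ≤ ∑ p ∈ (range (6 * k)).filter Nat.Prime ∪ {6 * k + 1, 6 * k + 5}, 1 / (p : ℝ) :=
        sum_le_sum_of_subset_of_nonneg hsub (fun _ _ _ => by positivity)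
    _ ≤ ∑ p ∈ (range (6 * k)).filter Nat.Prime, 1 / (p : ℝ) +
        ∑ p ∈ ({6 * k + 1, 6 * k + 5} : Finset ℕ), 1 / (p : ℝ) := by
        rw [← sum_union_inter]
        have : 0 ≤ ∑ p ∈ (range (6 * k)).filter Nat.Prime ∩ {6 * k + 1, 6 * k + 5}, 1 / (p : ℝ) :=
          sum_nonneg fun _ _ => by positivity
        linarith
    _ = _ := by
        rw [sum_pair (by omega)]

theorem prs_le (k : ℕ) (hk : 1 ≤ k) : prs (k + 1) ≤ 1.3 + (1 / 3) * Real.log k := by
  induction k, hk using Nat.le_induction with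
  | base =>
    have h := prs_succ 1 le_rfl
    rw [prs_one] at h
    norm_num at h ⊢
    linarith
  | succ k hk ih =>
    have h := prs_succ (k + 1) (by omega)
    have hk0 : (0 : ℝ) < k := by exact_mod_cast hk
    have h1 : 1 / ((k : ℝ) + 1) ≤ Real.log (k + 1) - Real.log k := by
      rw [← Real.log_div (by positivity) (by positivity)]
      have := Real.one_sub_inv_le_log_of_pos (show (0 : ℝ) < (k + 1) / k by positivity)
      refine le_trans (le_of_eq ?_) this
      rw [inv_div]
      field_simp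
      ring
    have h2 : 1 / ((6 * (k + 1) + 1 : ℕ) : ℝ) + 1 / ((6 * (k + 1) + 5 : ℕ) : ℝ) ≤
        (1 / 3) * (1 / ((k : ℝ) + 1)) := by
      push_cast
      have a1 : 1 / (6 * ((k : ℝ) + 1) + 1) ≤ 1 / (6 * ((k : ℝ) + 1)) :=
        one_div_le_one_div_of_le (by positivity) (by linarith)
      have a2 : 1 / (6 * ((k : ℝ) + 1) + 5) ≤ 1 / (6 * ((k : ℝ) + 1)) :=
        one_div_le_one_div_of_le (by positivity) (by linarith)
      have a3 : (1 / 3) * (1 / ((k : ℝ) + 1)) = 1 / (6 * ((k : ℝ) + 1)) + 1 / (6 * ((k : ℝ) + 1)) := by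
        field_simp
        norm_num
      rw [a3]
      linarith
    push_cast
    linarith

theorem sum_recip_le (P : ℕ) (hP : 1 ≤ P) :
    ∑ p ∈ (range (P + 1)).filter Nat.Prime, 1 / (p : ℝ) ≤ 1.3 + (1 / 3) * Real.log P := by
  have hmono : ∀ a b : ℕ, a ≤ b → ∑ p ∈ (range a).filter Nat.Prime, 1 / (p : ℝ) ≤
      ∑ p ∈ (range b).filter Nat.Prime, 1 / (p : ℝ) := fun a b hab =>
    sum_le_sum_of_subset_of_nonneg
      (filter_subset_filter _ (range_subset_range.2 hab)) (fun _ _ _ => by positivity)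
  have hP0 : (1 : ℝ) ≤ P := by exact_mod_cast hP
  have hl : 0 ≤ Real.log P := Real.log_nonneg hP0
  by_cases h : P < 6
  · have h1 := hmono (P + 1) (6 * 1) (by omega)
    have h2 := prs_one
    unfold prs at h2
    rw [h2] at h1
    have : (31 : ℝ) / 30 ≤ 1.3 := by norm_num
    linarith
  · have hk : 1 ≤ P / 6 := by omega
    have h1 := hmono (P + 1) (6 * (P / 6 + 1)) (by omega)
    have h2 := prs_le (P / 6) hk
    unfold prs at h2
    have h3 : Real.log ((P / 6 : ℕ) : ℝ) ≤ Real.log P := by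
      apply Real.log_le_log (by exact_mod_cast hk)
      exact_mod_cast Nat.div_le_self P 6
    linarith

theorem sdiv_squarefree {n : ℕ} (hn : Squarefree n) :
    sdiv n = ∏ p ∈ n.primeFactors, (1 + 1 / (p : ℝ)) := by
  rw [sdiv_eq n hn.ne_zero]
  refine prod_congr rfl fun p hp => ?_
  have hpp := Nat.prime_of_mem_primeFactors hp
  have h1 : n.factorization p = 1 := by
    have h2 : n.factorization p ≤ 1 := hn.natFactorization_le_one p
    have h3 : 0 < n.factorization p :=
      hpp.factorization_pos_of_dvd hn.ne_zero (Nat.dvd_of_mem_primeFactors hp)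
    omega
  rw [h1]
  have hp0 : (p : ℝ) ≠ 0 := by exact_mod_cast hpp.ne_zero
  simp only [sum_range_succ, sum_range_zero, pow_zero, pow_one, zero_add]
  field_simp
  ring

theorem primorial_sqf (P : ℕ) : Squarefree (primorial P) := by
  unfold primorial
  refine Finset.squarefree_prod_of_pairwise_isCoprime (fun p hp q hq hpq ↦ ?_) ?_
  · rw [Function.onFun, ← Nat.coprime_iff_isRelPrime]
    have h1 : p.Prime := (mem_filter.1 hp).2
    have h2 : q.Prime := (mem_filter.1 hq).2
    exact (Nat.coprime_primes h1 h2).2 hpq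
  · intro p hp
    exact (mem_filter.1 hp).2.prime.squarefree

theorem prime_dvd_primorial_iff' {P p : ℕ} (hp : p.Prime) : p ∣ primorial P ↔ p ≤ P := by
  unfold primorial
  constructor
  · intro h
    obtain ⟨q, hq, hpq⟩ := (hp.prime.dvd_finsetProd_iff _).1 h
    have hq' : q.Prime := (mem_filter.1 hq).2
    have := (Nat.prime_dvd_prime_iff_eq hp hq').1 hpq
    rw [this]
    have := mem_range.1 (mem_filter.1 hq).1
    omega
  · intro h
    exact dvd_prod_of_mem _ (mem_filter.2 ⟨mem_range.2 (by omega), hp⟩)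

theorem sdiv_primorial (P : ℕ) (hP : 1 ≤ P) :
    sdiv (primorial P) ≤ 4 * (P : ℝ) ^ (1 / 3 : ℝ) := by
  have hP0 : (0 : ℝ) < P := by exact_mod_cast hP
  rw [sdiv_squarefree (primorial_sqf P)]
  have h1 : (primorial P).primeFactors = (range (P + 1)).filter Nat.Prime := by
    ext p
    rw [Nat.mem_primeFactors, mem_filter, mem_range]
    constructor
    · rintro ⟨hp, hd, _⟩
      have := (prime_dvd_primorial_iff' hp).1 hd
      exact ⟨by omega, hp⟩
    · rintro ⟨hlt, hp⟩
      exact ⟨hp, (prime_dvd_primorial_iff' hp).2 (by omega), (primorial_sqf P).ne_zero⟩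
  rw [h1]
  calc ∏ p ∈ (range (P + 1)).filter Nat.Prime, (1 + 1 / (p : ℝ))
      ≤ ∏ p ∈ (range (P + 1)).filter Nat.Prime, Real.exp (1 / (p : ℝ)) := by
        refine prod_le_prod (fun _ _ => by positivity) (fun p _ => ?_)
        rw [add_comm]
        exact Real.add_one_le_exp _
    _ = Real.exp (∑ p ∈ (range (P + 1)).filter Nat.Prime, 1 / (p : ℝ)) := by
        rw [Real.exp_sum]
    _ ≤ Real.exp (1.3 + (1 / 3) * Real.log P) := Real.exp_le_exp.2 (sum_recip_le P hP)
    _ = Real.exp 1.3 * (P : ℝ) ^ (1 / 3 : ℝ) := by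
        rw [Real.exp_add, Real.rpow_def_of_pos hP0, mul_comm (Real.log P)]
    _ ≤ 4 * (P : ℝ) ^ (1 / 3 : ℝ) := by
        refine mul_le_mul_of_nonneg_right ?_ (Real.rpow_nonneg hP0.le _)
        have h2 : (1.3 : ℝ) ≤ Real.log 4 := by
          have h3 : Real.log 4 = 2 * Real.log 2 := by
            rw [show (4 : ℝ) = 2 ^ 2 by norm_num, Real.log_pow]
            norm_num
          have := Real.log_two_gt_d9
          rw [h3]
          linarith
        calc Real.exp 1.3 ≤ Real.exp (Real.log 4) := Real.exp_le_exp.2 h2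
          _ = 4 := Real.exp_log (by norm_num)

/-- lower bound for the sum over squarefree numbers without small prime factors -/
theorem hq_primorial (P Q : ℕ) (hP : 1 ≤ P) :
    Real.log (Q + 1) ≤ 16 * (P : ℝ) ^ (1 / 3 : ℝ) * hq (primorial P) Q := by
  have h0 : 0 < primorial P := primorial_pos P
  have h1 := claim1 (primorial P) Q h0
  have h2 := zsum_le Q
  have h3 := sdiv_two_mul_le (primorial P) h0
  have h4 := sdiv_primorial P hP
  have h5 := log_le_hsum Q
  have hh : 0 ≤ hq (primorial P) Q := by unfold hq; positivity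
  have hs : 0 ≤ sdiv (2 * primorial P) := by unfold sdiv; positivity
  have hs' : 0 ≤ sdiv (primorial P) := by unfold sdiv; positivity
  calc Real.log (Q + 1) ≤ zsum Q * (sdiv (2 * primorial P) * hq (primorial P) Q) := h5.trans h1
    _ ≤ 2 * ((2 * sdiv (primorial P)) * hq (primorial P) Q) := by gcongr
    _ ≤ 2 * ((2 * (4 * (P : ℝ) ^ (1 / 3 : ℝ))) * hq (primorial P) Q) := by gcongr
    _ = _ := by ring

end Pool.Agent.Lib.MP_629a14_nt
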