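import Mathlib

/-! Level sets and fourth moments from the restriction inequality. -/

set_option autoImplicit false

namespace Pool.Agent.Lib.MP_629a14_nt

open Finset

theorem level_count {ι : Type*} (H : Finset ι) (T : ι → ℝ) {k0 : ℝ} (hk0 : 1 ≤ k0)
    (hyp : ∀ R ⊆ H, ∑ h ∈ R, T h ^ 2 ≤ k0 ^ 2 * (R.card : ℝ) ^ (1 / 3 : ℝ)) {lam : ℝ}
    (hlam : 0 < lam) : ((H.filter (fun h => lam ≤ T h)).card : ℝ) ≤ (k0 / lam) ^ 3 := by
  set R := H.filter (fun h => lam ≤ T h) with hR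
  have h1 := hyp R (filter_subset _ _)
  have h2 : (R.card : ℝ) * lam ^ 2 ≤ ∑ h ∈ R, T h ^ 2 := by
    calc (R.card : ℝ) * lam ^ 2 = ∑ h ∈ R, lam ^ 2 := by rw [sum_const, nsmul_eq_mul]
      _ ≤ _ := sum_le_sum fun h hh => by
          have := (mem_filter.1 hh).2
          exact pow_le_pow_left₀ hlam.le this 2
  set m : ℝ := (R.card : ℝ) ^ (1 / 3 : ℝ) with hm
  have hm0 : 0 ≤ m := Real.rpow_nonneg (by positivity) _
  have hm3 : m ^ 3 = R.card := by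
    rw [hm, ← Real.rpow_natCast, ← Real.rpow_mul (by positivity)]
    norm_num
  rw [← hm3] at h2 ⊢
  have h3 : m ^ 3 * lam ^ 2 ≤ k0 ^ 2 * m := h2.trans h1
  have h4 : m ≤ k0 / lam := by
    rcases hm0.eq_or_lt with h | h
    · rw [← h]; positivity
    · rw [le_div_iff₀ hlam]
      have h5 : (m * lam) ^ 2 * m ≤ k0 ^ 2 * m := by nlinarith
      have h6 : (m * lam) ^ 2 ≤ k0 ^ 2 := le_of_mul_le_mul_right h5 h
      exact abs_le_of_sq_le_sq' h6 (by linarith) |>.2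
  exact pow_le_pow_left₀ hm0 h4 3

theorem geom_Ico (j0 J : ℕ) (h : j0 ≤ J) :
    ∑ j ∈ Ico j0 J, ((1 : ℝ) / 2) ^ j = 2 * (1 / 2) ^ j0 - 2 * (1 / 2) ^ J := by
  induction J, h using Nat.le_induction with
  | base => simp
  | succ J hJ ih =>
    rw [sum_Ico_succ_top hJ, ih, pow_succ]
    ring

theorem fourth_tail {ι : Type*} (H : Finset ι) (T : ι → ℝ) {k0 : ℝ} (hk0 : 1 ≤ k0)
    (hT : ∀ h ∈ H, 0 ≤ T h)
    (hyp : ∀ R ⊆ H, ∑ h ∈ R, T h ^ 2 ≤ k0 ^ 2 * (R.card : ℝ) ^ (1 / 3 : ℝ)) (j0 : ℕ) :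
    ∑ h ∈ H.filter (fun h => T h ≤ (1 / 2) ^ j0), T h ^ 4 ≤ 16 * k0 ^ 3 * (1 / 2) ^ j0 := by
  classical
  set S := H.filter (fun h => T h ≤ (1 / 2) ^ j0) with hS
  have hex : ∀ h : ι, ∃ j : ℕ, h ∈ S → 0 < T h →
      (((1 : ℝ) / 2) ^ (j + 1) < T h ∧ T h ≤ (1 / 2) ^ j ∧ j0 ≤ j) := by
    intro h
    by_cases hh : h ∈ S ∧ 0 < T h
    · obtain ⟨hh1, hh2⟩ := hh
      have h1 := (mem_filter.1 hh1).2
      have h2 : T h ≤ 1 := h1.trans (pow_le_one₀ (by norm_num) (by norm_num))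
      obtain ⟨j, hj1, hj2⟩ := exists_nat_pow_near_of_lt_one hh2 h2
        (show (0 : ℝ) < 1 / 2 by norm_num) (by norm_num)
      refine ⟨j, fun _ _ => ⟨hj1, hj2, ?_⟩⟩
      by_contra hlt
      push Not at hlt
      have h3 : ((1 : ℝ) / 2) ^ j0 ≤ (1 / 2) ^ (j + 1) :=
        pow_le_pow_of_le_one (by norm_num) (by norm_num) (by omega)
      linarith
    · exact ⟨0, fun a b => absurd ⟨a, b⟩ hh⟩
  choose lev hlev using hex
  set J : ℕ := max j0 (S.sup lev + 1) with hJ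
  have hpt : ∀ h ∈ S, T h ^ 4 ≤ ∑ j ∈ Ico j0 J, (if ((1 : ℝ) / 2) ^ (j + 1) ≤ T h then
      ((1 : ℝ) / 2) ^ (4 * j) else 0) := by
    intro h hh
    have h0 := hT h (mem_filter.1 hh).1
    rcases h0.eq_or_lt with h1 | h1
    · rw [← h1]
      rw [zero_pow (by norm_num)]
      exact sum_nonneg fun j _ => by positivity
    · obtain ⟨a1, a2, a3⟩ := hlev h hh h1
      have hmem : lev h ∈ Ico j0 J := by
        rw [mem_Ico]
        refine ⟨a3, ?_⟩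
        have : lev h ≤ S.sup lev := le_sup hh
        rw [hJ]
        exact lt_of_lt_of_le (by omega) (le_max_right _ _)
      calc T h ^ 4 ≤ (((1 : ℝ) / 2) ^ (lev h)) ^ 4 := pow_le_pow_left₀ h0 a2 4
        _ = (if ((1 : ℝ) / 2) ^ (lev h + 1) ≤ T h then ((1 : ℝ) / 2) ^ (4 * lev h) else 0) := by
            rw [if_pos a1.le, ← pow_mul]
            congr 1
            ring
        _ ≤ _ := single_le_sum (f := fun j => if ((1 : ℝ) / 2) ^ (j + 1) ≤ T h then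
            ((1 : ℝ) / 2) ^ (4 * j) else 0) (fun j _ => by positivity) hmem
  calc ∑ h ∈ S, T h ^ 4 ≤ ∑ h ∈ S, ∑ j ∈ Ico j0 J, (if ((1 : ℝ) / 2) ^ (j + 1) ≤ T h then
      ((1 : ℝ) / 2) ^ (4 * j) else 0) := sum_le_sum hpt
    _ ≤ ∑ h ∈ H, ∑ j ∈ Ico j0 J, (if ((1 : ℝ) / 2) ^ (j + 1) ≤ T h then
      ((1 : ℝ) / 2) ^ (4 * j) else 0) :=
        sum_le_sum_of_subset_of_nonneg (filter_subset _ _)
          (fun _ _ _ => sum_nonneg fun j _ => by positivity)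
    _ = ∑ j ∈ Ico j0 J, ∑ h ∈ H, (if ((1 : ℝ) / 2) ^ (j + 1) ≤ T h then
      ((1 : ℝ) / 2) ^ (4 * j) else 0) := sum_comm
    _ ≤ ∑ j ∈ Ico j0 J, 8 * k0 ^ 3 * ((1 : ℝ) / 2) ^ j := by
        refine sum_le_sum fun j _ => ?_
        rw [← sum_filter, sum_const, nsmul_eq_mul]
        have h1 := level_count H T hk0 hyp (show (0 : ℝ) < (1 / 2) ^ (j + 1) by positivity)
        have h2 : (k0 / (1 / 2) ^ (j + 1)) ^ 3 * ((1 : ℝ) / 2) ^ (4 * j) =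
            8 * k0 ^ 3 * ((1 : ℝ) / 2) ^ j := by
          have e1 : ((1 : ℝ) / 2) ^ (4 * j) = ((1 / 2) ^ j) ^ 3 * (1 / 2) ^ j := by ring
          have hne : ((1 : ℝ) / 2) ^ j ≠ 0 := by positivity
          rw [e1, pow_succ]
          field_simp
          ring
        rw [← h2]
        exact mul_le_mul_of_nonneg_right h1 (by positivity)
    _ = 8 * k0 ^ 3 * ∑ j ∈ Ico j0 J, ((1 : ℝ) / 2) ^ j := by rw [mul_sum]
    _ ≤ 8 * k0 ^ 3 * (2 * (1 / 2) ^ j0) := by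
        rw [geom_Ico j0 J (le_max_left _ _)]
        have : (0 : ℝ) ≤ 2 * (1 / 2) ^ J := by positivity
        have hk : (0 : ℝ) ≤ 8 * k0 ^ 3 := by positivity
        nlinarith
    _ = 16 * k0 ^ 3 * (1 / 2) ^ j0 := by ring

theorem fourth_total {ι : Type*} (H : Finset ι) (T : ι → ℝ) {k0 : ℝ} (hk0 : 1 ≤ k0)
    (hT : ∀ h ∈ H, 0 ≤ T h)
    (hyp : ∀ R ⊆ H, ∑ h ∈ R, T h ^ 2 ≤ k0 ^ 2 * (R.card : ℝ) ^ (1 / 3 : ℝ)) :
    ∑ h ∈ H, T h ^ 4 ≤ 17 * k0 ^ 7 := by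
  classical
  have h1 := fourth_tail H T hk0 hT hyp 0
  have h2 : ∑ h ∈ H.filter (fun h => ¬ T h ≤ (1 / 2) ^ 0), T h ^ 4 ≤ k0 ^ 7 := by
    have h3 : ∀ h ∈ H.filter (fun h => ¬ T h ≤ (1 / 2) ^ 0), T h ^ 4 ≤ k0 ^ 4 := by
      intro h hh
      have hh' := (mem_filter.1 hh).1
      have h4 := hyp {h} (singleton_subset_iff.2 hh')
      rw [sum_singleton, card_singleton, Nat.cast_one, Real.one_rpow, mul_one] at h4
      have h5 := abs_le_of_sq_le_sq' h4 (by linarith) |>.2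
      exact pow_le_pow_left₀ (hT h hh') h5 4
    have h6 : (H.filter (fun h => ¬ T h ≤ (1 / 2) ^ 0)) ⊆ H.filter (fun h => 1 ≤ T h) := by
      intro h hh
      rw [mem_filter] at hh ⊢
      refine ⟨hh.1, ?_⟩
      have := hh.2
      rw [pow_zero, not_le] at this
      exact this.le
    have h7 := level_count H T hk0 hyp (show (0 : ℝ) < 1 by norm_num)
    rw [div_one] at h7
    have h8 : ((H.filter (fun h => ¬ T h ≤ (1 / 2) ^ 0)).card : ℝ) ≤ k0 ^ 3 := by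
      refine le_trans ?_ h7
      exact_mod_cast card_le_card h6
    calc ∑ h ∈ H.filter (fun h => ¬ T h ≤ (1 / 2) ^ 0), T h ^ 4
        ≤ ∑ h ∈ H.filter (fun h => ¬ T h ≤ (1 / 2) ^ 0), k0 ^ 4 := sum_le_sum h3
      _ = ((H.filter (fun h => ¬ T h ≤ (1 / 2) ^ 0)).card : ℝ) * k0 ^ 4 := by
          rw [sum_const, nsmul_eq_mul]
      _ ≤ k0 ^ 3 * k0 ^ 4 := by gcongr
      _ = k0 ^ 7 := by ring
  rw [← sum_filter_add_sum_filter_not H (fun h => T h ≤ (1 / 2) ^ 0)]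
  have h9 : k0 ^ 3 ≤ k0 ^ 7 := pow_le_pow_right₀ hk0 (by norm_num)
  rw [pow_zero] at h1 h2 ⊢
  linarith

end Pool.Agent.Lib.MP_629a14_nt
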