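import Pool.Agent.Lib.MP_629a14_nt.Fourier

/-!
Functions on `[1,N]` which are trigonometric polynomials with coefficient sum at most `V`
(a finite Wiener norm), with the usual calculus.
-/

set_option autoImplicit false

namespace Pool.Agent.Lib.MP_629a14_nt

open Finset

/-- `f` agrees on `[1,N]` with a trigonometric polynomial whose coefficients have absolute values
summing to at most `V`. -/
def Wi (N : ℕ) (f : ℕ → ℂ) (V : ℝ) : Prop :=
  ∃ (ι : Type) (_ : Fintype ι) (c : ι → ℂ) (θ : ι → ℝ),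
    (∀ n ∈ Icc 1 N, f n = ∑ i, c i * ee (θ i * n)) ∧ ∑ i, ‖c i‖ ≤ V

namespace Wi

variable {N : ℕ} {f g : ℕ → ℂ} {V W : ℝ}

theorem nonneg (h : Wi N f V) : 0 ≤ V := by
  obtain ⟨ι, _, c, θ, _, h2⟩ := h
  exact (sum_nonneg fun _ _ => norm_nonneg _).trans h2

theorem mono (h : Wi N f V) (hVW : V ≤ W) : Wi N f W := by
  obtain ⟨ι, i1, c, θ, h1, h2⟩ := h
  exact ⟨ι, i1, c, θ, h1, h2.trans hVW⟩

theorem congr (h : Wi N f V) (hfg : ∀ n ∈ Icc 1 N, g n = f n) : Wi N g V := by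
  obtain ⟨ι, i1, c, θ, h1, h2⟩ := h
  exact ⟨ι, i1, c, θ, fun n hn => (hfg n hn).trans (h1 n hn), h2⟩

theorem char (z : ℂ) (t : ℝ) : Wi N (fun n => z * ee (t * n)) ‖z‖ :=
  ⟨Unit, inferInstance, fun _ => z, fun _ => t, fun n _ => by simp, by simp⟩

theorem const (z : ℂ) : Wi N (fun _ => z) ‖z‖ :=
  (char z 0).congr fun n _ => by simp [ee_zero]

theorem add (hf : Wi N f V) (hg : Wi N g W) : Wi N (fun n => f n + g n) (V + W) := by
  obtain ⟨ι, i1, c, θ, h1, h2⟩ := hf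
  obtain ⟨κ, i2, d, φ, h3, h4⟩ := hg
  refine ⟨ι ⊕ κ, inferInstance, Sum.elim c d, Sum.elim θ φ, fun n hn => ?_, ?_⟩
  · simp only [h1 n hn, h3 n hn, Fintype.sum_sum_type, Sum.elim_inl, Sum.elim_inr]
  · simp only [Fintype.sum_sum_type, Sum.elim_inl, Sum.elim_inr]
    exact add_le_add h2 h4

theorem mul (hf : Wi N f V) (hg : Wi N g W) : Wi N (fun n => f n * g n) (V * W) := by
  have hV := hf.nonneg
  obtain ⟨ι, i1, c, θ, h1, h2⟩ := hf
  obtain ⟨κ, i2, d, φ, h3, h4⟩ := hg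
  refine ⟨ι × κ, inferInstance, fun x => c x.1 * d x.2, fun x => θ x.1 + φ x.2,
    fun n hn => ?_, ?_⟩
  · simp only [h1 n hn, h3 n hn, Fintype.sum_prod_type]
    rw [sum_mul_sum]
    refine sum_congr rfl fun i _ => sum_congr rfl fun j _ => ?_
    rw [add_mul, ee_add]
    ring
  · simp only [Fintype.sum_prod_type, norm_mul]
    rw [← sum_mul_sum]
    exact mul_le_mul h2 h4 (sum_nonneg fun _ _ => norm_nonneg _) hV

theorem smul (z : ℂ) (hf : Wi N f V) : Wi N (fun n => z * f n) (‖z‖ * V) := (const z).mul hf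

theorem neg (hf : Wi N f V) : Wi N (fun n => - f n) V := by
  have h := hf.smul (-1)
  simp only [norm_neg, norm_one, one_mul] at h
  exact h.congr fun n _ => by simp

theorem sub (hf : Wi N f V) (hg : Wi N g W) : Wi N (fun n => f n - g n) (V + W) :=
  (hf.add hg.neg).congr fun n _ => by simp [sub_eq_add_neg]

theorem zero : Wi N (fun _ => 0) 0 := by
  have := const (N := N) 0
  rwa [norm_zero] at this

theorem sum {κ : Type*} (s : Finset κ) (F : κ → ℕ → ℂ) (v : κ → ℝ)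
    (h : ∀ i ∈ s, Wi N (F i) (v i)) : Wi N (fun n => ∑ i ∈ s, F i n) (∑ i ∈ s, v i) := by
  classical
  induction s using Finset.induction_on with
  | empty => simpa using (zero (N := N))
  | insert a s ha ih =>
    simp only [sum_insert ha]
    exact (h a (mem_insert_self a s)).add (ih fun i hi => h i (mem_insert_of_mem hi))

theorem pow (hf : Wi N f V) (k : ℕ) : Wi N (fun n => f n ^ k) (V ^ k) := by
  induction k with
  | zero =>
    have := const (N := N) 1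
    rw [norm_one] at this
    simpa using this
  | succ k ih =>
    have := ih.mul hf
    simpa [pow_succ] using this

theorem conj (hf : Wi N f V) : Wi N (fun n => (starRingEnd ℂ) (f n)) V := by
  obtain ⟨ι, i1, c, θ, h1, h2⟩ := hf
  refine ⟨ι, i1, fun i => (starRingEnd ℂ) (c i), fun i => - θ i, fun n hn => ?_, ?_⟩
  · simp only [h1 n hn, map_sum, map_mul, conj_ee]
    refine sum_congr rfl fun i _ => ?_
    congr 2
    ring
  · simpa using h2

theorem re (hf : Wi N f V) : Wi N (fun n => (((f n).re : ℝ) : ℂ)) V := by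
  have h := (hf.add hf.conj).smul (1 / 2)
  have h2 : ‖(1 / 2 : ℂ)‖ * (V + V) = V := by
    rw [norm_div, norm_one, Complex.norm_ofNat]
    ring
  rw [h2] at h
  refine h.congr fun n _ => ?_
  rw [Complex.add_conj]
  push_cast
  ring

theorem norm_le (hf : Wi N f V) {n : ℕ} (hn : n ∈ Icc 1 N) : ‖f n‖ ≤ V := by
  obtain ⟨ι, i1, c, θ, h1, h2⟩ := hf
  rw [h1 n hn]
  refine (norm_sum_le _ _).trans (le_trans (sum_le_sum fun i _ => ?_) h2)
  rw [norm_mul, norm_ee, mul_one]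

/-- polynomials of functions with finite Wiener norm -/
theorem poly (p : Polynomial ℝ) {x : ℕ → ℝ} (hx : Wi N (fun n => (x n : ℂ)) V) :
    Wi N (fun n => ((p.eval (x n) : ℝ) : ℂ))
      (∑ k ∈ range (p.natDegree + 1), |p.coeff k| * V ^ k) := by
  have h := sum (N := N) (range (p.natDegree + 1))
    (fun k n => (p.coeff k : ℂ) * ((x n : ℂ)) ^ k) (fun k => |p.coeff k| * V ^ k) (by
      intro k _
      have h1 := (hx.pow k).smul (p.coeff k : ℂ)
      rwa [Complex.norm_real, Real.norm_eq_abs] at h1)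
  refine h.congr fun n _ => ?_
  rw [Polynomial.eval_eq_sum_range]
  push_cast
  rfl

/-- the basic estimate: a signed weight with small exponential sums has small sums against
functions with finite Wiener norm -/
theorem apply (hf : Wi N f V) {u : ℕ → ℝ} {η : ℝ}
    (hu : ∀ t : ℝ, ‖∑ n ∈ Icc 1 N, (u n : ℂ) * ee (t * n)‖ ≤ η) :
    ‖∑ n ∈ Icc 1 N, (u n : ℂ) * f n‖ ≤ V * η := by
  have hη : 0 ≤ η := (norm_nonneg _).trans (hu 0)
  obtain ⟨ι, i1, c, θ, h1, h2⟩ := hf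
  have h3 : ∑ n ∈ Icc 1 N, (u n : ℂ) * f n =
      ∑ i, c i * ∑ n ∈ Icc 1 N, (u n : ℂ) * ee (θ i * n) := by
    have : ∀ n ∈ Icc 1 N, (u n : ℂ) * f n = ∑ i, c i * ((u n : ℂ) * ee (θ i * n)) := by
      intro n hn
      rw [h1 n hn, mul_sum]
      exact sum_congr rfl fun i _ => by ring
    rw [sum_congr rfl this, sum_comm]
    exact sum_congr rfl fun i _ => by rw [mul_sum]
  rw [h3]
  refine (norm_sum_le _ _).trans ?_
  calc ∑ i, ‖c i * ∑ n ∈ Icc 1 N, (u n : ℂ) * ee (θ i * n)‖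
      ≤ ∑ i, ‖c i‖ * η := by
        refine sum_le_sum fun i _ => ?_
        rw [norm_mul]
        exact mul_le_mul_of_nonneg_left (hu _) (norm_nonneg _)
    _ = (∑ i, ‖c i‖) * η := by rw [sum_mul]
    _ ≤ V * η := by gcongr

/-- real version of the basic estimate -/
theorem apply_real {x : ℕ → ℝ} (hx : Wi N (fun n => (x n : ℂ)) V) {u : ℕ → ℝ} {η : ℝ}
    (hu : ∀ t : ℝ, ‖∑ n ∈ Icc 1 N, (u n : ℂ) * ee (t * n)‖ ≤ η) :
    |∑ n ∈ Icc 1 N, u n * x n| ≤ V * η := by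
  have h := hx.apply hu
  have h2 : ((∑ n ∈ Icc 1 N, u n * x n : ℝ) : ℂ) = ∑ n ∈ Icc 1 N, (u n : ℂ) * (x n : ℂ) := by
    push_cast
    rfl
  rwa [← h2, Complex.norm_real, Real.norm_eq_abs] at h

/-- divisibility indicators -/
theorem dvd {d : ℕ} (hd : 0 < d) : Wi N (fun n => if d ∣ n then 1 else 0) 1 := by
  have hd0 : (d : ℂ) ≠ 0 := by exact_mod_cast hd.ne'
  have h := sum (N := N) (range d) (fun h n => (1 / (d : ℂ)) * ee (((h : ℝ) / d) * n))
    (fun _ => 1 / (d : ℝ)) (by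
      intro h _
      refine (char (N := N) (1 / (d : ℂ)) ((h : ℝ) / d)).mono (le_of_eq ?_)
      rw [norm_div, norm_one, Complex.norm_natCast])
  rw [sum_const, card_range, nsmul_eq_mul] at h
  have h2 : (d : ℝ) * (1 / (d : ℝ)) = 1 := by
    have : (d : ℝ) ≠ 0 := by exact_mod_cast hd.ne'
    field_simp
  rw [h2] at h
  refine h.congr fun n _ => ?_
  have h3 := sum_ee_range d hd n
  have h4 : ∀ h ∈ range d, ee (((h : ℝ) / d) * n) = ee ((h : ℝ) * (((n : ℤ) : ℝ) / d)) := by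
    intro h _
    congr 1
    push_cast
    ring
  rw [← mul_sum, sum_congr rfl h4, h3]
  simp only [Int.natCast_dvd_natCast]
  split_ifs
  · field_simp
  · simp

end Wi

/-- Fourier expansion of the representation function. -/
theorem rep_fourier {N : ℕ} (A B : Finset ℕ) (hA : ∀ a ∈ A, a ≤ N) (hB : ∀ b ∈ B, b ≤ N)
    {n : ℕ} (hn : n ≤ N) :
    (repAB A B n : ℂ) = ∑ h ∈ range (2 * N + 1), ((1 / ((2 * N + 1 : ℕ) : ℂ)) *
      ((∑ a ∈ A, ee (a * (-((h : ℝ) / (2 * N + 1 : ℕ))))) *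
        (∑ b ∈ B, ee (b * (-((h : ℝ) / (2 * N + 1 : ℕ))))))) *
        ee (((h : ℝ) / (2 * N + 1 : ℕ)) * n) := by
  set Q : ℕ := 2 * N + 1 with hQdef
  have hQ : 0 < Q := by omega
  have hQ0 : (Q : ℂ) ≠ 0 := by exact_mod_cast hQ.ne'
  have h1 : ∀ a ∈ A, ∀ b ∈ B, ∑ h ∈ range Q, ee ((h : ℝ) * ((((n : ℤ) - a - b : ℤ) : ℝ) / Q)) =
      if a + b = n then (Q : ℂ) else 0 := by
    intro a ha b hb
    rw [sum_ee_range Q hQ]
    have := hA a ha
    have := hB b hb
    by_cases hab : a + b = n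
    · rw [if_pos hab, if_pos]
      have : (n : ℤ) - a - b = 0 := by omega
      rw [this]
      exact dvd_zero _
    · rw [if_neg hab, if_neg]
      intro hdvd
      apply hab
      have h5 : (n : ℤ) - a - b = 0 := by
        apply Int.eq_zero_of_abs_lt_dvd hdvd
        rw [abs_lt]
        constructor <;> omega
      omega
  have hrep : (repAB A B n : ℂ) * Q = ∑ a ∈ A, ∑ b ∈ B, ∑ h ∈ range Q,
      ee ((h : ℝ) * ((((n : ℤ) - a - b : ℤ) : ℝ) / Q)) := by
    rw [sum_congr rfl (fun a ha => sum_congr rfl (h1 a ha))]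
    unfold repAB
    rw [← sum_product', ← sum_filter, sum_const, nsmul_eq_mul]
  have h2 : ∑ a ∈ A, ∑ b ∈ B, ∑ h ∈ range Q,
      ee ((h : ℝ) * ((((n : ℤ) - a - b : ℤ) : ℝ) / Q)) = ∑ h ∈ range Q, ∑ a ∈ A, ∑ b ∈ B,
      ee ((h : ℝ) * ((((n : ℤ) - a - b : ℤ) : ℝ) / Q)) := by
    have h3 : ∀ a ∈ A, ∑ b ∈ B, ∑ h ∈ range Q,
        ee ((h : ℝ) * ((((n : ℤ) - a - b : ℤ) : ℝ) / Q)) = ∑ h ∈ range Q, ∑ b ∈ B,
        ee ((h : ℝ) * ((((n : ℤ) - a - b : ℤ) : ℝ) / Q)) := fun a _ => sum_comm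
    rw [sum_congr rfl h3, sum_comm]
  have h4 : (repAB A B n : ℂ) = (1 / (Q : ℂ)) * ((repAB A B n : ℂ) * Q) := by
    field_simp
  rw [h4, hrep, h2, mul_sum]
  refine sum_congr rfl fun h _ => ?_
  rw [mul_assoc]
  congr 1
  rw [sum_mul_sum, sum_mul]
  refine sum_congr rfl fun a _ => ?_
  rw [sum_mul]
  refine sum_congr rfl fun b _ => ?_
  rw [← ee_add, ← ee_add]
  congr 1
  push_cast
  ring

/-- Parseval for sets in the normalisation used here. -/
theorem parseval_set {N : ℕ} (A : Finset ℕ) (hA : ∀ a ∈ A, a ≤ N) :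
    ∑ h ∈ range (2 * N + 1), ‖∑ a ∈ A, ee (a * (-((h : ℝ) / (2 * N + 1 : ℕ))))‖ ^ 2 =
      ((2 * N + 1 : ℕ) : ℝ) * A.card := by
  rw [← parseval (2 * N + 1) (by omega) A (fun a ha => by have := hA a ha; omega)]
  refine sum_congr rfl fun h _ => ?_
  congr 2
  refine sum_congr rfl fun a _ => ?_
  congr 1
  ring

/-- Wiener norm of a representation function -/
theorem wi_rep {N : ℕ} (A B : Finset ℕ) (hA : ∀ a ∈ A, a ≤ N) (hB : ∀ b ∈ B, b ≤ N) :
    Wi N (fun n => (repAB A B n : ℂ)) (((A.card : ℝ) + B.card) / 2) := by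
  set Q : ℕ := 2 * N + 1 with hQdef
  have hQ : 0 < Q := by omega
  have hQ0 : (0 : ℝ) < Q := by exact_mod_cast hQ
  have h := Wi.sum (N := N) (range Q) (fun h n => ((1 / (Q : ℂ)) *
      ((∑ a ∈ A, ee (a * (-((h : ℝ) / Q)))) * (∑ b ∈ B, ee (b * (-((h : ℝ) / Q)))))) *
        ee (((h : ℝ) / Q) * n))
    (fun h => ‖(1 / (Q : ℂ)) * ((∑ a ∈ A, ee (a * (-((h : ℝ) / Q)))) *
      (∑ b ∈ B, ee (b * (-((h : ℝ) / Q)))))‖) (fun h _ => Wi.char _ _)
  refine (h.congr fun n hn => ?_).mono ?_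
  · exact rep_fourier A B hA hB (mem_Icc.1 hn).2
  · have h1 := parseval_set A hA
    have h2 := parseval_set B hB
    rw [← hQdef] at h1 h2
    calc ∑ h ∈ range Q, ‖(1 / (Q : ℂ)) * ((∑ a ∈ A, ee (a * (-((h : ℝ) / Q)))) *
          (∑ b ∈ B, ee (b * (-((h : ℝ) / Q)))))‖
        ≤ ∑ h ∈ range Q, (1 / (Q : ℝ)) * ((‖∑ a ∈ A, ee (a * (-((h : ℝ) / Q)))‖ ^ 2 +
          ‖∑ b ∈ B, ee (b * (-((h : ℝ) / Q)))‖ ^ 2) / 2) := by
          refine sum_le_sum fun h _ => ?_
          rw [norm_mul, norm_mul, norm_div, norm_one, Complex.norm_natCast]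
          refine mul_le_mul_of_nonneg_left ?_ (by positivity)
          nlinarith [sq_nonneg (‖∑ a ∈ A, ee (a * (-((h : ℝ) / Q)))‖ -
            ‖∑ b ∈ B, ee (b * (-((h : ℝ) / Q)))‖)]
      _ = (1 / (Q : ℝ)) * (((Q : ℝ) * A.card + Q * B.card) / 2) := by
          rw [← mul_sum, ← sum_div, sum_add_distrib, h1, h2]
      _ = ((A.card : ℝ) + B.card) / 2 := by
          field_simp

/-- the identity function divided by `N` -/
theorem wi_lin (N : ℕ) (hN : 0 < N) : Wi N (fun n => (((n : ℝ) / N : ℝ) : ℂ)) 1 := by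
  have h := (wi_rep (N := N) (Icc 1 N) (range N) (fun a ha => (mem_Icc.1 ha).2)
    (fun b hb => (mem_range.1 hb).le)).smul (1 / (N : ℂ))
  rw [norm_div, norm_one, Complex.norm_natCast, Nat.card_Icc, card_range] at h
  have hN0 : (N : ℝ) ≠ 0 := by exact_mod_cast hN.ne'
  have h2 : 1 / (N : ℝ) * ((((N + 1 - 1 : ℕ) : ℝ) + N) / 2) = 1 := by
    rw [Nat.add_sub_cancel]
    field_simp
    ring
  rw [h2] at h
  refine h.congr fun n hn => ?_
  have hn' := mem_Icc.1 hn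
  have h3 : repAB (Icc 1 N) (range N) n = n := by
    unfold repAB
    have : ((Icc 1 N ×ˢ range N).filter (fun ab : ℕ × ℕ => ab.1 + ab.2 = n)) =
        (Icc 1 n).image (fun a => (a, n - a)) := by
      ext ⟨a, b⟩
      simp only [mem_filter, mem_product, mem_Icc, mem_range, mem_image, Prod.mk.injEq]
      constructor
      · rintro ⟨⟨⟨h1, h2⟩, h3⟩, h4⟩
        exact ⟨a, ⟨h1, by omega⟩, rfl, by omega⟩
      · rintro ⟨a', ⟨h1, h2⟩, rfl, rfl⟩
        refine ⟨⟨⟨h1, by omega⟩, by omega⟩, by omega⟩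
    rw [this, card_image_of_injOn, Nat.card_Icc]
    · omega
    · intro a _ b _ hab
      exact (Prod.mk.inj hab).1
  rw [h3]
  push_cast
  ring

end Pool.Agent.Lib.MP_629a14_nt
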