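import Pool.Agent.Lib.MP_629a14_nt.Restrict
import Pool.Agent.Lib.MP_629a14_nt.WienerNorm
import Pool.Agent.Lib.MP_629a14_nt.LevelSum

/-!
Decomposition of the normalised representation function of two sets of primes into a
trigonometric polynomial of bounded complexity and a part which is small in mean square.
-/

set_option autoImplicit false

namespace Pool.Agent.Lib.MP_629a14_nt

open Finset
open Pool.Agent.Lib.MP_60b32f_nt (hq)

/-- exponential sum of `A` at the frequency `-(h / (2 N + 1))` -/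
noncomputable def fs (N : ℕ) (A : Finset ℕ) (h : ℕ) : ℂ :=
  ∑ a ∈ A, ee (a * (-((h : ℝ) / (2 * N + 1 : ℕ))))

/-- normalised absolute value -/
noncomputable def TT (N : ℕ) (A : Finset ℕ) (h : ℕ) : ℝ := ‖fs N A h‖ * (Real.log N / N)

theorem TT_nonneg (N : ℕ) (A : Finset ℕ) (h : ℕ) : 0 ≤ TT N A h := by
  unfold TT
  have : 0 ≤ Real.log N := Real.log_natCast_nonneg N
  positivity

theorem TT_hyp {N Q : ℕ} (hN : 3 ≤ N) (hQ : Q = ⌊(N : ℝ) ^ (1 / 4 : ℝ)⌋₊) (A : Finset ℕ)
    (hA : ∀ p ∈ A, p.Prime ∧ Q < p ∧ p ≤ N) (hAc : (A.card : ℝ) ≤ 2 * (N / Real.log N))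
    (R : Finset ℕ) (hR : R ⊆ range (2 * N + 1)) :
    ∑ h ∈ R, TT N A h ^ 2 ≤ (88 : ℝ) ^ 2 * (R.card : ℝ) ^ (1 / 3 : ℝ) := by
  rcases R.eq_empty_or_nonempty with h0 | hne
  · rw [h0]
    simp
  have hNr : (3 : ℝ) ≤ N := by exact_mod_cast hN
  have hN0 : (0 : ℝ) < N := by linarith
  have hL : 0 < Real.log N := Real.log_pos (by linarith)
  set y : ℝ := (N : ℝ) ^ (1 / 4 : ℝ) with hy
  have hy0 : 0 ≤ y := Real.rpow_nonneg hN0.le _
  have hy1 : 1 ≤ y := Real.one_le_rpow (by linarith) (by norm_num)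
  have hy4 : y ^ 4 = N := by
    rw [hy, ← Real.rpow_natCast, ← Real.rpow_mul hN0.le]
    norm_num
  have hQ1 : 0 < Q := by
    rw [hQ, Nat.floor_pos]
    exact hy1
  have hQy : (Q : ℝ) ≤ y := by rw [hQ]; exact Nat.floor_le hy0
  have hyQ : y < Q + 1 := by rw [hQ]; exact Nat.lt_floor_add_one y
  have hQ4 : (Q : ℝ) ^ 4 ≤ N := by
    rw [← hy4]
    exact pow_le_pow_left₀ (by positivity) hQy 4
  set M : ℕ := 2 * N + 1 with hM
  have hM0 : (0 : ℝ) < M := by rw [hM]; positivity
  have hMr : (M : ℝ) = 2 * N + 1 := by rw [hM]; push_cast; ring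
  set P : ℕ := 2 * R.card with hP
  have hRc : 1 ≤ R.card := card_pos.2 hne
  have hP1 : 1 ≤ P := by omega
  have hres := restriction R (fun h : ℕ => -((h : ℝ) / M)) (δ := 1 / (M : ℝ)) (by positivity) (by
    intro r hr s hs hrs n
    have hr' := mem_range.1 (hR hr)
    have hs' := mem_range.1 (hR hs)
    have e : -((r : ℝ) / M) - -((s : ℝ) / M) - n = (((s : ℤ) - r - n * M : ℤ) : ℝ) / M := by
      push_cast
      field_simp
      ring
    rw [e, abs_div, abs_of_pos hM0]
    refine div_le_div_of_nonneg_right ?_ hM0.le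
    have hne0 : (s : ℤ) - r - n * M ≠ 0 := by
      intro h0
      have h1 : (M : ℤ) ∣ (s : ℤ) - r := ⟨n, by linarith⟩
      have h2 : (s : ℤ) - r = 0 := by
        apply Int.eq_zero_of_abs_lt_dvd h1
        rw [abs_lt]
        constructor <;> omega
      apply hrs
      omega
    have : (1 : ℤ) ≤ |(s : ℤ) - r - n * M| := Int.one_le_abs hne0
    exact_mod_cast this) (N := N) (W := M) (P := P) (Q := Q) hQ1 (by
    rw [mul_one_div, div_le_one hM0, hMr]
    linarith) (by omega) (by rw [one_div_one_div]) (by omega) A (by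
    intro p hp
    have := hA p hp
    rw [mem_Icc]
    exact ⟨this.1.pos, this.2.2⟩) (fun p hp => ⟨(hA p hp).1, (hA p hp).2.1⟩)
  have hhq := hq_primorial P Q hP1
  have hQlog : (1 / 4) * Real.log N ≤ Real.log (Q + 1) := by
    have h1 : Real.log y = (1 / 4) * Real.log N := by rw [hy, Real.log_rpow hN0]
    rw [← h1]
    exact Real.log_le_log (by linarith) hyQ.le
  set Z : ℝ := ∑ r ∈ R, ‖∑ n ∈ A, ee (n * (-((r : ℝ) / M)))‖ ^ 2 with hZ
  have hZ0 : 0 ≤ Z := sum_nonneg fun _ _ => by positivity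
  set c : ℝ := (R.card : ℝ) ^ (1 / 3 : ℝ) with hc
  have hc0 : 0 ≤ c := Real.rpow_nonneg (by positivity) _
  have hPc : (P : ℝ) ^ (1 / 3 : ℝ) ≤ 2 * c := by
    rw [hP]
    push_cast
    rw [Real.mul_rpow (by norm_num) (by positivity)]
    refine mul_le_mul_of_nonneg_right ?_ hc0
    calc (2 : ℝ) ^ (1 / 3 : ℝ) ≤ (2 : ℝ) ^ (1 : ℝ) :=
          Real.rpow_le_rpow_of_exponent_le (by norm_num) (by norm_num)
      _ = 2 := Real.rpow_one 2
  have hH0 : 0 ≤ hq (primorial P) Q := by unfold hq; positivity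
  have h1 : Z * ((1 / 4) * Real.log N) ≤ 960 * c * N * A.card := by
    have hPn : 0 ≤ (P : ℝ) ^ (1 / 3 : ℝ) := Real.rpow_nonneg (by positivity) _
    calc Z * ((1 / 4) * Real.log N) ≤ Z * (16 * (P : ℝ) ^ (1 / 3 : ℝ) * hq (primorial P) Q) := by
          refine mul_le_mul_of_nonneg_left (hQlog.trans hhq) hZ0
      _ = 16 * (P : ℝ) ^ (1 / 3 : ℝ) * (Z * hq (primorial P) Q) := by ring
      _ ≤ 16 * (2 * c) * (10 * M * A.card) := by gcongr
      _ ≤ 16 * (2 * c) * (10 * (3 * N) * A.card) := by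
          have : (M : ℝ) ≤ 3 * N := by rw [hMr]; linarith
          gcongr
      _ = 960 * c * N * A.card := by ring
  have h2 : ∑ h ∈ R, TT N A h ^ 2 = Z * (Real.log N / N) ^ 2 := by
    rw [hZ, sum_mul]
    refine sum_congr rfl fun h _ => ?_
    unfold TT fs
    rw [mul_pow]
  rw [h2]
  have h3 : Z * (Real.log N / N) ^ 2 = (Z * ((1 / 4) * Real.log N)) * (4 * Real.log N / N ^ 2) := by
    field_simp
  rw [h3]
  calc (Z * ((1 / 4) * Real.log N)) * (4 * Real.log N / N ^ 2)
      ≤ (960 * c * N * (2 * (N / Real.log N))) * (4 * Real.log N / N ^ 2) := by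
        refine mul_le_mul_of_nonneg_right (h1.trans ?_) (by positivity)
        gcongr
    _ = 7680 * c := by
        field_simp
        ring
    _ ≤ (88 : ℝ) ^ 2 * c := by
        refine mul_le_mul_of_nonneg_right (by norm_num) hc0

/-- Parseval for trigonometric polynomials with frequencies `h / M`. -/
theorem parseval_poly {M : ℕ} (hM : 0 < M) (S : Finset ℕ) (hS : S ⊆ range M) (c : ℕ → ℂ) :
    ∑ n ∈ range M, ‖∑ h ∈ S, c h * ee (((h : ℝ) / M) * n)‖ ^ 2 = (M : ℝ) * ∑ h ∈ S, ‖c h‖ ^ 2 := by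
  have hM0 : (M : ℝ) ≠ 0 := by exact_mod_cast hM.ne'
  have key : ∀ n ∈ range M, ((‖∑ h ∈ S, c h * ee (((h : ℝ) / M) * n)‖ ^ 2 : ℝ) : ℂ) =
      ∑ h ∈ S, ∑ k ∈ S, c h * (starRingEnd ℂ) (c k) *
        ee ((n : ℝ) * ((((h : ℤ) - (k : ℤ) : ℤ) : ℝ) / M)) := by
    intro n _
    rw [Complex.ofReal_pow, ← Complex.mul_conj', map_sum, sum_mul_sum]
    refine sum_congr rfl fun h _ => sum_congr rfl fun k _ => ?_
    rw [map_mul, conj_ee]
    have e : ee ((n : ℝ) * ((((h : ℤ) - (k : ℤ) : ℤ) : ℝ) / M)) =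
        ee (((h : ℝ) / M) * n) * ee (-(((k : ℝ) / M) * n)) := by
      rw [← ee_add]
      congr 1
      push_cast
      ring
    rw [e]
    ring
  have h2 : ((∑ n ∈ range M, ‖∑ h ∈ S, c h * ee (((h : ℝ) / M) * n)‖ ^ 2 : ℝ) : ℂ) =
      (((M : ℝ) * ∑ h ∈ S, ‖c h‖ ^ 2 : ℝ) : ℂ) := by
    rw [Complex.ofReal_sum, sum_congr rfl key, sum_comm]
    have h3 : ∀ h ∈ S, ∑ n ∈ range M, ∑ k ∈ S, c h * (starRingEnd ℂ) (c k) *
        ee ((n : ℝ) * ((((h : ℤ) - (k : ℤ) : ℤ) : ℝ) / M)) =
        (M : ℂ) * (c h * (starRingEnd ℂ) (c h)) := by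
      intro h hh
      rw [sum_comm]
      have h4 : ∀ k ∈ S, ∑ n ∈ range M, c h * (starRingEnd ℂ) (c k) *
          ee ((n : ℝ) * ((((h : ℤ) - (k : ℤ) : ℤ) : ℝ) / M)) =
          if h = k then (M : ℂ) * (c h * (starRingEnd ℂ) (c k)) else 0 := by
        intro k hk
        rw [← mul_sum, sum_ee_range M hM]
        have hh' := mem_range.1 (hS hh)
        have hk' := mem_range.1 (hS hk)
        by_cases hhk : h = k
        · subst hhk
          simp
          ring
        · rw [if_neg hhk, if_neg, mul_zero]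
          intro hdvd
          apply hhk
          have h5 : ((h : ℤ) - k) = 0 := by
            apply Int.eq_zero_of_abs_lt_dvd hdvd
            rw [abs_lt]
            constructor <;> omega
          omega
      rw [sum_congr rfl h4, sum_ite_eq, if_pos hh]
    rw [sum_congr rfl h3, ← mul_sum]
    push_cast
    congr 1
    refine sum_congr rfl fun h _ => ?_
    rw [Complex.mul_conj']
  exact_mod_cast h2

/-- the normalised representation function -/
noncomputable def sf (N : ℕ) (A B : Finset ℕ) (n : ℕ) : ℝ :=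
  ((Real.log N) ^ 2 / N) * (repAB A B n : ℝ)

/-- Decomposition of the normalised representation function. -/
theorem decomp {N : ℕ} (hN : 3 ≤ N) (A B : Finset ℕ)
    (hA : ∀ a ∈ A, a ≤ N) (hB : ∀ b ∈ B, b ≤ N)
    (hAc : (A.card : ℝ) ≤ 2 * (N / Real.log N)) (hBc : (B.card : ℝ) ≤ 2 * (N / Real.log N))
    {k0 : ℝ} (hk0 : 1 ≤ k0)
    (hTA : ∀ R ⊆ range (2 * N + 1), ∑ h ∈ R, TT N A h ^ 2 ≤ k0 ^ 2 * (R.card : ℝ) ^ (1 / 3 : ℝ))
    (hTB : ∀ R ⊆ range (2 * N + 1), ∑ h ∈ R, TT N B h ^ 2 ≤ k0 ^ 2 * (R.card : ℝ) ^ (1 / 3 : ℝ))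
    (j : ℕ) :
    ∃ s1 : ℕ → ℂ, Wi N s1 (k0 ^ 3 * 4 ^ j) ∧
      Wi N (fun n => (sf N A B n : ℂ) - s1 n) (2 * Real.log N) ∧
      ∑ n ∈ Icc 1 N, ‖(sf N A B n : ℂ) - s1 n‖ ^ 2 ≤ N * (34 * k0 ^ 5 * (1 / 2) ^ j) := by
  classical
  have hNr : (3 : ℝ) ≤ N := by exact_mod_cast hN
  have hN0 : (0 : ℝ) < N := by linarith
  have hL : 0 < Real.log N := Real.log_pos (by linarith)
  set M : ℕ := 2 * N + 1 with hM
  have hMpos : 0 < M := by omega
  have hM0 : (0 : ℝ) < M := by exact_mod_cast hMpos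
  have hNM : (N : ℝ) ≤ M := by rw [hM]; push_cast; linarith
  set L : ℝ := Real.log N with hLdef
  set τ : ℝ := (1 / 2) ^ (2 * j) with hτ
  have hτ0 : 0 < τ := by rw [hτ]; positivity
  set c : ℕ → ℂ := fun h => ((L ^ 2 / N : ℝ) : ℂ) * ((1 / (M : ℂ)) * (fs N A h * fs N B h)) with hc
  have hcn : ∀ h, ‖c h‖ = (N / M) * (TT N A h * TT N B h) := by
    intro h
    simp only [hc, TT]
    rw [norm_mul, norm_mul, norm_mul, norm_div, norm_one, Complex.norm_natCast,
      Complex.norm_real, Real.norm_of_nonneg (by positivity), ← hLdef]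
    field_simp
  have hNM1 : (N : ℝ) / M ≤ 1 := by rw [div_le_one hM0]; exact hNM
  have hNM0 : 0 ≤ (N : ℝ) / M := by positivity
  have hTA0 := TT_nonneg N A
  have hTB0 := TT_nonneg N B
  set Lam : Finset ℕ := (range M).filter (fun h => τ ≤ TT N A h ∧ τ ≤ TT N B h) with hLam
  have hLamsub : Lam ⊆ range M := filter_subset _ _
  have hser : ∀ n ∈ Icc 1 N, (sf N A B n : ℂ) = ∑ h ∈ range M, c h * ee (((h : ℝ) / M) * n) := by
    intro n hn
    have h1 := rep_fourier A B hA hB (mem_Icc.1 hn).2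
    rw [← hM] at h1
    unfold sf
    rw [← hLdef, Complex.ofReal_mul, Complex.ofReal_natCast, h1, mul_sum]
    refine sum_congr rfl fun h _ => ?_
    simp only [hc, fs]
    rw [← hM]
    ring
  set s1 : ℕ → ℂ := fun n => ∑ h ∈ Lam, c h * ee (((h : ℝ) / M) * n) with hs1
  have hs2 : ∀ n ∈ Icc 1 N, (sf N A B n : ℂ) - s1 n =
      ∑ h ∈ range M \ Lam, c h * ee (((h : ℝ) / M) * n) := by
    intro n hn
    rw [hser n hn, hs1]
    simp only
    rw [← sum_sdiff hLamsub]
    ring
  refine ⟨s1, ?_, ?_, ?_⟩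
  · refine (Wi.sum Lam (fun h n => c h * ee (((h : ℝ) / M) * n)) (fun h => ‖c h‖)
      (fun h _ => Wi.char _ _)).mono ?_
    have hcard : (Lam.card : ℝ) ≤ (k0 / τ) ^ 3 := by
      have h1 := level_count (range M) (TT N A) hk0 hTA hτ0
      refine le_trans ?_ h1
      have : Lam.card ≤ ((range M).filter (fun h => τ ≤ TT N A h)).card := by
        apply card_le_card
        intro h hh
        rw [hLam, mem_filter] at hh
        exact mem_filter.2 ⟨hh.1, hh.2.1⟩
      exact_mod_cast this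
    have hcr : (Lam.card : ℝ) ^ (1 / 3 : ℝ) ≤ k0 / τ := by
      calc (Lam.card : ℝ) ^ (1 / 3 : ℝ) ≤ ((k0 / τ) ^ 3) ^ (1 / 3 : ℝ) :=
            Real.rpow_le_rpow (by positivity) hcard (by norm_num)
        _ = k0 / τ := by
            rw [← Real.rpow_natCast, ← Real.rpow_mul (by positivity)]
            norm_num
    calc ∑ h ∈ Lam, ‖c h‖ ≤ ∑ h ∈ Lam, (TT N A h ^ 2 + TT N B h ^ 2) / 2 := by
          refine sum_le_sum fun h _ => ?_
          rw [hcn h]
          have h1 : TT N A h * TT N B h ≤ (TT N A h ^ 2 + TT N B h ^ 2) / 2 := by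
            nlinarith [sq_nonneg (TT N A h - TT N B h)]
          have h2 : 0 ≤ TT N A h * TT N B h := mul_nonneg (hTA0 h) (hTB0 h)
          calc (N : ℝ) / M * (TT N A h * TT N B h) ≤ 1 * (TT N A h * TT N B h) := by gcongr
            _ ≤ _ := by rw [one_mul]; exact h1
      _ = (∑ h ∈ Lam, TT N A h ^ 2 + ∑ h ∈ Lam, TT N B h ^ 2) / 2 := by
          rw [← sum_div, sum_add_distrib]
      _ ≤ (k0 ^ 2 * (Lam.card : ℝ) ^ (1 / 3 : ℝ) + k0 ^ 2 * (Lam.card : ℝ) ^ (1 / 3 : ℝ)) / 2 := by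
          have h1 := hTA Lam hLamsub
          have h2 := hTB Lam hLamsub
          linarith
      _ = k0 ^ 2 * (Lam.card : ℝ) ^ (1 / 3 : ℝ) := by ring
      _ ≤ k0 ^ 2 * (k0 / τ) := by gcongr
      _ = k0 ^ 3 * 4 ^ j := by
          rw [hτ, pow_mul]
          have : ((1 : ℝ) / 2) ^ 2 = 1 / 4 := by norm_num
          rw [this, one_div_pow]
          field_simp
  · have h1 := Wi.sum (N := N) (range M \ Lam) (fun h n => c h * ee (((h : ℝ) / M) * n))
      (fun h => ‖c h‖) (fun h _ => Wi.char _ _)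
    refine (h1.congr hs2).mono ?_
    have hA2 : ∑ h ∈ range M, TT N A h ^ 2 = (M * A.card) * (L / N) ^ 2 := by
      have h2 := parseval_set A hA
      rw [← hM] at h2
      rw [← h2, sum_mul]
      refine sum_congr rfl fun h _ => ?_
      unfold TT fs
      rw [mul_pow]
    have hB2 : ∑ h ∈ range M, TT N B h ^ 2 = (M * B.card) * (L / N) ^ 2 := by
      have h2 := parseval_set B hB
      rw [← hM] at h2
      rw [← h2, sum_mul]
      refine sum_congr rfl fun h _ => ?_
      unfold TT fs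
      rw [mul_pow]
    calc ∑ h ∈ range M \ Lam, ‖c h‖ ≤ ∑ h ∈ range M, ‖c h‖ :=
          sum_le_sum_of_subset_of_nonneg sdiff_subset (fun _ _ _ => norm_nonneg _)
      _ ≤ ∑ h ∈ range M, (N / M) * ((TT N A h ^ 2 + TT N B h ^ 2) / 2) := by
          refine sum_le_sum fun h _ => ?_
          rw [hcn h]
          refine mul_le_mul_of_nonneg_left ?_ hNM0
          nlinarith [sq_nonneg (TT N A h - TT N B h)]
      _ = (N / M) * (((M * A.card) * (L / N) ^ 2 + (M * B.card) * (L / N) ^ 2) / 2) := by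
          rw [← mul_sum, ← sum_div, sum_add_distrib, hA2, hB2]
      _ = (L ^ 2 / N) * (((A.card : ℝ) + B.card) / 2) := by
          field_simp
      _ ≤ (L ^ 2 / N) * ((2 * (N / L) + 2 * (N / L)) / 2) := by
          gcongr
      _ = 2 * L := by
          field_simp
          ring
  · have hC : (0 : ℝ) ≤ 34 * k0 ^ 5 * (1 / 2) ^ j := by positivity
    have hsub : Icc 1 N ⊆ range M := by
      intro n hn
      rw [mem_Icc] at hn
      rw [mem_range]
      omega
    have hpp := parseval_poly hMpos (range M \ Lam) sdiff_subset c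
    calc ∑ n ∈ Icc 1 N, ‖(sf N A B n : ℂ) - s1 n‖ ^ 2
        = ∑ n ∈ Icc 1 N, ‖∑ h ∈ range M \ Lam, c h * ee (((h : ℝ) / M) * n)‖ ^ 2 :=
          sum_congr rfl fun n hn => by rw [hs2 n hn]
      _ ≤ ∑ n ∈ range M, ‖∑ h ∈ range M \ Lam, c h * ee (((h : ℝ) / M) * n)‖ ^ 2 :=
          sum_le_sum_of_subset_of_nonneg hsub (fun _ _ _ => by positivity)
      _ = (M : ℝ) * ∑ h ∈ range M \ Lam, ‖c h‖ ^ 2 := hpp
      _ = (N * (N / M)) * ∑ h ∈ range M \ Lam, TT N A h ^ 2 * TT N B h ^ 2 := by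
          rw [mul_sum, mul_sum]
          refine sum_congr rfl fun h _ => ?_
          rw [hcn h]
          field_simp
      _ ≤ N * ∑ h ∈ range M \ Lam, TT N A h ^ 2 * TT N B h ^ 2 := by
          refine mul_le_mul_of_nonneg_right ?_ (sum_nonneg fun _ _ => by positivity)
          calc (N : ℝ) * (N / M) ≤ N * 1 := by gcongr
            _ = N := mul_one _
      _ ≤ N * (34 * k0 ^ 5 * (1 / 2) ^ j) := by
          refine mul_le_mul_of_nonneg_left ?_ hN0.le
          have htail : ∀ X Y : ℕ → ℝ, (∀ h, 0 ≤ X h) → (∀ h, 0 ≤ Y h) →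
              (∀ R ⊆ range M, ∑ h ∈ R, X h ^ 2 ≤ k0 ^ 2 * (R.card : ℝ) ^ (1 / 3 : ℝ)) →
              (∀ R ⊆ range M, ∑ h ∈ R, Y h ^ 2 ≤ k0 ^ 2 * (R.card : ℝ) ^ (1 / 3 : ℝ)) →
              ∑ h ∈ (range M).filter (fun h => X h ≤ τ), X h ^ 2 * Y h ^ 2 ≤
                17 * k0 ^ 5 * (1 / 2) ^ j := by
            intro X Y hX hY hXs hYs
            have h1 := fourth_tail (range M) X hk0 (fun h _ => hX h) hXs (2 * j)
            have h2 := fourth_total (range M) Y hk0 (fun h _ => hY h) hYs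
            rw [← hτ] at h1
            have h3 := Finset.sum_mul_sq_le_sq_mul_sq ((range M).filter (fun h => X h ≤ τ))
              (fun h => X h ^ 2) (fun h => Y h ^ 2)
            have h4 : ∑ h ∈ (range M).filter (fun h => X h ≤ τ), (Y h ^ 2) ^ 2 ≤ 17 * k0 ^ 7 := by
              refine le_trans ?_ h2
              have : ∀ h, (Y h ^ 2) ^ 2 = Y h ^ 4 := fun h => by ring
              simp only [this]
              exact sum_le_sum_of_subset_of_nonneg (filter_subset _ _)
                (fun h _ _ => pow_nonneg (hY h) 4)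
            have h5 : ∑ h ∈ (range M).filter (fun h => X h ≤ τ), (X h ^ 2) ^ 2 ≤
                16 * k0 ^ 3 * τ := by
              have : ∀ h, (X h ^ 2) ^ 2 = X h ^ 4 := fun h => by ring
              simp only [this]
              exact h1
            have h6 : (16 * k0 ^ 3 * τ) * (17 * k0 ^ 7) ≤ (17 * k0 ^ 5 * (1 / 2) ^ j) ^ 2 := by
              have e : (17 * k0 ^ 5 * (1 / 2 : ℝ) ^ j) ^ 2 = 289 * k0 ^ 10 * τ := by
                rw [hτ, pow_mul']
                ring
              rw [e]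
              have : 0 ≤ k0 ^ 10 * τ := by positivity
              nlinarith
            have h7 : (∑ h ∈ (range M).filter (fun h => X h ≤ τ), X h ^ 2 * Y h ^ 2) ^ 2 ≤
                (17 * k0 ^ 5 * (1 / 2) ^ j) ^ 2 := by
              refine h3.trans (le_trans ?_ h6)
              exact mul_le_mul h5 h4 (sum_nonneg fun _ _ => by positivity) (by positivity)
            exact abs_le_of_sq_le_sq' h7 (by positivity) |>.2
          have hA1 := htail (TT N A) (TT N B) hTA0 hTB0 hTA hTB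
          have hB1 := htail (TT N B) (TT N A) hTB0 hTA0 hTB hTA
          calc ∑ h ∈ range M \ Lam, TT N A h ^ 2 * TT N B h ^ 2
              ≤ ∑ h ∈ (range M).filter (fun h => TT N A h ≤ τ) ∪
                  (range M).filter (fun h => TT N B h ≤ τ), TT N A h ^ 2 * TT N B h ^ 2 := by
                refine sum_le_sum_of_subset_of_nonneg ?_ (fun _ _ _ => by positivity)
                intro h hh
                rw [mem_sdiff, hLam, mem_filter] at hh
                rw [mem_union, mem_filter, mem_filter]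
                by_cases h1 : τ ≤ TT N A h
                · right
                  refine ⟨hh.1, ?_⟩
                  by_contra h2
                  push Not at h2
                  exact hh.2 ⟨hh.1, h1, h2.le⟩
                · left
                  push Not at h1
                  exact ⟨hh.1, h1.le⟩
            _ ≤ ∑ h ∈ (range M).filter (fun h => TT N A h ≤ τ), TT N A h ^ 2 * TT N B h ^ 2 +
                ∑ h ∈ (range M).filter (fun h => TT N B h ≤ τ), TT N A h ^ 2 * TT N B h ^ 2 := by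
                rw [← sum_union_inter]
                have : 0 ≤ ∑ h ∈ (range M).filter (fun h => TT N A h ≤ τ) ∩
                  (range M).filter (fun h => TT N B h ≤ τ), TT N A h ^ 2 * TT N B h ^ 2 :=
                  sum_nonneg fun _ _ => by positivity
                linarith
            _ ≤ 17 * k0 ^ 5 * (1 / 2) ^ j + 17 * k0 ^ 5 * (1 / 2) ^ j := by
                refine add_le_add hA1 ?_
                have e : ∀ h, TT N A h ^ 2 * TT N B h ^ 2 = TT N B h ^ 2 * TT N A h ^ 2 :=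
                  fun h => mul_comm _ _
                simp only [e]
                exact hB1
            _ = 34 * k0 ^ 5 * (1 / 2) ^ j := by ring

end Pool.Agent.Lib.MP_629a14_nt
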