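import Pool.Agent.Lib.MP_629a14_nt.LargeSieve
import Pool.Agent.Lib.MP_629a14_nt.PrimeRecip

/-!
Restriction estimate for the primes (extended large sieve): for well spaced points `x_r`
and a set `A` of primes in `(Q, N]`, the sum over `r ∈ R` of `|∑_{p ∈ A} e(p x_r)|^2` is at most
`C W |A| |R|^(1/3) / log Q`.  Montgomery's lemma plus the large sieve, with moduli without small
prime factors and conflicting moduli discarded.
-/

set_option autoImplicit false

namespace Pool.Agent.Lib.MP_629a14_nt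

open Finset
open Pool.Agent.Lib.MP_60b32f_nt (sdiv hq qset)

/-- reduced residues -/
def cop (q : ℕ) : Finset ℕ := (range q).filter (fun a => Nat.Coprime a q)

theorem sum_multiples (q d n : ℕ) (hq : 0 < q) (hd : d ∣ q) :
    ∑ a ∈ (range q).filter (fun a => d ∣ a), ee ((n : ℝ) * ((a : ℝ) / q)) =
      if (q / d) ∣ n then ((q / d : ℕ) : ℂ) else 0 := by
  obtain ⟨m, rfl⟩ := hd
  have hd0 : 0 < d := Nat.pos_of_mul_pos_right hq
  have hm0 : 0 < m := Nat.pos_of_mul_pos_left hq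
  rw [Nat.mul_div_cancel_left _ hd0]
  have h1 : (range (d * m)).filter (fun a => d ∣ a) = (range m).image (fun k => d * k) := by
    ext a
    rw [mem_filter, mem_range, mem_image]
    constructor
    · rintro ⟨h1, k, rfl⟩
      exact ⟨k, mem_range.2 (Nat.lt_of_mul_lt_mul_left h1), rfl⟩
    · rintro ⟨k, hk, rfl⟩
      exact ⟨Nat.mul_lt_mul_of_pos_left (mem_range.1 hk) hd0, dvd_mul_right _ _⟩
  rw [h1, sum_image (fun a _ b _ h => Nat.eq_of_mul_eq_mul_left hd0 h)]
  have h2 := sum_ee_range m hm0 n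
  have h3 : ∀ k ∈ range m, ee ((n : ℝ) * (((d * k : ℕ) : ℝ) / ((d * m : ℕ) : ℝ))) =
      ee ((k : ℝ) * (((n : ℤ) : ℝ) / m)) := by
    intro k _
    congr 1
    have hd' : (d : ℝ) ≠ 0 := by exact_mod_cast hd0.ne'
    have hm' : (m : ℝ) ≠ 0 := by exact_mod_cast hm0.ne'
    push_cast
    field_simp
  rw [sum_congr rfl h3, h2]
  simp only [Int.natCast_dvd_natCast]

theorem ramanujan_coprime {q n : ℕ} (hq : 0 < q) (hn : Nat.Coprime n q) :
    ∑ a ∈ cop q, ee ((n : ℝ) * ((a : ℝ) / q)) = ((ArithmeticFunction.moebius q : ℤ) : ℂ) := by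
  have h1 : ∀ a ∈ range q, (if Nat.Coprime a q then ee ((n : ℝ) * ((a : ℝ) / q)) else 0) =
      ∑ d ∈ q.divisors, (if d ∣ a then ((ArithmeticFunction.moebius d : ℤ) : ℂ) *
        ee ((n : ℝ) * ((a : ℝ) / q)) else 0) := by
    intro a _
    have h2 : ∑ d ∈ q.divisors, (if d ∣ a then ((ArithmeticFunction.moebius d : ℤ) : ℂ) *
        ee ((n : ℝ) * ((a : ℝ) / q)) else 0) =
        (∑ d ∈ (Nat.gcd a q).divisors, ((ArithmeticFunction.moebius d : ℤ) : ℂ)) *
          ee ((n : ℝ) * ((a : ℝ) / q)) := by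
      rw [sum_mul, ← sum_filter]
      refine sum_congr ?_ (fun _ _ => rfl)
      ext d
      rw [mem_filter, Nat.mem_divisors, Nat.mem_divisors]
      constructor
      · rintro ⟨⟨h3, _⟩, h4⟩
        exact ⟨Nat.dvd_gcd h4 h3, (Nat.gcd_pos_of_pos_right _ hq).ne'⟩
      · rintro ⟨h3, _⟩
        exact ⟨⟨h3.trans (Nat.gcd_dvd_right _ _), hq.ne'⟩, h3.trans (Nat.gcd_dvd_left _ _)⟩
    rw [h2]
    have h3 : (∑ d ∈ (Nat.gcd a q).divisors, ((ArithmeticFunction.moebius d : ℤ) : ℂ)) =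
        if Nat.gcd a q = 1 then 1 else 0 := by
      have h4 := congrArg (fun f : ArithmeticFunction ℤ => f (Nat.gcd a q))
        ArithmeticFunction.moebius_mul_coe_zeta
      simp only [ArithmeticFunction.coe_mul_zeta_apply, ArithmeticFunction.one_apply] at h4
      have h5 := congrArg (fun z : ℤ => (z : ℂ)) h4
      push_cast at h5
      exact h5
    rw [h3]
    by_cases h : Nat.Coprime a q
    · rw [if_pos h, if_pos h, one_mul]
    · rw [if_neg h, if_neg h, zero_mul]
  unfold cop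
  rw [sum_filter, sum_congr rfl h1, sum_comm]
  have h4 : ∀ d ∈ q.divisors, ∑ a ∈ range q, (if d ∣ a then
      ((ArithmeticFunction.moebius d : ℤ) : ℂ) * ee ((n : ℝ) * ((a : ℝ) / q)) else 0) =
      if d = q then ((ArithmeticFunction.moebius q : ℤ) : ℂ) else 0 := by
    intro d hd
    have hdq := Nat.dvd_of_mem_divisors hd
    rw [← sum_filter, ← mul_sum, sum_multiples q d n hq hdq]
    by_cases h : d = q
    · rw [if_pos h, h, Nat.div_self hq, if_pos (one_dvd _)]
      simp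
    · rw [if_neg h, if_neg, mul_zero]
      intro h5
      have h6 : q / d ∣ Nat.gcd n q := Nat.dvd_gcd h5 (Nat.div_dvd_of_dvd hdq)
      rw [hn, Nat.dvd_one] at h6
      apply h
      obtain ⟨m, hm⟩ := hdq
      have hd0 : 0 < d := Nat.pos_of_mem_divisors hd
      rw [hm, Nat.mul_div_cancel_left _ hd0] at h6
      rw [hm, h6, mul_one]
  rw [sum_congr rfl h4, sum_ite_eq', if_pos (Nat.mem_divisors_self q hq.ne')]

/-- Montgomery's lemma for squarefree moduli. -/
theorem montgomery (A : Finset ℕ) {q : ℕ} (hq : Squarefree q) (hA : ∀ n ∈ A, Nat.Coprime n q)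
    (x : ℝ) : (1 / (q : ℝ)) * ‖∑ n ∈ A, ee (n * x)‖ ^ 2 ≤
      ∑ a ∈ cop q, ‖∑ n ∈ A, ee (n * (x + (a : ℝ) / q))‖ ^ 2 := by
  have hq0 : 0 < q := Nat.pos_of_ne_zero hq.ne_zero
  have hqr : (0 : ℝ) < q := by exact_mod_cast hq0
  have h1 : ((ArithmeticFunction.moebius q : ℤ) : ℂ) * ∑ n ∈ A, ee (n * x) =
      ∑ a ∈ cop q, ∑ n ∈ A, ee (n * (x + (a : ℝ) / q)) := by
    rw [sum_comm, mul_sum]
    refine sum_congr rfl fun n hn => ?_
    rw [← ramanujan_coprime hq0 (hA n hn), sum_mul]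
    refine sum_congr rfl fun a _ => ?_
    rw [← ee_add]
    congr 1
    ring
  have h2 : ‖((ArithmeticFunction.moebius q : ℤ) : ℂ)‖ = 1 := by
    rw [ArithmeticFunction.moebius_apply_of_squarefree hq]
    push_cast
    rw [norm_pow, norm_neg, norm_one, one_pow]
  have h3 : ‖∑ n ∈ A, ee (n * x)‖ ≤ ∑ a ∈ cop q, ‖∑ n ∈ A, ee (n * (x + (a : ℝ) / q))‖ := by
    calc ‖∑ n ∈ A, ee (n * x)‖ = ‖((ArithmeticFunction.moebius q : ℤ) : ℂ) *
          ∑ n ∈ A, ee (n * x)‖ := by rw [norm_mul, h2, one_mul]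
      _ ≤ _ := by
          rw [h1]
          exact norm_sum_le _ _
  have h4 : ‖∑ n ∈ A, ee (n * x)‖ ^ 2 ≤
      ((cop q).card : ℝ) * ∑ a ∈ cop q, ‖∑ n ∈ A, ee (n * (x + (a : ℝ) / q))‖ ^ 2 :=
    (pow_le_pow_left₀ (norm_nonneg _) h3 2).trans sq_sum_le_card_mul_sum_sq
  have h5 : ((cop q).card : ℝ) ≤ q := by
    have : (cop q).card ≤ q := by
      unfold cop
      refine (card_filter_le _ _).trans ?_
      rw [card_range]
    exact_mod_cast this
  have h6 : 0 ≤ ∑ a ∈ cop q, ‖∑ n ∈ A, ee (n * (x + (a : ℝ) / q))‖ ^ 2 :=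
    sum_nonneg fun _ _ => by positivity
  rw [one_div, inv_mul_le_iff₀ hqr]
  exact h4.trans (mul_le_mul_of_nonneg_right h5 h6)

/-! ### rational approximations of differences -/

/-- there is a non-integral rational with denominator at most `Q ^ 2` close to `z` -/
def RatNear (Q : ℕ) (δ z : ℝ) (y : ℚ) : Prop := 1 < y.den ∧ y.den ≤ Q ^ 2 ∧ |z - y| < δ

theorem rat_diff {y y' : ℚ} (h : y ≠ y') : 1 / ((y.den : ℝ) * y'.den) ≤ |(y : ℝ) - y'| := by
  have hd : (0 : ℝ) < y.den := by exact_mod_cast y.den_pos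
  have hd' : (0 : ℝ) < y'.den := by exact_mod_cast y'.den_pos
  have e1 : (y : ℝ) = y.num / y.den := by
    exact_mod_cast (Rat.num_div_den y).symm
  have e2 : (y' : ℝ) = y'.num / y'.den := by
    exact_mod_cast (Rat.num_div_den y').symm
  set k : ℤ := y.num * y'.den - y'.num * y.den with hk
  have h1 : (y : ℝ) - y' = (k : ℝ) / (y.den * y'.den) := by
    rw [e1, e2, hk]
    push_cast
    field_simp
  have hk0 : k ≠ 0 := by
    intro h0
    apply h
    have h2 : (y : ℝ) - y' = 0 := by rw [h1, h0]; simp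
    have h3 : (y : ℝ) = y' := sub_eq_zero.1 h2
    exact_mod_cast h3
  rw [h1, abs_div, abs_of_pos (show (0 : ℝ) < y.den * y'.den by positivity)]
  refine div_le_div_of_nonneg_right ?_ (by positivity)
  have : (1 : ℤ) ≤ |k| := Int.one_le_abs hk0
  exact_mod_cast this

theorem ratNear_unique {Q : ℕ} {δ z : ℝ} (hQ : 0 < Q) (hδ : 2 * (Q : ℝ) ^ 4 * δ ≤ 1) {y y' : ℚ}
    (h : RatNear Q δ z y) (h' : RatNear Q δ z y') : y = y' := by
  by_contra hne
  have h1 := rat_diff hne
  have hQr : (0 : ℝ) < Q := by exact_mod_cast hQ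
  have hd : (0 : ℝ) < y.den := by exact_mod_cast y.den_pos
  have hd' : (0 : ℝ) < y'.den := by exact_mod_cast y'.den_pos
  have b1 : (y.den : ℝ) ≤ (Q : ℝ) ^ 2 := by exact_mod_cast h.2.1
  have b2 : (y'.den : ℝ) ≤ (Q : ℝ) ^ 2 := by exact_mod_cast h'.2.1
  have h2 : |(y : ℝ) - y'| < 2 * δ := by
    have e : (y : ℝ) - y' = (z - y') - (z - y) := by ring
    rw [e]
    refine (abs_sub _ _).trans_lt ?_
    linarith [h.2.2, h'.2.2]
  have h3 : 1 / (Q : ℝ) ^ 4 ≤ 1 / ((y.den : ℝ) * y'.den) := by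
    apply one_div_le_one_div_of_le (by positivity)
    calc (y.den : ℝ) * y'.den ≤ (Q : ℝ) ^ 2 * (Q : ℝ) ^ 2 := by gcongr
      _ = (Q : ℝ) ^ 4 := by ring
  have h4 : 2 * δ ≤ 1 / (Q : ℝ) ^ 4 := by
    rw [le_div_iff₀ (by positivity)]
    linarith
  linarith

open Classical in
/-- the bad prime of a difference -/
noncomputable def badp (Q : ℕ) (δ z : ℝ) : ℕ :=
  if h : ∃ y : ℚ, RatNear Q δ z y then (Classical.choose h).den.minFac else 0

theorem badp_eq {Q : ℕ} {δ z : ℝ} (hQ : 0 < Q) (hδ : 2 * (Q : ℝ) ^ 4 * δ ≤ 1) {y : ℚ}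
    (h : RatNear Q δ z y) : badp Q δ z = y.den.minFac := by
  unfold badp
  have hex : ∃ y : ℚ, RatNear Q δ z y := ⟨y, h⟩
  rw [dif_pos hex, ratNear_unique hQ hδ (Classical.choose_spec hex) h]

theorem badp_cases {Q : ℕ} {δ z : ℝ} : badp Q δ z = 0 ∨ (badp Q δ z).Prime := by
  unfold badp
  split_ifs with h
  · right
    exact Nat.minFac_prime (by have := (Classical.choose_spec h).1; omega)
  · left; rfl

theorem RatNear.neg {Q : ℕ} {δ z : ℝ} {y : ℚ} (h : RatNear Q δ z y) : RatNear Q δ (-z) (-y) := by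
  refine ⟨by rw [Rat.neg_den]; exact h.1, by rw [Rat.neg_den]; exact h.2.1, ?_⟩
  have e : -z - ((-y : ℚ) : ℝ) = -(z - y) := by push_cast; ring
  rw [e, abs_neg]
  exact h.2.2

theorem badp_neg {Q : ℕ} {δ z : ℝ} (hQ : 0 < Q) (hδ : 2 * (Q : ℝ) ^ 4 * δ ≤ 1) :
    badp Q δ (-z) = badp Q δ z := by
  by_cases h : ∃ y : ℚ, RatNear Q δ z y
  · obtain ⟨y, hy⟩ := h
    rw [badp_eq hQ hδ hy, badp_eq hQ hδ hy.neg, Rat.neg_den]
  · have h' : ¬ ∃ y : ℚ, RatNear Q δ (-z) y := by
      rintro ⟨y, hy⟩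
      exact h ⟨-y, by simpa using hy.neg⟩
    unfold badp
    rw [dif_neg h, dif_neg h']

theorem sum_dvd_le {n Q p : ℕ} (hp : p.Prime) :
    ∑ q ∈ (qset n Q).filter (fun q => p ∣ q), 1 / (q : ℝ) ≤ (1 / (p : ℝ)) * hq n Q := by
  have hp0 : (0 : ℝ) < p := by exact_mod_cast hp.pos
  have h1 : ∀ q ∈ (qset n Q).filter (fun q => p ∣ q), 1 / (q : ℝ) =
      (1 / (p : ℝ)) * (1 / ((q / p : ℕ) : ℝ)) := by
    intro q hq
    obtain ⟨m, rfl⟩ := (mem_filter.1 hq).2
    rw [Nat.mul_div_cancel_left _ hp.pos]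
    push_cast
    rw [one_div_mul_one_div]
  rw [sum_congr rfl h1, ← mul_sum]
  refine mul_le_mul_of_nonneg_left ?_ (by positivity)
  have hinj : Set.InjOn (fun q => q / p) ((qset n Q).filter (fun q => p ∣ q)) := by
    intro a ha b hb hab
    obtain ⟨m, rfl⟩ := (mem_filter.1 ha).2
    obtain ⟨m', rfl⟩ := (mem_filter.1 hb).2
    simp only [Nat.mul_div_cancel_left _ hp.pos] at hab
    rw [hab]
  rw [← sum_image (f := fun k : ℕ => 1 / (k : ℝ)) hinj]
  unfold hq
  refine sum_le_sum_of_subset_of_nonneg ?_ (fun _ _ _ => by positivity)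
  intro k hk
  obtain ⟨q, hq', rfl⟩ := mem_image.1 hk
  rw [mem_filter] at hq'
  obtain ⟨m, rfl⟩ := hq'.2
  simp only [Nat.mul_div_cancel_left _ hp.pos]
  have h2 := hq'.1
  unfold qset at h2 ⊢
  rw [mem_filter, mem_Icc] at h2 ⊢
  have hm : 0 < m := Nat.pos_of_ne_zero (by rintro rfl; simp at h2)
  refine ⟨⟨hm, le_trans (Nat.le_mul_of_pos_left m hp.pos) h2.1.2⟩,
    h2.2.1.squarefree_of_dvd (dvd_mul_left _ _), h2.2.2.coprime_dvd_left (dvd_mul_left _ _)⟩

/-- discarding the multiples of the bad primes -/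
theorem good_mass {ι : Type*} [DecidableEq ι] (R : Finset ι) (b : ι → ℕ)
    (hb : ∀ s ∈ R, b s = 0 ∨ (b s).Prime) {P Q : ℕ} (hP : 2 * R.card ≤ P) :
    hq (primorial P) Q / 2 ≤
      ∑ q ∈ (qset (primorial P) Q).filter (fun q => ∀ s ∈ R, ¬ b s ∣ q), 1 / (q : ℝ) := by
  have hH : 0 ≤ hq (primorial P) Q := by unfold hq; positivity
  have hpos : ∀ q ∈ qset (primorial P) Q, 0 < q := by
    intro q hq'
    unfold qset at hq'
    exact (mem_Icc.1 (mem_filter.1 hq').1).1
  have h1 : ∑ q ∈ (qset (primorial P) Q).filter (fun q => ¬ ∀ s ∈ R, ¬ b s ∣ q), 1 / (q : ℝ) ≤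
      ∑ s ∈ R, ∑ q ∈ (qset (primorial P) Q).filter (fun q => b s ∣ q), 1 / (q : ℝ) := by
    have hr : ∑ s ∈ R, ∑ q ∈ (qset (primorial P) Q).filter (fun q => b s ∣ q), 1 / (q : ℝ) =
        ∑ q ∈ qset (primorial P) Q, ∑ s ∈ R, (if b s ∣ q then 1 / (q : ℝ) else 0) := by
      rw [sum_comm]
      exact sum_congr rfl fun s _ => sum_filter _ _
    rw [hr, sum_filter]
    refine sum_le_sum fun q _ => ?_
    by_cases h : ∀ s ∈ R, ¬ b s ∣ q
    · rw [if_neg (not_not.2 h)]
      exact sum_nonneg fun _ _ => by positivity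
    · rw [if_pos h]
      push Not at h
      obtain ⟨s, hs, hsd⟩ := h
      calc 1 / (q : ℝ) = (if b s ∣ q then 1 / (q : ℝ) else 0) := by rw [if_pos hsd]
        _ ≤ _ := single_le_sum (f := fun s => if b s ∣ q then 1 / (q : ℝ) else 0)
            (fun _ _ => by positivity) hs
  have h2 : ∀ s ∈ R, ∑ q ∈ (qset (primorial P) Q).filter (fun q => b s ∣ q), 1 / (q : ℝ) ≤
      (1 / (P + 1 : ℝ)) * hq (primorial P) Q := by
    intro s hs
    rcases hb s hs with h0 | hp
    · have : (qset (primorial P) Q).filter (fun q => b s ∣ q) = ∅ := by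
        apply filter_false_of_mem
        intro q hq' hd
        rw [h0, zero_dvd_iff] at hd
        exact (hpos q hq').ne' hd
      rw [this, sum_empty]
      positivity
    · by_cases hle : b s ≤ P
      · have : (qset (primorial P) Q).filter (fun q => b s ∣ q) = ∅ := by
          apply filter_false_of_mem
          intro q hq' hd
          unfold qset at hq'
          have hco := (mem_filter.1 hq').2.2
          have h3 : b s ∣ Nat.gcd q (2 * primorial P) :=
            Nat.dvd_gcd hd (((prime_dvd_primorial_iff' hp).2 hle).mul_left 2)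
          rw [hco] at h3
          exact hp.one_lt.ne' (Nat.dvd_one.1 h3)
        rw [this, sum_empty]
        positivity
      · refine (sum_dvd_le hp).trans (mul_le_mul_of_nonneg_right ?_ hH)
        apply one_div_le_one_div_of_le (by positivity)
        have : P + 1 ≤ b s := by omega
        exact_mod_cast this
  have h3 : ∑ s ∈ R, ∑ q ∈ (qset (primorial P) Q).filter (fun q => b s ∣ q), 1 / (q : ℝ) ≤
      hq (primorial P) Q / 2 := by
    refine (sum_le_sum h2).trans ?_
    rw [sum_const, nsmul_eq_mul, ← mul_assoc]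
    have h4 : (R.card : ℝ) * (1 / (P + 1 : ℝ)) ≤ 1 / 2 := by
      rw [mul_one_div, div_le_div_iff₀ (by positivity) (by norm_num)]
      have : (2 * (R.card : ℝ)) ≤ P := by exact_mod_cast hP
      linarith
    calc (R.card : ℝ) * (1 / (P + 1 : ℝ)) * hq (primorial P) Q ≤ 1 / 2 * hq (primorial P) Q := by
          gcongr
      _ = _ := by ring
  have h5 := sum_filter_add_sum_filter_not (qset (primorial P) Q)
    (fun q => ∀ s ∈ R, ¬ b s ∣ q) (fun q => 1 / (q : ℝ))
  have h6 : hq (primorial P) Q = ∑ q ∈ qset (primorial P) Q, 1 / (q : ℝ) := rfl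
  rw [h6] at h3 ⊢
  linarith

/-- Restriction estimate: well spaced points. -/
theorem restriction {ι : Type*} [DecidableEq ι] (R : Finset ι) (x : ι → ℝ) {δ : ℝ} (hδ : 0 < δ)
    (hsep : ∀ r ∈ R, ∀ s ∈ R, r ≠ s → ∀ n : ℤ, δ ≤ |x r - x s - n|)
    {N W P Q : ℕ} (hQ : 0 < Q) (hQδ : 2 * (Q : ℝ) ^ 4 * δ ≤ 1) (hNW : N ≤ W) (hW : 1 / δ ≤ W)
    (hP : 2 * R.card ≤ P) (A : Finset ℕ) (hA : A ⊆ Icc 1 N) (hAp : ∀ p ∈ A, p.Prime ∧ Q < p) :
    (∑ r ∈ R, ‖∑ n ∈ A, ee (n * x r)‖ ^ 2) * hq (primorial P) Q ≤ 10 * W * A.card := by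
  classical
  have hQr : (1 : ℝ) ≤ Q := by exact_mod_cast hQ
  set bad : ι → ℕ → Prop := fun r q => ∀ s ∈ R, ¬ (if s = r then 0 else badp Q δ (x r - x s)) ∣ q
    with hbad
  set good : ι → Finset ℕ := fun r => (qset (primorial P) Q).filter (bad r) with hgood
  set I : Finset (Σ _ : ι, Σ _ : ℕ, ℕ) := R.sigma (fun r => (good r).sigma (fun q => cop q)) with hI
  set t : (Σ _ : ι, Σ _ : ℕ, ℕ) → ℝ := fun y => x y.1 + (y.2.2 : ℝ) / y.2.1 with ht
  have hqs : ∀ q ∈ qset (primorial P) Q, 0 < q ∧ q ≤ Q ∧ Squarefree q := by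
    intro q hq'
    unfold qset at hq'
    rw [mem_filter, mem_Icc] at hq'
    exact ⟨hq'.1.1, hq'.1.2, hq'.2.1⟩
  have hsepI : ∀ y ∈ I, ∀ z ∈ I, y ≠ z → ∀ n : ℤ, δ ≤ |t y - t z - n| := by
    rintro ⟨r, q, a⟩ hy ⟨s, q', a'⟩ hz hne n
    rw [hI, mem_sigma, mem_sigma] at hy hz
    obtain ⟨hr, hq1, ha⟩ := hy
    obtain ⟨hs, hq2, ha'⟩ := hz
    simp only at hr hq1 ha hs hq2 ha'
    simp only [ht]
    rw [hgood, mem_filter] at hq1 hq2
    obtain ⟨q0, qQ, qsq⟩ := hqs q hq1.1
    obtain ⟨q0', qQ', qsq'⟩ := hqs q' hq2.1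
    have q0r : (0 : ℝ) < q := by exact_mod_cast q0
    have q0r' : (0 : ℝ) < q' := by exact_mod_cast q0'
    unfold cop at ha ha'
    rw [mem_filter, mem_range] at ha ha'
    by_contra hlt
    push Not at hlt
    set y : ℚ := ((a' * q - a * q' + n * (q * q') : ℤ) : ℚ) / ((q * q' : ℤ) : ℚ) with hy
    have hyr : (y : ℝ) = (a' : ℝ) / q' - (a : ℝ) / q + n := by
      rw [hy]
      push_cast
      field_simp
    have hlt' : |x r - x s - y| < δ := by
      rw [hyr]
      have e : x r - x s - ((a' : ℝ) / q' - (a : ℝ) / q + n) =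
          x r + (a : ℝ) / q - (x s + (a' : ℝ) / q') - n := by ring
      rw [e]
      exact hlt
    have hden : y.den ∣ q * q' := by
      have h1 := Rat.den_dvd (a' * q - a * q' + n * (q * q')) ((q : ℤ) * q')
      rw [hy]
      exact_mod_cast h1
    have hdenle : y.den ≤ Q ^ 2 := by
      calc y.den ≤ q * q' := Nat.le_of_dvd (Nat.mul_pos q0 q0') hden
        _ ≤ Q * Q := Nat.mul_le_mul qQ qQ'
        _ = Q ^ 2 := by ring
    by_cases hrs : r = s
    · subst hrs
      rw [sub_self, zero_sub, abs_neg] at hlt'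
      have hy0 : y = 0 := by
        by_contra h0
        have h1 := rat_diff h0
        rw [Rat.cast_zero, sub_zero] at h1
        simp only [Rat.den_zero, Nat.cast_one, mul_one] at h1
        have h2 : 1 / (Q : ℝ) ^ 2 ≤ 1 / (y.den : ℝ) := by
          apply one_div_le_one_div_of_le (by exact_mod_cast y.den_pos)
          exact_mod_cast hdenle
        have h3 : δ ≤ 1 / (Q : ℝ) ^ 2 := by
          rw [le_div_iff₀ (by positivity)]
          have h4 : (Q : ℝ) ^ 2 ≤ (Q : ℝ) ^ 4 := pow_le_pow_right₀ hQr (by norm_num)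
          have h5 : δ * (Q : ℝ) ^ 2 ≤ δ * (Q : ℝ) ^ 4 := by gcongr
          have h6 : 0 ≤ δ * (Q : ℝ) ^ 4 := by positivity
          linarith
        linarith
      have hyr0 : (a' : ℝ) / q' - (a : ℝ) / q + n = 0 := by rw [← hyr, hy0, Rat.cast_zero]
      have e1 : (a' : ℤ) * q - a * q' + n * (q * q') = 0 := by
        have : ((a' : ℝ) / q' - (a : ℝ) / q + n) * (q * q') = 0 := by rw [hyr0, zero_mul]
        have h2 : ((a' : ℝ) / q' - (a : ℝ) / q + n) * (q * q') =
            (a' : ℝ) * q - a * q' + n * (q * q') := by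
          field_simp
        rw [h2] at this
        exact_mod_cast this
      have hn0 : n = 0 := by
        have h1 : (a' : ℝ) / q' < 1 := by
          rw [div_lt_one q0r']
          exact_mod_cast ha'.1
        have h2 : (a : ℝ) / q < 1 := by
          rw [div_lt_one q0r]
          exact_mod_cast ha.1
        have h3 : 0 ≤ (a' : ℝ) / q' := by positivity
        have h4 : 0 ≤ (a : ℝ) / q := by positivity
        have h5 : (n : ℝ) < 1 := by linarith
        have h6 : (-1 : ℝ) < n := by linarith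
        have h7 : n < 1 := by exact_mod_cast h5
        have h8 : -1 < n := by exact_mod_cast h6
        omega
      rw [hn0, zero_mul, add_zero] at e1
      have e2 : a' * q = a * q' := by
        have : (a' : ℤ) * q = a * q' := by linarith
        exact_mod_cast this
      have d1 : q ∣ q' := by
        have : q ∣ a * q' := by rw [← e2]; exact dvd_mul_left _ _
        exact ha.2.symm.dvd_of_dvd_mul_left this
      have d2 : q' ∣ q := by
        have : q' ∣ a' * q := by rw [e2]; exact dvd_mul_left _ _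
        exact ha'.2.symm.dvd_of_dvd_mul_left this
      have d3 : q = q' := Nat.dvd_antisymm d1 d2
      subst d3
      have d4 : a' = a := Nat.eq_of_mul_eq_mul_right q0 e2
      subst d4
      exact hne rfl
    · have hden1 : 1 < y.den := by
        by_contra h1
        have h2 : y.den = 1 := by
          have := y.den_pos
          omega
        have h3 : (y : ℝ) = ((y.num : ℤ) : ℝ) := by
          have h4 := Rat.coe_int_num_of_den_eq_one h2
          have h5 : ((y.num : ℚ) : ℝ) = (y : ℝ) := by rw [h4]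
          rw [← h5]
          push_cast
          rfl
        have h4 := hsep r hr s hs hrs y.num
        rw [← h3] at h4
        linarith
      have hnear : RatNear Q δ (x r - x s) y := ⟨hden1, hdenle, hlt'⟩
      have hbp := badp_eq hQ hQδ hnear
      have hpr : y.den.minFac.Prime := Nat.minFac_prime (by omega)
      have hdv : y.den.minFac ∣ q * q' := (Nat.minFac_dvd _).trans hden
      rcases hpr.dvd_mul.1 hdv with h1 | h1
      · have h2 := hq1.2 s hs
        rw [if_neg (Ne.symm hrs), hbp] at h2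
        exact h2 h1
      · have h2 := hq2.2 r hr
        have h3 : x s - x r = -(x r - x s) := by ring
        rw [if_neg hrs, h3, badp_neg hQ hQδ, hbp] at h2
        exact h2 h1
  have hls := large_sieve I t hδ hsepI hNW hW A hA
  rw [hI, sum_sigma] at hls
  have hmain : ∀ r ∈ R, ‖∑ n ∈ A, ee (n * x r)‖ ^ 2 * (hq (primorial P) Q / 2) ≤
      ∑ y ∈ (good r).sigma (fun q => cop q), ‖∑ n ∈ A, ee (n * t ⟨r, y⟩)‖ ^ 2 := by
    intro r _
    have h1 := good_mass R (fun s => if s = r then 0 else badp Q δ (x r - x s)) (by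
      intro s _
      by_cases h : s = r
      · left; rw [if_pos h]
      · rw [if_neg h]; exact badp_cases) (Q := Q) hP
    calc ‖∑ n ∈ A, ee (n * x r)‖ ^ 2 * (hq (primorial P) Q / 2)
        ≤ ‖∑ n ∈ A, ee (n * x r)‖ ^ 2 * ∑ q ∈ good r, 1 / (q : ℝ) :=
          mul_le_mul_of_nonneg_left h1 (by positivity)
      _ = ∑ q ∈ good r, (1 / (q : ℝ)) * ‖∑ n ∈ A, ee (n * x r)‖ ^ 2 := by
          rw [mul_sum]
          exact sum_congr rfl fun q _ => by ring
      _ ≤ ∑ q ∈ good r, ∑ a ∈ cop q, ‖∑ n ∈ A, ee (n * (x r + (a : ℝ) / q))‖ ^ 2 := by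
          refine sum_le_sum fun q hq' => ?_
          rw [hgood, mem_filter] at hq'
          obtain ⟨q0, qQ, qsq⟩ := hqs q hq'.1
          refine montgomery A qsq (fun p hp => ?_) (x r)
          have hpp := hAp p hp
          rw [hpp.1.coprime_iff_not_dvd]
          intro hd
          have := Nat.le_of_dvd q0 hd
          omega
      _ = _ := by
          rw [sum_sigma]
  have h2 : (∑ r ∈ R, ‖∑ n ∈ A, ee (n * x r)‖ ^ 2) * (hq (primorial P) Q / 2) ≤
      5 * W * A.card := by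
    rw [sum_mul]
    exact (sum_le_sum hmain).trans hls
  linarith

end Pool.Agent.Lib.MP_629a14_nt
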