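import Pool.Agent.Lib.MP_60b32f_nt.Moments
import Pool.Agent.Lib.MP_629a14_nt.Ratio

/-!
Sharp upper bound sieve for the binary Goldbach problem: for `2 ≤ n` the number of ordered
representations of `n` as a sum of two primes is at most `18480 (n/φ(n)) n/(log n)^2`.
Selberg's sieve where the primes dividing `n` are also used (one class removed).
-/

set_option autoImplicit false

namespace Pool.Agent.Lib.MP_629a14_nt.Sharp

open Finset BoundingSieve
open Pool.Agent.Lib.MP_60b32f_nt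

/-- Odd primes up to `z`. -/
def spo (z : ℕ) : Finset ℕ := (Icc 1 z).filter (fun p => p.Prime ∧ p ≠ 2)

def bigPo (z : ℕ) : ℕ := ∏ p ∈ spo z, p

theorem bigPo_squarefree (z : ℕ) : Squarefree (bigPo z) := by
  unfold bigPo
  refine Finset.squarefree_prod_of_pairwise_isCoprime (fun p hp q hq hpq ↦ ?_) ?_
  · rw [Function.onFun, ← Nat.coprime_iff_isRelPrime]
    have h1 : p.Prime := (mem_filter.1 hp).2.1
    have h2 : q.Prime := (mem_filter.1 hq).2.1
    exact (Nat.coprime_primes h1 h2).2 hpq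
  · intro p hp
    exact (mem_filter.1 hp).2.1.prime.squarefree

theorem prime_dvd_bigPo {z p : ℕ} (hp : p.Prime) : p ∣ bigPo z ↔ p ∈ spo z := by
  constructor
  · intro h
    obtain ⟨q, hq, hpq⟩ := (hp.prime.dvd_finsetProd_iff _).1 h
    have hq' : q.Prime := (mem_filter.1 hq).2.1
    have := (Nat.prime_dvd_prime_iff_eq hp hq').1 hpq
    rw [this]; exact hq
  · intro h
    exact dvd_prod_of_mem _ h

/-- Indicator function of the numbers coprime to `n`. -/
noncomputable def copF (n : ℕ) : ArithmeticFunction ℝ :=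
  ⟨fun d => if d ≠ 0 ∧ Nat.Coprime d n then 1 else 0, by simp⟩

theorem copF_apply (n d : ℕ) : copF n d = if d ≠ 0 ∧ Nat.Coprime d n then 1 else 0 := rfl

theorem copF_mult (n : ℕ) : (copF n).IsMultiplicative := by
  rw [ArithmeticFunction.IsMultiplicative.iff_ne_zero]
  constructor
  · simp [copF_apply]
  · intro a b ha hb _
    simp only [copF_apply]
    have h0 : a * b ≠ 0 := Nat.mul_ne_zero ha hb
    by_cases h1 : Nat.Coprime a n
    · by_cases h2 : Nat.Coprime b n
      · rw [if_pos ⟨h0, Nat.Coprime.mul_left h1 h2⟩, if_pos ⟨ha, h1⟩, if_pos ⟨hb, h2⟩, mul_one]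
      · have h3 : ¬ Nat.Coprime (a * b) n := fun h => h2 (Nat.coprime_mul_iff_left.1 h).2
        rw [if_neg (fun h => h3 h.2), if_pos ⟨ha, h1⟩, if_neg (fun h => h2 h.2), mul_zero]
    · have h3 : ¬ Nat.Coprime (a * b) n := fun h => h1 (Nat.coprime_mul_iff_left.1 h).1
      rw [if_neg (fun h => h3 h.2), if_neg (fun h => h1 h.2), zero_mul]

/-- number of divisors of `d` coprime to `n` -/
def ctau (n d : ℕ) : ℕ := (d.divisors.filter (fun e => Nat.Coprime e n)).card

theorem ctau_eq (n d : ℕ) :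
    (ctau n d : ℝ) = (copF n * (ArithmeticFunction.zeta : ArithmeticFunction ℝ)) d := by
  rw [ArithmeticFunction.coe_mul_zeta_apply]
  unfold ctau
  rw [card_filter]
  push_cast
  refine sum_congr rfl fun e he => ?_
  have h0 : e ≠ 0 := (Nat.pos_of_mem_divisors he).ne'
  simp [copF_apply, h0]

theorem ctau_mul {a b : ℕ} (n : ℕ) (h : Nat.Coprime a b) :
    (ctau n (a * b) : ℝ) = ctau n a * ctau n b := by
  rw [ctau_eq, ctau_eq, ctau_eq]
  exact ((copF_mult n).mul ArithmeticFunction.isMultiplicative_zeta.natCast).map_mul_of_coprime h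

noncomputable def nuS (n : ℕ) : ArithmeticFunction ℝ := ⟨fun d => (ctau n d : ℝ) / d, by simp⟩

theorem nuS_apply (n d : ℕ) : nuS n d = (ctau n d : ℝ) / d := rfl

theorem nuS_mult (n : ℕ) : (nuS n).IsMultiplicative := by
  rw [ArithmeticFunction.IsMultiplicative.iff_ne_zero]
  constructor
  · simp [nuS_apply, ctau, Finset.filter_singleton]
  · intro a b _ _ hab
    rw [nuS_apply, nuS_apply, nuS_apply, ctau_mul n hab]
    push_cast
    ring

theorem ctau_pos {n d : ℕ} (hd : d ≠ 0) : 0 < ctau n d := by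
  unfold ctau
  rw [card_pos]
  exact ⟨1, mem_filter.2 ⟨Nat.one_mem_divisors.2 hd, Nat.coprime_one_left n⟩⟩

theorem ctau_le (n d : ℕ) : ctau n d ≤ d.divisors.card := card_filter_le _ _

noncomputable def gso (n z : ℕ) : BoundingSieve where
  support := (range n).image (fun m => m * (n - m))
  prodPrimes := bigPo z
  prodPrimes_squarefree := bigPo_squarefree z
  weights := fun v => (((range n).filter (fun m => m * (n - m) = v)).card : ℝ)
  weights_nonneg := fun v => by positivity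
  totalMass := n
  nu := nuS n
  nu_mult := nuS_mult n
  nu_pos_of_prime := by
    intro p hp _
    rw [nuS_apply]
    have := hp.pos
    have h2 : 0 < ctau n p := ctau_pos hp.ne_zero
    positivity
  nu_lt_one_of_prime := by
    intro p hp hpP
    rw [nuS_apply]
    have h0 : ctau n p ≤ 2 := by
      refine (ctau_le n p).trans ?_
      rw [hp.divisors, card_pair hp.one_lt.ne]
    have h1 := (prime_dvd_bigPo hp).1 hpP
    have h2 : p ≠ 2 := (mem_filter.1 h1).2.2
    have h3 : 2 < p := lt_of_le_of_ne hp.two_le (Ne.symm h2)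
    rw [div_lt_one (by exact_mod_cast hp.pos)]
    exact_mod_cast lt_of_le_of_lt h0 h3

theorem gso_multSum (n z d : ℕ) : (gso n z).multSum d =
    (((range n).filter (fun m => d ∣ m * (n - m))).card : ℝ) :=
  fib_sum (range n) (fun m => m * (n - m)) (fun v => d ∣ v)

theorem gso_siftedSum (n z : ℕ) : (gso n z).siftedSum =
    (((range n).filter (fun m => Nat.Coprime (bigPo z) (m * (n - m)))).card : ℝ) :=
  fib_sum (range n) (fun m => m * (n - m)) (fun v => Nat.Coprime (bigPo z) v)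

/-- divisors of a squarefree number coprime to `n` -/
theorem filter_divisors {n d : ℕ} (hsq : Squarefree d) :
    d.divisors.filter (fun e => Nat.Coprime e n) = (d / Nat.gcd d n).divisors := by
  have hd0 : 0 < d := Nat.pos_of_ne_zero hsq.ne_zero
  have hg0 : 0 < Nat.gcd d n := Nat.gcd_pos_of_pos_left _ hd0
  have hq : Nat.gcd d n * (d / Nat.gcd d n) = d := Nat.mul_div_cancel' (Nat.gcd_dvd_left _ _)
  have hco : Nat.Coprime (Nat.gcd d n) (d / Nat.gcd d n) :=
    Nat.coprime_of_squarefree_mul (hq.symm ▸ hsq)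
  ext e
  rw [mem_filter, Nat.mem_divisors, Nat.mem_divisors]
  constructor
  · rintro ⟨⟨h1, h2⟩, h3⟩
    refine ⟨?_, ?_⟩
    · have h4 : Nat.Coprime e (Nat.gcd d n) := Nat.Coprime.coprime_dvd_right (Nat.gcd_dvd_right _ _) h3
      apply h4.dvd_of_dvd_mul_left
      rw [hq]
      exact h1
    · exact (Nat.div_pos (Nat.gcd_le_left _ hd0) hg0).ne'
  · rintro ⟨h1, h2⟩
    refine ⟨⟨h1.trans (Nat.div_dvd_of_dvd (Nat.gcd_dvd_left _ _)), hd0.ne'⟩, ?_⟩
    rw [Nat.coprime_iff_gcd_eq_one]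
    by_contra h
    obtain ⟨p, hp, hpd⟩ := Nat.exists_prime_and_dvd h
    have hp1 : p ∣ d / Nat.gcd d n := (hpd.trans (Nat.gcd_dvd_left _ _)).trans h1
    have hp2 : p ∣ n := hpd.trans (Nat.gcd_dvd_right _ _)
    have hp3 : p ∣ d := hp1.trans (Nat.div_dvd_of_dvd (Nat.gcd_dvd_left _ _))
    have hp4 : p ∣ Nat.gcd d n := Nat.dvd_gcd hp3 hp2
    have := Nat.dvd_gcd hp4 hp1
    rw [hco] at this
    exact hp.one_lt.ne' (Nat.dvd_one.1 this)

theorem dvd_of_sqf_dvd_mul {n D m : ℕ} (hsq : Squarefree D) (hDn : D ∣ n) (hm : m < n) :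
    D ∣ m * (n - m) ↔ D ∣ m := by
  constructor
  · intro h
    rw [← Nat.prod_primeFactors_of_squarefree hsq]
    apply Finset.prod_primes_dvd
    · intro p hp
      exact (Nat.prime_of_mem_primeFactors hp).prime
    · intro p hp
      have hpp := Nat.prime_of_mem_primeFactors hp
      have hpD := Nat.dvd_of_mem_primeFactors hp
      rcases hpp.dvd_mul.1 (hpD.trans h) with h1 | h1
      · exact h1
      · have h2 : p ∣ n := hpD.trans hDn
        have h3 : m = n - (n - m) := by omega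
        rw [h3]
        exact Nat.dvd_sub h2 h1
  · intro h
    exact h.mul_right _

theorem rem_bound_o {n z d : ℕ} (hd : d ∣ bigPo z) : |(gso n z).rem d| ≤ (d.divisors.card : ℝ) := by
  have hsq : Squarefree d := (bigPo_squarefree z).squarefree_of_dvd hd
  have hd0 : 0 < d := Nat.pos_of_ne_zero hsq.ne_zero
  obtain ⟨D1, hD1⟩ : ∃ D1, D1 = Nat.gcd d n := ⟨_, rfl⟩
  obtain ⟨D2, hD2⟩ : ∃ D2, D2 = d / Nat.gcd d n := ⟨_, rfl⟩
  have hq : D1 * D2 = d := by rw [hD1, hD2]; exact Nat.mul_div_cancel' (Nat.gcd_dvd_left _ _)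
  have hsq12 : Squarefree (D1 * D2) := hq.symm ▸ hsq
  have hco : Nat.Coprime D1 D2 := Nat.coprime_of_squarefree_mul hsq12
  have hD10 : 0 < D1 := Nat.pos_of_ne_zero (by rintro rfl; omega)
  have hD20 : 0 < D2 := Nat.pos_of_ne_zero (by rintro rfl; omega)
  have hsq1 : Squarefree D1 := hsq12.squarefree_of_dvd (dvd_mul_right _ _)
  have hsq2 : Squarefree D2 := hsq12.squarefree_of_dvd (dvd_mul_left _ _)
  have hD1n : D1 ∣ n := by rw [hD1]; exact Nat.gcd_dvd_right _ _
  have hD2n : Nat.Coprime D2 n := by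
    have h := filter_divisors (n := n) hsq
    rw [← hD2] at h
    have h2 : D2 ∈ D2.divisors := Nat.mem_divisors.2 ⟨dvd_rfl, hD20.ne'⟩
    rw [← h] at h2
    exact (mem_filter.1 h2).2
  have h1 : ((range n).filter (fun m => d ∣ m * (n - m))).card
      = ∑ d1 ∈ D2.divisors, ((range n).filter (fun m => D1 * d1 ∣ m ∧ D2 / d1 ∣ n - m)).card := by
    rw [card_eq_sum_card_fiberwise (f := fun m => Nat.gcd D2 m) (t := D2.divisors)]
    · refine sum_congr rfl fun d1 hd1 => ?_
      rw [filter_filter]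
      congr 1
      apply filter_congr
      intro m hm
      have hmn := mem_range.1 hm
      have hf := fiber_eq hD2n hD20 (Nat.dvd_of_mem_divisors hd1) hmn
      have hs := dvd_of_sqf_dvd_mul hsq1 hD1n hmn
      have hd1co : Nat.Coprime D1 d1 :=
        Nat.Coprime.coprime_dvd_right (Nat.dvd_of_mem_divisors hd1) hco
      constructor
      · rintro ⟨ha, hb⟩
        rw [← hq] at ha
        have h3 := hs.1 ((dvd_mul_right D1 D2).trans ha)
        have h4 := hf.1 ⟨(dvd_mul_left D2 D1).trans ha, hb⟩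
        exact ⟨hd1co.mul_dvd_of_dvd_of_dvd h3 h4.1, h4.2⟩
      · rintro ⟨ha, hb⟩
        have h3 : D1 ∣ m := (dvd_mul_right _ _).trans ha
        have h4 := hf.2 ⟨(dvd_mul_left _ _).trans ha, hb⟩
        refine ⟨?_, h4.2⟩
        rw [← hq]
        exact hco.mul_dvd_of_dvd_of_dvd (hs.2 h3) h4.1
    · intro m _
      rw [mem_coe, Nat.mem_divisors]
      exact ⟨Nat.gcd_dvd_left _ _, hD20.ne'⟩
  have hct : ctau n d = D2.divisors.card := by
    unfold ctau
    rw [filter_divisors hsq, ← hD2]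
  have h2 : (gso n z).rem d = ∑ d1 ∈ D2.divisors,
      ((((range n).filter (fun m => D1 * d1 ∣ m ∧ D2 / d1 ∣ n - m)).card : ℝ) - (n : ℝ) / d) := by
    unfold BoundingSieve.rem
    rw [gso_multSum, h1, sum_sub_distrib, sum_const, nsmul_eq_mul]
    push_cast
    have : (gso n z).nu d * (gso n z).totalMass = (D2.divisors.card : ℝ) * ((n : ℝ) / d) := by
      change nuS n d * (n : ℝ) = _
      rw [nuS_apply, hct]
      ring
    rw [this]
  rw [h2]
  refine (abs_sum_le_sum_abs _ _).trans ?_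
  calc ∑ d1 ∈ D2.divisors,
      |(((range n).filter (fun m => D1 * d1 ∣ m ∧ D2 / d1 ∣ n - m)).card : ℝ) - (n : ℝ) / d|
      ≤ ∑ d1 ∈ D2.divisors, (1 : ℝ) := by
        apply sum_le_sum
        intro d1 hd1
        obtain ⟨d2, hd2⟩ := Nat.dvd_of_mem_divisors hd1
        have hd10 : 0 < d1 := Nat.pos_of_mem_divisors hd1
        have hd20 : 0 < d2 := by
          rcases Nat.eq_zero_or_pos d2 with h | h
          · rw [h, mul_zero] at hd2; omega
          · exact h
        have h3 : D2 / d1 = d2 := by rw [hd2, Nat.mul_div_cancel_left _ hd10]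
        have hco12 : Nat.Coprime d1 d2 := Nat.coprime_of_squarefree_mul (hd2 ▸ hsq2)
        have hco1 : Nat.Coprime D1 d2 :=
          Nat.Coprime.coprime_dvd_right (hd2 ▸ dvd_mul_left d2 d1) hco
        have hco3 : Nat.Coprime (D1 * d1) d2 := Nat.Coprime.mul_left hco1 hco12
        have := count_pair n (D1 * d1) d2 hco3 (Nat.mul_pos hD10 hd10) hd20
        rw [h3]
        have e : D1 * d1 * d2 = d := by rw [mul_assoc, ← hd2, hq]
        rw [e] at this
        exact this
    _ = (D2.divisors.card : ℝ) := by simp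
    _ ≤ (d.divisors.card : ℝ) := by
        rw [← hct]
        exact_mod_cast ctau_le n d

theorem rep_le_sifted_o (n z : ℕ) : (rep n : ℝ) ≤ (gso n z).siftedSum + 2 * z := by
  rw [gso_siftedSum]
  unfold rep
  have hsub : (range n).filter (fun m => m.Prime ∧ (n - m).Prime) ⊆
      (range n).filter (fun m => Nat.Coprime (bigPo z) (m * (n - m))) ∪
        (Icc 1 z ∪ (Icc 1 z).image (fun k => n - k)) := by
    intro m hm
    rw [mem_filter, mem_range] at hm
    obtain ⟨hmn, hm1, hm2⟩ := hm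
    rw [mem_union, mem_union]
    by_cases h1 : m ≤ z
    · right; left
      rw [mem_Icc]; exact ⟨hm1.pos, h1⟩
    by_cases h2 : n - m ≤ z
    · right; right
      rw [mem_image]
      refine ⟨n - m, ?_, by omega⟩
      rw [mem_Icc]; exact ⟨hm2.pos, h2⟩
    left
    rw [mem_filter, mem_range]
    refine ⟨hmn, ?_⟩
    rw [Nat.coprime_iff_gcd_eq_one]
    by_contra h
    obtain ⟨p, hp, hpd⟩ := Nat.exists_prime_and_dvd h
    have hp1 := (prime_dvd_bigPo hp).1 (hpd.trans (Nat.gcd_dvd_left _ _))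
    have hp2 : p ≤ z := (mem_Icc.1 (mem_filter.1 hp1).1).2
    rcases hp.dvd_mul.1 (hpd.trans (Nat.gcd_dvd_right _ _)) with h3 | h3
    · have := (Nat.prime_dvd_prime_iff_eq hp hm1).1 h3
      omega
    · have := (Nat.prime_dvd_prime_iff_eq hp hm2).1 h3
      omega
  have h1 := card_le_card hsub
  have h2 : ((range n).filter (fun m => Nat.Coprime (bigPo z) (m * (n - m))) ∪
        (Icc 1 z ∪ (Icc 1 z).image (fun k => n - k))).card ≤
      ((range n).filter (fun m => Nat.Coprime (bigPo z) (m * (n - m)))).card + (z + z) := by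
    refine (card_union_le _ _).trans ?_
    gcongr
    refine (card_union_le _ _).trans ?_
    have h3 : (Icc 1 z).card = z := by simp
    have h4 : ((Icc 1 z).image (fun k => n - k)).card ≤ z := by
      refine card_image_le.trans ?_
      rw [h3]
    omega
  have h3 := h1.trans h2
  have h4 : (((range n).filter (fun m => m.Prime ∧ (n - m).Prime)).card : ℝ) ≤
      (((range n).filter (fun m => Nat.Coprime (bigPo z) (m * (n - m)))).card + (z + z) : ℕ) := by
    exact_mod_cast h3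
  push_cast at h4
  linarith

theorem lev_card_o (n z : ℕ) : (lev (gso n z) z).card ≤ z := by
  have : lev (gso n z) z ⊆ Icc 1 z := by
    intro l hl
    rw [mem_lev] at hl
    rw [mem_Icc]
    exact ⟨Nat.pos_of_ne_zero (ne_zero_of_dvd_ne_zero prodPrimes_ne_zero hl.1), hl.2⟩
  have h := card_le_card this
  simpa using h

theorem lev_pos_o {n z l : ℕ} (hl : l ∈ lev (gso n z) z) : 0 < l :=
  Nat.pos_of_ne_zero (ne_zero_of_dvd_ne_zero prodPrimes_ne_zero (mem_lev.1 hl).1)

theorem inv_nu_le_o {n z l : ℕ} (hl : l ∈ lev (gso n z) z) : ((gso n z).nu l)⁻¹ ≤ (z : ℝ) := by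
  change (nuS n l)⁻¹ ≤ (z : ℝ)
  rw [nuS_apply, inv_div]
  have h0 := lev_pos_o hl
  have h1 : (1 : ℝ) ≤ (ctau n l : ℝ) := by
    have : 0 < ctau n l := ctau_pos h0.ne'
    exact_mod_cast this
  have h2 : (l : ℝ) ≤ z := by exact_mod_cast (mem_lev.1 hl).2
  calc (l : ℝ) / (ctau n l : ℝ) ≤ (l : ℝ) := div_le_self (by positivity) h1
    _ ≤ z := h2

theorem err_le_o (n z : ℕ) :
    ∑ d1 ∈ lev (gso n z) z, ∑ d2 ∈ lev (gso n z) z,
      ((gso n z).nu d1)⁻¹ * ((gso n z).nu d2)⁻¹ * |(gso n z).rem (d1.lcm d2)| ≤ (z : ℝ) ^ 6 := by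
  have hterm : ∀ d1 ∈ lev (gso n z) z, ∀ d2 ∈ lev (gso n z) z,
      ((gso n z).nu d1)⁻¹ * ((gso n z).nu d2)⁻¹ * |(gso n z).rem (d1.lcm d2)| ≤ (z : ℝ) ^ 4 := by
    intro d1 h1 d2 h2
    have ha := inv_nu_le_o h1
    have hb := inv_nu_le_o h2
    have hlcm : d1.lcm d2 ∣ bigPo z := Nat.lcm_dvd (mem_lev.1 h1).1 (mem_lev.1 h2).1
    have hr := rem_bound_o (n := n) hlcm
    have hc : (((d1.lcm d2).divisors.card : ℕ) : ℝ) ≤ (z : ℝ) * z := by
      have h3 : (d1.lcm d2).divisors.card ≤ d1.lcm d2 := Nat.card_divisors_le_self _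
      have h4 : d1.lcm d2 ≤ d1 * d2 := Nat.le_of_dvd (Nat.mul_pos (lev_pos_o h1) (lev_pos_o h2))
        (Nat.lcm_dvd_mul _ _)
      have h5 : d1 * d2 ≤ z * z := Nat.mul_le_mul (mem_lev.1 h1).2 (mem_lev.1 h2).2
      exact_mod_cast (h3.trans h4).trans h5
    have hn1 : 0 ≤ ((gso n z).nu d1)⁻¹ :=
      (inv_pos.2 (nu_pos_of_dvd_prodPrimes (mem_lev.1 h1).1)).le
    have hn2 : 0 ≤ ((gso n z).nu d2)⁻¹ :=
      (inv_pos.2 (nu_pos_of_dvd_prodPrimes (mem_lev.1 h2).1)).le
    calc ((gso n z).nu d1)⁻¹ * ((gso n z).nu d2)⁻¹ * |(gso n z).rem (d1.lcm d2)|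
        ≤ (z : ℝ) * z * ((z : ℝ) * z) := by
          gcongr
          exact hr.trans hc
      _ = (z : ℝ) ^ 4 := by ring
  calc ∑ d1 ∈ lev (gso n z) z, ∑ d2 ∈ lev (gso n z) z,
      ((gso n z).nu d1)⁻¹ * ((gso n z).nu d2)⁻¹ * |(gso n z).rem (d1.lcm d2)|
      ≤ ∑ d1 ∈ lev (gso n z) z, ∑ d2 ∈ lev (gso n z) z, (z : ℝ) ^ 4 :=
        sum_le_sum fun d1 h1 => sum_le_sum fun d2 h2 => hterm d1 h1 d2 h2
    _ = ((lev (gso n z) z).card : ℝ) * (((lev (gso n z) z).card : ℝ) * (z : ℝ) ^ 4) := by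
        simp [sum_const, nsmul_eq_mul]
    _ ≤ (z : ℝ) * ((z : ℝ) * (z : ℝ) ^ 4) := by
        have : ((lev (gso n z) z).card : ℝ) ≤ z := by exact_mod_cast lev_card_o n z
        gcongr
    _ = (z : ℝ) ^ 6 := by ring

theorem bigJ_ge_o (n z : ℕ) :
    ∑ l ∈ lev (gso n z) z, (ctau n l : ℝ) / l ≤ bigJ (gso n z) z := by
  unfold bigJ
  apply sum_le_sum
  intro l hl
  rw [selbergTerms_apply]
  have hlP := (mem_lev.1 hl).1
  have h1 : (1 : ℝ) ≤ ∏ p ∈ l.primeFactors, (1 - (gso n z).nu p)⁻¹ := by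
    have : ∀ p ∈ l.primeFactors, (1 : ℝ) ≤ (1 - (gso n z).nu p)⁻¹ := by
      intro p hp
      have hpp := Nat.prime_of_mem_primeFactors hp
      have hpd := (Nat.dvd_of_mem_primeFactors hp).trans hlP
      have h2 := (gso n z).nu_pos_of_prime p hpp hpd
      have h3 := (gso n z).nu_lt_one_of_prime p hpp hpd
      rw [one_le_inv₀ (by linarith)]
      linarith
    calc (1 : ℝ) = ∏ p ∈ l.primeFactors, (1 : ℝ) := by simp
      _ ≤ _ := prod_le_prod (fun _ _ => by norm_num) this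
  have h2 : (gso n z).nu l = (ctau n l : ℝ) / l := rfl
  have h3 : 0 ≤ (gso n z).nu l := by rw [h2]; positivity
  calc (ctau n l : ℝ) / l = (gso n z).nu l * 1 := by rw [h2, mul_one]
    _ ≤ _ := by gcongr

theorem rep_le_o (n z : ℕ) (hz : 1 ≤ z) :
    (rep n : ℝ) ≤ n * (bigJ (gso n z) z)⁻¹ + (z : ℝ) ^ 6 + 2 * z := by
  have h1 := rep_le_sifted_o n z
  have h2 := selberg_bound (gso n z) z hz
  have h3 := err_le_o n z
  have h4 : (gso n z).totalMass = (n : ℝ) := rfl
  rw [h4] at h2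
  linarith

theorem dvd_bigPo {z l : ℕ} (hsq : Squarefree l) (hl : l ≤ z) (hco : Nat.Coprime l 2) :
    l ∣ bigPo z := by
  rw [← Nat.prod_primeFactors_of_squarefree hsq]
  unfold bigPo
  apply prod_dvd_prod_of_subset
  intro p hp
  have hpp := Nat.prime_of_mem_primeFactors hp
  have hpd := Nat.dvd_of_mem_primeFactors hp
  unfold spo
  rw [mem_filter, mem_Icc]
  refine ⟨⟨hpp.pos, (Nat.le_of_dvd (Nat.pos_of_ne_zero hsq.ne_zero) hpd).trans hl⟩, hpp, ?_⟩
  rintro rfl
  have := Nat.dvd_gcd hpd (dvd_refl 2)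
  rw [hco] at this
  omega

theorem claim2_o (n w : ℕ) :
    hq 1 w * hq n w ≤ zsum w *
      ∑ l ∈ lev (gso n (w * w)) (w * w), (ctau n l : ℝ) / l := by
  set L := lev (gso n (w * w)) (w * w) with hL
  set T : Finset (ℕ × ℕ × ℕ) :=
    Icc 1 w ×ˢ (L ×ˢ Icc 1 w).filter
      (fun y => y.2 ∈ y.1.divisors.filter (fun e => Nat.Coprime e n)) with hT
  set g : ℕ × ℕ → ℕ × ℕ × ℕ := fun x =>
    (Nat.gcd x.1 x.2, (x.1 / Nat.gcd x.1 x.2) * (x.2 / Nat.gcd x.1 x.2), x.2 / Nat.gcd x.1 x.2)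
    with hg
  have hq0 : ∀ k, ∀ a ∈ qset k w, 0 < a ∧ a ≤ w ∧ Squarefree a ∧ Nat.Coprime a (2 * k) := by
    intro k a ha
    unfold qset at ha
    rw [mem_filter, mem_Icc] at ha
    exact ⟨ha.1.1, ha.1.2, ha.2.1, ha.2.2⟩
  have hinj : Set.InjOn g (qset 1 w ×ˢ qset n w : Finset (ℕ × ℕ)) := by
    rintro ⟨a, b⟩ hab ⟨c, d⟩ hcd h
    rw [mem_coe, mem_product] at hab hcd
    have ha := hq0 _ a hab.1
    have hb := hq0 _ b hab.2
    have hc := hq0 _ c hcd.1
    have hd := hq0 _ d hcd.2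
    simp only [hg, Prod.mk.injEq] at h
    obtain ⟨h1, h2, h3⟩ := h
    have hgpos : 0 < Nat.gcd a b := Nat.gcd_pos_of_pos_left _ ha.1
    have e2 : b = d := by
      calc b = Nat.gcd a b * (b / Nat.gcd a b) := (Nat.mul_div_cancel' (Nat.gcd_dvd_right _ _)).symm
        _ = Nat.gcd c d * (d / Nat.gcd c d) := by rw [h3, h1]
        _ = d := Nat.mul_div_cancel' (Nat.gcd_dvd_right _ _)
    have h4 : a / Nat.gcd a b = c / Nat.gcd c d := by
      rw [h3] at h2
      have hpos : 0 < d / Nat.gcd c d := Nat.div_pos (Nat.gcd_le_right _ hd.1)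
        (Nat.gcd_pos_of_pos_left _ hc.1)
      exact Nat.eq_of_mul_eq_mul_right hpos h2
    have e1 : a = c := by
      calc a = Nat.gcd a b * (a / Nat.gcd a b) := (Nat.mul_div_cancel' (Nat.gcd_dvd_left _ _)).symm
        _ = Nat.gcd c d * (c / Nat.gcd c d) := by rw [h4, h1]
        _ = c := Nat.mul_div_cancel' (Nat.gcd_dvd_left _ _)
    rw [e1, e2]
  have hmaps : (qset 1 w ×ˢ qset n w).image g ⊆ T := by
    intro x hx
    rw [mem_image] at hx
    obtain ⟨⟨a, b⟩, hab, rfl⟩ := hx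
    rw [mem_product] at hab
    have ha := hq0 _ a hab.1
    have hb := hq0 _ b hab.2
    have hgpos : 0 < Nat.gcd a b := Nat.gcd_pos_of_pos_left _ ha.1
    have hga : Nat.gcd a b ≤ a := Nat.gcd_le_left _ ha.1
    have hgb : Nat.gcd a b ≤ b := Nat.gcd_le_right _ hb.1
    have hda : a / Nat.gcd a b ∣ a := Nat.div_dvd_of_dvd (Nat.gcd_dvd_left _ _)
    have hdb : b / Nat.gcd a b ∣ b := Nat.div_dvd_of_dvd (Nat.gcd_dvd_right _ _)
    have hco : Nat.Coprime (a / Nat.gcd a b) (b / Nat.gcd a b) :=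
      Nat.coprime_div_gcd_div_gcd hgpos
    have hsq : Squarefree ((a / Nat.gcd a b) * (b / Nat.gcd a b)) := by
      rw [Nat.squarefree_mul hco]
      exact ⟨ha.2.2.1.squarefree_of_dvd hda, hb.2.2.1.squarefree_of_dvd hdb⟩
    have hle1 : a / Nat.gcd a b ≤ w := (Nat.div_le_self _ _).trans ha.2.1
    have hle2 : b / Nat.gcd a b ≤ w := (Nat.div_le_self _ _).trans hb.2.1
    have hle : (a / Nat.gcd a b) * (b / Nat.gcd a b) ≤ w * w := Nat.mul_le_mul hle1 hle2
    have hco2 : Nat.Coprime ((a / Nat.gcd a b) * (b / Nat.gcd a b)) 2 :=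
      Nat.Coprime.mul_left ((ha.2.2.2.coprime_dvd_left hda).coprime_dvd_right (dvd_mul_right _ _))
        ((hb.2.2.2.coprime_dvd_left hdb).coprime_dvd_right (dvd_mul_right _ _))
    rw [hT, mem_product, mem_filter, mem_product]
    refine ⟨mem_Icc.2 ⟨hgpos, hga.trans ha.2.1⟩, ⟨?_, mem_Icc.2 ⟨?_, hle2⟩⟩, ?_⟩
    · rw [hL, mem_lev]
      exact ⟨dvd_bigPo hsq hle hco2, hle⟩
    · exact Nat.div_pos hgb hgpos
    · simp only [hg]
      rw [mem_filter, Nat.mem_divisors]
      exact ⟨⟨dvd_mul_left _ _, hsq.ne_zero⟩,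
        (hb.2.2.2.coprime_dvd_left hdb).coprime_dvd_right (dvd_mul_left _ _)⟩
  set F : ℕ × ℕ × ℕ → ℝ := fun x => (1 / ((x.1 : ℝ) ^ 2)) * (1 / (x.2.1 : ℝ)) with hF
  calc hq 1 w * hq n w = ∑ x ∈ qset 1 w ×ˢ qset n w, (1 / (x.1 : ℝ)) * (1 / (x.2 : ℝ)) := by
        unfold hq
        rw [sum_mul_sum, sum_product]
    _ = ∑ x ∈ qset 1 w ×ˢ qset n w, F (g x) := by
        refine sum_congr rfl fun x hx => ?_
        obtain ⟨a, b⟩ := x
        rw [mem_product] at hx
        have ha := hq0 _ a hx.1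
        have hb := hq0 _ b hx.2
        have hgpos : 0 < Nat.gcd a b := Nat.gcd_pos_of_pos_left _ ha.1
        simp only [hF, hg]
        have e1 : a = Nat.gcd a b * (a / Nat.gcd a b) :=
          (Nat.mul_div_cancel' (Nat.gcd_dvd_left _ _)).symm
        have e2 : b = Nat.gcd a b * (b / Nat.gcd a b) :=
          (Nat.mul_div_cancel' (Nat.gcd_dvd_right _ _)).symm
        have e1' : (a : ℝ) = (Nat.gcd a b : ℝ) * ((a / Nat.gcd a b : ℕ) : ℝ) := by
          exact_mod_cast e1
        have e2' : (b : ℝ) = (Nat.gcd a b : ℝ) * ((b / Nat.gcd a b : ℕ) : ℝ) := by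
          exact_mod_cast e2
        rw [one_div_mul_one_div, one_div_mul_one_div]
        congr 1
        conv_lhs => rw [e1', e2']
        push_cast
        ring
    _ = ∑ x ∈ (qset 1 w ×ˢ qset n w).image g, F x := (sum_image hinj).symm
    _ ≤ ∑ x ∈ T, F x := by
        apply sum_le_sum_of_subset_of_nonneg hmaps
        intro x _ _
        simp only [hF]
        positivity
    _ ≤ zsum w * ∑ l ∈ L, (ctau n l : ℝ) / l := by
        rw [hT, sum_product]
        unfold zsum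
        rw [sum_mul]
        apply sum_le_sum
        intro k _
        rw [mul_sum]
        have h1 : ∑ y ∈ (L ×ˢ Icc 1 w).filter
              (fun y => y.2 ∈ y.1.divisors.filter (fun e => Nat.Coprime e n)), F (k, y)
            = ∑ l ∈ L, ∑ a ∈ (Icc 1 w).filter
              (fun a => a ∈ l.divisors.filter (fun e => Nat.Coprime e n)), F (k, (l, a)) := by
          rw [sum_filter, sum_product]
          refine sum_congr rfl fun l _ => ?_
          rw [sum_filter]
        rw [h1]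
        apply sum_le_sum
        intro l _
        simp only [hF]
        rw [sum_const, nsmul_eq_mul]
        have h2 : ((Icc 1 w).filter
            (fun a => a ∈ l.divisors.filter (fun e => Nat.Coprime e n))).card ≤ ctau n l := by
          apply card_le_card
          intro a ha
          exact (mem_filter.1 ha).2
        have h3 : (((Icc 1 w).filter
            (fun a => a ∈ l.divisors.filter (fun e => Nat.Coprime e n))).card : ℝ) ≤ ctau n l := by
          exact_mod_cast h2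
        calc (((Icc 1 w).filter
            (fun a => a ∈ l.divisors.filter (fun e => Nat.Coprime e n))).card : ℝ) *
              (1 / (k : ℝ) ^ 2 * (1 / (l : ℝ)))
            ≤ (ctau n l : ℝ) * (1 / (k : ℝ) ^ 2 * (1 / (l : ℝ))) := by gcongr
          _ = 1 / (k : ℝ) ^ 2 * ((ctau n l : ℝ) / l) := by ring

theorem sdiv_one : sdiv 1 = 1 := by simp [sdiv]

/-- Lower bound for the Selberg sum. -/
theorem bigJ_lower_o (n w : ℕ) (hn : 0 < n) :
    (Real.log (w + 1)) ^ 2 ≤ 32 * (sdiv n) * bigJ (gso n (w * w)) (w * w) := by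
  have h1 := claim1 n w hn
  have h1' := claim1 1 w one_pos
  have h2 := claim2_o n w
  have h3 := bigJ_ge_o n (w * w)
  have h4 := log_le_hsum w
  have h5 := zsum_le w
  have h6 := sdiv_two_mul_le n hn
  have h6' := sdiv_two_mul_le 1 one_pos
  rw [sdiv_one] at h6'
  have hs := sdiv_pos n hn
  have hz0 : 0 ≤ zsum w := by unfold zsum; positivity
  have hh0 : 0 ≤ hq n w := by unfold hq; positivity
  have hh0' : 0 ≤ hq 1 w := by unfold hq; positivity
  have hs0 : 0 ≤ sdiv (2 * n) := by unfold sdiv; positivity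
  have hs0' : 0 ≤ sdiv (2 * 1) := by unfold sdiv; positivity
  have hl0 : 0 ≤ Real.log (w + 1) := Real.log_nonneg (by linarith [Nat.cast_nonneg (α := ℝ) w])
  have hS0 : 0 ≤ ∑ l ∈ lev (gso n (w * w)) (w * w), (ctau n l : ℝ) / l := by positivity
  generalize ∑ l ∈ lev (gso n (w * w)) (w * w), (ctau n l : ℝ) / l = S at *
  generalize bigJ (gso n (w * w)) (w * w) = J at *
  generalize zsum w = Z at *
  generalize sdiv (2 * n) = s2 at *
  generalize sdiv (2 * 1) = s2' at *
  generalize hq n w = H at *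
  generalize hq 1 w = H' at *
  generalize sdiv n = s1 at *
  have h7 : Real.log (w + 1) ≤ 4 * s1 * H := by
    calc Real.log (w + 1) ≤ Z * (s2 * H) := h4.trans h1
      _ ≤ 2 * ((2 * s1) * H) := by gcongr
      _ = 4 * s1 * H := by ring
  have h7' : Real.log (w + 1) ≤ 4 * H' := by
    calc Real.log (w + 1) ≤ Z * (s2' * H') := h4.trans h1'
      _ ≤ 2 * ((2 * 1) * H') := by gcongr
      _ = 4 * H' := by ring
  have h8 : H' * H ≤ 2 * J := by
    calc H' * H ≤ Z * S := h2
      _ ≤ 2 * S := by gcongr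
      _ ≤ 2 * J := by gcongr
  calc (Real.log (w + 1)) ^ 2 = Real.log (w + 1) * Real.log (w + 1) := by ring
    _ ≤ (4 * H') * (4 * s1 * H) := by gcongr
    _ = 16 * s1 * (H' * H) := by ring
    _ ≤ 16 * s1 * (2 * J) := by gcongr
    _ = 32 * s1 * J := by ring

theorem rep_bound_w_o (n w : ℕ) (hn : 0 < n) (hw : 1 ≤ w) :
    (rep n : ℝ) ≤ 32 * (sdiv n) * n / (Real.log (w + 1)) ^ 2 + (w : ℝ) ^ 12 + 2 * (w : ℝ) ^ 2 := by
  have h1 := rep_le_o n (w * w) (Nat.mul_pos hw hw)
  have h2 := bigJ_lower_o n w hn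
  have hw' : (1 : ℝ) ≤ w := by exact_mod_cast hw
  have hlog : 0 < Real.log (w + 1) := Real.log_pos (by linarith)
  have hJ : 0 < bigJ (gso n (w * w)) (w * w) := bigJ_pos (Nat.mul_pos hw hw)
  have hs := sdiv_pos n hn
  generalize bigJ (gso n (w * w)) (w * w) = J at *
  have h3 : (n : ℝ) * J⁻¹ ≤ 32 * (sdiv n) * n / (Real.log (w + 1)) ^ 2 := by
    rw [le_div_iff₀ (by positivity)]
    calc (n : ℝ) * J⁻¹ * (Real.log (w + 1)) ^ 2 ≤ (n : ℝ) * J⁻¹ * (32 * (sdiv n) * J) := by
          gcongr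
      _ = 32 * (sdiv n) * n := by field_simp
  push_cast at h1
  have h4 : ((w : ℝ) * w) ^ 6 = (w : ℝ) ^ 12 := by ring
  rw [h4] at h1
  have h5 : 2 * ((w : ℝ) * w) = 2 * (w : ℝ) ^ 2 := by ring
  rw [h5] at h1
  linarith

theorem rep_bound_o (n : ℕ) (hn : 2 ≤ n) :
    (rep n : ℝ) ≤ 18480 * (sdiv n) * n / (Real.log n) ^ 2 := by
  have hn' : (2 : ℝ) ≤ n := by exact_mod_cast hn
  have hnpos : (0 : ℝ) < n := by linarith
  set x : ℝ := (n : ℝ) ^ (1 / 24 : ℝ) with hx
  have hx1 : 1 ≤ x := Real.one_le_rpow (by linarith) (by norm_num)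
  have hx24 : x ^ 24 = n := by
    rw [hx, ← Real.rpow_natCast, ← Real.rpow_mul hnpos.le]
    norm_num
  set w : ℕ := ⌊x⌋₊ with hw
  have hw1 : 1 ≤ w := by
    rw [hw, Nat.one_le_floor_iff]
    exact hx1
  have hwx : (w : ℝ) ≤ x := Nat.floor_le (by linarith)
  have hxw : x < w + 1 := Nat.lt_floor_add_one x
  have h1 := rep_bound_w_o n w (by omega) hw1
  have hlogn : 0 < Real.log n := Real.log_pos (by linarith)
  have hlogx : Real.log x = (1 / 24) * Real.log n := by rw [hx, Real.log_rpow hnpos]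
  have hlogw : (1 / 24) * Real.log n ≤ Real.log (w + 1) := by
    rw [← hlogx]
    exact Real.log_le_log (by linarith) hxw.le
  have hs := sdiv_pos n (by omega)
  have h2 : 32 * (sdiv n) * n / (Real.log (w + 1)) ^ 2 ≤
      32 * (sdiv n) * n / ((1 / 24) * Real.log n) ^ 2 := by
    gcongr
  have h3 : 32 * (sdiv n) * n / ((1 / 24) * Real.log n) ^ 2 =
      18432 * (sdiv n) * n / (Real.log n) ^ 2 := by
    field_simp
    norm_num
  have hsq : Real.sqrt n = x ^ 12 := by
    rw [← hx24]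
    rw [show x ^ 24 = (x ^ 12) ^ 2 by ring]
    exact Real.sqrt_sq (by positivity)
  have h4 : (w : ℝ) ^ 12 ≤ Real.sqrt n := by
    rw [hsq]; gcongr
  have h5 : 2 * (w : ℝ) ^ 2 ≤ 2 * Real.sqrt n := by
    rw [hsq]
    have : (w : ℝ) ^ 2 ≤ x ^ 12 := by
      calc (w : ℝ) ^ 2 ≤ x ^ 2 := by gcongr
        _ ≤ x ^ 12 := pow_le_pow_right₀ hx1 (by norm_num)
    linarith
  have h6 := log_sq_le n (by linarith)
  have h7 : 3 * Real.sqrt n ≤ 48 * (sdiv n) * n / (Real.log n) ^ 2 := by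
    rw [le_div_iff₀ (by positivity)]
    calc 3 * Real.sqrt n * (Real.log n) ^ 2 ≤ 3 * Real.sqrt n * (16 * Real.sqrt n) := by gcongr
      _ = 48 * 1 * (Real.sqrt n * Real.sqrt n) := by ring
      _ = 48 * 1 * n := by rw [Real.mul_self_sqrt hnpos.le]
      _ ≤ 48 * (sdiv n) * n := by gcongr
  have h8 : 18480 * (sdiv n) * n / (Real.log n) ^ 2 =
      18432 * (sdiv n) * n / (Real.log n) ^ 2 + 48 * (sdiv n) * n / (Real.log n) ^ 2 := by
    ring
  rw [h8]
  rw [h3] at h2
  linarith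

/-- Sharp upper bound for the number of representations as a sum of two primes. -/
theorem rep_sharp (n : ℕ) (hn : 2 ≤ n) :
    (rep n : ℝ) ≤ 18480 * ((n : ℝ) / (n.totient : ℝ)) * n / (Real.log n) ^ 2 := by
  refine (rep_bound_o n hn).trans ?_
  have h := sdiv_le_rt n (by omega)
  unfold rt at h
  gcongr

end Pool.Agent.Lib.MP_629a14_nt.Sharp
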