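import Pool.Agent.Lib.MP_629a14_nt.WienerNorm

/-! The function `φ(n)/n`, truncations, and the ramp function. -/

set_option autoImplicit false

namespace Pool.Agent.Lib.MP_629a14_nt

open Finset

theorem phi_moebius {n : ℕ} (hn : 0 < n) : (n.totient : ℝ) / n =
    ∑ d ∈ n.divisors, ((ArithmeticFunction.moebius d : ℤ) : ℝ) / d := by
  have h := (ArithmeticFunction.sum_eq_iff_sum_mul_moebius_eq (R := ℝ)
    (f := fun k => (k.totient : ℝ)) (g := fun k => (k : ℝ))).1 (by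
      intro m _
      have := Nat.sum_totient m
      exact_mod_cast this) n hn
  rw [← h, sum_div, Nat.sum_divisorsAntidiagonal
    (f := fun d e => (((ArithmeticFunction.moebius d : ℤ) : ℝ) * (e : ℝ)) / n)]
  refine sum_congr rfl fun d hd => ?_
  have hdn := Nat.dvd_of_mem_divisors hd
  have hd0 : (d : ℝ) ≠ 0 := by exact_mod_cast (Nat.pos_of_mem_divisors hd).ne'
  have hn0 : (n : ℝ) ≠ 0 := by exact_mod_cast hn.ne'
  rw [Nat.cast_div hdn hd0]
  field_simp

/-- truncation of `φ(n)/n` -/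
noncomputable def t1 (D n : ℕ) : ℝ :=
  ∑ d ∈ Icc 1 D, (((ArithmeticFunction.moebius d : ℤ) : ℝ) / d) * (if d ∣ n then 1 else 0)

/-- majorant of the tail -/
noncomputable def T2 (D N n : ℕ) : ℝ := ∑ d ∈ Ioc D N, (1 / (d : ℝ)) * (if d ∣ n then 1 else 0)

theorem T2_nonneg (D N n : ℕ) : 0 ≤ T2 D N n := by
  unfold T2
  exact sum_nonneg fun _ _ => by positivity

theorem abs_moebius_div_le (d : ℕ) : |((ArithmeticFunction.moebius d : ℤ) : ℝ) / d| ≤ 1 / (d : ℝ) := by
  rw [abs_div, Nat.abs_cast]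
  refine div_le_div_of_nonneg_right ?_ (by positivity)
  have := ArithmeticFunction.abs_moebius_le_one (n := d)
  exact_mod_cast this

theorem phi_sub_t1 {D N n : ℕ} (hDN : D ≤ N) (hn : n ∈ Icc 1 N) :
    |(n.totient : ℝ) / n - t1 D n| ≤ T2 D N n := by
  rw [mem_Icc] at hn
  have h1 : (n.totient : ℝ) / n = ∑ d ∈ Icc 1 N,
      (((ArithmeticFunction.moebius d : ℤ) : ℝ) / d) * (if d ∣ n then 1 else 0) := by
    rw [phi_moebius (by omega)]
    simp only [mul_ite, mul_one, mul_zero]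
    rw [← sum_filter]
    refine sum_congr ?_ (fun _ _ => rfl)
    ext d
    rw [Nat.mem_divisors, mem_filter, mem_Icc]
    constructor
    · rintro ⟨h1, h2⟩
      exact ⟨⟨Nat.pos_of_dvd_of_pos h1 (by omega), (Nat.le_of_dvd (by omega) h1).trans hn.2⟩, h1⟩
    · rintro ⟨_, h2⟩
      exact ⟨h2, by omega⟩
  have h2 : Icc 1 N = Icc 1 D ∪ Ioc D N := by
    ext d
    simp only [mem_Icc, mem_union, mem_Ioc]
    omega
  have h3 : Disjoint (Icc 1 D) (Ioc D N) := by
    rw [disjoint_left]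
    intro d h4 h5
    rw [mem_Icc] at h4
    rw [mem_Ioc] at h5
    omega
  rw [h1, h2, sum_union h3]
  unfold t1 T2
  rw [add_sub_cancel_left]
  refine (abs_sum_le_sum_abs _ _).trans (sum_le_sum fun d _ => ?_)
  rw [abs_mul]
  have h4 : |(if d ∣ n then (1 : ℝ) else 0)| = if d ∣ n then 1 else 0 := by
    split_ifs <;> simp
  rw [h4]
  exact mul_le_mul_of_nonneg_right (abs_moebius_div_le d) (by positivity)

theorem wi_t1 (N D : ℕ) : Wi N (fun n => (t1 D n : ℂ)) D := by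
  have h := Wi.sum (N := N) (Icc 1 D)
    (fun d n => ((((ArithmeticFunction.moebius d : ℤ) : ℝ) / d : ℝ) : ℂ) *
      (if d ∣ n then 1 else 0)) (fun _ => 1) (by
      intro d hd
      have hd1 := (mem_Icc.1 hd).1
      refine ((Wi.dvd (N := N) (show 0 < d by omega)).smul _).mono ?_
      rw [Complex.norm_real, Real.norm_eq_abs, mul_one]
      refine (abs_moebius_div_le d).trans ?_
      rw [div_le_one (by exact_mod_cast hd1)]
      exact_mod_cast hd1)
  rw [sum_const, Nat.card_Icc, nsmul_eq_mul, mul_one, Nat.add_sub_cancel] at h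
  refine h.congr fun n _ => ?_
  unfold t1
  push_cast
  refine sum_congr rfl fun d _ => ?_
  split_ifs <;> simp

theorem wi_T2 (N D : ℕ) : Wi N (fun n => (T2 D N n : ℂ)) (1 + Real.log N) := by
  have h := Wi.sum (N := N) (Ioc D N)
    (fun d n => ((1 / (d : ℝ) : ℝ) : ℂ) * (if d ∣ n then 1 else 0)) (fun d => 1 / (d : ℝ)) (by
      intro d hd
      have hd1 := (mem_Ioc.1 hd).1
      refine ((Wi.dvd (N := N) (show 0 < d by omega)).smul _).mono ?_
      rw [Complex.norm_real, Real.norm_of_nonneg (by positivity), mul_one])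
  refine (h.congr fun n _ => ?_).mono ?_
  · unfold T2
    push_cast
    refine sum_congr rfl fun d _ => ?_
    split_ifs <;> simp
  · calc ∑ d ∈ Ioc D N, 1 / (d : ℝ) ≤ ∑ d ∈ Icc 1 N, 1 / (d : ℝ) := by
          refine sum_le_sum_of_subset_of_nonneg ?_ (fun _ _ _ => by positivity)
          intro d hd
          rw [mem_Ioc] at hd
          rw [mem_Icc]
          omega
      _ ≤ 1 + Real.log N := by
          have h2 := harmonic_le_one_add_log N
          have h3 : ((harmonic N : ℚ) : ℝ) = ∑ a ∈ Icc 1 N, 1 / (a : ℝ) := by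
            rw [harmonic_eq_sum_Icc]
            push_cast
            refine sum_congr rfl fun a _ => ?_
            rw [one_div]
          rw [h3] at h2
          exact h2

theorem sum_T2 {D N : ℕ} (hD : 0 < D) (hDN : D ≤ N) :
    ∑ n ∈ Icc 1 N, T2 D N n ≤ N / D := by
  unfold T2
  rw [sum_comm]
  have h1 : ∀ d ∈ Ioc D N, ∑ n ∈ Icc 1 N, (1 / (d : ℝ)) * (if d ∣ n then (1 : ℝ) else 0) ≤
      N * ((d : ℝ) ^ 2)⁻¹ := by
    intro d hd
    have hd0 : (0 : ℝ) < d := by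
      have := (mem_Ioc.1 hd).1
      exact_mod_cast (by omega : 0 < d)
    rw [← mul_sum, ← sum_filter, sum_const, nsmul_eq_mul, mul_one]
    have h2 : (((Icc 1 N).filter (fun n => d ∣ n)).card : ℝ) ≤ N / d := by
      have h3 : (Icc 1 N).filter (fun n => d ∣ n) = (Ioc 0 N).filter (fun n => d ∣ n) := by
        congr 1
      rw [h3, Nat.Ioc_filter_dvd_card_eq_div]
      exact Nat.cast_div_le
    calc (1 / (d : ℝ)) * (((Icc 1 N).filter (fun n => d ∣ n)).card : ℝ)
        ≤ (1 / (d : ℝ)) * (N / d) := by gcongr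
      _ = N * ((d : ℝ) ^ 2)⁻¹ := by field_simp
  refine (sum_le_sum h1).trans ?_
  rw [← mul_sum]
  have h4 := sum_Ioc_inv_sq_le_sub (α := ℝ) hD.ne' hDN
  have h5 : (0 : ℝ) ≤ (N : ℝ)⁻¹ := by positivity
  calc (N : ℝ) * ∑ d ∈ Ioc D N, ((d : ℝ) ^ 2)⁻¹ ≤ N * (D : ℝ)⁻¹ := by
        refine mul_le_mul_of_nonneg_left ?_ (by positivity)
        linarith
    _ = N / D := by rw [div_eq_mul_inv]

/-! ### ramp function -/

/-- equal to `1` up to `a`, `0` from `2a` on, linear in between -/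
noncomputable def ramp (a y : ℝ) : ℝ := max 0 (min 1 (2 - y / a))

theorem ramp_nonneg (a y : ℝ) : 0 ≤ ramp a y := le_max_left _ _

theorem ramp_le_one (a y : ℝ) : ramp a y ≤ 1 := max_le (by norm_num) (min_le_left _ _)

theorem ramp_eq_one {a y : ℝ} (ha : 0 < a) (h : y ≤ a) : ramp a y = 1 := by
  unfold ramp
  have : y / a ≤ 1 := by rw [div_le_one ha]; exact h
  rw [min_eq_left (by linarith), max_eq_right (by norm_num)]

theorem ramp_eq_zero {a y : ℝ} (ha : 0 < a) (h : 2 * a ≤ y) : ramp a y = 0 := by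
  unfold ramp
  have : 2 ≤ y / a := by rw [le_div_iff₀ ha]; exact h
  rw [max_eq_left]
  exact (min_le_right _ _).trans (by linarith)

theorem ramp_continuous (a : ℝ) : Continuous (ramp a) := by
  unfold ramp
  fun_prop

theorem ramp_lip {a : ℝ} (ha : 0 < a) (y z : ℝ) : |ramp a y - ramp a z| ≤ |y - z| / a := by
  unfold ramp
  have h1 : |max 0 (min 1 (2 - y / a)) - max 0 (min 1 (2 - z / a))| ≤
      |min 1 (2 - y / a) - min 1 (2 - z / a)| := by
    rw [max_comm 0, max_comm 0]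
    exact abs_max_sub_max_le_abs _ _ _
  have h2 : |min 1 (2 - y / a) - min 1 (2 - z / a)| ≤ |(2 - y / a) - (2 - z / a)| := by
    have := abs_min_sub_min_le_max (1 : ℝ) (2 - y / a) 1 (2 - z / a)
    rw [sub_self, abs_zero, max_eq_right (abs_nonneg _)] at this
    exact this
  refine h1.trans (h2.trans (le_of_eq ?_))
  have : (2 - y / a) - (2 - z / a) = -((y - z) / a) := by ring
  rw [this, abs_neg, abs_div, abs_of_pos ha]

theorem exists_ramp_poly (a X ε : ℝ) (hε : 0 < ε) :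
    ∃ p : Polynomial ℝ, ∀ y, |y| ≤ X → |p.eval y - ramp a y| ≤ ε := by
  obtain ⟨p, hp⟩ := exists_polynomial_near_of_continuousOn (-X) X (ramp a)
    (ramp_continuous a).continuousOn ε hε
  refine ⟨p, fun y hy => (hp y ?_).le⟩
  rw [Set.mem_Icc]
  exact abs_le.1 hy

/-! ### weights -/

/-- nonnegative weights on `[1,N]` of total mass one -/
def IsWt (N : ℕ) (w : ℕ → ℝ) : Prop := (∀ n ∈ Icc 1 N, 0 ≤ w n) ∧ ∑ n ∈ Icc 1 N, w n = 1

/-- size of a polynomial with absolute values of the coefficients -/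
noncomputable def pn (p : Polynomial ℝ) (X : ℝ) : ℝ :=
  ∑ k ∈ range (p.natDegree + 1), |p.coeff k| * X ^ k

theorem mean_compare {N : ℕ} {w w' : ℕ → ℝ} (hw : IsWt N w) (hw' : IsWt N w') {η : ℝ}
    (hu : ∀ t : ℝ, ‖∑ n ∈ Icc 1 N, ((w n - w' n : ℝ) : ℂ) * ee (t * n)‖ ≤ η)
    {x x1 e : ℕ → ℝ} {X θ a ε : ℝ} (ha : 0 < a) {p : Polynomial ℝ}
    (hp : ∀ y, |y| ≤ X → |p.eval y - ramp a y| ≤ ε)
    (hx1 : Wi N (fun n => (x1 n : ℂ)) X) (hxe : ∀ n ∈ Icc 1 N, |x n - x1 n| ≤ e n)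
    (he : ∑ n ∈ Icc 1 N, w n * e n ≤ θ) (he' : ∑ n ∈ Icc 1 N, w' n * e n ≤ θ) :
    |∑ n ∈ Icc 1 N, w n * ramp a (x n) - ∑ n ∈ Icc 1 N, w' n * ramp a (x n)| ≤
      2 * (θ / a) + 2 * ε + pn p X * η := by
  have hpt : ∀ n ∈ Icc 1 N, |ramp a (x n) - p.eval (x1 n)| ≤ e n / a + ε := by
    intro n hn
    have h1 := ramp_lip ha (x n) (x1 n)
    have h2 : |x1 n| ≤ X := by
      have := hx1.norm_le hn
      rwa [Complex.norm_real, Real.norm_eq_abs] at this
    have h3 := hp _ h2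
    have h4 : |x n - x1 n| / a ≤ e n / a := div_le_div_of_nonneg_right (hxe n hn) ha.le
    have h5 : ramp a (x n) - p.eval (x1 n) = (ramp a (x n) - ramp a (x1 n)) -
        (p.eval (x1 n) - ramp a (x1 n)) := by ring
    rw [h5]
    refine (abs_sub _ _).trans ?_
    linarith
  have hone : ∀ v : ℕ → ℝ, IsWt N v → ∑ n ∈ Icc 1 N, v n * e n ≤ θ →
      |∑ n ∈ Icc 1 N, v n * ramp a (x n) - ∑ n ∈ Icc 1 N, v n * p.eval (x1 n)| ≤ θ / a + ε := by
    intro v hv hve
    rw [← sum_sub_distrib]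
    refine (abs_sum_le_sum_abs _ _).trans ?_
    calc ∑ n ∈ Icc 1 N, |v n * ramp a (x n) - v n * p.eval (x1 n)|
        ≤ ∑ n ∈ Icc 1 N, ((v n * e n) / a + v n * ε) := by
          refine sum_le_sum fun n hn => ?_
          rw [← mul_sub, abs_mul, abs_of_nonneg (hv.1 n hn)]
          calc v n * |ramp a (x n) - p.eval (x1 n)| ≤ v n * (e n / a + ε) :=
                mul_le_mul_of_nonneg_left (hpt n hn) (hv.1 n hn)
            _ = _ := by ring
      _ = (∑ n ∈ Icc 1 N, v n * e n) / a + ε := by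
          rw [sum_add_distrib, ← sum_div, ← sum_mul, hv.2, one_mul]
      _ ≤ θ / a + ε := by gcongr
  have h1 := hone w hw he
  have h2 := hone w' hw' he'
  have h3 : |∑ n ∈ Icc 1 N, w n * p.eval (x1 n) - ∑ n ∈ Icc 1 N, w' n * p.eval (x1 n)| ≤
      pn p X * η := by
    have h4 := (Wi.poly p hx1).apply_real hu
    have h5 : ∑ n ∈ Icc 1 N, (w n - w' n) * p.eval (x1 n) =
        ∑ n ∈ Icc 1 N, w n * p.eval (x1 n) - ∑ n ∈ Icc 1 N, w' n * p.eval (x1 n) := by
      rw [← sum_sub_distrib]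
      exact sum_congr rfl fun n _ => by ring
    rw [h5] at h4
    exact h4
  rw [abs_le] at *
  constructor <;> linarith [h1.1, h1.2, h2.1, h2.2, h3.1, h3.2]

/-- mass of a set of integers -/
noncomputable def wmass (N : ℕ) (w : ℕ → ℝ) (E : ℕ → Prop) [DecidablePred E] : ℝ :=
  ∑ n ∈ (Icc 1 N).filter E, w n

open Classical in
theorem levy_step {N : ℕ} {v v' : ℕ → ℝ} (hv : IsWt N v) (hv' : IsWt N v') {x ρ : ℕ → ℝ}
    {a κ c δ θ0 θ1 : ℝ} (ha : 0 < a)
    (h1 : ∀ n ∈ Icc 1 N, κ * N ≤ n → ρ n ≤ c → x n ≤ a)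
    (h2 : ∀ n ∈ Icc 1 N, κ * N ≤ n → x n < 2 * a → ρ n ≤ c + δ)
    (hs : ∑ n ∈ (Icc 1 N).filter (fun n : ℕ => (n : ℝ) < κ * N), v n ≤ θ0)
    (hs' : ∑ n ∈ (Icc 1 N).filter (fun n : ℕ => (n : ℝ) < κ * N), v' n ≤ θ0)
    (hc : |∑ n ∈ Icc 1 N, v n * ramp a (x n) - ∑ n ∈ Icc 1 N, v' n * ramp a (x n)| ≤ θ1) :
    ∑ n ∈ (Icc 1 N).filter (fun n => ρ n ≤ c), v n ≤
      ∑ n ∈ (Icc 1 N).filter (fun n => ρ n ≤ c + δ), v' n + 2 * θ0 + θ1 := by
  have e1 : ∑ n ∈ (Icc 1 N).filter (fun n => ρ n ≤ c), v n ≤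
      ∑ n ∈ (Icc 1 N).filter (fun n : ℕ => (n : ℝ) < κ * N), v n +
        ∑ n ∈ Icc 1 N, v n * ramp a (x n) := by
    rw [sum_filter, sum_filter, ← sum_add_distrib]
    refine sum_le_sum fun n hn => ?_
    have hvn := hv.1 n hn
    have hr := ramp_nonneg a (x n)
    by_cases h3 : ρ n ≤ c
    · rw [if_pos h3]
      by_cases h4 : (n : ℝ) < κ * N
      · rw [if_pos h4]
        have := mul_nonneg hvn hr
        linarith
      · rw [if_neg h4, ramp_eq_one ha (h1 n hn (not_lt.1 h4) h3)]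
        linarith
    · rw [if_neg h3]
      have := mul_nonneg hvn hr
      split_ifs <;> linarith
  have e2 : ∑ n ∈ Icc 1 N, v' n * ramp a (x n) ≤
      ∑ n ∈ (Icc 1 N).filter (fun n : ℕ => (n : ℝ) < κ * N), v' n +
      ∑ n ∈ (Icc 1 N).filter (fun n => ρ n ≤ c + δ), v' n := by
    rw [sum_filter, sum_filter, ← sum_add_distrib]
    refine sum_le_sum fun n hn => ?_
    have hvn := hv'.1 n hn
    have hr := ramp_le_one a (x n)
    have hle : v' n * ramp a (x n) ≤ v' n := by nlinarith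
    by_cases h4 : (n : ℝ) < κ * N
    · rw [if_pos h4]
      split_ifs <;> linarith
    · rw [if_neg h4]
      by_cases h5 : x n < 2 * a
      · rw [if_pos (h2 n hn (not_lt.1 h4) h5)]
        linarith
      · rw [ramp_eq_zero ha (not_lt.1 h5)]
        split_ifs <;> linarith
  have e3 := (abs_le.1 hc).2
  linarith

end Pool.Agent.Lib.MP_629a14_nt
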