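import Pool.Agent.Lib.MP_60b32f_nt.Density

/-! Selberg majorant `maj R` of the primes larger than `R`, and its distribution in the
reduced residue classes of an arbitrary modulus. -/

namespace Pool.Agent.Lib.MP_629a14_nt

open Finset BoundingSieve Pool.Agent.Lib.MP_60b32f_nt

theorem count_Icc (X D c : ℕ) (hD : 0 < D) :
    |(((Icc 1 X).filter (fun n => n ≡ c [MOD D])).card : ℝ) - (X : ℝ) / D| ≤ 1 := by
  have h1 := Nat.Ioc_filter_modEq_card 0 X hD c
  have e : Icc 1 X = Ioc 0 X := by ext; simp [mem_Icc, mem_Ioc, Nat.succ_le_iff]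
  rw [e]
  have hD' : (0 : ℚ) < D := by exact_mod_cast hD
  have hle : ⌊(((0 : ℕ) : ℚ) - c) / (D : ℚ)⌋ ≤ ⌊((X : ℚ) - c) / (D : ℚ)⌋ := by
    apply Int.floor_le_floor
    gcongr
    exact_mod_cast Nat.zero_le X
  rw [max_eq_left (by linarith)] at h1
  have h2 : (((Ioc 0 X).filter (fun n => n ≡ c [MOD D])).card : ℚ)
      = (⌊((X : ℚ) - c) / (D : ℚ)⌋ : ℚ) - (⌊(((0 : ℕ) : ℚ) - c) / (D : ℚ)⌋ : ℚ) := by
    have : ((((Ioc 0 X).filter (fun n => n ≡ c [MOD D])).card : ℤ) : ℚ) =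
      ((⌊((X : ℚ) - c) / (D : ℚ)⌋ - ⌊(((0 : ℕ) : ℚ) - c) / (D : ℚ)⌋ : ℤ) : ℚ) := by
      rw [h1]
    push_cast at this ⊢
    exact this
  have a1 := Int.floor_le (((X : ℚ) - c) / (D : ℚ))
  have a2 := Int.lt_floor_add_one (((X : ℚ) - c) / (D : ℚ))
  have b1 := Int.floor_le ((((0 : ℕ) : ℚ) - c) / (D : ℚ))
  have b2 := Int.lt_floor_add_one ((((0 : ℕ) : ℚ) - c) / (D : ℚ))
  have e2 : (X : ℚ) / D = ((X : ℚ) - c) / (D : ℚ) - (((0 : ℕ) : ℚ) - c) / (D : ℚ) := by
    push_cast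
    field_simp
    ring
  have h3 : |(((Ioc 0 X).filter (fun n => n ≡ c [MOD D])).card : ℚ) - (X : ℚ) / D| ≤ 1 := by
    rw [h2, e2, abs_le]
    constructor <;> linarith
  have h4 : ((|(((Ioc 0 X).filter (fun n => n ≡ c [MOD D])).card : ℚ) - (X : ℚ) / D| : ℚ) : ℝ)
      ≤ ((1 : ℚ) : ℝ) := Rat.cast_le.2 h3
  push_cast at h4
  exact h4

noncomputable def invN : ArithmeticFunction ℝ := ⟨fun d => 1 / (d : ℝ), by simp⟩

theorem invN_apply (d : ℕ) : invN d = 1 / (d : ℝ) := rfl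

theorem invN_mult : invN.IsMultiplicative := by
  rw [ArithmeticFunction.IsMultiplicative.iff_ne_zero]
  constructor
  · simp [invN_apply]
  · intro a b _ _ _
    rw [invN_apply, invN_apply, invN_apply]
    push_cast
    ring

/-- The linear sieve problem: sieving by the odd primes up to `R`. -/
noncomputable def ls (R : ℕ) : BoundingSieve where
  support := ∅
  prodPrimes := bigP 1 R
  prodPrimes_squarefree := bigP_squarefree 1 R
  weights := fun _ => 0
  weights_nonneg := fun _ => le_rfl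
  totalMass := 1
  nu := invN
  nu_mult := invN_mult
  nu_pos_of_prime := by
    intro p hp _
    rw [invN_apply]
    have := hp.pos
    positivity
  nu_lt_one_of_prime := by
    intro p hp _
    rw [invN_apply, div_lt_one (by exact_mod_cast hp.pos)]
    exact_mod_cast hp.one_lt

/-- The level set of the sieve. -/
noncomputable def lv (R : ℕ) : Finset ℕ := lev (ls R) R

/-- The weights. -/
noncomputable def w (R d : ℕ) : ℝ := wt (ls R) R d

/-- The majorant. -/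
noncomputable def maj (R n : ℕ) : ℝ := (∑ d ∈ (lv R).filter (fun d => d ∣ n), w R d) ^ 2

theorem maj_nonneg (R n : ℕ) : 0 ≤ maj R n := sq_nonneg _

theorem lv_pos {R d : ℕ} (hd : d ∈ lv R) : 0 < d :=
  Nat.pos_of_ne_zero (ne_zero_of_dvd_ne_zero prodPrimes_ne_zero (mem_lev.1 hd).1)

theorem lv_le {R d : ℕ} (hd : d ∈ lv R) : d ≤ R := (mem_lev.1 hd).2

theorem one_mem_lv {R : ℕ} (hR : 1 ≤ R) : 1 ∈ lv R := mem_lev.2 ⟨one_dvd _, hR⟩

theorem maj_prime {R p : ℕ} (hR : 1 ≤ R) (hp : p.Prime) (hpR : R < p) : maj R p = 1 := by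
  unfold maj
  have h1 : (lv R).filter (fun d => d ∣ p) = {1} := by
    ext d
    rw [mem_filter, mem_singleton]
    constructor
    · rintro ⟨h1, h2⟩
      rcases (Nat.dvd_prime hp).1 h2 with h | h
      · exact h
      · have := lv_le h1
        omega
    · rintro rfl
      exact ⟨one_mem_lv hR, one_dvd _⟩
  rw [h1, sum_singleton]
  unfold w
  rw [wt_one hR]
  norm_num

theorem abs_w_le {R d : ℕ} (hR : 1 ≤ R) (hd : d ∈ lv R) : |w R d| ≤ R := by
  have h := abs_wt_le (s := ls R) hR (mem_lev.1 hd).1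
  have h2 : ((ls R).nu d)⁻¹ = d := by
    change (invN d)⁻¹ = d
    rw [invN_apply]
    simp
  rw [h2] at h
  refine h.trans ?_
  exact_mod_cast lv_le hd

theorem sum_abs_w_le {R : ℕ} (hR : 1 ≤ R) : ∑ d ∈ lv R, |w R d| ≤ (R : ℝ) ^ 2 := by
  have hc : (lv R).card ≤ R := by
    have : lv R ⊆ Icc 1 R := fun d hd => mem_Icc.2 ⟨lv_pos hd, lv_le hd⟩
    simpa using card_le_card this
  calc ∑ d ∈ lv R, |w R d| ≤ ∑ d ∈ lv R, (R : ℝ) := sum_le_sum fun d hd => abs_w_le hR hd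
    _ = (lv R).card * (R : ℝ) := by simp
    _ ≤ (R : ℝ) * R := by gcongr
    _ = (R : ℝ) ^ 2 := by ring

/-- Expansion of the majorant. -/
theorem maj_eq (R n : ℕ) : maj R n =
    ∑ d1 ∈ lv R, ∑ d2 ∈ lv R, w R d1 * w R d2 * (if d1.lcm d2 ∣ n then 1 else 0) := by
  unfold maj
  rw [sq, sum_filter, sum_mul_sum]
  refine sum_congr rfl fun d1 _ => sum_congr rfl fun d2 _ => ?_
  by_cases h1 : d1 ∣ n
  · by_cases h2 : d2 ∣ n
    · rw [if_pos h1, if_pos h2, if_pos (Nat.lcm_dvd h1 h2), mul_one]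
    · rw [if_neg h2, if_neg (fun h => h2 ((Nat.dvd_lcm_right _ _).trans h))]
      simp
  · rw [if_neg h1, if_neg (fun h => h1 ((Nat.dvd_lcm_left _ _).trans h))]
    simp

theorem maj_sum_eq (R : ℕ) (S : Finset ℕ) : ∑ n ∈ S, maj R n =
    ∑ d1 ∈ lv R, ∑ d2 ∈ lv R, w R d1 * w R d2 * ((S.filter (fun n => d1.lcm d2 ∣ n)).card : ℝ) := by
  simp_rw [maj_eq]
  rw [sum_comm]
  refine sum_congr rfl fun d1 _ => ?_
  rw [sum_comm]
  refine sum_congr rfl fun d2 _ => ?_
  rw [← mul_sum]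
  congr 1
  rw [card_filter]
  push_cast
  rfl

/-- The majorant is well distributed in the reduced residue classes of every modulus. -/
theorem maj_ap (R X Q : ℕ) (hR : 1 ≤ R) (hQ : 0 < Q) : ∃ M : ℝ, ∀ c : ℕ, Nat.Coprime c Q →
    |∑ n ∈ (Icc 1 X).filter (fun n => n ≡ c [MOD Q]), maj R n - M| ≤ (R : ℝ) ^ 4 := by
  refine ⟨∑ d1 ∈ lv R, ∑ d2 ∈ lv R, w R d1 * w R d2 *
    (if Nat.Coprime (d1.lcm d2) Q then (X : ℝ) / (d1.lcm d2 * Q : ℕ) else 0), fun c hc => ?_⟩
  rw [maj_sum_eq, ← sum_sub_distrib]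
  have key : ∀ d1 ∈ lv R, ∀ d2 ∈ lv R,
      |((((Icc 1 X).filter (fun n => n ≡ c [MOD Q])).filter (fun n => d1.lcm d2 ∣ n)).card : ℝ)
        - (if Nat.Coprime (d1.lcm d2) Q then (X : ℝ) / (d1.lcm d2 * Q : ℕ) else 0)| ≤ 1 := by
    intro d1 h1 d2 h2
    have hL0 : 0 < d1.lcm d2 := Nat.lcm_pos (lv_pos h1) (lv_pos h2)
    generalize d1.lcm d2 = L at hL0 ⊢
    by_cases hco : Nat.Coprime L Q
    · rw [if_pos hco]
      obtain ⟨c', hc1, hc2⟩ := Nat.chineseRemainder hco 0 c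
      have h3 : ((Icc 1 X).filter (fun n => n ≡ c [MOD Q])).filter (fun n => L ∣ n)
          = (Icc 1 X).filter (fun n => n ≡ c' [MOD (L * Q)]) := by
        rw [filter_filter]
        apply filter_congr
        intro n _
        rw [← Nat.modEq_and_modEq_iff_modEq_mul hco, ← Nat.modEq_zero_iff_dvd]
        constructor
        · rintro ⟨h, h'⟩; exact ⟨h'.trans hc1.symm, h.trans hc2.symm⟩
        · rintro ⟨h, h'⟩; exact ⟨h'.trans hc2, h.trans hc1⟩
      rw [h3]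
      exact count_Icc X (L * Q) c' (Nat.mul_pos hL0 hQ)
    · rw [if_neg hco]
      have h3 : ((Icc 1 X).filter (fun n => n ≡ c [MOD Q])).filter (fun n => L ∣ n) = ∅ := by
        rw [filter_filter]
        apply filter_false_of_mem
        rintro n _ ⟨h, h'⟩
        apply hco
        rw [Nat.coprime_iff_gcd_eq_one]
        by_contra hg
        obtain ⟨p, hp, hpd⟩ := Nat.exists_prime_and_dvd hg
        have p1 : p ∣ L := hpd.trans (Nat.gcd_dvd_left _ _)
        have p2 : p ∣ Q := hpd.trans (Nat.gcd_dvd_right _ _)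
        have p3 : p ∣ n := p1.trans h'
        have p4 : n ≡ c [MOD p] := h.of_dvd p2
        have p5 : p ∣ c := (Nat.modEq_zero_iff_dvd).1 (p4.symm.trans ((Nat.modEq_zero_iff_dvd).2 p3))
        have p6 : p ∣ Nat.gcd c Q := Nat.dvd_gcd p5 p2
        rw [hc] at p6
        exact hp.one_lt.ne' (Nat.dvd_one.1 p6)
      rw [h3]
      simp
  have hs := sum_abs_w_le hR
  calc |∑ d1 ∈ lv R, ((∑ d2 ∈ lv R, w R d1 * w R d2 *
        ((((Icc 1 X).filter (fun n => n ≡ c [MOD Q])).filter (fun n => d1.lcm d2 ∣ n)).card : ℝ))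
        - ∑ d2 ∈ lv R, w R d1 * w R d2 *
          (if Nat.Coprime (d1.lcm d2) Q then (X : ℝ) / (d1.lcm d2 * Q : ℕ) else 0))|
      ≤ ∑ d1 ∈ lv R, ∑ d2 ∈ lv R, |w R d1| * |w R d2| := by
        refine (abs_sum_le_sum_abs _ _).trans (sum_le_sum fun d1 h1 => ?_)
        rw [← sum_sub_distrib]
        refine (abs_sum_le_sum_abs _ _).trans (sum_le_sum fun d2 h2 => ?_)
        rw [← mul_sub, abs_mul, abs_mul]
        calc |w R d1| * |w R d2| * _ ≤ |w R d1| * |w R d2| * 1 := by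
              gcongr
              exact key d1 h1 d2 h2
          _ = _ := mul_one _
    _ = (∑ d ∈ lv R, |w R d|) ^ 2 := by rw [sq, sum_mul_sum]
    _ ≤ ((R : ℝ) ^ 2) ^ 2 := by gcongr
    _ = (R : ℝ) ^ 4 := by ring

theorem hq_le_bigJ (R : ℕ) : hq 1 R ≤ bigJ (ls R) R := by
  unfold hq bigJ
  have hsub : qset 1 R ⊆ lev (ls R) R := by
    intro a ha
    unfold qset at ha
    rw [mem_filter, mem_Icc] at ha
    rw [mem_lev]
    exact ⟨dvd_bigP ha.2.1 ha.1.2 ha.2.2, ha.1.2⟩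
  refine le_trans ?_ (sum_le_sum_of_subset_of_nonneg hsub (fun l hl _ => (terms_pos hl).le))
  apply sum_le_sum
  intro l hl
  have hlP := (mem_lev.1 (hsub hl)).1
  rw [selbergTerms_apply]
  have h1 : (1 : ℝ) ≤ ∏ p ∈ l.primeFactors, (1 - (ls R).nu p)⁻¹ := by
    have : ∀ p ∈ l.primeFactors, (1 : ℝ) ≤ (1 - (ls R).nu p)⁻¹ := by
      intro p hp
      have hpp := Nat.prime_of_mem_primeFactors hp
      have hpd := (Nat.dvd_of_mem_primeFactors hp).trans hlP
      have h2 := (ls R).nu_pos_of_prime p hpp hpd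
      have h3 := (ls R).nu_lt_one_of_prime p hpp hpd
      rw [one_le_inv₀ (by linarith)]
      linarith
    calc (1 : ℝ) = ∏ p ∈ l.primeFactors, (1 : ℝ) := by simp
      _ ≤ _ := prod_le_prod (fun _ _ => by norm_num) this
  have h2 : (ls R).nu l = 1 / (l : ℝ) := rfl
  rw [h2]
  calc 1 / (l : ℝ) = 1 / (l : ℝ) * 1 := by rw [mul_one]
    _ ≤ _ := by gcongr

theorem log_le_bigJ (R : ℕ) : Real.log (R + 1) ≤ 4 * bigJ (ls R) R := by
  have h1 := claim1 1 R (by norm_num)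
  have h2 := log_le_hsum R
  have h3 := hq_le_bigJ R
  have h4 := zsum_le R
  have h5 := sdiv_two_mul_le 1 (by norm_num)
  have h6 : sdiv 1 = 1 := by simp [sdiv]
  have hz0 : 0 ≤ zsum R := by unfold zsum; positivity
  have hh0 : 0 ≤ hq 1 R := by unfold hq; positivity
  have hs0 : 0 ≤ sdiv (2 * 1) := by unfold sdiv; positivity
  rw [h6] at h5
  calc Real.log (R + 1) ≤ zsum R * (sdiv (2 * 1) * hq 1 R) := h2.trans h1
    _ ≤ 2 * ((2 * 1) * hq 1 R) := by gcongr
    _ = 4 * hq 1 R := by ring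
    _ ≤ 4 * bigJ (ls R) R := by gcongr

/-- Total mass of the majorant. -/
theorem maj_total (R X : ℕ) (hR : 1 ≤ R) :
    ∑ n ∈ Icc 1 X, maj R n ≤ 4 * X / Real.log (R + 1) + (R : ℝ) ^ 4 := by
  have hJ : 0 < bigJ (ls R) R := bigJ_pos hR
  have hR' : (1 : ℝ) ≤ R := by exact_mod_cast hR
  have hlog : 0 < Real.log (R + 1) := Real.log_pos (by linarith)
  have hmain : ∑ d1 ∈ lv R, ∑ d2 ∈ lv R, w R d1 * w R d2 * (1 / (d1.lcm d2 : ℝ))
      = (bigJ (ls R) R)⁻¹ := by
    rw [← mainSum_eq (s := ls R) hR, mainSum_lambdaSquared_eq_sum_sum_mul]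
    have hsub : lv R ⊆ (ls R).prodPrimes.divisors := by
      intro d hd
      exact (mem_filter.1 hd).1
    have hz : ∀ d ∈ (ls R).prodPrimes.divisors, d ∉ lv R → wt (ls R) R d = 0 := by
      intro d hd hd2
      exact wt_eq_zero hd2 (Nat.dvd_of_mem_divisors hd)
    rw [← sum_subset hsub]
    · refine sum_congr rfl fun d1 h1 => ?_
      rw [← sum_subset hsub]
      · refine sum_congr rfl fun d2 h2 => ?_
        have e1 : ∀ d, (ls R).nu d = 1 / (d : ℝ) := fun d => rfl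
        rw [e1, e1, e1]
        have p1 : (0 : ℝ) < d1 := by exact_mod_cast lv_pos h1
        have p2 : (0 : ℝ) < d2 := by exact_mod_cast lv_pos h2
        have p3 : (0 : ℝ) < (d1.lcm d2 : ℕ) := by
          exact_mod_cast Nat.lcm_pos (lv_pos h1) (lv_pos h2)
        have p4 : (0 : ℝ) < (Nat.gcd d1 d2 : ℕ) := by
          exact_mod_cast Nat.gcd_pos_of_pos_left _ (lv_pos h1)
        have p5 : (Nat.gcd d1 d2 : ℝ) * (d1.lcm d2 : ℕ) = d1 * d2 := by
          exact_mod_cast Nat.gcd_mul_lcm d1 d2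
        unfold w
        field_simp
        linear_combination (-(wt (ls R) R d1 * wt (ls R) R d2)) * p5
      · intro d hd hd2
        rw [hz d hd hd2]
        ring
    · intro d hd hd2
      apply sum_eq_zero
      intro d2 _
      rw [hz d hd hd2]
      ring
  have hs := sum_abs_w_le hR
  have key : |∑ n ∈ Icc 1 X, maj R n - X * (bigJ (ls R) R)⁻¹| ≤ (R : ℝ) ^ 4 := by
    rw [maj_sum_eq, ← hmain, mul_sum, ← sum_sub_distrib]
    calc |∑ d1 ∈ lv R, ((∑ d2 ∈ lv R, w R d1 * w R d2 *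
          (((Icc 1 X).filter (fun n => d1.lcm d2 ∣ n)).card : ℝ))
          - (X : ℝ) * ∑ d2 ∈ lv R, w R d1 * w R d2 * (1 / (d1.lcm d2 : ℝ)))|
        ≤ ∑ d1 ∈ lv R, ∑ d2 ∈ lv R, |w R d1| * |w R d2| := by
          refine (abs_sum_le_sum_abs _ _).trans (sum_le_sum fun d1 h1 => ?_)
          rw [mul_sum, ← sum_sub_distrib]
          refine (abs_sum_le_sum_abs _ _).trans (sum_le_sum fun d2 h2 => ?_)
          have hL0 : 0 < d1.lcm d2 := Nat.lcm_pos (lv_pos h1) (lv_pos h2)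
          have hc := count_Icc X (d1.lcm d2) 0 hL0
          have e : (Icc 1 X).filter (fun n => d1.lcm d2 ∣ n)
              = (Icc 1 X).filter (fun n => n ≡ 0 [MOD (d1.lcm d2)]) := by
            apply filter_congr
            intro n _
            rw [Nat.modEq_zero_iff_dvd]
          rw [e]
          have e2 : w R d1 * w R d2 *
              (((Icc 1 X).filter (fun n => n ≡ 0 [MOD (d1.lcm d2)])).card : ℝ)
              - (X : ℝ) * (w R d1 * w R d2 * (1 / (d1.lcm d2 : ℝ)))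
              = (w R d1 * w R d2) *
                ((((Icc 1 X).filter (fun n => n ≡ 0 [MOD (d1.lcm d2)])).card : ℝ)
                  - (X : ℝ) / (d1.lcm d2 : ℕ)) := by ring
          rw [e2, abs_mul, abs_mul]
          calc |w R d1| * |w R d2| * _ ≤ |w R d1| * |w R d2| * 1 := by gcongr
            _ = _ := mul_one _
      _ = (∑ d ∈ lv R, |w R d|) ^ 2 := by rw [sq, sum_mul_sum]
      _ ≤ ((R : ℝ) ^ 2) ^ 2 := by gcongr
      _ = (R : ℝ) ^ 4 := by ring
  have h1 := (abs_le.1 key).2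
  have h2 := log_le_bigJ R
  have h3 : X * (bigJ (ls R) R)⁻¹ ≤ 4 * X / Real.log (R + 1) := by
    rw [← div_eq_mul_inv, div_le_div_iff₀ hJ hlog]
    have : (0 : ℝ) ≤ X := by positivity
    nlinarith
  linarith

end Pool.Agent.Lib.MP_629a14_nt
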