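import Pool.Agent.Lib.MP_629a14_nt.Sharp
import Pool.Agent.Lib.MP_629a14_nt.Decomp
import Pool.Agent.Lib.MP_629a14_nt.PhiTrunc
import Pool.Agent.Lib.MP_629a14_nt.Top

/-!
Transference: the distribution of the normalised Goldbach counts is determined up to `δ` by
Fourier information of size `c(δ)/(log N)^2`.
-/

set_option autoImplicit false

namespace Pool.Agent.Lib.MP_629a14_nt

open Finset
open Pool.Agent.Lib.MP_60b32f_nt (rep log_sq_le)

/-- normalised number of representations `n = a + b` -/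
noncomputable def rhoG (A B : Finset ℕ) (n : ℕ) : ℝ :=
  (repAB A B n : ℝ) * ((n.totient : ℝ) * (Real.log n) ^ 2) / (n : ℝ) ^ 2

theorem rhoG_nonneg (A B : Finset ℕ) (n : ℕ) : 0 ≤ rhoG A B n := by
  unfold rhoG
  positivity

theorem repAB_le_rep {A B : Finset ℕ} (hA : ∀ p ∈ A, p.Prime) (hB : ∀ p ∈ B, p.Prime) (n : ℕ) :
    repAB A B n ≤ rep n := reps_le_rep hA hB n

theorem rhoG_le {A B : Finset ℕ} (hA : ∀ p ∈ A, p.Prime) (hB : ∀ p ∈ B, p.Prime) {n : ℕ}
    (hn : 1 ≤ n) : rhoG A B n ≤ 18480 := by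
  unfold rhoG
  rcases hn.eq_or_lt with h | h
  · rw [← h]
    simp
  · have hnr : (1 : ℝ) < n := by exact_mod_cast h
    have hlog : 0 < Real.log n := Real.log_pos hnr
    have hphi : (0 : ℝ) < n.totient := by exact_mod_cast Nat.totient_pos.2 (by omega)
    have h1 := Sharp.rep_sharp n (by omega)
    have h2 : (repAB A B n : ℝ) ≤ rep n := by exact_mod_cast repAB_le_rep hA hB n
    have h3 := h2.trans h1
    rw [div_le_iff₀ (by positivity)]
    calc (repAB A B n : ℝ) * ((n.totient : ℝ) * (Real.log n) ^ 2)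
        ≤ (18480 * ((n : ℝ) / (n.totient : ℝ)) * n / (Real.log n) ^ 2) *
          ((n.totient : ℝ) * (Real.log n) ^ 2) := by gcongr
      _ = 18480 * (n : ℝ) ^ 2 := by
          field_simp

theorem jensen {N : ℕ} {w g : ℕ → ℝ} (hw : IsWt N w) {β : ℝ} (hβ : 0 < β)
    (h : ∑ n ∈ Icc 1 N, w n * g n ^ 2 ≤ β ^ 2) : ∑ n ∈ Icc 1 N, w n * g n ≤ β := by
  calc ∑ n ∈ Icc 1 N, w n * g n ≤ ∑ n ∈ Icc 1 N, (w n * (β / 2) + (w n * g n ^ 2) / (2 * β)) := by
        refine sum_le_sum fun n hn => ?_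
        have h1 : g n ≤ β / 2 + g n ^ 2 / (2 * β) := by
          have : 0 ≤ (g n - β) ^ 2 / (2 * β) := by positivity
          have e : (g n - β) ^ 2 / (2 * β) = β / 2 + g n ^ 2 / (2 * β) - g n := by
            field_simp
            ring
          linarith
        calc w n * g n ≤ w n * (β / 2 + g n ^ 2 / (2 * β)) :=
              mul_le_mul_of_nonneg_left h1 (hw.1 n hn)
          _ = _ := by ring
    _ = β / 2 + (∑ n ∈ Icc 1 N, w n * g n ^ 2) / (2 * β) := by
        rw [sum_add_distrib, ← sum_mul, hw.2, one_mul, ← sum_div]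
    _ ≤ β / 2 + β ^ 2 / (2 * β) := by gcongr
    _ = β := by
        field_simp
        ring

theorem rep_trunc {A B : Finset ℕ} (hA : ∀ p ∈ A, p.Prime) (hB : ∀ p ∈ B, p.Prime) {N Q n : ℕ}
    (hn : n ≤ N) : (repAB A B n : ℝ) ≤
      repAB (A.filter (fun p => Q < p ∧ p ≤ N)) (B.filter (fun p => Q < p ∧ p ≤ N)) n + 2 * Q := by
  classical
  have h : repAB A B n ≤
      repAB (A.filter (fun p => Q < p ∧ p ≤ N)) (B.filter (fun p => Q < p ∧ p ≤ N)) n +
        (Q + Q) := by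
    unfold repAB
    have hsub : (A ×ˢ B).filter (fun ab : ℕ × ℕ => ab.1 + ab.2 = n) ⊆
        (((A.filter (fun p => Q < p ∧ p ≤ N)) ×ˢ (B.filter (fun p => Q < p ∧ p ≤ N))).filter
          (fun ab : ℕ × ℕ => ab.1 + ab.2 = n)) ∪
        ((Icc 1 Q).image (fun a => (a, n - a)) ∪ (Icc 1 Q).image (fun b => (n - b, b))) := by
      rintro ⟨a, b⟩ hab
      rw [mem_filter, mem_product] at hab
      obtain ⟨⟨ha, hb⟩, hs⟩ := hab
      simp only at ha hb hs
      have ha1 := (hA a ha).pos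
      have hb1 := (hB b hb).pos
      rw [mem_union, mem_union, mem_image, mem_image]
      by_cases h1 : a ≤ Q
      · right; left
        exact ⟨a, mem_Icc.2 ⟨ha1, h1⟩, by rw [Prod.mk.injEq]; exact ⟨rfl, by omega⟩⟩
      · by_cases h2 : b ≤ Q
        · right; right
          exact ⟨b, mem_Icc.2 ⟨hb1, h2⟩, by rw [Prod.mk.injEq]; exact ⟨by omega, rfl⟩⟩
        · left
          rw [mem_filter, mem_product, mem_filter, mem_filter]
          exact ⟨⟨⟨ha, by omega, by omega⟩, ⟨hb, by omega, by omega⟩⟩, hs⟩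
    refine (card_le_card hsub).trans ((card_union_le _ _).trans ?_)
    refine Nat.add_le_add_left ((card_union_le _ _).trans ?_) _
    have e1 : ((Icc 1 Q).image (fun a => (a, n - a))).card ≤ Q := by
      refine card_image_le.trans ?_
      rw [Nat.card_Icc]
      omega
    have e2 : ((Icc 1 Q).image (fun b => (n - b, b))).card ≤ Q := by
      refine card_image_le.trans ?_
      rw [Nat.card_Icc]
      omega
    omega
  have h' : (repAB A B n : ℝ) ≤
      ((repAB (A.filter (fun p => Q < p ∧ p ≤ N)) (B.filter (fun p => Q < p ∧ p ≤ N)) n +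
        (Q + Q) : ℕ) : ℝ) := by exact_mod_cast h
  push_cast at h'
  linarith

theorem rep_mono' {A B A' B' : Finset ℕ} (hA : A' ⊆ A) (hB : B' ⊆ B) (n : ℕ) :
    repAB A' B' n ≤ repAB A B n := by
  unfold repAB
  exact card_le_card (filter_subset_filter _ (product_subset_product hA hB))

/-- mass of small integers -/
theorem small_mass {N : ℕ} (hN : 0 < N) {w' : ℕ → ℝ} {D0 κ : ℝ} (hD0 : 0 ≤ D0)
    (hκ : 0 ≤ κ) (hd : ∀ n ∈ Icc 1 N, w' n ≤ D0 / N) :
    ∑ n ∈ (Icc 1 N).filter (fun n : ℕ => (n : ℝ) < κ * N), w' n ≤ D0 * κ := by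
  classical
  have hN0 : (0 : ℝ) < N := by exact_mod_cast hN
  have h1 : (((Icc 1 N).filter (fun n : ℕ => (n : ℝ) < κ * N)).card : ℝ) ≤ κ * N := by
    have h2 : (Icc 1 N).filter (fun n : ℕ => (n : ℝ) < κ * N) ⊆ Icc 1 ⌊κ * N⌋₊ := by
      intro n hn
      rw [mem_filter, mem_Icc] at hn
      rw [mem_Icc]
      exact ⟨hn.1.1, Nat.le_floor hn.2.le⟩
    have h3 := card_le_card h2
    rw [Nat.card_Icc, Nat.add_sub_cancel] at h3
    calc (((Icc 1 N).filter (fun n : ℕ => (n : ℝ) < κ * N)).card : ℝ) ≤ (⌊κ * N⌋₊ : ℝ) := by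
          exact_mod_cast h3
      _ ≤ κ * N := Nat.floor_le (by positivity)
  calc ∑ n ∈ (Icc 1 N).filter (fun n : ℕ => (n : ℝ) < κ * N), w' n
      ≤ ∑ n ∈ (Icc 1 N).filter (fun n : ℕ => (n : ℝ) < κ * N), D0 / N :=
        sum_le_sum fun n hn => hd n (mem_filter.1 hn).1
    _ = (((Icc 1 N).filter (fun n : ℕ => (n : ℝ) < κ * N)).card : ℝ) * (D0 / N) := by
        rw [sum_const, nsmul_eq_mul]
    _ ≤ (κ * N) * (D0 / N) := by gcongr
    _ = D0 * κ := by field_simp

/-- eventual inequalities -/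
theorem eventual_facts (θ K1 : ℝ) (Dn : ℕ) (hθ : 0 < θ) : ∃ N0 : ℕ, ∀ N : ℕ, N0 ≤ N →
    3 ≤ N ∧ Dn ≤ N ∧ (∀ S : Finset ℕ, (∀ p ∈ S, p.Prime ∧ p ≤ N) →
      (S.card : ℝ) ≤ 2 * (N / Real.log N)) ∧
    ((Real.log N) ^ 2 / N) * (2 * (N : ℝ) ^ (1 / 4 : ℝ)) ≤ θ ∧ K1 ≤ Real.log N := by
  have hpi := Chebyshev.eventually_primeCounting_le (ε := 1 / 2) (by norm_num)
  obtain ⟨x2, hx2⟩ := Filter.eventually_atTop.1
    ((tendsto_natCast_atTop_atTop (R := ℝ)).eventually hpi)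
  obtain ⟨x3, hx3⟩ := Filter.eventually_atTop.1
    ((Real.tendsto_log_atTop.comp (tendsto_natCast_atTop_atTop (R := ℝ))).eventually
      (Filter.eventually_ge_atTop K1))
  obtain ⟨x4, hx4⟩ := Filter.eventually_atTop.1
    (((tendsto_rpow_atTop (show (0 : ℝ) < 1 / 4 by norm_num)).comp
      (tendsto_natCast_atTop_atTop (R := ℝ))).eventually (Filter.eventually_ge_atTop (32 / θ)))
  refine ⟨max 3 (max Dn (max x2 (max x3 x4))), fun N hN => ?_⟩
  simp only [max_le_iff] at hN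
  obtain ⟨g1, g2, g3, g4, g5⟩ := hN
  have f2 := hx2 N g3
  have f3 := hx3 N g4
  have f4 := hx4 N g5
  simp only [Function.comp] at f3 f4
  have hNr : (3 : ℝ) ≤ N := by exact_mod_cast g1
  have hN0 : (0 : ℝ) < N := by linarith
  have hL : 0 < Real.log N := Real.log_pos (by linarith)
  refine ⟨g1, g2, ?_, ?_, f3⟩
  · intro S hS
    rw [Nat.floor_natCast] at f2
    have h1 : S.card ≤ Nat.primeCounting N := by
      rw [← Nat.primesLE_card_eq_primeCounting]
      apply card_le_card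
      intro p hp
      rw [Nat.mem_primesLE]
      exact ⟨(hS p hp).2, (hS p hp).1⟩
    have h1' : (S.card : ℝ) ≤ Nat.primeCounting N := by exact_mod_cast h1
    refine (h1'.trans f2).trans ?_
    have h4 : Real.log 4 ≤ 3 / 2 := by
      have : Real.log 4 = 2 * Real.log 2 := by
        rw [show (4 : ℝ) = 2 ^ 2 by norm_num, Real.log_pow]
        norm_num
      have h5 := Real.log_two_lt_d9
      linarith
    rw [mul_div_assoc]
    have : 0 ≤ (N : ℝ) / Real.log N := by positivity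
    nlinarith
  · set y : ℝ := (N : ℝ) ^ (1 / 4 : ℝ) with hy
    have hy0 : 0 < y := Real.rpow_pos_of_pos hN0 _
    have hy4 : y ^ 4 = N := by
      rw [hy, ← Real.rpow_natCast, ← Real.rpow_mul hN0.le]
      norm_num
    have hsq : Real.sqrt N = y ^ 2 := by
      rw [← hy4, show y ^ 4 = (y ^ 2) ^ 2 by ring]
      exact Real.sqrt_sq (by positivity)
    have h1 := log_sq_le N (by linarith)
    rw [hsq] at h1
    have h2 : 32 / y ≤ θ := by
      rw [div_le_iff₀ hy0]
      rw [div_le_iff₀ hθ] at f4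
      linarith
    calc ((Real.log N) ^ 2 / N) * (2 * y) ≤ (16 * y ^ 2 / N) * (2 * y) := by gcongr
      _ = 32 / y := by
          rw [← hy4]
          field_simp
          norm_num
      _ ≤ θ := h2

open Classical in
/-- Main transference theorem. -/
theorem transfer (δ D0 : ℝ) (hδ : 0 < δ) (hδ1 : δ ≤ 1) (hD0 : 1 ≤ D0) :
    ∃ c0 : ℝ, 0 < c0 ∧ ∃ N0 : ℕ, ∀ N : ℕ, N0 ≤ N → ∀ A B : Finset ℕ,
      (∀ p ∈ A, p.Prime) → (∀ p ∈ B, p.Prime) → ∀ w w' : ℕ → ℝ, IsWt N w → IsWt N w' →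
      (∀ n ∈ Icc 1 N, w' n ≤ D0 / N) →
      (∀ t : ℝ, ‖∑ n ∈ Icc 1 N, ((w n - w' n : ℝ) : ℂ) * ee (t * n)‖ ≤ c0 / (Real.log N) ^ 2) →
      ∀ c : ℝ,
        ∑ n ∈ (Icc 1 N).filter (fun n => rhoG A B n ≤ c), w n ≤
          ∑ n ∈ (Icc 1 N).filter (fun n => rhoG A B n ≤ c + δ), w' n + δ ∧
        ∑ n ∈ (Icc 1 N).filter (fun n => rhoG A B n ≤ c), w' n ≤
          ∑ n ∈ (Icc 1 N).filter (fun n => rhoG A B n ≤ c + δ), w n + δ := by
  -- parameters
  set κ : ℝ := δ / (16 * D0) with hκ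
  have hκ0 : 0 < κ := by rw [hκ]; positivity
  have hκ1 : κ < 1 := by
    rw [hκ, div_lt_one (by positivity)]
    linarith
  have hκD : D0 * κ = δ / 16 := by
    rw [hκ]
    field_simp
  set a : ℝ := κ * δ / 2 with ha
  have ha0 : 0 < a := by rw [ha]; positivity
  set C0 : ℝ := 18480 with hC0
  have hC00 : 0 < C0 := by rw [hC0]; norm_num
  set θ : ℝ := a * δ / 8 with hθ
  have hθ0 : 0 < θ := by rw [hθ]; positivity
  set β : ℝ := θ / 3 with hβ
  have hβ0 : 0 < β := by rw [hβ]; positivity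
  obtain ⟨pG, hpG⟩ := exists_ramp_poly κ 1 (δ / 32) (by positivity)
  obtain ⟨j, hj⟩ := exists_pow_lt_of_lt_one
    (show 0 < β ^ 2 / (2 * (34 * (88 : ℝ) ^ 5 * D0)) by positivity)
    (show (1 / 2 : ℝ) < 1 by norm_num)
  have hj' : D0 * (34 * (88 : ℝ) ^ 5 * (1 / 2) ^ j) ≤ β ^ 2 / 2 := by
    rw [lt_div_iff₀ (by positivity)] at hj
    nlinarith
  set W1 : ℝ := (88 : ℝ) ^ 3 * 4 ^ j with hW1
  have hW10 : 0 < W1 := by rw [hW1]; positivity
  obtain ⟨Dn, hDn⟩ := exists_nat_ge (max 1 (6 * W1 * D0 / θ))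
  have hDn1 : (1 : ℝ) ≤ Dn := (le_max_left _ _).trans hDn
  have hDn0 : 0 < Dn := by
    have : (0 : ℝ) < Dn := by linarith
    exact_mod_cast this
  have hDn2 : W1 * (D0 / Dn) ≤ θ / 6 := by
    have h1 : 6 * W1 * D0 / θ ≤ Dn := (le_max_right _ _).trans hDn
    rw [div_le_iff₀ hθ0] at h1
    rw [← mul_div_assoc, div_le_div_iff₀ (by linarith) (by norm_num)]
    linarith
  set X : ℝ := W1 * Dn + C0 with hX
  obtain ⟨pF, hpF⟩ := exists_ramp_poly a X (δ / 32) (by positivity)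
  have hpG0 : 0 ≤ pn pG 1 := by unfold pn; positivity
  have hX0 : 0 ≤ X := by rw [hX]; positivity
  have hpF0 : 0 ≤ pn pF X := by
    unfold pn
    exact sum_nonneg fun k _ => by positivity
  set c0 : ℝ := min (min (δ / (16 * (pn pG 1 + 1))) (δ / (16 * (pn pF X + 1))))
    (min (β ^ 2 / 8) (θ / (12 * W1))) with hc0
  have hc00 : 0 < c0 := by
    rw [hc0]
    refine lt_min (lt_min (by positivity) (by positivity)) (lt_min (by positivity) (by positivity))
  have hcG : pn pG 1 * c0 ≤ δ / 16 := by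
    have h1 : c0 ≤ δ / (16 * (pn pG 1 + 1)) := (min_le_left _ _).trans (min_le_left _ _)
    rw [le_div_iff₀ (by positivity)] at h1
    nlinarith
  have hcF : pn pF X * c0 ≤ δ / 16 := by
    have h1 : c0 ≤ δ / (16 * (pn pF X + 1)) := (min_le_left _ _).trans (min_le_right _ _)
    rw [le_div_iff₀ (by positivity)] at h1
    nlinarith
  have hcβ : 4 * c0 ≤ β ^ 2 / 2 := by
    have h1 : c0 ≤ β ^ 2 / 8 := (min_le_right _ _).trans (min_le_left _ _)
    linarith
  have hcθ : W1 * (2 * c0) ≤ θ / 6 := by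
    have h1 : c0 ≤ θ / (12 * W1) := (min_le_right _ _).trans (min_le_right _ _)
    rw [le_div_iff₀ (by positivity)] at h1
    linarith
  set γ : ℝ := a / C0 with hγ
  have hγ0 : 0 < γ := by rw [hγ]; positivity
  set ell : ℝ := - Real.log κ with hell
  have hell0 : 0 < ell := by
    rw [hell]
    have := Real.log_neg hκ0 hκ1
    linarith
  obtain ⟨N0, hN0⟩ := eventual_facts (θ / 3) (ell * (2 * (1 + γ) / γ)) Dn (by positivity)
  refine ⟨c0, hc00, N0, fun N hN A B hA hB w w' hw hw' hd hu c => ?_⟩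
  obtain ⟨f1, f2, f3, f4, f5⟩ := hN0 N hN
  have hNr : (3 : ℝ) ≤ N := by exact_mod_cast f1
  have hNpos : (0 : ℝ) < N := by linarith
  have hNn : 0 < N := by omega
  obtain ⟨L, hLdef⟩ : ∃ L : ℝ, L = Real.log N := ⟨_, rfl⟩
  rw [← hLdef] at f4 f5 hu
  have hL1 : 1 ≤ L := by
    rw [hLdef]
    have h1 : Real.exp 1 ≤ N := by
      have := Real.exp_one_lt_d9
      linarith
    calc (1 : ℝ) = Real.log (Real.exp 1) := (Real.log_exp 1).symm
      _ ≤ Real.log N := Real.log_le_log (Real.exp_pos 1) h1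
  have hL0 : 0 < L := by linarith
  have hη0 : 0 ≤ c0 / L ^ 2 := by positivity
  have hη1 : c0 / L ^ 2 ≤ c0 := div_le_self hc00.le (one_le_pow₀ hL1)
  -- the comparison of `L` and `log n`
  have hlogs : ∀ n ∈ Icc 1 N, κ * N ≤ n → L ^ 2 ≤ (1 + γ) * (Real.log n) ^ 2 := by
    intro n hn hkn
    have hn1 := (mem_Icc.1 hn).1
    have hnr : (0 : ℝ) < n := by exact_mod_cast hn1
    have h1 : L - ell ≤ Real.log n := by
      calc L - ell = Real.log (κ * N) := by
            rw [Real.log_mul hκ0.ne' hNpos.ne', hLdef, hell]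
            ring
        _ ≤ Real.log n := Real.log_le_log (by positivity) hkn
    have h2 : ell ≤ (γ / (2 * (1 + γ))) * L := by
      have h3 : ell * (2 * (1 + γ) / γ) * (γ / (2 * (1 + γ))) = ell := by
        field_simp
      calc ell = ell * (2 * (1 + γ) / γ) * (γ / (2 * (1 + γ))) := h3.symm
        _ ≤ L * (γ / (2 * (1 + γ))) := by gcongr
        _ = _ := mul_comm _ _
    set e1 : ℝ := γ / (2 * (1 + γ)) with he1
    have he10 : 0 < e1 := by rw [he1]; positivity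
    have he11 : e1 ≤ 1 / 2 := by
      rw [he1, div_le_div_iff₀ (by positivity) (by norm_num)]
      linarith
    have h3 : (1 - e1) * L ≤ Real.log n := by linarith
    have h4 : 0 ≤ (1 - e1) * L := mul_nonneg (by linarith) hL0.le
    have h5 : ((1 - e1) * L) ^ 2 ≤ (Real.log n) ^ 2 := pow_le_pow_left₀ h4 h3 2
    have h6 : 1 ≤ (1 + γ) * (1 - e1) ^ 2 := by
      have h7 : (1 + γ) * (1 - 2 * e1) = 1 := by
        rw [he1]
        field_simp
        ring
      nlinarith [sq_nonneg e1]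
    calc L ^ 2 = 1 * L ^ 2 := by ring
      _ ≤ ((1 + γ) * (1 - e1) ^ 2) * L ^ 2 := by gcongr
      _ = (1 + γ) * ((1 - e1) * L) ^ 2 := by ring
      _ ≤ (1 + γ) * (Real.log n) ^ 2 := by gcongr
  -- small masses
  have hsw' : ∑ n ∈ (Icc 1 N).filter (fun n : ℕ => (n : ℝ) < κ * N), w' n ≤ δ / 4 := by
    have h1 := small_mass hNn (by linarith) hκ0.le hd
    rw [hκD] at h1
    linarith
  have hlin := wi_lin N hNn
  have hsw : ∑ n ∈ (Icc 1 N).filter (fun n : ℕ => (n : ℝ) < κ * N), w n ≤ δ / 4 := by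
    have hcmp := mean_compare hw hw' hu (x := fun n => (n : ℝ) / N) (x1 := fun n => (n : ℝ) / N)
      (e := fun _ => 0) (θ := 0) hκ0 hpG hlin (fun n _ => by simp) (by simp) (by simp)
    have h1 : ∑ n ∈ (Icc 1 N).filter (fun n : ℕ => (n : ℝ) < κ * N), w n ≤
        ∑ n ∈ Icc 1 N, w n * ramp κ ((n : ℝ) / N) := by
      rw [sum_filter]
      refine sum_le_sum fun n hn => ?_
      have hwn := hw.1 n hn
      split_ifs with h
      · have h2 : (n : ℝ) / N ≤ κ := by
          rw [div_le_iff₀ hNpos]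
          exact h.le
        rw [ramp_eq_one hκ0 h2, mul_one]
      · exact mul_nonneg hwn (ramp_nonneg _ _)
    have h2 : ∑ n ∈ Icc 1 N, w' n * ramp κ ((n : ℝ) / N) ≤
        ∑ n ∈ (Icc 1 N).filter (fun n : ℕ => (n : ℝ) < (2 * κ) * N), w' n := by
      rw [sum_filter]
      refine sum_le_sum fun n hn => ?_
      have hwn := hw'.1 n hn
      split_ifs with h
      · have := ramp_le_one κ ((n : ℝ) / N)
        nlinarith
      · rw [ramp_eq_zero hκ0, mul_zero]
        rw [le_div_iff₀ hNpos]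
        exact not_lt.1 h
    have h3 := small_mass hNn (κ := 2 * κ) (by linarith) (by positivity) hd
    have h4 := (abs_le.1 hcmp).2
    have h5 : pn pG 1 * (c0 / L ^ 2) ≤ δ / 16 :=
      (mul_le_mul_of_nonneg_left hη1 hpG0).trans hcG
    have h6 : D0 * (2 * κ) = δ / 8 := by
      calc D0 * (2 * κ) = 2 * (D0 * κ) := by ring
        _ = δ / 8 := by rw [hκD]; ring
    rw [h6] at h3
    rw [zero_div, mul_zero, zero_add] at h4
    linarith
  -- trivial ranges of c
  by_cases hcneg : c < 0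
  · have hemp : (Icc 1 N).filter (fun n => rhoG A B n ≤ c) = ∅ := by
      apply filter_false_of_mem
      intro n _ h
      have := rhoG_nonneg A B n
      linarith
    simp only [hemp, sum_empty]
    have n1 : 0 ≤ ∑ n ∈ (Icc 1 N).filter (fun n => rhoG A B n ≤ c + δ), w' n :=
      sum_nonneg fun n hn => hw'.1 n (mem_filter.1 hn).1
    have n2 : 0 ≤ ∑ n ∈ (Icc 1 N).filter (fun n => rhoG A B n ≤ c + δ), w n :=
      sum_nonneg fun n hn => hw.1 n (mem_filter.1 hn).1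
    exact ⟨by linarith, by linarith⟩
  push Not at hcneg
  by_cases hcbig : C0 < c
  · have hall : (Icc 1 N).filter (fun n => rhoG A B n ≤ c + δ) = Icc 1 N := by
      apply filter_true_of_mem
      intro n hn
      have := rhoG_le hA hB (mem_Icc.1 hn).1
      linarith
    rw [hall, hw.2, hw'.2]
    have n1 : ∑ n ∈ (Icc 1 N).filter (fun n => rhoG A B n ≤ c), w n ≤ 1 := by
      rw [← hw.2]
      exact sum_le_sum_of_subset_of_nonneg (filter_subset _ _) (fun n hn _ => hw.1 n hn)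
    have n2 : ∑ n ∈ (Icc 1 N).filter (fun n => rhoG A B n ≤ c), w' n ≤ 1 := by
      rw [← hw'.2]
      exact sum_le_sum_of_subset_of_nonneg (filter_subset _ _) (fun n hn _ => hw'.1 n hn)
    exact ⟨by linarith, by linarith⟩
  push Not at hcbig
  -- truncated sets
  obtain ⟨Q, hQ⟩ : ∃ Q : ℕ, Q = ⌊(N : ℝ) ^ (1 / 4 : ℝ)⌋₊ := ⟨_, rfl⟩
  have hQle : (Q : ℝ) ≤ (N : ℝ) ^ (1 / 4 : ℝ) := by
    rw [hQ]
    exact Nat.floor_le (Real.rpow_nonneg hNpos.le _)
  set A' := A.filter (fun p => Q < p ∧ p ≤ N) with hA'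
  set B' := B.filter (fun p => Q < p ∧ p ≤ N) with hB'
  have hA'p : ∀ p ∈ A', p.Prime ∧ Q < p ∧ p ≤ N := by
    intro p hp
    rw [hA', mem_filter] at hp
    exact ⟨hA p hp.1, hp.2.1, hp.2.2⟩
  have hB'p : ∀ p ∈ B', p.Prime ∧ Q < p ∧ p ≤ N := by
    intro p hp
    rw [hB', mem_filter] at hp
    exact ⟨hB p hp.1, hp.2.1, hp.2.2⟩
  have hAc := f3 A' (fun p hp => ⟨(hA'p p hp).1, (hA'p p hp).2.2⟩)
  have hBc := f3 B' (fun p hp => ⟨(hB'p p hp).1, (hB'p p hp).2.2⟩)
  obtain ⟨s1, hs1, hs2, hs3⟩ := decomp f1 A' B' (fun p hp => (hA'p p hp).2.2)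
    (fun p hp => (hB'p p hp).2.2) hAc hBc (k0 := 88) (by norm_num)
    (TT_hyp f1 hQ A' hA'p hAc) (TT_hyp f1 hQ B' hB'p hBc) j
  rw [← hW1] at hs1
  rw [← hLdef] at hs2
  -- the functions
  obtain ⟨tt, htt⟩ : ∃ tt : ℕ → ℝ, tt = fun n : ℕ => (n.totient : ℝ) / n := ⟨_, rfl⟩
  have htt0 : ∀ n, 0 ≤ tt n := by
    intro n
    rw [htt]
    positivity
  have htt1 : ∀ n, tt n ≤ 1 := by
    intro n
    rw [htt]
    simp only
    rcases Nat.eq_zero_or_pos n with h | h
    · rw [h]; simp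
    · rw [div_le_one (by exact_mod_cast h)]
      exact_mod_cast Nat.totient_le n
  set x : ℕ → ℝ := fun n => sf N A B n * tt n - c * ((n : ℝ) / N) with hx
  set x1 : ℕ → ℝ := fun n => (s1 n).re * t1 Dn n - c * ((n : ℝ) / N) with hx1
  set g : ℕ → ℝ := fun n => ‖(sf N A' B' n : ℂ) - s1 n‖ with hg
  set e : ℕ → ℝ := fun n => g n + W1 * T2 Dn N n + θ / 3 with he
  have hg0 : ∀ n, 0 ≤ g n := fun n => norm_nonneg _
  have hwx1 : Wi N (fun n => (x1 n : ℂ)) X := by
    have h1 := (hs1.re.mul (wi_t1 N Dn)).sub (hlin.smul (c : ℂ))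
    refine (h1.congr fun n _ => ?_).mono ?_
    · simp only [hx1]
      push_cast
      ring
    · rw [Complex.norm_real, Real.norm_of_nonneg hcneg, hX, mul_one]
      linarith
  have hxe : ∀ n ∈ Icc 1 N, |x n - x1 n| ≤ e n := by
    intro n hn
    have hn2 := (mem_Icc.1 hn).2
    have h1 : sf N A' B' n ≤ sf N A B n := by
      unfold sf
      refine mul_le_mul_of_nonneg_left ?_ (by positivity)
      exact_mod_cast rep_mono' (filter_subset _ _) (filter_subset _ _) n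
    have h2 : sf N A B n ≤ sf N A' B' n + θ / 3 := by
      have h3 := rep_trunc hA hB (Q := Q) hn2
      rw [← hA', ← hB'] at h3
      unfold sf
      rw [← hLdef]
      calc L ^ 2 / N * (repAB A B n : ℝ) ≤ L ^ 2 / N * (repAB A' B' n + 2 * Q) := by gcongr
        _ ≤ L ^ 2 / N * (repAB A' B' n + 2 * (N : ℝ) ^ (1 / 4 : ℝ)) := by gcongr
        _ = L ^ 2 / N * (repAB A' B' n) + L ^ 2 / N * (2 * (N : ℝ) ^ (1 / 4 : ℝ)) := by ring
        _ ≤ _ := by linarith
    have h4 : |sf N A' B' n - (s1 n).re| ≤ g n := by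
      have h5 : sf N A' B' n - (s1 n).re = ((sf N A' B' n : ℂ) - s1 n).re := by
        rw [Complex.sub_re, Complex.ofReal_re]
      rw [h5]
      exact Complex.abs_re_le_norm _
    have h6 : |(s1 n).re| ≤ W1 := (Complex.abs_re_le_norm _).trans (hs1.norm_le hn)
    have h7 : |tt n - t1 Dn n| ≤ T2 Dn N n := by
      rw [htt]
      exact phi_sub_t1 f2 hn
    have e1 : x n - x1 n = (sf N A B n - sf N A' B' n) * tt n +
        (sf N A' B' n - (s1 n).re) * tt n + (s1 n).re * (tt n - t1 Dn n) := by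
      simp only [hx, hx1]
      ring
    rw [e1]
    have b1 : |(sf N A B n - sf N A' B' n) * tt n| ≤ θ / 3 := by
      rw [abs_mul, abs_of_nonneg (htt0 n), abs_of_nonneg (by linarith)]
      have := htt1 n
      have h8 : 0 ≤ sf N A B n - sf N A' B' n := by linarith
      calc (sf N A B n - sf N A' B' n) * tt n ≤ (sf N A B n - sf N A' B' n) * 1 := by
            gcongr
        _ ≤ θ / 3 := by linarith
    have b2 : |(sf N A' B' n - (s1 n).re) * tt n| ≤ g n := by
      rw [abs_mul, abs_of_nonneg (htt0 n)]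
      calc |sf N A' B' n - (s1 n).re| * tt n ≤ g n * 1 := by
            have := htt1 n
            have := htt0 n
            gcongr
        _ = g n := mul_one _
    have b3 : |(s1 n).re * (tt n - t1 Dn n)| ≤ W1 * T2 Dn N n := by
      rw [abs_mul]
      gcongr
    calc |(sf N A B n - sf N A' B' n) * tt n +
        (sf N A' B' n - (s1 n).re) * tt n + (s1 n).re * (tt n - t1 Dn n)|
        ≤ |(sf N A B n - sf N A' B' n) * tt n| + |(sf N A' B' n - (s1 n).re) * tt n| +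
          |(s1 n).re * (tt n - t1 Dn n)| := abs_add_three _ _ _
      _ ≤ θ / 3 + g n + W1 * T2 Dn N n := by linarith
      _ = e n := by simp only [he]; ring
  -- second moments of g
  have hgw' : ∑ n ∈ Icc 1 N, w' n * g n ^ 2 ≤ β ^ 2 / 2 := by
    calc ∑ n ∈ Icc 1 N, w' n * g n ^ 2 ≤ ∑ n ∈ Icc 1 N, (D0 / N) * g n ^ 2 :=
          sum_le_sum fun n hn => mul_le_mul_of_nonneg_right (hd n hn) (by positivity)
      _ = (D0 / N) * ∑ n ∈ Icc 1 N, g n ^ 2 := by rw [mul_sum]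
      _ ≤ (D0 / N) * (N * (34 * (88 : ℝ) ^ 5 * (1 / 2) ^ j)) := by
          have : 0 ≤ D0 / N := by positivity
          exact mul_le_mul_of_nonneg_left hs3 this
      _ = D0 * (34 * (88 : ℝ) ^ 5 * (1 / 2) ^ j) := by field_simp
      _ ≤ β ^ 2 / 2 := hj'
  have hgwi : Wi N (fun n => ((g n ^ 2 : ℝ) : ℂ)) ((2 * L) * (2 * L)) := by
    refine (hs2.mul hs2.conj).congr fun n _ => ?_
    simp only [hg]
    rw [Complex.mul_conj']
    push_cast
    rfl
  have hgw : ∑ n ∈ Icc 1 N, w n * g n ^ 2 ≤ β ^ 2 := by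
    have h1 := hgwi.apply_real hu
    have h2 : ∑ n ∈ Icc 1 N, (w n - w' n) * g n ^ 2 =
        ∑ n ∈ Icc 1 N, w n * g n ^ 2 - ∑ n ∈ Icc 1 N, w' n * g n ^ 2 := by
      rw [← sum_sub_distrib]
      exact sum_congr rfl fun n _ => by ring
    rw [h2] at h1
    have h3 := (abs_le.1 h1).2
    have h4 : (2 * L) * (2 * L) * (c0 / L ^ 2) = 4 * c0 := by
      field_simp
      ring
    rw [h4] at h3
    linarith
  have hgw1 := jensen hw hβ0 hgw
  have hgw1' := jensen hw' hβ0 (hgw'.trans (by nlinarith [sq_nonneg β]))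
  -- first moments of T2
  have hTw' : ∑ n ∈ Icc 1 N, w' n * T2 Dn N n ≤ D0 / Dn := by
    calc ∑ n ∈ Icc 1 N, w' n * T2 Dn N n ≤ ∑ n ∈ Icc 1 N, (D0 / N) * T2 Dn N n :=
          sum_le_sum fun n hn => mul_le_mul_of_nonneg_right (hd n hn) (T2_nonneg _ _ _)
      _ = (D0 / N) * ∑ n ∈ Icc 1 N, T2 Dn N n := by rw [mul_sum]
      _ ≤ (D0 / N) * (N / Dn) := by
          have : 0 ≤ D0 / N := by positivity
          exact mul_le_mul_of_nonneg_left (sum_T2 hDn0 f2) this
      _ = D0 / Dn := by field_simp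
  have hTw : ∑ n ∈ Icc 1 N, w n * T2 Dn N n ≤ D0 / Dn + 2 * c0 := by
    have h1 := (wi_T2 N Dn).apply_real hu
    rw [← hLdef] at h1
    have h2 : ∑ n ∈ Icc 1 N, (w n - w' n) * T2 Dn N n =
        ∑ n ∈ Icc 1 N, w n * T2 Dn N n - ∑ n ∈ Icc 1 N, w' n * T2 Dn N n := by
      rw [← sum_sub_distrib]
      exact sum_congr rfl fun n _ => by ring
    rw [h2] at h1
    have h3 := (abs_le.1 h1).2
    have h4 : (1 + L) * (c0 / L ^ 2) ≤ 2 * c0 := by
      have h5 : 1 + L ≤ 2 * L ^ 2 := by nlinarith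
      calc (1 + L) * (c0 / L ^ 2) ≤ (2 * L ^ 2) * (c0 / L ^ 2) := by gcongr
        _ = 2 * c0 := by field_simp
    linarith
  have hew : ∑ n ∈ Icc 1 N, w n * e n ≤ θ := by
    have h1 : ∑ n ∈ Icc 1 N, w n * e n = ∑ n ∈ Icc 1 N, w n * g n +
        W1 * ∑ n ∈ Icc 1 N, w n * T2 Dn N n + (θ / 3) * ∑ n ∈ Icc 1 N, w n := by
      rw [mul_sum, mul_sum, ← sum_add_distrib, ← sum_add_distrib]
      refine sum_congr rfl fun n _ => ?_
      simp only [he]
      ring
    rw [h1, hw.2, mul_one]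
    have h2 : W1 * ∑ n ∈ Icc 1 N, w n * T2 Dn N n ≤ θ / 3 := by
      calc W1 * ∑ n ∈ Icc 1 N, w n * T2 Dn N n ≤ W1 * (D0 / Dn + 2 * c0) := by gcongr
        _ = W1 * (D0 / Dn) + W1 * (2 * c0) := by ring
        _ ≤ θ / 3 := by linarith
    rw [hβ] at hgw1
    linarith
  have hew' : ∑ n ∈ Icc 1 N, w' n * e n ≤ θ := by
    have h1 : ∑ n ∈ Icc 1 N, w' n * e n = ∑ n ∈ Icc 1 N, w' n * g n +
        W1 * ∑ n ∈ Icc 1 N, w' n * T2 Dn N n + (θ / 3) * ∑ n ∈ Icc 1 N, w' n := by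
      rw [mul_sum, mul_sum, ← sum_add_distrib, ← sum_add_distrib]
      refine sum_congr rfl fun n _ => ?_
      simp only [he]
      ring
    rw [h1, hw'.2, mul_one]
    have h2 : W1 * ∑ n ∈ Icc 1 N, w' n * T2 Dn N n ≤ θ / 6 := by
      calc W1 * ∑ n ∈ Icc 1 N, w' n * T2 Dn N n ≤ W1 * (D0 / Dn) := by gcongr
        _ ≤ θ / 6 := hDn2
    rw [hβ] at hgw1'
    linarith
  have hcmp := mean_compare hw hw' hu ha0 hpF hwx1 hxe hew hew'
  have hθa : 2 * (θ / a) = δ / 4 := by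
    rw [hθ]
    field_simp
    norm_num
  have hcF' : pn pF X * (c0 / L ^ 2) ≤ δ / 16 :=
    (mul_le_mul_of_nonneg_left hη1 hpF0).trans hcF
  have hcmp2 : |∑ n ∈ Icc 1 N, w n * ramp a (x n) - ∑ n ∈ Icc 1 N, w' n * ramp a (x n)| ≤
      δ / 2 := by
    refine hcmp.trans ?_
    rw [hθa]
    linarith
  -- pointwise implications
  have hkey : ∀ n ∈ Icc 1 N, (repAB A B n : ℝ) * tt n * (Real.log n) ^ 2 =
      rhoG A B n * n := by
    intro n hn
    have hn0 : (n : ℝ) ≠ 0 := by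
      have := (mem_Icc.1 hn).1
      exact_mod_cast (by omega : n ≠ 0)
    rw [htt]
    unfold rhoG
    field_simp
  have hp1 : ∀ n ∈ Icc 1 N, κ * N ≤ n → rhoG A B n ≤ c → x n ≤ a := by
    intro n hn hkn hr
    have hn1 := (mem_Icc.1 hn).1
    have hn2 := (mem_Icc.1 hn).2
    have hnr : (0 : ℝ) < n := by exact_mod_cast hn1
    have hnN : (n : ℝ) ≤ N := by exact_mod_cast hn2
    have h1 := hkey n hn
    have h2 := hlogs n hn hkn
    have h3 : (repAB A B n : ℝ) * tt n * L ^ 2 ≤ (1 + γ) * (c * n) := by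
      have h4 : 0 ≤ (repAB A B n : ℝ) * tt n := mul_nonneg (by positivity) (htt0 n)
      calc (repAB A B n : ℝ) * tt n * L ^ 2 ≤
            (repAB A B n : ℝ) * tt n * ((1 + γ) * (Real.log n) ^ 2) := by gcongr
        _ = (1 + γ) * ((repAB A B n : ℝ) * tt n * (Real.log n) ^ 2) := by ring
        _ = (1 + γ) * (rhoG A B n * n) := by rw [h1]
        _ ≤ (1 + γ) * (c * n) := by gcongr
    have h4 : sf N A B n * tt n = ((repAB A B n : ℝ) * tt n * L ^ 2) / N := by
      unfold sf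
      rw [← hLdef]
      ring
    simp only [hx]
    rw [h4]
    have h5 : ((repAB A B n : ℝ) * tt n * L ^ 2) / N ≤ ((1 + γ) * (c * n)) / N := by gcongr
    have h6 : ((1 + γ) * (c * n)) / N = c * ((n : ℝ) / N) + γ * c * ((n : ℝ) / N) := by ring
    have h7 : γ * c * ((n : ℝ) / N) ≤ a := by
      have h8 : (n : ℝ) / N ≤ 1 := by rw [div_le_one hNpos]; exact hnN
      calc γ * c * ((n : ℝ) / N) ≤ γ * C0 * 1 := by gcongr
        _ = a := by
            rw [hγ]
            field_simp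
    linarith
  have hp2 : ∀ n ∈ Icc 1 N, κ * N ≤ n → x n < 2 * a → rhoG A B n ≤ c + δ := by
    intro n hn hkn hlt
    have hn1 := (mem_Icc.1 hn).1
    have hn2 := (mem_Icc.1 hn).2
    have hnr : (0 : ℝ) < n := by exact_mod_cast hn1
    have hnN : (n : ℝ) ≤ N := by exact_mod_cast hn2
    have h1 := hkey n hn
    have hln : 0 ≤ Real.log n := Real.log_nonneg (by exact_mod_cast hn1)
    have hlL : Real.log n ≤ L := by
      rw [hLdef]
      exact Real.log_le_log hnr hnN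
    have h4 : sf N A B n * tt n = ((repAB A B n : ℝ) * tt n * L ^ 2) / N := by
      unfold sf
      rw [← hLdef]
      ring
    simp only [hx] at hlt
    rw [h4] at hlt
    have h5 : 0 ≤ (repAB A B n : ℝ) * tt n := mul_nonneg (by positivity) (htt0 n)
    have h6 : rhoG A B n * n ≤ (repAB A B n : ℝ) * tt n * L ^ 2 := by
      rw [← h1]
      gcongr
    have h7 : (repAB A B n : ℝ) * tt n * L ^ 2 < (c * ((n : ℝ) / N) + 2 * a) * N := by
      rw [← div_lt_iff₀ hNpos]
      linarith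
    have h8 : (c * ((n : ℝ) / N) + 2 * a) * N = c * n + 2 * a * N := by
      field_simp
    have h9 : 2 * a * N ≤ δ * n := by
      calc 2 * a * N = δ * (κ * N) := by rw [ha]; ring
        _ ≤ δ * n := by gcongr
    have h10 : rhoG A B n * n ≤ (c + δ) * n := by
      calc rhoG A B n * n ≤ c * n + 2 * a * N := by linarith
        _ ≤ c * n + δ * n := by linarith
        _ = (c + δ) * n := by ring
    exact le_of_mul_le_mul_right h10 hnr
  have hfin1 := levy_step hw hw' (ρ := rhoG A B) ha0 hp1 hp2 hsw hsw' hcmp2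
  have hfin2 := levy_step hw' hw (ρ := rhoG A B) (θ1 := δ / 2) ha0 hp1 hp2 hsw' hsw (by
    rw [abs_sub_comm]
    exact hcmp2)
  refine ⟨le_trans hfin1 (by linarith), le_trans hfin2 (by linarith)⟩

end Pool.Agent.Lib.MP_629a14_nt
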