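import Pool.Agent.Lib.MP_629a14_nt.Bessel

/-! Counting pairs with a prescribed sum modulo a good prime. -/

namespace Pool.Agent.Lib.MP_629a14_nt

open Finset

theorem pair_count_eq (A B : Finset ℕ) (q : ℕ) [NeZero q] (b : ZMod q) :
    (((A ×ˢ B).filter (fun y : ℕ × ℕ => ((y.1 + y.2 : ℕ) : ZMod q) = b)).card : ℝ)
      = ∑ a : ZMod q, cnt A q a * cnt B q (b - a) := by
  have h1 : (((A ×ˢ B).filter (fun y : ℕ × ℕ => ((y.1 + y.2 : ℕ) : ZMod q) = b)).card : ℝ)
      = ∑ p ∈ A, cnt B q (b - (p : ZMod q)) := by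
    rw [card_filter, sum_product]
    push_cast
    refine sum_congr rfl fun p _ => ?_
    unfold cnt
    rw [card_filter]
    push_cast
    refine sum_congr rfl fun r _ => ?_
    congr 1
    rw [eq_iff_iff]
    constructor
    · intro h; rw [← h]; ring
    · intro h; rw [h]; ring
  rw [h1, sum_mul_cnt A q (fun a => cnt B q (b - a))]
  refine sum_congr rfl fun a _ => ?_
  rw [mul_comm]

theorem cnt_zero_le {P : Finset ℕ} (hP : ∀ p ∈ P, p.Prime) {q : ℕ} (hq : q.Prime) :
    (P.card : ℝ) - 1 ≤ ((P.filter (fun p : ℕ => (p : ZMod q) ≠ 0)).card : ℝ) := by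
  have h1 : P.filter (fun p : ℕ => (p : ZMod q) = 0) ⊆ {q} := by
    intro p hp
    rw [mem_filter] at hp
    rw [mem_singleton]
    have h2 := (ZMod.natCast_eq_zero_iff p q).1 hp.2
    exact ((Nat.prime_dvd_prime_iff_eq hq (hP p hp.1)).1 h2).symm
  have h2 := card_le_card h1
  rw [card_singleton] at h2
  have h3 := card_filter_add_card_filter_not (s := P) (fun p : ℕ => (p : ZMod q) = 0)
  have h4 : (P.card : ℝ) = ((P.filter (fun p : ℕ => (p : ZMod q) = 0)).card : ℝ)
      + ((P.filter (fun p : ℕ => ¬ (p : ZMod q) = 0)).card : ℝ) := by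
    exact_mod_cast h3.symm
  have h5 : ((P.filter (fun p : ℕ => (p : ZMod q) = 0)).card : ℝ) ≤ 1 := by exact_mod_cast h2
  have h6 : ((P.filter (fun p : ℕ => (p : ZMod q) ≠ 0)).card : ℝ)
      = ((P.filter (fun p : ℕ => ¬ (p : ZMod q) = 0)).card : ℝ) := rfl
  linarith

theorem dev_le_mass {I : Finset ℕ} {nu : ℕ → ℝ} {L : ℝ} (h0 : ∀ n, 0 ≤ nu n) (hL : 0 ≤ L)
    (hw : WellDist I nu L) {P : Finset ℕ} (hPI : P ⊆ I) (hP1 : ∀ p ∈ P, 1 ≤ nu p)
    {q : ℕ} (hq : q.Prime) [NeZero q] (b : ZMod q) :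
    dev P q b ≤ (∑ n ∈ I, nu n) / ((q : ℝ) - 1) + 2 * L := by
  have hq1 : (1 : ℝ) < q := by exact_mod_cast hq.one_lt
  have hq0 : (0 : ℝ) < (q : ℝ) - 1 := by linarith
  by_cases hb : b = 0
  · rw [hb, dev_zero]
    have : 0 ≤ ∑ n ∈ I, nu n := sum_nonneg fun n _ => h0 n
    positivity
  · rw [dev_of_ne P q hb]
    have h1 := mu_nonneg P hq
    have h2 := class_mass h0 hw hq hb
    have h3 : cnt P q b ≤ ∑ n ∈ I.filter (fun n : ℕ => (n : ZMod q) = b), nu n := by
      unfold cnt
      calc ((P.filter (fun p : ℕ => (p : ZMod q) = b)).card : ℝ)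
          = ∑ p ∈ P.filter (fun p : ℕ => (p : ZMod q) = b), (1 : ℝ) := by simp
        _ ≤ ∑ p ∈ P.filter (fun p : ℕ => (p : ZMod q) = b), nu p :=
            sum_le_sum fun p hp => hP1 p (mem_filter.1 hp).1
        _ ≤ ∑ n ∈ I.filter (fun n : ℕ => (n : ZMod q) = b), nu n := by
            apply sum_le_sum_of_subset_of_nonneg
            · exact filter_subset_filter _ hPI
            · intro n _ _; exact h0 n
    linarith

theorem pair_arith {α β N L C1 m q x y dA dB D E T : ℝ} (hC1 : 1 ≤ C1)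
    (hNA : N ≤ C1 * α) (hNB : N ≤ C1 * β) (hN0 : 0 ≤ N) (hL : 0 ≤ L)
    (hLA : 128 * L ≤ α) (hLB : 128 * L ≤ β) (hA32 : 32 ≤ α) (hB32 : 32 ≤ β)
    (hqm : q = m + 1) (hm64 : 64 * C1 ≤ m) (mA0 : 0 ≤ x) (mB0 : 0 ≤ y)
    (h3 : q - 2 ≤ E) (h4' : -(α * β / (2 * m)) ≤ D)
    (hdB : dB ≤ N / m + 2 * L) (hdA : dA ≤ N / m + 2 * L)
    (cA : x * m ≤ α) (cB : y * m ≤ β) (cA' : α - 1 ≤ x * m) (cB' : β - 1 ≤ y * m)
    (hS : x * y * E - x * dB - y * dA + D ≤ T) : α * β / (4 * q) ≤ T := by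
  have hm0 : 0 < m := by linarith
  have hα0 : 0 < α := by linarith
  have hβ0 : 0 < β := by linarith
  have hq0 : 0 < q := by linarith
  have hxy : 0 ≤ x * y := mul_nonneg mA0 mB0
  have k1 : x * y * (q - 2) ≤ x * y * E := mul_le_mul_of_nonneg_left h3 hxy
  have k2 : x * dB ≤ x * (N / m + 2 * L) := mul_le_mul_of_nonneg_left hdB mA0
  have k3 : y * dA ≤ y * (N / m + 2 * L) := mul_le_mul_of_nonneg_left hdA mB0
  have k4 : x * y * (q - 2) - x * (N / m + 2 * L) - y * (N / m + 2 * L)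
      - α * β / (2 * m) ≤ T := by linarith
  have hαβ : 0 < α * β := mul_pos hα0 hβ0
  have k5 : x * (N / m + 2 * L) * m ≤ α * β / 32 := by
    have a1 : x * (N / m + 2 * L) * m = (x * m) * (N / m + 2 * L) := by ring
    have a2 : N / m ≤ β / 64 := by
      rw [div_le_div_iff₀ hm0 (by norm_num)]
      calc N * 64 ≤ (C1 * β) * 64 := by gcongr
        _ = β * (64 * C1) := by ring
        _ ≤ β * m := by gcongr
    have a3 : 2 * L ≤ β / 64 := by linarith
    have a4 : 0 ≤ N / m + 2 * L := by positivity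
    rw [a1]
    calc (x * m) * (N / m + 2 * L) ≤ α * (β / 64 + β / 64) := by gcongr
      _ = α * β / 32 := by ring
  have k6 : y * (N / m + 2 * L) * m ≤ α * β / 32 := by
    have a1 : y * (N / m + 2 * L) * m = (y * m) * (N / m + 2 * L) := by ring
    have a2 : N / m ≤ α / 64 := by
      rw [div_le_div_iff₀ hm0 (by norm_num)]
      calc N * 64 ≤ (C1 * α) * 64 := by gcongr
        _ = α * (64 * C1) := by ring
        _ ≤ α * m := by gcongr
    have a3 : 2 * L ≤ α / 64 := by linarith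
    have a4 : 0 ≤ N / m + 2 * L := by positivity
    rw [a1]
    calc (y * m) * (N / m + 2 * L) ≤ β * (α / 64 + α / 64) := by gcongr
      _ = α * β / 32 := by ring
  have k7 : α * β * (7 / 8) ≤ x * y * (q - 2) * m := by
    have a1 : x * y * (q - 2) * m = (x * m) * (y * m) * ((m - 1) / m) := by
      rw [hqm]
      field_simp
      ring
    have a2 : (63 : ℝ) / 64 ≤ (m - 1) / m := by
      rw [div_le_div_iff₀ (by norm_num) hm0]
      linarith
    have a3 : (31 : ℝ) / 32 * α ≤ x * m := by linarith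
    have a4 : (31 : ℝ) / 32 * β ≤ y * m := by linarith
    rw [a1]
    calc α * β * (7 / 8) ≤ (31 / 32 * α) * (31 / 32 * β) * (63 / 64) := by nlinarith
      _ ≤ (x * m) * (y * m) * ((m - 1) / m) := by gcongr
  have k8 : α * β / (2 * m) * m = α * β / 2 := by field_simp
  have k9 : α * β / 4 ≤ T * m := by
    have h := mul_le_mul_of_nonneg_right k4 hm0.le
    have e4 : (x * y * (q - 2) - x * (N / m + 2 * L) - y * (N / m + 2 * L)
      - α * β / (2 * m)) * m = x * y * (q - 2) * m - x * (N / m + 2 * L) * m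
        - y * (N / m + 2 * L) * m - α * β / (2 * m) * m := by ring
    rw [e4, k8] at h
    linarith
  have hT0 : 0 ≤ T := by
    by_contra hneg
    push Not at hneg
    have : T * m < 0 := mul_neg_of_neg_of_pos hneg hm0
    linarith
  rw [div_le_iff₀ (by positivity)]
  have : T * m ≤ T * q := mul_le_mul_of_nonneg_left (by linarith) hT0
  linarith

theorem pair_lower {I : Finset ℕ} {nu : ℕ → ℝ} {L : ℝ} (h0 : ∀ n, 0 ≤ nu n) (hL : 0 ≤ L)
    (hw : WellDist I nu L) {A B : Finset ℕ} (hAI : A ⊆ I) (hBI : B ⊆ I)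
    (hA1 : ∀ p ∈ A, 1 ≤ nu p) (hB1 : ∀ p ∈ B, 1 ≤ nu p)
    (hAp : ∀ p ∈ A, p.Prime) (hBp : ∀ p ∈ B, p.Prime) {q : ℕ} (hq : q.Prime)
    (hA : 2 * (((q : ℝ) - 1) * vari A q) ≤ (A.card : ℝ) ^ 2)
    (hB : 2 * (((q : ℝ) - 1) * vari B q) ≤ (B.card : ℝ) ^ 2)
    {C1 : ℝ} (hC1 : 1 ≤ C1) (hNA : ∑ n ∈ I, nu n ≤ C1 * A.card)
    (hNB : ∑ n ∈ I, nu n ≤ C1 * B.card) (hqC : 64 * C1 + 1 ≤ q)
    (hLA : 128 * L ≤ A.card) (hLB : 128 * L ≤ B.card)
    (hA32 : (32 : ℝ) ≤ A.card) (hB32 : (32 : ℝ) ≤ B.card) (b : ZMod q) :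
    (A.card : ℝ) * B.card / (4 * q) ≤
      (((A ×ˢ B).filter (fun y : ℕ × ℕ => ((y.1 + y.2 : ℕ) : ZMod q) = b)).card : ℝ) := by
  have : NeZero q := ⟨hq.ne_zero⟩
  set α : ℝ := (A.card : ℝ) with hα
  set β : ℝ := (B.card : ℝ) with hβ
  set N : ℝ := ∑ n ∈ I, nu n with hN
  have hN0 : 0 ≤ N := sum_nonneg fun n _ => h0 n
  have hq1 : (1 : ℝ) < q := by exact_mod_cast hq.one_lt
  set m : ℝ := (q : ℝ) - 1 with hm
  have hm0 : 0 < m := by linarith
  have hm64 : 64 * C1 ≤ m := by linarith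
  rw [pair_count_eq]
  set e : ZMod q → ℝ := fun a => if a = 0 then 0 else 1 with he
  have hg : ∀ (P : Finset ℕ) (a : ZMod q), mu P q * e a + dev P q a ≤ cnt P q a ∧
      0 ≤ mu P q * e a + dev P q a := by
    intro P a
    by_cases ha : a = 0
    · rw [ha, dev_zero]
      simp only [he, if_true, mul_zero, add_zero, le_refl, and_true]
      exact cnt_nonneg P q 0
    · rw [dev_of_ne P q ha]
      simp only [he, if_neg ha, mul_one]
      have := cnt_nonneg P q a
      constructor <;> linarith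
  have h1 : ∑ a : ZMod q, (mu A q * e a + dev A q a) * (mu B q * e (b - a) + dev B q (b - a))
      ≤ ∑ a : ZMod q, cnt A q a * cnt B q (b - a) := by
    apply sum_le_sum
    intro a _
    exact mul_le_mul (hg A a).1 (hg B (b - a)).1 (hg B (b - a)).2 (cnt_nonneg A q a)
  have hshift : ∀ F : ZMod q → ℝ, ∑ a : ZMod q, F (b - a) = ∑ a : ZMod q, F a := by
    intro F
    exact Fintype.sum_equiv (Equiv.subLeft b) _ _ (fun a => rfl)
  have h2 : ∑ a : ZMod q, (mu A q * e a + dev A q a) * (mu B q * e (b - a) + dev B q (b - a))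
      = mu A q * mu B q * (∑ a : ZMod q, e a * e (b - a)) - mu A q * dev B q b
        - mu B q * dev A q b + ∑ a : ZMod q, dev A q a * dev B q (b - a) := by
    have e1 : ∑ a : ZMod q, e a * dev B q (b - a) = - dev B q b := by
      have : ∀ a : ZMod q, e a * dev B q (b - a) = dev B q (b - a) -
          (if a = 0 then dev B q b else 0) := by
        intro a
        by_cases ha : a = 0
        · rw [ha]; simp [he]
        · simp [he, ha]
      rw [sum_congr rfl fun a _ => this a, sum_sub_distrib, hshift, sum_dev B hq, sum_ite_eq']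
      simp
    have e2 : ∑ a : ZMod q, dev A q a * e (b - a) = - dev A q b := by
      have : ∀ a : ZMod q, dev A q a * e (b - a) = dev A q a -
          (if a = b then dev A q b else 0) := by
        intro a
        by_cases ha : a = b
        · rw [ha]; simp [he]
        · have : b - a ≠ 0 := fun h => ha (sub_eq_zero.1 h).symm
          simp [he, ha, this]
      rw [sum_congr rfl fun a _ => this a, sum_sub_distrib, sum_dev A hq, sum_ite_eq']
      simp
    have e3 : ∀ a : ZMod q, (mu A q * e a + dev A q a) * (mu B q * e (b - a) + dev B q (b - a))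
        = mu A q * mu B q * (e a * e (b - a)) + mu A q * (e a * dev B q (b - a))
          + mu B q * (dev A q a * e (b - a)) + dev A q a * dev B q (b - a) := by
      intro a; ring
    rw [sum_congr rfl fun a _ => e3 a, sum_add_distrib, sum_add_distrib, sum_add_distrib,
      ← mul_sum, ← mul_sum, ← mul_sum, e1, e2]
    ring
  have h3 : (q : ℝ) - 2 ≤ ∑ a : ZMod q, e a * e (b - a) := by
    have : ∀ a : ZMod q, 1 - (if a = 0 then (1 : ℝ) else 0) - (if a = b then (1 : ℝ) else 0)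
        ≤ e a * e (b - a) := by
      intro a
      by_cases ha : a = 0
      · subst ha
        simp only [he, if_true, zero_mul]
        split_ifs <;> norm_num
      · by_cases hab : a = b
        · subst hab
          simp [he, ha]
        · have : b - a ≠ 0 := fun h => hab (sub_eq_zero.1 h).symm
          simp [he, ha, hab, this]
    refine le_trans ?_ (sum_le_sum fun a _ => this a)
    rw [sum_sub_distrib, sum_sub_distrib, sum_ite_eq', sum_ite_eq']
    simp only [sum_const, card_univ, ZMod.card, nsmul_eq_mul, mul_one, mem_univ, if_true]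
    linarith
  have h4 : |∑ a : ZMod q, dev A q a * dev B q (b - a)| ≤ α * β / (2 * m) := by
    have hcs : (∑ a : ZMod q, dev A q a * dev B q (b - a)) ^ 2 ≤ vari A q * vari B q := by
      refine (sum_mul_sq_le_sq_mul_sq _ _ _).trans ?_
      rw [hshift (fun a => dev B q a ^ 2), vari_eq A hq, vari_eq B hq]
    have hvA := vari_nonneg A hq
    have hvB := vari_nonneg B hq
    apply abs_le_of_sq_le_sq _ (by positivity)
    refine hcs.trans ?_
    rw [div_pow, le_div_iff₀ (by positivity)]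
    calc vari A q * vari B q * (2 * m) ^ 2 = (2 * (m * vari A q)) * (2 * (m * vari B q)) := by ring
      _ ≤ α ^ 2 * β ^ 2 := by
          apply mul_le_mul hA hB (by positivity) (by positivity)
      _ = (α * β) ^ 2 := by ring
  have hdB := dev_le_mass h0 hL hw hBI hB1 hq b
  have hdA := dev_le_mass h0 hL hw hAI hA1 hq b
  have muA := mu_mul A hq
  have muB := mu_mul B hq
  have cA : ((A.filter (fun p : ℕ => (p : ZMod q) ≠ 0)).card : ℝ) ≤ α := by
    rw [hα]
    exact_mod_cast card_filter_le _ _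
  have cB : ((B.filter (fun p : ℕ => (p : ZMod q) ≠ 0)).card : ℝ) ≤ β := by
    rw [hβ]
    exact_mod_cast card_filter_le _ _
  have cA' := cnt_zero_le hAp hq
  have cB' := cnt_zero_le hBp hq
  rw [← muA] at cA cA'
  rw [← muB] at cB cB'
  have mA0 := mu_nonneg A hq
  have mB0 := mu_nonneg B hq
  rw [← hm] at hdA hdB cA cB cA' cB'
  rw [← hN] at hdA hdB
  have hS := h2 ▸ h1
  have h4' := (abs_le.1 h4).1
  exact pair_arith hC1 hNA hNB hN0 hL hLA hLB hA32 hB32 (by rw [hm]; ring) hm64 mA0 mB0 h3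
    h4' hdB hdA cA cB cA' cB' hS

end Pool.Agent.Lib.MP_629a14_nt
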