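import Pool.Agent.Lib.MP_629a14_nt.BDH

/-! The additive mass of a set of primes at a prime modulus versus its variance in the reduced
classes, and a count of the bad moduli. -/

set_option autoImplicit false

namespace Pool.Agent.Lib.MP_629a14_nt

open Finset Pool.Agent.Lib.MP_60b32f_nt

theorem mass_eq (A : Finset ℕ) {q : ℕ} (hq : 0 < q) [NeZero q] :
    (A.card : ℝ) ^ 2 + nonzeroMass A q = q * ∑ a : ZMod q, (cnt A q a) ^ 2 := by
  set T := (A ×ˢ A).filter (fun y : ℕ × ℕ => (q : ℤ) ∣ (y.1 : ℤ) - y.2) with hT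
  have h1 : ((q * (T.card : ℝ) : ℝ) : ℂ) = ((∑ a ∈ range q, ‖eS A q a‖ ^ 2 : ℝ) : ℂ) := by
    have h2 : ∀ y ∈ A ×ˢ A, ∑ a ∈ range q,
        ee ((a : ℝ) * ((((y.1 : ℤ) - y.2 : ℤ) : ℝ) / q)) =
        if (q : ℤ) ∣ (y.1 : ℤ) - y.2 then (q : ℂ) else 0 := fun y _ => sum_ee_range q hq _
    have h3 : ((q * (T.card : ℝ) : ℝ) : ℂ) = ∑ y ∈ A ×ˢ A, ∑ a ∈ range q,
        ee ((a : ℝ) * ((((y.1 : ℤ) - y.2 : ℤ) : ℝ) / q)) := by
      rw [sum_congr rfl h2, ← sum_filter, sum_const, nsmul_eq_mul, ← hT]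
      push_cast
      ring
    rw [h3, sum_comm, Complex.ofReal_sum]
    refine sum_congr rfl fun a _ => ?_
    rw [Complex.ofReal_pow, ← Complex.mul_conj']
    unfold eS
    rw [map_sum, sum_mul_sum, ← sum_product']
    refine sum_congr rfl fun y _ => ?_
    rw [conj_ee, ← ee_add]
    congr 1
    push_cast
    ring
  have h4 : (q : ℝ) * T.card = ∑ a ∈ range q, ‖eS A q a‖ ^ 2 := by exact_mod_cast h1
  have h5 : ∑ a ∈ range q, ‖eS A q a‖ ^ 2 = (A.card : ℝ) ^ 2 + nonzeroMass A q := by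
    rw [range_eq_Ico, sum_eq_sum_Ico_succ_bot hq, eS_zero]
    unfold nonzeroMass
    simp
  rw [← h5, ← h4]
  congr 1
  have h6 : T.card = ∑ a : ZMod q, ((A.filter (fun p : ℕ => (p : ZMod q) = a)).card) ^ 2 := by
    rw [card_eq_sum_card_fiberwise (f := fun y : ℕ × ℕ => (y.1 : ZMod q))
      (t := (univ : Finset (ZMod q))) (fun y _ => by simp)]
    refine sum_congr rfl fun a _ => ?_
    rw [sq, ← card_product]
    congr 1
    ext y
    simp only [hT, mem_filter, mem_product]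
    constructor
    · rintro ⟨⟨⟨h1, h2⟩, h3⟩, h4⟩
      refine ⟨⟨h1, h4⟩, h2, ?_⟩
      rw [← ZMod.intCast_zmod_eq_zero_iff_dvd] at h3
      push_cast at h3
      rw [sub_eq_zero] at h3
      rw [← h3, h4]
    · rintro ⟨⟨h1, h4⟩, h2, h5⟩
      refine ⟨⟨⟨h1, h2⟩, ?_⟩, h4⟩
      rw [← ZMod.intCast_zmod_eq_zero_iff_dvd]
      push_cast
      rw [h4, h5, sub_self]
  rw [h6]
  push_cast
  rfl

/-- Large additive mass at a prime modulus gives a large variance in the reduced classes. -/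
theorem vari_of_mass (P : Finset ℕ) {q : ℕ} (hq : q.Prime) (hq17 : 17 ≤ q)
    (hP0 : cnt P q 0 ≤ 1) (hqP : 16 * (q : ℝ) ≤ (P.card : ℝ) ^ 2)
    (hmass : (P.card : ℝ) ^ 2 < 2 * nonzeroMass P q) :
    (P.card : ℝ) ^ 2 < 4 * (((q : ℝ) - 1) * vari P q) := by
  have : NeZero q := ⟨hq.ne_zero⟩
  have hq17' : (17 : ℝ) ≤ q := by exact_mod_cast hq17
  have h1 := mass_eq P hq.pos
  have hm := mu_mul P hq
  set S0 : ℝ := ((P.filter (fun p : ℕ => (p : ZMod q) ≠ 0)).card : ℝ) with hS0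
  have hS0le : S0 ≤ P.card := by
    rw [hS0]
    exact_mod_cast card_filter_le _ _
  have hS0nn : 0 ≤ S0 := by rw [hS0]; positivity
  have h2 : vari P q = ∑ a : ZMod q, (cnt P q a) ^ 2 - (cnt P q 0) ^ 2 - mu P q * S0 := by
    rw [vari_eq P hq]
    have h3 : ∑ a : ZMod q, (dev P q a) ^ 2 =
        ∑ a ∈ (univ : Finset (ZMod q)).filter (fun a => a ≠ 0), (cnt P q a - mu P q) ^ 2 := by
      rw [sum_filter]
      refine sum_congr rfl fun a _ => ?_
      by_cases ha : a = 0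
      · rw [ha, dev_zero]; simp
      · rw [dev_of_ne P q ha]; simp [ha]
    have h4 : ∑ a ∈ (univ : Finset (ZMod q)).filter (fun a => a ≠ 0), (cnt P q a - mu P q) ^ 2 =
        ∑ a ∈ (univ : Finset (ZMod q)).filter (fun a => a ≠ 0), (cnt P q a) ^ 2
          - 2 * mu P q * S0 + ((q : ℝ) - 1) * (mu P q) ^ 2 := by
      rw [hS0, ← sum_cnt_ne, ← card_ne_zero q hq, ← nsmul_eq_mul, ← sum_const, mul_sum,
        ← sum_sub_distrib, ← sum_add_distrib]
      refine sum_congr rfl fun a _ => ?_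
      ring
    have h5 : ∑ a ∈ (univ : Finset (ZMod q)).filter (fun a => a ≠ 0), (cnt P q a) ^ 2 =
        ∑ a : ZMod q, (cnt P q a) ^ 2 - (cnt P q 0) ^ 2 := by
      have h6 : (univ : Finset (ZMod q)).filter (fun a => a ≠ 0) = univ.erase 0 := by
        ext a; simp
      rw [h6, ← sum_erase_add (univ : Finset (ZMod q)) _ (mem_univ 0)]
      ring
    rw [h3, h4, h5]
    have h7 : ((q : ℝ) - 1) * (mu P q) ^ 2 = mu P q * S0 := by
      rw [← hm]; ring
    rw [h7]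
    ring
  set π : ℝ := (P.card : ℝ) with hπ
  have hπ0 : 0 ≤ π := by rw [hπ]; positivity
  have hc0 := cnt_nonneg P q 0
  set C2 : ℝ := ∑ a : ZMod q, (cnt P q a) ^ 2 with hC2
  set z := cnt P q 0 with hz
  have hz2 : z ^ 2 ≤ 1 := by nlinarith
  have hq1 : (0 : ℝ) < (q : ℝ) - 1 := by linarith
  -- μ S0 ≤ π² / (q-1)
  have h8 : mu P q * S0 * ((q : ℝ) - 1) ≤ π ^ 2 := by
    have : mu P q * S0 * ((q : ℝ) - 1) = S0 ^ 2 := by
      rw [← hm]; ring
    rw [this]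
    nlinarith
  -- q C2 = π² + mass > 3/2 π²
  have h9 : 3 * π ^ 2 < 2 * (q * C2) := by linarith
  rw [h2]
  -- (q-1) vari ≥ (q-1) C2 - (q-1) - π²
  have h10 : (q - 1) * C2 - (q - 1) - π ^ 2 ≤ ((q : ℝ) - 1) * (C2 - z ^ 2 - mu P q * S0) := by
    have : ((q : ℝ) - 1) * (C2 - z ^ 2 - mu P q * S0) =
      (q - 1) * C2 - (q - 1) * z ^ 2 - mu P q * S0 * (q - 1) := by ring
    rw [this]
    have : ((q : ℝ) - 1) * z ^ 2 ≤ ((q : ℝ) - 1) * 1 := by gcongr
    linarith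
  -- (q-1) C2 ≥ (16/17) q C2
  have hC20 : 0 ≤ C2 := by rw [hC2]; positivity
  have h11 : 16 * (q * C2) ≤ 17 * ((q - 1) * C2) := by
    have : 17 * ((q - 1) * C2) - 16 * (q * C2) = (q - 17) * C2 := by ring
    have h12 : 0 ≤ ((q : ℝ) - 17) * C2 := mul_nonneg (by linarith) hC20
    linarith
  have h13 : 0 ≤ π ^ 2 := by positivity
  linarith

/-- Few bad moduli. -/
theorem bad_card4 {I : Finset ℕ} {nu : ℕ → ℝ} {L Y : ℝ} (h0 : ∀ n, 0 ≤ nu n)
    (hL : 0 ≤ L) (hw : WellDist I nu L) (P : Finset ℕ) (hPI : P ⊆ I) (hP1 : ∀ p ∈ P, 1 ≤ nu p)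
    (hPpos : 0 < P.card) (B : Finset ℕ) (hBp : ∀ q ∈ B, q.Prime) (hBY : ∀ q ∈ B, (q : ℝ) ≤ Y)
    (hB : ∀ q ∈ B, (P.card : ℝ) ^ 2 < 4 * (((q : ℝ) - 1) * vari P q))
    (hsmall : 18 * L * B.card * Y ^ 2 ≤ P.card) :
    (B.card : ℝ) ≤ 4 * (∑ n ∈ I, nu n) / P.card + 4 := by
  rcases B.eq_empty_or_nonempty with hBe | hBne
  · rw [hBe]
    have : 0 ≤ ∑ n ∈ I, nu n := sum_nonneg fun n _ => h0 n
    simp only [card_empty, Nat.cast_zero]
    positivity
  set π : ℝ := (P.card : ℝ) with hπ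
  have hπ0 : 0 < π := by rw [hπ]; exact_mod_cast hPpos
  set N : ℝ := ∑ n ∈ I, nu n with hN
  have hN0 : 0 ≤ N := sum_nonneg fun n _ => h0 n
  set k : ℝ := (B.card : ℝ) with hk
  have hk1 : 1 ≤ k := by
    have : 1 ≤ B.card := card_pos.2 hBne
    rw [hk]
    exact_mod_cast this
  have hY1 : 1 ≤ Y := by
    obtain ⟨q, hq⟩ := hBne
    have h1 : (1 : ℝ) ≤ q := by exact_mod_cast (hBp q hq).one_lt.le
    exact h1.trans (hBY q hq)
  set F : ℕ → ℝ := fun n => ∑ q ∈ B, ((q : ℝ) - 1) * dev P q (n : ZMod q) with hF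
  set V : ℝ := ∑ q ∈ B, ((q : ℝ) - 1) * vari P q with hV
  have hq1 : ∀ q ∈ B, (0 : ℝ) ≤ (q : ℝ) - 1 := by
    intro q hq
    have h1 : (1 : ℝ) ≤ q := by exact_mod_cast (hBp q hq).one_lt.le
    linarith
  have hFP : ∑ p ∈ P, F p = V := by
    simp only [hF, hV]
    rw [sum_comm]
    refine sum_congr rfl fun q _ => ?_
    rw [← mul_sum]
    rfl
  have hcs : V ^ 2 ≤ π * ∑ n ∈ I, nu n * (F n) ^ 2 := by
    rw [← hFP]
    calc (∑ p ∈ P, F p) ^ 2 ≤ P.card * ∑ p ∈ P, (F p) ^ 2 := sq_sum_le_card_mul_sum_sq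
      _ ≤ π * ∑ n ∈ I, nu n * (F n) ^ 2 := by
          rw [hπ]
          gcongr
          calc ∑ p ∈ P, (F p) ^ 2 ≤ ∑ p ∈ P, nu p * (F p) ^ 2 := by
                apply sum_le_sum
                intro p hp
                have h1 := hP1 p hp
                nlinarith [sq_nonneg (F p)]
            _ ≤ ∑ n ∈ I, nu n * (F n) ^ 2 := by
                apply sum_le_sum_of_subset_of_nonneg hPI
                intro n _ _
                exact mul_nonneg (h0 n) (sq_nonneg _)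
  have hquad : ∑ n ∈ I, nu n * (F n) ^ 2 ≤ V * (N + 2 * L * Y) + k ^ 2 * (4 * L * Y ^ 2 * π ^ 2) := by
    have e1 : ∑ n ∈ I, nu n * (F n) ^ 2 = ∑ q ∈ B, ∑ q' ∈ B, (((q : ℝ) - 1) * ((q' : ℝ) - 1)) *
        ∑ n ∈ I, nu n * (dev P q (n : ZMod q) * dev P q' (n : ZMod q')) := by
      simp only [hF]
      simp_rw [sq, sum_mul_sum, mul_sum]
      rw [sum_comm]
      refine sum_congr rfl fun q _ => ?_
      rw [sum_comm]
      refine sum_congr rfl fun q' _ => ?_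
      refine sum_congr rfl fun n _ => ?_
      ring
    rw [e1]
    have e2 : ∀ q ∈ B, ∀ q' ∈ B, (((q : ℝ) - 1) * ((q' : ℝ) - 1)) *
        ∑ n ∈ I, nu n * (dev P q (n : ZMod q) * dev P q' (n : ZMod q'))
        ≤ (if q = q' then ((q : ℝ) - 1) * vari P q * (N + 2 * L * Y) else 0)
          + 4 * L * Y ^ 2 * π ^ 2 := by
      intro q hq q' hq'
      by_cases hqq : q = q'
      · subst hqq
        rw [if_pos rfl]
        have h1 := diag_le h0 hw P (hBp q hq)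
        have h2 : ∑ n ∈ I, nu n * (dev P q (n : ZMod q) * dev P q (n : ZMod q))
            = ∑ n ∈ I, nu n * (dev P q (n : ZMod q)) ^ 2 :=
          sum_congr rfl fun n _ => by rw [sq]
        rw [h2]
        have hq2 : (1 : ℝ) < q := by exact_mod_cast (hBp q hq).one_lt
        have hq3 : (0 : ℝ) < (q : ℝ) - 1 := by linarith
        have hv := vari_nonneg P (hBp q hq)
        have hqY : (q : ℝ) - 1 ≤ Y := by linarith [hBY q hq]
        calc (((q : ℝ) - 1) * ((q : ℝ) - 1)) * ∑ n ∈ I, nu n * (dev P q (n : ZMod q)) ^ 2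
            ≤ (((q : ℝ) - 1) * ((q : ℝ) - 1)) * (vari P q * (N / ((q : ℝ) - 1) + 2 * L)) := by
              gcongr
          _ = ((q : ℝ) - 1) * vari P q * (N + 2 * L * ((q : ℝ) - 1)) := by
              field_simp
          _ ≤ ((q : ℝ) - 1) * vari P q * (N + 2 * L * Y) := by gcongr
          _ ≤ ((q : ℝ) - 1) * vari P q * (N + 2 * L * Y) + 4 * L * Y ^ 2 * π ^ 2 := by
              have : 0 ≤ 4 * L * Y ^ 2 * π ^ 2 := by positivity
              linarith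
      · rw [if_neg hqq, zero_add]
        have h1 := offdiag_le hw P (hBp q hq) (hBp q' hq') hqq hL
        have h2 := (le_abs_self _).trans h1
        have a1 := hq1 q hq
        have a2 := hq1 q' hq'
        have b1 : (q : ℝ) - 1 ≤ Y := by linarith [hBY q hq]
        have b2 : (q' : ℝ) - 1 ≤ Y := by linarith [hBY q' hq']
        calc (((q : ℝ) - 1) * ((q' : ℝ) - 1)) *
              ∑ n ∈ I, nu n * (dev P q (n : ZMod q) * dev P q' (n : ZMod q'))
            ≤ (((q : ℝ) - 1) * ((q' : ℝ) - 1)) * (L * (4 * π ^ 2)) := by gcongr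
          _ ≤ (Y * Y) * (L * (4 * π ^ 2)) := by gcongr
          _ = 4 * L * Y ^ 2 * π ^ 2 := by ring
    calc ∑ q ∈ B, ∑ q' ∈ B, (((q : ℝ) - 1) * ((q' : ℝ) - 1)) *
          ∑ n ∈ I, nu n * (dev P q (n : ZMod q) * dev P q' (n : ZMod q'))
        ≤ ∑ q ∈ B, ∑ q' ∈ B,
          ((if q = q' then ((q : ℝ) - 1) * vari P q * (N + 2 * L * Y) else 0)
          + 4 * L * Y ^ 2 * π ^ 2) :=
          sum_le_sum fun q hq => sum_le_sum fun q' hq' => e2 q hq q' hq'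
      _ = V * (N + 2 * L * Y) + k ^ 2 * (4 * L * Y ^ 2 * π ^ 2) := by
          simp_rw [sum_add_distrib, sum_ite_eq, sum_const, nsmul_eq_mul]
          rw [sum_congr rfl (fun q hq => if_pos hq), ← sum_mul]
          rw [hV, hk]
          ring
  have hVlow : k * π ^ 2 < 4 * V := by
    rw [hV, mul_sum]
    calc k * π ^ 2 = ∑ q ∈ B, π ^ 2 := by rw [sum_const, nsmul_eq_mul]
      _ < ∑ q ∈ B, 4 * (((q : ℝ) - 1) * vari P q) := sum_lt_sum_of_nonempty hBne hB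
  have hVpos : 0 < V := by
    have : 0 ≤ k * π ^ 2 := by positivity
    linarith
  -- combine
  have h5 : V ^ 2 ≤ π * (V * (N + 2 * L * Y) + k ^ 2 * (4 * L * Y ^ 2 * π ^ 2)) :=
    hcs.trans (by gcongr)
  have h6 : π * (k ^ 2 * (4 * L * Y ^ 2 * π ^ 2)) ≤ V * (16 * π * L * k * Y ^ 2) := by
    have : k * π ^ 2 ≤ 4 * V := hVlow.le
    calc π * (k ^ 2 * (4 * L * Y ^ 2 * π ^ 2)) = (k * π ^ 2) * (4 * π * L * k * Y ^ 2) := by ring
      _ ≤ (4 * V) * (4 * π * L * k * Y ^ 2) := by gcongr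
      _ = V * (16 * π * L * k * Y ^ 2) := by ring
  have h7 : V * V ≤ V * (π * (N + 2 * L * Y + 16 * L * k * Y ^ 2)) := by
    calc V * V = V ^ 2 := by ring
      _ ≤ π * (V * (N + 2 * L * Y) + k ^ 2 * (4 * L * Y ^ 2 * π ^ 2)) := h5
      _ = V * (π * (N + 2 * L * Y)) + π * (k ^ 2 * (4 * L * Y ^ 2 * π ^ 2)) := by ring
      _ ≤ V * (π * (N + 2 * L * Y)) + V * (16 * π * L * k * Y ^ 2) := by gcongr
      _ = V * (π * (N + 2 * L * Y + 16 * L * k * Y ^ 2)) := by ring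
  have h8 : V ≤ π * (N + 2 * L * Y + 16 * L * k * Y ^ 2) := le_of_mul_le_mul_left h7 hVpos
  have h9 : 2 * L * Y ≤ 2 * L * k * Y ^ 2 := by
    have : Y ≤ k * Y ^ 2 := by nlinarith
    have : 0 ≤ 2 * L * (k * Y ^ 2 - Y) := mul_nonneg (by positivity) (by linarith)
    linarith
  have h10 : V ≤ π * (N + π) := by
    refine h8.trans (mul_le_mul_of_nonneg_left ?_ hπ0.le)
    linarith
  have h11 : k * π ^ 2 ≤ 4 * (π * (N + π)) := hVlow.le.trans (by linarith)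
  have h12 : k * π ≤ 4 * (N + π) := by
    have : π * (k * π) ≤ π * (4 * (N + π)) := by nlinarith
    exact le_of_mul_le_mul_left this hπ0
  rw [show 4 * N / π + 4 = (4 * (N + π)) / π by field_simp, le_div_iff₀ hπ0]
  exact h12

end Pool.Agent.Lib.MP_629a14_nt
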