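import Pool.Agent.Lib.MP_629a14_nt.ScalesA

/-! The number of bad prime moduli up to `Q`, for every `Q`. -/

set_option autoImplicit false

namespace Pool.Agent.Lib.MP_629a14_nt

open Finset Pool.Agent.Lib.MP_60b32f_nt

theorem exists_level {y : ℝ} (hy : 256 ≤ y) : ∃ R : ℕ, 4 ≤ R ∧ (R : ℝ) ^ 4 ≤ y ∧
    y < ((R : ℝ) + 1) ^ 4 := by
  set n := ⌊y⌋₊ with hn
  set m := Nat.sqrt n with hm
  set R := Nat.sqrt m with hR
  have hn256 : 256 ≤ n := Nat.le_floor (by exact_mod_cast hy)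
  have hm16 : 16 ≤ m := Nat.le_sqrt.2 (by omega)
  have hR4 : 4 ≤ R := Nat.le_sqrt.2 (by omega)
  have h1 : R ^ 2 ≤ m := Nat.sqrt_le' m
  have h2 : m ^ 2 ≤ n := Nat.sqrt_le' n
  have h3 : n < (m + 1) ^ 2 := Nat.lt_succ_sqrt' n
  have h4 : m < (R + 1) ^ 2 := Nat.lt_succ_sqrt' m
  refine ⟨R, hR4, ?_, ?_⟩
  · have h5 : R ^ 4 ≤ n := by
      calc R ^ 4 = (R ^ 2) ^ 2 := by ring
        _ ≤ m ^ 2 := Nat.pow_le_pow_left h1 2
        _ ≤ n := h2
    calc (R : ℝ) ^ 4 = ((R ^ 4 : ℕ) : ℝ) := by push_cast; ring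
      _ ≤ (n : ℝ) := by exact_mod_cast h5
      _ ≤ y := Nat.floor_le (by linarith)
  · have h5 : n + 1 ≤ (R + 1) ^ 4 := by
      calc n + 1 ≤ (m + 1) ^ 2 := h3
        _ ≤ ((R + 1) ^ 2) ^ 2 := Nat.pow_le_pow_left h4 2
        _ = (R + 1) ^ 4 := by ring
    calc y < (n : ℝ) + 1 := Nat.lt_floor_add_one y
      _ ≤ (((R + 1) ^ 4 : ℕ) : ℝ) := by exact_mod_cast h5
      _ = ((R : ℝ) + 1) ^ 4 := by push_cast; ring

theorem bad_count (α : ℝ) (hα : 0 < α) : ∃ K : ℝ, 0 < K ∧ ∀ x : ℕ, 3 ≤ x → ∀ P : Finset ℕ,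
    (∀ p ∈ P, p.Prime ∧ 2 * p ≤ x) → (∀ p ∈ P, x < p ^ 4) → 0 < P.card →
    α / 2 * (x / Real.log x) ≤ P.card → ∀ Q : ℕ,
      ((((Icc 1 x).filter (fun q => q.Prime ∧
          (P.card : ℝ) ^ 2 < 2 * nonzeroMass P q)).filter (fun q => q ≤ Q)).card : ℝ) *
        Real.log (2 + x / (Q * Real.log x) ^ 2) ≤
          K * Real.log x * (1 + (Q : ℝ) ^ 2 / x) := by
  classical
  set a : ℝ := 10 / α + 1 with ha
  have ha1 : 1 ≤ a := by
    have : 0 < 10 / α := by positivity
    linarith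
  set c1 : ℝ := min 1 (α / (324 * a)) with hc1
  have hc10 : 0 < c1 := by rw [hc1]; positivity
  have hc11 : c1 ≤ 1 := min_le_left _ _
  have hc12 : c1 * (324 * a) ≤ α := by
    have : c1 ≤ α / (324 * a) := min_le_right _ _
    rwa [le_div_iff₀ (by positivity)] at this
  set ρ0 : ℝ := 256 / c1 ^ 2 with hρ0
  have hρ00 : 0 < ρ0 := by rw [hρ0]; positivity
  have hlog0 : 0 < Real.log (2 + ρ0) := Real.log_pos (by linarith)
  refine ⟨20 / α * Real.log (2 + ρ0) + 400 * a, by positivity, fun x hx3 P hP hP4 hPpos hPc Q => ?_⟩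
  have hxr : (3 : ℝ) ≤ x := by exact_mod_cast hx3
  have hx0 : (0 : ℝ) < x := by linarith
  have hlog1 : 1 ≤ Real.log x := by
    rw [Real.le_log_iff_exp_le hx0]
    have := Real.exp_one_lt_d9
    linarith
  have hlog : 0 < Real.log x := by linarith
  set ξ : ℝ := x / Real.log x with hξ
  have hξ0 : 0 < ξ := by rw [hξ]; positivity
  set W := ((Icc 1 x).filter (fun q => q.Prime ∧
          (P.card : ℝ) ^ 2 < 2 * nonzeroMass P q)).filter (fun q => q ≤ Q) with hW
  have hPr : (0 : ℝ) < P.card := by exact_mod_cast hPpos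
  have hPI : P ⊆ Icc 1 x := by
    intro p hp
    have h2 := hP p hp
    rw [mem_Icc]
    exact ⟨h2.1.pos, by omega⟩
  have hWmem : ∀ q ∈ W, q.Prime ∧ q ≤ x ∧ q ≤ Q ∧ (P.card : ℝ) ^ 2 < 2 * nonzeroMass P q := by
    intro q hq
    rw [hW, mem_filter, mem_filter, mem_Icc] at hq
    exact ⟨hq.1.2.1, hq.1.1.2, hq.2, hq.1.2.2⟩
  -- large sieve bound
  have hLS : (W.card : ℝ) ≤ 20 / α * Real.log x * (1 + (Q : ℝ) ^ 2 / x) := by
    have hls := large_sieve_primes (N := x) (M := max x (Q ^ 2)) (Q := Q) (le_max_left _ _)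
      (le_max_right _ _) P hPI W (fun q hq => ⟨(hWmem q hq).1, (hWmem q hq).2.2.1⟩)
    have h7 : (W.card : ℝ) * ((P.card : ℝ) ^ 2 / 2) ≤ ∑ q ∈ W, nonzeroMass P q := by
      rw [← nsmul_eq_mul, ← sum_const]
      refine sum_le_sum fun q hq => ?_
      linarith [(hWmem q hq).2.2.2]
    have h8 : (W.card : ℝ) * ((P.card : ℝ) ^ 2 / 2) ≤
        5 * ((x : ℝ) + (Q : ℝ) ^ 2) * P.card := by
      refine h7.trans (hls.trans ?_)
      have : ((max x (Q ^ 2) : ℕ) : ℝ) ≤ (x : ℝ) + (Q : ℝ) ^ 2 := by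
        rw [Nat.cast_max]
        push_cast
        apply max_le
        · have : (0 : ℝ) ≤ (Q : ℝ) ^ 2 := by positivity
          linarith
        · linarith
      gcongr
    have h9 : (W.card : ℝ) * P.card ≤ 10 * ((x : ℝ) + (Q : ℝ) ^ 2) := by
      have h10 : ((W.card : ℝ) * P.card) * (P.card / 2) ≤
          (10 * ((x : ℝ) + (Q : ℝ) ^ 2)) * (P.card / 2) := by
        calc ((W.card : ℝ) * P.card) * (P.card / 2) = (W.card : ℝ) * ((P.card : ℝ) ^ 2 / 2) := by
              ring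
          _ ≤ _ := h8
          _ = _ := by ring
      exact le_of_mul_le_mul_right h10 (by positivity)
    have h11 : (W.card : ℝ) * (α / 2 * ξ) ≤ 10 * ((x : ℝ) + (Q : ℝ) ^ 2) :=
      (mul_le_mul_of_nonneg_left hPc (by positivity)).trans h9
    have h12 : 20 / α * Real.log x * (1 + (Q : ℝ) ^ 2 / x) =
        (10 * ((x : ℝ) + (Q : ℝ) ^ 2)) / (α / 2 * ξ) := by
      rw [hξ]
      field_simp
      ring
    rw [h12, le_div_iff₀ (by positivity)]
    exact h11
  set ρ : ℝ := x / (Q * Real.log x) ^ 2 with hρ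
  have hρnn : 0 ≤ ρ := by rw [hρ]; positivity
  have hlogρ : 0 ≤ Real.log (2 + ρ) := Real.log_nonneg (by linarith)
  have hone : 1 ≤ 1 + (Q : ℝ) ^ 2 / x := by
    have : 0 ≤ (Q : ℝ) ^ 2 / x := by positivity
    linarith
  rcases le_or_gt ρ ρ0 with hcase | hcase
  · -- small ratio
    have h1 : Real.log (2 + ρ) ≤ Real.log (2 + ρ0) := Real.log_le_log (by linarith) (by linarith)
    have h2 : 0 ≤ 400 * a * (Real.log x * (1 + (Q : ℝ) ^ 2 / x)) := by positivity
    calc (W.card : ℝ) * Real.log (2 + ρ)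
        ≤ (20 / α * Real.log x * (1 + (Q : ℝ) ^ 2 / x)) * Real.log (2 + ρ0) := by gcongr
      _ ≤ (20 / α * Real.log x * (1 + (Q : ℝ) ^ 2 / x)) * Real.log (2 + ρ0) +
          400 * a * (Real.log x * (1 + (Q : ℝ) ^ 2 / x)) := by linarith
      _ = _ := by ring
  · -- large ratio
    suffices hmain : (W.card : ℝ) * Real.log (2 + ρ) ≤ 400 * a * Real.log x by
      have h2 : 0 ≤ 20 / α * Real.log (2 + ρ0) * (Real.log x * (1 + (Q : ℝ) ^ 2 / x)) := by
        positivity
      calc (W.card : ℝ) * Real.log (2 + ρ) ≤ 400 * a * Real.log x := hmain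
        _ = 400 * a * Real.log x * 1 := by ring
        _ ≤ 400 * a * Real.log x * (1 + (Q : ℝ) ^ 2 / x) := by gcongr
        _ ≤ 400 * a * Real.log x * (1 + (Q : ℝ) ^ 2 / x) +
            20 / α * Real.log (2 + ρ0) * (Real.log x * (1 + (Q : ℝ) ^ 2 / x)) := by linarith
        _ = _ := by ring
    -- Q ≥ 1
    have hQ1 : 1 ≤ Q := by
      by_contra h
      have hQ0 : Q = 0 := by omega
      rw [hρ, hQ0] at hcase
      simp only [CharP.cast_eq_zero, zero_mul, ne_eq, OfNat.ofNat_ne_zero, not_false_eq_true,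
        zero_pow, div_zero] at hcase
      linarith
    have hQr : (1 : ℝ) ≤ Q := by exact_mod_cast hQ1
    have hρQ : ρ * (Q : ℝ) ^ 2 = x / (Real.log x) ^ 2 := by
      rw [hρ]
      field_simp
    have hc1ρ : 256 ≤ c1 * ρ := by
      have h1 : 256 / c1 ≤ c1 * ρ := by
        calc 256 / c1 = c1 * ρ0 := by rw [hρ0]; field_simp
          _ ≤ c1 * ρ := by gcongr
      have h2 : 256 ≤ 256 / c1 := by
        rw [le_div_iff₀ hc10]
        nlinarith
      linarith
    obtain ⟨R, hR4, hRle, hRlt⟩ := exists_level hc1ρ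
    have hRr : (4 : ℝ) ≤ R := by exact_mod_cast hR4
    have hR1 : 1 ≤ R := by omega
    have hlogR1 : 1 ≤ Real.log (R + 1) := by
      rw [Real.le_log_iff_exp_le (by linarith)]
      have := Real.exp_one_lt_d9
      linarith
    have hlogR0 : 0 < Real.log (R + 1) := by linarith
    -- log (2 + ρ) ≤ 16 log (R + 1)
    have hlogle : Real.log (2 + ρ) ≤ 16 * Real.log (R + 1) := by
      have hρ0' : 256 ≤ ρ := by
        have : c1 * ρ ≤ 1 * ρ := by gcongr
        linarith
      have h1 : Real.log (2 + ρ) ≤ Real.log ((c1 * ρ) ^ 4) := by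
        apply Real.log_le_log (by linarith)
        have h2 : 2 + ρ ≤ ρ ^ 2 := by nlinarith
        have h3 : ρ ≤ (c1 * ρ) ^ 2 := by
          have h4 : 1 ≤ c1 ^ 2 * ρ := by
            have h5 : c1 ^ 2 * ρ0 = 256 := by rw [hρ0]; field_simp
            have h6 : c1 ^ 2 * ρ0 ≤ c1 ^ 2 * ρ := by gcongr
            linarith
          calc ρ = 1 * ρ := by ring
            _ ≤ (c1 ^ 2 * ρ) * ρ := by gcongr
            _ = (c1 * ρ) ^ 2 := by ring
        calc 2 + ρ ≤ ρ ^ 2 := h2
          _ ≤ ((c1 * ρ) ^ 2) ^ 2 := by gcongr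
          _ = (c1 * ρ) ^ 4 := by ring
      have h2 : Real.log (c1 * ρ) ≤ Real.log (((R : ℝ) + 1) ^ 4) :=
        Real.log_le_log (by linarith) hRlt.le
      rw [Real.log_pow] at h1 h2
      push_cast at h1 h2
      linarith
    -- R⁴ ≤ ρ ≤ x / log² x
    have hρx : ρ ≤ x / (Real.log x) ^ 2 := by
      rw [← hρQ]
      have : (1 : ℝ) ≤ (Q : ℝ) ^ 2 := by nlinarith
      nlinarith
    have hR4ρ : (R : ℝ) ^ 4 ≤ ρ := by
      calc (R : ℝ) ^ 4 ≤ c1 * ρ := hRle
        _ ≤ 1 * ρ := by gcongr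
        _ = ρ := one_mul _
    have hR4x : (R : ℝ) ^ 4 ≤ x := by
      calc (R : ℝ) ^ 4 ≤ x / (Real.log x) ^ 2 := hR4ρ.trans hρx
        _ ≤ x / 1 := by
            gcongr
            nlinarith
        _ = x := by simp
    have hRx : (R : ℝ) + 1 ≤ x := by
      have h1 : (R : ℝ) + 1 ≤ (R : ℝ) ^ 4 := by
        have h2 : (R : ℝ) ^ 4 = (R : ℝ) * (R : ℝ) ^ 3 := by ring
        have h3 : (64 : ℝ) ≤ (R : ℝ) ^ 3 := by
          calc (64 : ℝ) = 4 ^ 3 := by norm_num
            _ ≤ (R : ℝ) ^ 3 := by gcongr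
        rw [h2]
        nlinarith
      linarith
    have hlogRx : Real.log (R + 1) ≤ Real.log x := Real.log_le_log (by linarith) hRx
    set C1 : ℝ := a * (Real.log x / Real.log (R + 1)) with hC1
    have hC1one : 1 ≤ C1 := by
      have h1 : 1 ≤ Real.log x / Real.log (R + 1) := by
        rw [one_le_div hlogR0]
        exact hlogRx
      rw [hC1]
      nlinarith
    set K0 : ℕ := ⌊4 * C1 + 4⌋₊ with hK0
    have hK0le : (K0 : ℝ) ≤ 4 * C1 + 4 := Nat.floor_le (by linarith)
    have hK0lt : 4 * C1 + 4 < (K0 : ℝ) + 1 := Nat.lt_floor_add_one _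
    set L : ℝ := (R : ℝ) ^ 4 with hL
    have hL0 : 0 ≤ L := by rw [hL]; positivity
    have hL1 : 1 ≤ L := by
      rw [hL]
      exact one_le_pow₀ (by linarith)
    have hsmall : 18 * L * ((K0 + 1 : ℕ) : ℝ) * (Q : ℝ) ^ 2 ≤ P.card := by
      refine le_trans ?_ hPc
      have h1 : (((K0 + 1 : ℕ) : ℝ)) ≤ 9 * C1 := by
        push_cast
        linarith
      calc 18 * L * ((K0 + 1 : ℕ) : ℝ) * (Q : ℝ) ^ 2
          ≤ 18 * (c1 * ρ) * (9 * C1) * (Q : ℝ) ^ 2 := by gcongr
        _ = 162 * c1 * C1 * (ρ * (Q : ℝ) ^ 2) := by ring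
        _ = (c1 * (324 * a)) / 2 * (x / Real.log x) / Real.log (R + 1) := by
            rw [hρQ, hC1]
            field_simp
            ring
        _ ≤ α / 2 * (x / Real.log x) / 1 := by gcongr
        _ = α / 2 * ξ := by rw [hξ]; ring
    have hcard1 : (1 : ℝ) ≤ P.card := by
      have : 1 ≤ P.card := hPpos
      exact_mod_cast this
    have h18 : 18 * (Q : ℝ) ≤ (P.card : ℝ) ^ 2 := by
      have h1 : (1 : ℝ) ≤ ((K0 + 1 : ℕ) : ℝ) := by
        push_cast
        have : (0 : ℝ) ≤ K0 := by positivity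
        linarith
      have h2 : 18 * (Q : ℝ) ≤ 18 * L * ((K0 + 1 : ℕ) : ℝ) * (Q : ℝ) ^ 2 := by
        calc 18 * (Q : ℝ) = 18 * 1 * 1 * (Q : ℝ) := by ring
          _ ≤ 18 * L * ((K0 + 1 : ℕ) : ℝ) * (Q : ℝ) ^ 2 := by
              have : (Q : ℝ) ≤ (Q : ℝ) ^ 2 := by nlinarith
              gcongr
      have h3 : (P.card : ℝ) ≤ (P.card : ℝ) ^ 2 := by nlinarith
      linarith
    have hw : WellDist (Icc 1 x) (maj R) L := wellDist_maj R x hR1
    have h0 : ∀ n, 0 ≤ maj R n := maj_nonneg R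
    set N : ℝ := ∑ n ∈ Icc 1 x, maj R n with hN
    have hNle : N ≤ 5 * x / Real.log (R + 1) := by
      have h1 := maj_total R x hR1
      have h4 : L ≤ x / Real.log (R + 1) := by
        rw [le_div_iff₀ hlogR0]
        have h5 : L ≤ x / (Real.log x) ^ 2 := hR4ρ.trans hρx
        rw [le_div_iff₀ (by positivity)] at h5
        calc L * Real.log (R + 1) ≤ L * (Real.log x) ^ 2 := by
              apply mul_le_mul_of_nonneg_left _ hL0
              nlinarith
          _ ≤ x := h5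
      have e : 5 * (x : ℝ) / Real.log (R + 1) = 4 * x / Real.log (R + 1) + x / Real.log (R + 1) := by
        ring
      rw [e]
      linarith
    have hNC : 4 * N / P.card ≤ 4 * C1 := by
      rw [div_le_iff₀ hPr]
      calc 4 * N ≤ 4 * (5 * x / Real.log (R + 1)) := by gcongr
        _ = 4 * ((10 / α) * (Real.log x / Real.log (R + 1))) * (α / 2 * (x / Real.log x)) := by
            field_simp
            ring
        _ ≤ 4 * C1 * P.card := by
            rw [hC1, ha]
            gcongr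
            linarith
    set W' := W.filter (fun q => 17 ≤ q) with hW'
    have hWW' : W.card ≤ W'.card + 17 := by
      have h1 := card_filter_add_card_filter_not (s := W) (fun q => 17 ≤ q)
      rw [← hW'] at h1
      have h2 : (W.filter (fun q => ¬ 17 ≤ q)).card ≤ 17 := by
        have : W.filter (fun q => ¬ 17 ≤ q) ⊆ range 17 := by
          intro q hq
          rw [mem_filter] at hq
          rw [mem_range]
          omega
        simpa using card_le_card this
      omega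
    have hW'K : W'.card ≤ K0 := by
      by_contra hcon
      push Not at hcon
      obtain ⟨B0, hB0, hB0c⟩ := exists_subset_card_eq (s := W') (n := K0 + 1) hcon
      have hmem : ∀ q ∈ B0, q.Prime ∧ (q : ℝ) ≤ Q ∧
          (P.card : ℝ) ^ 2 < 4 * (((q : ℝ) - 1) * vari P q) := by
        intro q hq
        have h1 := hB0 hq
        rw [hW', mem_filter] at h1
        obtain ⟨g1, g2, g3, g4⟩ := hWmem q h1.1
        have g3' : (q : ℝ) ≤ Q := by exact_mod_cast g3
        refine ⟨g1, g3', vari_of_mass P g1 h1.2 ?_ (by linarith) g4⟩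
        unfold cnt
        have h2 : (P.filter (fun p : ℕ => (p : ZMod q) = 0)) ⊆ {q} := by
          intro p hp
          rw [mem_filter] at hp
          rw [mem_singleton]
          have h3 : q ∣ p := (ZMod.natCast_eq_zero_iff p q).1 hp.2
          exact ((Nat.prime_dvd_prime_iff_eq g1 (hP p hp.1).1).1 h3).symm
        have h4 := card_le_card h2
        rw [card_singleton] at h4
        exact_mod_cast h4
      have hb := bad_card4 h0 hL0 hw P hPI (fun p hp => by
          rw [maj_prime hR1 (hP p hp).1]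
          by_contra hcon2
          push Not at hcon2
          have h5 := hP4 p hp
          have h6 : p ^ 4 ≤ R ^ 4 := Nat.pow_le_pow_left hcon2 4
          have h7 : (R : ℝ) ^ 4 ≤ x := hR4x
          have h8 : R ^ 4 ≤ x := by exact_mod_cast h7
          omega) hPpos B0 (fun q hq => (hmem q hq).1)
        (fun q hq => (hmem q hq).2.1) (fun q hq => (hmem q hq).2.2) (by rw [hB0c]; exact hsmall)
      rw [hB0c] at hb
      push_cast at hb
      have : (K0 : ℝ) + 1 ≤ 4 * C1 + 4 := by linarith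
      linarith
    have hWcard : (W.card : ℝ) ≤ 25 * C1 := by
      have h1 : (W.card : ℝ) ≤ W'.card + 17 := by exact_mod_cast hWW'
      have h2 : (W'.card : ℝ) ≤ K0 := by exact_mod_cast hW'K
      linarith
    calc (W.card : ℝ) * Real.log (2 + ρ) ≤ (25 * C1) * (16 * Real.log (R + 1)) := by gcongr
      _ = 400 * a * Real.log x := by
          rw [hC1]
          field_simp
          ring

end Pool.Agent.Lib.MP_629a14_nt
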