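import Pool.Agent.Lib.MP_629a14_nt.ScalesB

/-! Goldbach representations in residue classes modulo primes, with one exceptional set that is
bounded up to small powers and sparse up to `x`. -/

set_option autoImplicit false

namespace Pool.Agent.Lib.MP_629a14_nt

open Finset Pool.Agent.Lib.MP_60b32f_nt

theorem scales_main (α : ℝ) (hα : 0 < α) :
    ∃ c : ℝ, 0 < c ∧ ∃ K : ℝ, 0 < K ∧ ∃ x₀ : ℕ, ∀ x : ℕ, x₀ ≤ x → ∀ A B : Finset ℕ,
      (∀ p ∈ A, p.Prime ∧ 2 * p ≤ x) → (∀ p ∈ B, p.Prime ∧ 2 * p ≤ x) →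
      α * x / Real.log x ≤ A.card → α * x / Real.log x ≤ B.card →
      ∃ E : Finset ℕ, (∀ Q : ℕ, ((E.filter (fun q => q ≤ Q)).card : ℝ) *
          Real.log (2 + x / (Q * Real.log x) ^ 2) ≤
          K * Real.log x * (1 + (Q : ℝ) ^ 2 / x)) ∧
        ∀ q : ℕ, q.Prime → q ≤ x → q ∉ E → ∀ b : ℕ,
          c * x / q ≤ (((Icc 1 x).filter (fun n => Even n ∧ n ≡ b [MOD q] ∧
            c * gg n ≤ (reps A B n : ℝ))).card : ℝ) := by
  classical
  set C : ℝ := 2 * bdhC with hCdef
  have hbdh : 1 ≤ bdhC := by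
    unfold bdhC
    have e1 : (1 : ℝ) ≤ Real.exp 12 := Real.one_le_exp (by norm_num)
    have e2 : (1 : ℝ) ≤ Real.exp 16 := Real.one_le_exp (by norm_num)
    have e3 : (0 : ℝ) ≤ Real.exp (4 * Real.exp 2) := (Real.exp_pos _).le
    nlinarith
  have hC1 : 1 ≤ C := by rw [hCdef]; linarith
  set δ : ℝ := α ^ 2 / 8 with hδ
  have hδ0 : 0 < δ := by rw [hδ]; positivity
  set c : ℝ := min (δ / (128 * C)) (δ ^ 2 / (4 * 73920 ^ 2 * C)) with hc
  have hc0 : 0 < c := by rw [hc]; positivity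
  have hcδ : 128 * C * c ≤ δ := by
    have : c ≤ δ / (128 * C) := min_le_left _ _
    rw [le_div_iff₀ (by positivity)] at this
    linarith
  have hcδ2 : 4 * 73920 ^ 2 * C * c ≤ δ ^ 2 := by
    have : c ≤ δ ^ 2 / (4 * 73920 ^ 2 * C) := min_le_right _ _
    rw [le_div_iff₀ (by positivity)] at this
    linarith
  -- eventual facts
  obtain ⟨x1, hx1⟩ := eventually_small (4 / α) (1 / 4) (by norm_num)
  obtain ⟨K1, hK1, hbc⟩ := bad_count α hα
  have hpi := Chebyshev.eventually_primeCounting_le (ε := 1 / 2) (by norm_num)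
  obtain ⟨x2, hx2⟩ := Filter.eventually_atTop.1
    ((tendsto_natCast_atTop_atTop (R := ℝ)).eventually hpi)
  have hlogs : ∀ᶠ y : ℝ in Filter.atTop, (Real.log (y + 3)) ^ 4 ≤ y / 3 := by
    have h1 := (isLittleO_log_rpow_atTop (show (0 : ℝ) < 1 / 8 by norm_num)).bound
      (show (0 : ℝ) < 1 by norm_num)
    have h2 : Filter.Tendsto (fun y : ℝ => y + 3) Filter.atTop Filter.atTop :=
      Filter.tendsto_atTop_add_const_right _ _ Filter.tendsto_id
    have h3 := h2.eventually h1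
    filter_upwards [h3, Filter.eventually_ge_atTop (36 : ℝ)] with y hy hy36
    have h4 : (0 : ℝ) ≤ Real.log (y + 3) := Real.log_nonneg (by linarith)
    rw [Real.norm_of_nonneg h4, Real.norm_of_nonneg (by positivity), one_mul] at hy
    have h5 : (Real.log (y + 3)) ^ 4 ≤ (y + 3) ^ (1 / 2 : ℝ) := by
      calc (Real.log (y + 3)) ^ 4 ≤ ((y + 3) ^ (1 / 8 : ℝ)) ^ 4 := pow_le_pow_left₀ h4 hy 4
        _ = (y + 3) ^ (1 / 2 : ℝ) := by
            rw [← Real.rpow_natCast, ← Real.rpow_mul (by linarith)]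
            norm_num
    refine h5.trans ?_
    rw [← Real.sqrt_eq_rpow]
    apply Real.sqrt_le_iff.2
    constructor
    · positivity
    · nlinarith
  obtain ⟨x3, hx3⟩ := Filter.eventually_atTop.1
    ((Real.tendsto_log_atTop.comp (tendsto_natCast_atTop_atTop (R := ℝ))).eventually hlogs)
  refine ⟨c, hc0, 2 * K1, by positivity, max x1 (max x2 (max x3 16)), fun x hx A B hA hB hAc hBc => ?_⟩
  simp only [max_le_iff] at hx
  obtain ⟨g1, g2, g3, g4⟩ := hx
  have f1 := hx1 x g1
  have f2 := hx2 x g2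
  have f3 := hx3 x g3
  simp only [Function.comp] at f3
  have hxr16 : (16 : ℝ) ≤ x := by exact_mod_cast g4
  have hxr : (3 : ℝ) ≤ x := by linarith
  have hx0 : (0 : ℝ) < x := by linarith
  have hx2' : 2 ≤ x := by omega
  have hlog : 0 < Real.log x := Real.log_pos (by linarith)
  set ξ : ℝ := x / Real.log x with hξ
  have hξ0 : 0 < ξ := by rw [hξ]; positivity
  have hpix : (Nat.primeCounting x : ℝ) ≤ 2 * ξ := by
    rw [Nat.floor_natCast] at f2
    refine f2.trans ?_
    have h4 : Real.log 4 ≤ 3 / 2 := by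
      have : Real.log 4 = 2 * Real.log 2 := by
        rw [show (4 : ℝ) = 2 ^ 2 by norm_num, Real.log_pow]
        norm_num
      have h5 := Real.log_two_lt_d9
      linarith
    rw [hξ, mul_div_assoc]
    have : 0 ≤ (x : ℝ) / Real.log x := by positivity
    nlinarith
  -- generic facts for a dense set of primes
  have key : ∀ P : Finset ℕ, (∀ p ∈ P, p.Prime ∧ 2 * p ≤ x) → α * x / Real.log x ≤ P.card →
      ∃ P' : Finset ℕ, P' ⊆ P ∧ (∀ p ∈ P', 2 < p) ∧ α / 2 * ξ ≤ P'.card ∧ (P'.card : ℝ) ≤ 2 * ξ ∧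
        ∀ Q : ℕ, ((((Icc 1 x).filter (fun q => q.Prime ∧
          (P'.card : ℝ) ^ 2 < 2 * nonzeroMass P' q)).filter (fun q => q ≤ Q)).card : ℝ) *
          Real.log (2 + x / (Q * Real.log x) ^ 2) ≤
          K1 * Real.log x * (1 + (Q : ℝ) ^ 2 / x) := by
    intro P hP hPc
    set P' := P.filter (fun p => x < p ^ 4) with hP'
    have hP'P : P' ⊆ P := filter_subset _ _
    have hcard : α / 2 * ξ ≤ P'.card := by
      have h1 : P.card = P'.card + (P.filter (fun p => ¬ x < p ^ 4)).card :=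
        (card_filter_add_card_filter_not (s := P) (fun p => x < p ^ 4)).symm
      have h2 : ((P.filter (fun p => ¬ x < p ^ 4)).card : ℝ) ≤ 2 * (x : ℝ) ^ (1 / 4 : ℝ) := by
        have h3 : (P.filter (fun p => ¬ x < p ^ 4)) ⊆ Icc 1 ⌊(x : ℝ) ^ (1 / 4 : ℝ)⌋₊ := by
          intro p hp
          rw [mem_filter, not_lt] at hp
          rw [mem_Icc]
          refine ⟨(hP p hp.1).1.pos, Nat.le_floor ?_⟩
          have h4 : ((p : ℝ)) ^ 4 ≤ x := by exact_mod_cast hp.2
          calc (p : ℝ) = ((p : ℝ) ^ 4) ^ (1 / 4 : ℝ) := by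
                rw [← Real.rpow_natCast, ← Real.rpow_mul (Nat.cast_nonneg p)]
                norm_num
            _ ≤ (x : ℝ) ^ (1 / 4 : ℝ) := by gcongr
        have h5 := card_le_card h3
        rw [Nat.card_Icc, Nat.add_sub_cancel] at h5
        have h6 : (((P.filter (fun p => ¬ x < p ^ 4)).card : ℕ) : ℝ) ≤ (x : ℝ) ^ (1 / 4 : ℝ) := by
          refine le_trans (b := ((⌊(x : ℝ) ^ (1 / 4 : ℝ)⌋₊ : ℕ) : ℝ)) (by exact_mod_cast h5) ?_
          exact Nat.floor_le (by positivity)
        have h7 : (0 : ℝ) ≤ (x : ℝ) ^ (1 / 4 : ℝ) := by positivity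
        linarith
      have h1' : (P.card : ℝ) = P'.card + ((P.filter (fun p => ¬ x < p ^ 4)).card : ℝ) := by
        exact_mod_cast h1
      have h5 : α * x / Real.log x = α * ξ := by rw [hξ]; ring
      rw [h5] at hPc
      have h6 : 2 * (x : ℝ) ^ (1 / 4 : ℝ) ≤ α / 2 * ξ := by
        calc 2 * (x : ℝ) ^ (1 / 4 : ℝ) = α / 2 * (4 / α * (x : ℝ) ^ (1 / 4 : ℝ)) := by
              field_simp
              ring
          _ ≤ α / 2 * ξ := by gcongr
      linarith
    have hpos : 0 < P'.card := by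
      have : (0 : ℝ) < P'.card := lt_of_lt_of_le (by positivity) hcard
      exact_mod_cast this
    refine ⟨P', hP'P, ?_, hcard, ?_, ?_⟩
    · intro p hp
      rw [hP', mem_filter] at hp
      by_contra hcon
      push Not at hcon
      have : p ^ 4 ≤ 2 ^ 4 := Nat.pow_le_pow_left hcon 4
      omega
    · have h1 : P'.card ≤ Nat.primeCounting x := by
        rw [← Nat.primesLE_card_eq_primeCounting]
        apply card_le_card
        intro p hp
        rw [Nat.mem_primesLE]
        have h2 := hP p (hP'P hp)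
        exact ⟨by omega, h2.1⟩
      have h1' : (P'.card : ℝ) ≤ Nat.primeCounting x := by exact_mod_cast h1
      linarith
    · exact hbc x (by omega) P' (fun p hp => hP p (hP'P hp))
        (fun p hp => (mem_filter.1 hp).2) hpos hcard
  obtain ⟨A', hA'A, hA'2, hA'c, hA'u, hA'E⟩ := key A hA hAc
  obtain ⟨B', hB'B, hB'2, hB'c, hB'u, hB'E⟩ := key B hB hBc
  set EA := (Icc 1 x).filter (fun q => q.Prime ∧ (A'.card : ℝ) ^ 2 < 2 * nonzeroMass A' q) with hEA
  set EB := (Icc 1 x).filter (fun q => q.Prime ∧ (B'.card : ℝ) ^ 2 < 2 * nonzeroMass B' q) with hEB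
  refine ⟨EA ∪ EB, ?_, ?_⟩
  · intro Q
    rw [filter_union]
    have h1 : (((EA.filter (fun q => q ≤ Q)) ∪ (EB.filter (fun q => q ≤ Q))).card : ℝ) ≤
        ((EA.filter (fun q => q ≤ Q)).card : ℝ) + ((EB.filter (fun q => q ≤ Q)).card : ℝ) := by
      exact_mod_cast card_union_le _ _
    have h2 := hA'E Q
    have h3 := hB'E Q
    have hlg : 0 ≤ Real.log (2 + x / (Q * Real.log x) ^ 2) := by
      apply Real.log_nonneg
      have : 0 ≤ (x : ℝ) / (Q * Real.log x) ^ 2 := by positivity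
      linarith
    calc _ ≤ (((EA.filter (fun q => q ≤ Q)).card : ℝ) + ((EB.filter (fun q => q ≤ Q)).card : ℝ)) *
          Real.log (2 + x / (Q * Real.log x) ^ 2) := by gcongr
      _ ≤ _ := by linarith
  · intro q hq hqx hqE b
    have hA'p : ∀ p ∈ A', p.Prime ∧ 2 * p ≤ x := fun p hp => hA p (hA'A hp)
    have hB'p : ∀ p ∈ B', p.Prime ∧ 2 * p ≤ x := fun p hp => hB p (hB'B hp)
    have hq0 : (0 : ℝ) < q := by exact_mod_cast hq.pos
    have hA'pos : (0 : ℝ) < A'.card := lt_of_lt_of_le (by positivity) hA'c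
    have hB'pos : (0 : ℝ) < B'.card := lt_of_lt_of_le (by positivity) hB'c
    have hmA : 2 * nonzeroMass A' q ≤ (A'.card : ℝ) ^ 2 := by
      by_contra hcon
      push Not at hcon
      exact hqE (mem_union_left _ (by rw [hEA, mem_filter, mem_Icc]; exact ⟨⟨hq.pos, hqx⟩, hq, hcon⟩))
    have hmB : 2 * nonzeroMass B' q ≤ (B'.card : ℝ) ^ 2 := by
      by_contra hcon
      push Not at hcon
      exact hqE (mem_union_right _ (by rw [hEB, mem_filter, mem_Icc]; exact ⟨⟨hq.pos, hqx⟩, hq, hcon⟩))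
    have hpair := pairs_lower A' B' hq.pos b
    have hsq : Real.sqrt (nonzeroMass A' q * nonzeroMass B' q) ≤ (A'.card : ℝ) * B'.card / 2 := by
      apply Real.sqrt_le_iff.2
      refine ⟨by positivity, ?_⟩
      have h1 := nonzeroMass_nonneg A' q
      have h2 := nonzeroMass_nonneg B' q
      calc nonzeroMass A' q * nonzeroMass B' q ≤
          ((A'.card : ℝ) ^ 2 / 2) * ((B'.card : ℝ) ^ 2 / 2) := by
            apply mul_le_mul (by linarith) (by linarith) h2 (by positivity)
        _ = ((A'.card : ℝ) * B'.card / 2) ^ 2 := by ring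
    -- the modulus is small
    have hml := mass_lower A' hq.pos
    have hqξ : (q : ℝ) ≤ 3 * ξ := by
      have h1 : (q : ℝ) * A'.card ≤ (3 / 2 * A'.card) * A'.card := by
        calc (q : ℝ) * A'.card ≤ (A'.card : ℝ) ^ 2 + nonzeroMass A' q := hml
          _ ≤ (A'.card : ℝ) ^ 2 + (A'.card : ℝ) ^ 2 / 2 := by linarith
          _ = _ := by ring
      have h2 : (q : ℝ) ≤ 3 / 2 * A'.card := le_of_mul_le_mul_right h1 hA'pos
      linarith
    have hxq : Real.log x / 3 ≤ (x : ℝ) / q := by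
      rw [le_div_iff₀ hq0]
      calc Real.log x / 3 * q ≤ Real.log x / 3 * (3 * ξ) := by gcongr
        _ = x := by rw [hξ]; field_simp
    -- the moment bound
    have hmom : ∑ n ∈ (Icc 1 x).filter (fun n => n ≡ b [MOD q]), (sdiv n) ^ 4 ≤ C * (x / q) := by
      set Y : ℕ := ⌈Real.log x⌉₊ + 2 with hY
      have hY1 : Real.log x ≤ Y := by
        rw [hY]
        push_cast
        have := Nat.le_ceil (Real.log x)
        linarith
      have hY2 : (Y : ℝ) ≤ Real.log x + 3 := by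
        rw [hY]
        push_cast
        have := Nat.ceil_lt_add_one hlog.le
        linarith
      have h1 := class_moment_short (x := x) (q := q) (b := b) (Y := Y) hq (by omega) hY1
      have h2 : ∑ n ∈ (Icc 1 x).filter (fun n => n ≡ b [MOD q]), (sdiv n) ^ 4 ≤
          ∑ n ∈ (Icc 1 x).filter (fun n => n ≡ b [MOD q]), (rt n) ^ 4 := by
        refine sum_le_sum fun n hn => ?_
        rw [mem_filter, mem_Icc] at hn
        have h3 := sdiv_pos n hn.1.1
        exact pow_le_pow_left₀ (by linarith) (sdiv_le_rt n (by omega)) 4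
      have h4 : (Real.log Y) ^ 4 ≤ (x : ℝ) / q := by
        have h5 : (0 : ℝ) ≤ Real.log Y := Real.log_nonneg (by
          have : 1 ≤ Y := by omega
          exact_mod_cast this)
        have h6 : Real.log Y ≤ Real.log (Real.log x + 3) := Real.log_le_log (by
          have : 0 < Y := by omega
          exact_mod_cast this) hY2
        exact (pow_le_pow_left₀ h5 h6 4).trans (f3.trans hxq)
      calc _ ≤ _ := h2
        _ ≤ bdhC * ((x : ℝ) / q + (Real.log Y) ^ 4) := h1
        _ ≤ bdhC * ((x : ℝ) / q + (x : ℝ) / q) := by gcongr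
        _ = C * (x / q) := by rw [hCdef]; ring
    refine popular_of_moment hC1 hx2' hq hmom hA'A hB'B hA'p hB'p hA'2 hB'2 hδ0 hc0 hcδ hcδ2 ?_
    rw [← sum_reps hA'p hB'p q b]
    set T : ℝ := ((((A' ×ˢ B').filter (fun y : ℕ × ℕ => ((y.1 + y.2 : ℕ) : ZMod q) =
      (b : ZMod q))).card : ℕ) : ℝ) with hT
    have h1 : (A'.card : ℝ) * B'.card / 2 ≤ q * T := by linarith
    rw [div_le_iff₀ hq0]
    calc δ * (x / Real.log x) ^ 2 = (α / 2 * ξ) * (α / 2 * ξ) / 2 := by
          rw [hδ, hξ]; ring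
      _ ≤ (A'.card : ℝ) * B'.card / 2 := by gcongr
      _ ≤ q * T := h1
      _ = T * q := by ring

end Pool.Agent.Lib.MP_629a14_nt
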